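import Pool.Agent.Lib.MP_640417_ag.Tor.Defs

/-!
# One toric place: adjoints
-/

namespace Pool.Agent.Lib.MP_640417_ag.Tor

open Module

variable {K V : Type} [Field K] [AddCommGroup V] [Module K V] [FiniteDimensional K V]

/-- The isomorphism with the dual space given by a nondegenerate form. -/
noncomputable def Adj_equiv (ψ : LinearMap.BilinForm K V) (nd : ∀ x, (∀ y, ψ x y = 0) → x = 0) :
    V ≃ₗ[K] Module.Dual K V :=
  LinearEquiv.ofInjectiveOfFinrankEq (ψ : V →ₗ[K] Module.Dual K V)
    (by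
      rw [injective_iff_map_eq_zero]
      intro x hx
      exact nd x fun y => by rw [hx, LinearMap.zero_apply])
    (Subspace.dual_finrank_eq (K := K) (V := V)).symm

lemma Adj_equiv_apply (ψ : LinearMap.BilinForm K V) (nd : ∀ x, (∀ y, ψ x y = 0) → x = 0) (x : V) :
    Adj_equiv ψ nd x = ψ x := rfl

lemma Adj_eq (ψ : LinearMap.BilinForm K V) (nd : ∀ x, (∀ y, ψ x y = 0) → x = 0)
    {A B : Module.End K V} (h : ∀ x y, ψ (A x) y = ψ x (B y)) :
    (Adj_equiv ψ nd).conj A = B.dualMap := by
  ext φ y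
  obtain ⟨x, rfl⟩ := (Adj_equiv ψ nd).surjective φ
  rw [LinearEquiv.conj_apply_apply, LinearEquiv.symm_apply_apply, Adj_equiv_apply,
    LinearMap.dualMap_apply, Adj_equiv_apply]
  exact h x y

/-- Adjoint operators have the same trace. -/
lemma tr_adj (ψ : LinearMap.BilinForm K V) (nd : ∀ x, (∀ y, ψ x y = 0) → x = 0)
    {A B : Module.End K V} (h : ∀ x y, ψ (A x) y = ψ x (B y)) : tr A = tr B := by
  unfold tr
  rw [← LinearMap.trace_conj' A (Adj_equiv ψ nd), Adj_eq ψ nd h]
  exact LinearMap.trace_transpose' B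

/-- Adjoint operators have the same rank. -/
lemma rk_adj (ψ : LinearMap.BilinForm K V) (nd : ∀ x, (∀ y, ψ x y = 0) → x = 0)
    {A B : Module.End K V} (h : ∀ x y, ψ (A x) y = ψ x (B y)) : rk A = rk B := by
  unfold rk
  rw [← LinearMap.finrank_range_dualMap_eq_finrank_range B, ← Adj_eq ψ nd h,
    LinearEquiv.conj_apply]
  have h1 : LinearMap.range (((Adj_equiv ψ nd).toLinearMap ∘ₗ A) ∘ₗ
      (Adj_equiv ψ nd).symm.toLinearMap) = (LinearMap.range A).map
        (Adj_equiv ψ nd).toLinearMap := by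
    rw [LinearMap.range_comp_of_range_eq_top _ (LinearEquiv.range _), LinearMap.range_comp]
  rw [h1]
  exact (LinearEquiv.finrank_map_eq (Adj_equiv ψ nd) (LinearMap.range A)).symm

/-- Skew operators have trace zero. -/
lemma tr_skew [CharZero K] (ψ : LinearMap.BilinForm K V) (nd : ∀ x, (∀ y, ψ x y = 0) → x = 0)
    {X : Module.End K V} (h : Skew ψ X) : tr X = 0 := by
  have h1 : tr X = tr (-X) := tr_adj ψ nd (fun x y => by
    rw [h x y, LinearMap.neg_apply, map_neg])
  have h2 : tr (-X) = - tr X := by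
    unfold tr
    rw [map_neg]
  rw [h2] at h1
  have h3 : (2 : K) * tr X = 0 := by linear_combination h1
  exact (mul_eq_zero.mp h3).resolve_left two_ne_zero

omit [FiniteDimensional K V] in
/-- The trace is symmetric. -/
lemma tr_comm (A B : Module.End K V) : tr (A * B) = tr (B * A) := by
  unfold tr
  exact LinearMap.trace_mul_comm K A B

end Pool.Agent.Lib.MP_640417_ag.Tor
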