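import Pool.Agent.Lib.MP_640417_ag.Tor.SpecL

/-!
# One toric place: the block theorem
-/

namespace Pool.Agent.Lib.MP_640417_ag.Tor

open Module

section

variable {K V : Type} [Field K] [CharZero K] [AddCommGroup V] [Module K V]
  {ψ : LinearMap.BilinForm K V} {L : Submodule K (Module.End K V)}

omit [CharZero K] in
lemma Block_lie (hlie : ∀ X ∈ L, ∀ Y ∈ L, X * Y - Y * X ∈ L) :
    ∀ X ∈ skp ψ L, ∀ Y ∈ skp ψ L, X * Y - Y * X ∈ skp ψ L := by
  rintro X ⟨hX, s, hs⟩ Y ⟨hY, t, ht⟩
  refine ⟨hX.lie hY, 0, ?_⟩
  have h1 := hlie _ hs _ ht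
  have h2 : (X + s • (1 : Module.End K V)) * (Y + t • (1 : Module.End K V)) -
      (Y + t • (1 : Module.End K V)) * (X + s • (1 : Module.End K V)) = X * Y - Y * X := by
    simp only [add_mul, mul_add, smul_mul_assoc, mul_smul_comm, one_mul, mul_one]
    module
  rwa [h2, ← add_zero (X * Y - Y * X), ← zero_smul K (1 : Module.End K V)] at h1

/-- Half of the multiplier. -/
lemma Block_split (hmult : ∀ X ∈ L, ∃ c : K, ∀ x y, ψ (X x) y + ψ x (X y) = c * ψ x y)
    {X : Module.End K V} (hX : X ∈ L) : ∃ s : K, X - s • (1 : Module.End K V) ∈ skp ψ L := by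
  obtain ⟨c, hc⟩ := hmult X hX
  refine ⟨c / 2, ?_, c / 2, ?_⟩
  · intro x y
    have h1 := hc x y
    rw [LinearMap.sub_apply, LinearMap.sub_apply, LinearMap.smul_apply, LinearMap.smul_apply,
      Module.End.one_apply, Module.End.one_apply, map_sub, map_sub, LinearMap.sub_apply, map_smul,
      map_smul, LinearMap.smul_apply, smul_eq_mul]
    linear_combination h1
  · rw [sub_add_cancel]
    exact hX

lemma Block_stable (hmult : ∀ X ∈ L, ∃ c : K, ∀ x y, ψ (X x) y + ψ x (X y) = c * ψ x y)
    {W : Submodule K V} (hW : ∀ X ∈ skp ψ L, ∀ y ∈ W, X y ∈ W) : ∀ X ∈ L, ∀ y ∈ W, X y ∈ W := by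
  intro X hX y hy
  obtain ⟨s, hs⟩ := Block_split hmult hX
  have h1 := W.add_mem (hW _ hs y hy) (W.smul_mem s hy)
  rwa [LinearMap.sub_apply, LinearMap.smul_apply, Module.End.one_apply, sub_add_cancel] at h1

end

/-- The block theorem. -/
theorem pBlock (hPMB : SPMB) (hIdem : SIdem) : SBlock := by
  intro K V _ _ _ _ _ _ ψ alt anti nd L hlie hmult p hpp hp0 hadj hcom hirr N hN hNN hNs htor
  have hNg : N ∈ skp ψ L := ⟨hNs, 0, by rw [zero_smul, add_zero]; exact hN⟩
  have hsq : ∀ t ∈ L, t * t = t → t ≠ 0 → t ≠ 1 →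
      t - (1 / 2 : K) • (1 : Module.End K V) ∈ skp ψ L ∧
      (t - (1 / 2 : K) • (1 : Module.End K V)) * (t - (1 / 2 : K) • (1 : Module.End K V)) =
        (1 / 4 : K) • (1 : Module.End K V) := by
    intro t ht htt ht0 ht1
    obtain ⟨c, hc⟩ := hmult t ht
    refine ⟨⟨hIdem K V ψ anti nd t c htt ht0 ht1 hc, 1 / 2, by rw [sub_add_cancel]; exact ht⟩, ?_⟩
    simp only [sub_mul, mul_sub, smul_mul_assoc, mul_smul_comm, one_mul, mul_one, htt]
    module
  refine hPMB K V ψ alt nd (skp ψ L) (Block_lie hlie) (fun X hX => hX.1) p hpp hp0 hadj ?_ ?_ N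
    hNg hNN ?_
  · rintro X ⟨-, s, hs⟩
    have h1 := hcom _ hs
    rw [mul_add, add_mul, mul_smul_comm, smul_mul_assoc, mul_one, one_mul] at h1
    exact add_right_cancel h1
  · intro W' hW' hst
    exact hirr.2.2 W' hW' (Block_stable hmult hst)
  · rcases htor with h | ⟨h, t, ht, htt, ht0, ht1⟩ | ⟨h, hgen⟩
    · exact Or.inl h
    · obtain ⟨h1, h2⟩ := hsq t ht htt ht0 ht1
      exact Or.inr (Or.inl ⟨h, _, h1, h2⟩)
    · refine Or.inr (Or.inr ⟨h, fun a ha hroot => le_antisymm ha.le fun X hX => ?_⟩)
      let b : Submodule K (Module.End K V) :=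
        { carrier := {A | A ∈ L ∧ ∃ s : K, A - s • (1 : Module.End K V) ∈ a}
          add_mem' := by
            rintro A B ⟨h1, s, hs⟩ ⟨h2, t, ht⟩
            refine ⟨add_mem h1 h2, s + t, ?_⟩
            have h3 : A + B - (s + t) • (1 : Module.End K V) =
                (A - s • (1 : Module.End K V)) + (B - t • (1 : Module.End K V)) := by
              rw [add_smul]
              abel
            rw [h3]
            exact add_mem hs ht
          zero_mem' := ⟨zero_mem _, 0, by rw [zero_smul, sub_zero]; exact zero_mem _⟩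
          smul_mem' := by
            rintro c A ⟨h1, s, hs⟩
            refine ⟨Submodule.smul_mem _ _ h1, c * s, ?_⟩
            rw [mul_smul, ← smul_sub]
            exact Submodule.smul_mem _ _ hs }
      have hb : b = L := by
        refine hgen b (fun A hA => hA.1) ?_ ?_
        · rintro A hA B ⟨hB, s, hs⟩
          obtain ⟨r, hr⟩ := Block_split hmult hA
          refine ⟨hlie A hA B hB, 0, ?_⟩
          have h1 := ha.lie _ hr _ hs
          have h2 : (A - r • (1 : Module.End K V)) * (B - s • (1 : Module.End K V)) -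
              (B - s • (1 : Module.End K V)) * (A - r • (1 : Module.End K V)) =
              A * B - B * A := by
            simp only [sub_mul, mul_sub, smul_mul_assoc, mul_smul_comm, one_mul, mul_one]
            module
          rwa [h2, ← sub_zero (A * B - B * A), ← zero_smul K (1 : Module.End K V)] at h1
        · intro t ht htt
          refine ⟨ht, ?_⟩
          by_cases ht0 : t = 0
          · exact ⟨0, by rw [ht0, zero_smul, sub_zero]; exact zero_mem _⟩
          by_cases ht1 : t = 1
          · exact ⟨1, by rw [ht1, one_smul, sub_self]; exact zero_mem _⟩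
          obtain ⟨h1, h2⟩ := hsq t ht htt ht0 ht1
          exact ⟨1 / 2, hroot _ h1 h2⟩
      obtain ⟨hXs, s, hs⟩ := hX
      have h1 : X + s • (1 : Module.End K V) ∈ b := by rw [hb]; exact hs
      obtain ⟨-, s', hs'⟩ := h1
      have h2 : X + s • (1 : Module.End K V) - s' • (1 : Module.End K V) =
          X + (s - s') • (1 : Module.End K V) := by
        rw [sub_smul]
        abel
      rw [h2] at hs'
      have h3 : s - s' = 0 := by
        by_contra hne
        obtain ⟨x, hx⟩ : ∃ x, p x ≠ 0 := by
          by_contra h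
          push Not at h
          exact hp0 (LinearMap.ext h)
        apply hx
        apply nd
        intro y
        have h4 := (ha.le hs').1 (p x) y
        rw [LinearMap.add_apply, LinearMap.add_apply, LinearMap.smul_apply, LinearMap.smul_apply,
          Module.End.one_apply, Module.End.one_apply, map_add, map_add, LinearMap.add_apply,
          map_smul, map_smul, LinearMap.smul_apply, smul_eq_mul, hXs (p x) y] at h4
        have h5 : (2 * (s - s')) * ψ (p x) y = 0 := by linear_combination h4
        exact (mul_eq_zero.mp h5).resolve_left (mul_ne_zero two_ne_zero hne)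
      rw [h3, zero_smul, add_zero] at hs'
      exact hs'

end Pool.Agent.Lib.MP_640417_ag.Tor
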