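import Pool.Agent.Lib.MP_640417_ag.Tor.Defs

/-!
# One toric place: basic identities

In this file `p = e f` and `q = f e`.
-/

namespace Pool.Agent.Lib.MP_640417_ag.Tor

open Module

variable {K V : Type} [Field K] [AddCommGroup V] [Module K V]

section general

variable {ψ : LinearMap.BilinForm K V} {g a : Submodule K (Module.End K V)}

lemma Dat.anti (hg : Dat ψ g) (x y : V) : ψ x y = - ψ y x := by
  have h1 := hg.alt (x + y)
  simp only [map_add, LinearMap.add_apply, hg.alt x, hg.alt y, zero_add, add_zero] at h1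
  rw [eq_neg_iff_add_eq_zero, add_comm]
  exact h1

/-- `-2 e X e` is the double bracket with an element of square zero. -/
lemma sandwich_eq {e X : Module.End K V} (h : e * e = 0) :
    e * (e * X - X * e) - (e * X - X * e) * e = -(2 : K) • (e * X * e) := by
  have h1 : e * (e * X - X * e) - (e * X - X * e) * e =
      e * e * X - e * X * e - e * X * e + X * (e * e) := by noncomm_ring
  rw [h1, h, zero_mul, mul_zero, neg_smul, two_smul]
  abel

/-- `e X e` belongs to `g` if `e` has square zero. -/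
lemma sandwich_mem [CharZero K] (hl : ∀ X ∈ g, ∀ Y ∈ g, X * Y - Y * X ∈ g) {e X : Module.End K V}
    (he : e ∈ g) (h : e * e = 0) (hX : X ∈ g) : e * X * e ∈ g := by
  have h1 := hl e he _ (hl e he X hX)
  rw [sandwich_eq h] at h1
  have h2 := g.smul_mem (-(2 : K))⁻¹ h1
  rwa [smul_smul, inv_mul_cancel₀ (neg_ne_zero.mpr two_ne_zero), one_smul] at h2

/-- `e X e` belongs to every ideal which contains `e`. -/
lemma sandwich_mem_idl [CharZero K] (ha : Idl g a) {e X : Module.End K V}
    (he : e ∈ a) (h : e * e = 0) (hX : X ∈ g) : e * X * e ∈ a := by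
  have h0 : e * X - X * e ∈ a := by
    have := a.neg_mem (ha.lie X hX e he)
    rwa [neg_sub] at this
  have h1 := ha.lie e (ha.le he) _ h0
  rw [sandwich_eq h] at h1
  have h2 := a.smul_mem (-(2 : K))⁻¹ h1
  rwa [smul_smul, inv_mul_cancel₀ (neg_ne_zero.mpr two_ne_zero), one_smul] at h2

lemma Idl.lie' (ha : Idl g a) {X Y : Module.End K V} (hX : X ∈ g) (hY : Y ∈ a) :
    Y * X - X * Y ∈ a := by
  have := a.neg_mem (ha.lie X hX Y hY)
  rwa [neg_sub] at this

lemma Skew.mul_mul {X Y : Module.End K V} (hX : Skew ψ X) (hY : Skew ψ Y) (x y : V) :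
    ψ ((X * Y) x) y = ψ x ((Y * X) y) := by
  rw [Module.End.mul_apply, hX, hY, neg_neg, Module.End.mul_apply]

end general

section sl

variable {g : Submodule K (Module.End K V)} {e f : Module.End K V}

lemma Sl.symm (h : Sl g e f) : Sl g f e := ⟨h.mf, h.me, h.ff, h.ee, h.fef, h.efe⟩

lemma Sl.pp (h : Sl g e f) : (e * f) * (e * f) = e * f := by rw [← mul_assoc, h.efe]

lemma Sl.qq (h : Sl g e f) : (f * e) * (f * e) = f * e := by rw [← mul_assoc, h.fef]

lemma Sl.pq (h : Sl g e f) : (e * f) * (f * e) = 0 := by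
  rw [mul_assoc, ← mul_assoc f, h.ff, zero_mul, mul_zero]

lemma Sl.qp (h : Sl g e f) : (f * e) * (e * f) = 0 := by
  rw [mul_assoc, ← mul_assoc e, h.ee, zero_mul, mul_zero]

lemma Sl.pe (h : Sl g e f) : (e * f) * e = e := h.efe
lemma Sl.eq (h : Sl g e f) : e * (f * e) = e := by rw [← mul_assoc, h.efe]
lemma Sl.ep (h : Sl g e f) : e * (e * f) = 0 := by rw [← mul_assoc, h.ee, zero_mul]
lemma Sl.qe (h : Sl g e f) : (f * e) * e = 0 := by rw [mul_assoc, h.ee, mul_zero]
lemma Sl.qf (h : Sl g e f) : (f * e) * f = f := h.fef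
lemma Sl.fp (h : Sl g e f) : f * (e * f) = f := by rw [← mul_assoc, h.fef]
lemma Sl.fq (h : Sl g e f) : f * (f * e) = 0 := by rw [← mul_assoc, h.ff, zero_mul]
lemma Sl.pf (h : Sl g e f) : (e * f) * f = 0 := by rw [mul_assoc, h.ff, mul_zero]

lemma Sl.hh (h : Sl g e f) : (e * f - f * e) * (e * f - f * e) = e * f + f * e := by
  rw [mul_sub, sub_mul, sub_mul, h.pp, h.pq, h.qp, h.qq]
  abel

lemma Sl.he (h : Sl g e f) : (e * f - f * e) * e - e * (e * f - f * e) = (2 : K) • e := by
  rw [sub_mul, mul_sub, h.pe, h.qe, h.ep, h.eq, two_smul]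
  abel

lemma Sl.hf (h : Sl g e f) : (e * f - f * e) * f - f * (e * f - f * e) = -(2 : K) • f := by
  rw [sub_mul, mul_sub, h.qf, h.pf, h.fq, h.fp, neg_smul, two_smul]
  abel

end sl

section gone

variable [CharZero K] {g : Submodule K (Module.End K V)} {e f x : Module.End K V}

/-- An element of degree one kills the range of `p`. -/
lemma G1.xp (h : Sl g e f) (hx : x ∈ G1 g e f) : x * (e * f) = 0 := by
  obtain ⟨-, h1⟩ := hx
  have hpx : (e * f) * x * (e * f) = 0 := by
    have h2 := congrArg (fun z => (e * f) * z * (e * f)) h1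
    have h3 : e * f * ((e * f - f * e) * x - x * (e * f - f * e)) * (e * f) =
        ((e * f) * (e * f)) * x * (e * f) - ((e * f) * (f * e)) * x * (e * f)
          - (e * f) * x * ((e * f) * (e * f)) + (e * f) * x * ((f * e) * (e * f)) := by
      noncomm_ring
    rw [h3, h.pp, h.pq, h.qp, zero_mul, zero_mul, mul_zero, sub_zero, add_zero, sub_self] at h2
    exact h2.symm
  have hqx : (f * e) * x * (e * f) = 0 := by
    have h2 := congrArg (fun z => (f * e) * z * (e * f)) h1
    have h3 : f * e * ((e * f - f * e) * x - x * (e * f - f * e)) * (e * f) =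
        ((f * e) * (e * f)) * x * (e * f) - ((f * e) * (f * e)) * x * (e * f)
          - (f * e) * x * ((e * f) * (e * f)) + (f * e) * x * ((f * e) * (e * f)) := by
      noncomm_ring
    rw [h3, h.qp, h.qq, h.pp, zero_mul, zero_mul, mul_zero, zero_sub, add_zero] at h2
    have h4 : (3 : K) • (f * e * x * (e * f)) = 0 := by
      have : (3 : K) = 1 + 1 + 1 := by norm_num
      rw [this, add_smul, add_smul, one_smul]
      nth_rw 3 [← h2]
      abel
    exact (smul_eq_zero.mp h4).resolve_left three_ne_zero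
  have h2 := congrArg (fun z => z * (e * f)) h1
  have h3 : ((e * f - f * e) * x - x * (e * f - f * e)) * (e * f) =
      (e * f) * x * (e * f) - (f * e) * x * (e * f) - x * ((e * f) * (e * f))
        + x * ((f * e) * (e * f)) := by noncomm_ring
  rw [h3, hpx, hqx, h.pp, h.qp, mul_zero, sub_zero, zero_sub, add_zero] at h2
  have h4 : (2 : K) • (x * (e * f)) = 0 := by
    rw [two_smul]
    nth_rw 1 [← h2]
    abel
  exact (smul_eq_zero.mp h4).resolve_left two_ne_zero

/-- The range of an element of degree one is killed by `q`. -/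
lemma G1.qx (h : Sl g e f) (hx : x ∈ G1 g e f) : (f * e) * x = 0 := by
  have hxp := G1.xp h hx
  obtain ⟨-, h1⟩ := hx
  have hqq : (f * e) * x * (f * e) = 0 := by
    have h2 := congrArg (fun z => (f * e) * z * (f * e)) h1
    have h3 : f * e * ((e * f - f * e) * x - x * (e * f - f * e)) * (f * e) =
        ((f * e) * (e * f)) * x * (f * e) - ((f * e) * (f * e)) * x * (f * e)
          - (f * e) * x * ((e * f) * (f * e)) + (f * e) * x * ((f * e) * (f * e)) := by
      noncomm_ring
    rw [h3, h.qp, h.qq, h.pq, zero_mul, zero_mul, mul_zero, zero_sub, sub_zero,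
      neg_add_cancel] at h2
    exact h2.symm
  have h2 := congrArg (fun z => (f * e) * z) h1
  have h3 : (f * e) * ((e * f - f * e) * x - x * (e * f - f * e)) =
      ((f * e) * (e * f)) * x - ((f * e) * (f * e)) * x - (f * e) * (x * (e * f))
        + (f * e) * x * (f * e) := by noncomm_ring
  rw [h3, h.qp, h.qq, hxp, hqq, zero_mul, mul_zero, zero_sub, sub_zero, add_zero] at h2
  have h4 : (2 : K) • ((f * e) * x) = 0 := by
    rw [two_smul]
    nth_rw 1 [← h2]
    abel
  exact (smul_eq_zero.mp h4).resolve_left two_ne_zero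

/-- `x = x q + p x`. -/
lemma G1.eq (h : Sl g e f) (hx : x ∈ G1 g e f) : x = x * (f * e) + (e * f) * x := by
  have hxp := G1.xp h hx
  have hqx := G1.qx h hx
  obtain ⟨-, h1⟩ := hx
  have h3 : (e * f - f * e) * x - x * (e * f - f * e) =
      (e * f) * x - (f * e) * x - x * (e * f) + x * (f * e) := by noncomm_ring
  rw [h3, hxp, hqx, sub_zero, sub_zero] at h1
  rw [add_comm, h1]

lemma G1.ex (h : Sl g e f) (hx : x ∈ G1 g e f) : e * x = 0 := by
  rw [← h.efe, mul_assoc, mul_assoc, ← mul_assoc f, G1.qx h hx, mul_zero]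

lemma G1.xe (h : Sl g e f) (hx : x ∈ G1 g e f) : x * e = 0 := by
  rw [← h.efe, ← mul_assoc x, G1.xp h hx, zero_mul]

/-- `p x q = 0`. -/
lemma G1.pxq (h : Sl g e f) (hx : x ∈ G1 g e f) : (e * f) * x * (f * e) = 0 := by
  have h2 := congrArg (fun z => z * (f * e)) (G1.eq h hx)
  rw [add_mul, mul_assoc x, h.qq, left_eq_add] at h2
  exact h2

/-- `f x f e = 0`. -/
lemma G1.fxq (h : Sl g e f) (hx : x ∈ G1 g e f) : f * x * (f * e) = 0 := by
  rw [← h.fef]
  have h2 : f * e * f * x * (f * e * f * e) = f * ((e * f) * x * ((f * e) * (f * e))) := by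
    noncomm_ring
  rw [h2, h.qq, G1.pxq h hx, mul_zero]

/-- `f x f = 0`. -/
lemma G1.fxf (h : Sl g e f) (hx : x ∈ G1 g e f) : f * x * f = 0 := by
  have h2 : f * x * f = f * x * (f * e) * f := by
    conv_lhs => rw [← h.fef]
    conv_rhs => rw [mul_assoc (f * x), h.fef]
    rw [h.fef]
  rw [h2, G1.fxq h hx, zero_mul]

/-- The product of two elements of degree one maps the range of `q` to the range of `p`. -/
lemma G1.xy (h : Sl g e f) {y : Module.End K V} (hx : x ∈ G1 g e f) (hy : y ∈ G1 g e f) :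
    x * y = (e * f) * (x * y) * (f * e) := by
  have h1 := G1.eq h hx
  have h2 := G1.eq h hy
  have h3 : x * y = (e * f) * x * (y * (f * e)) + (x * (f * e)) * (y * (f * e))
      + (x * (f * e) + (e * f) * x) * ((e * f) * y) := by
    nth_rw 1 [h1, h2]
    noncomm_ring
  rw [← h1, ← mul_assoc x (e * f) y, G1.xp h hx, zero_mul, add_zero] at h3
  have h4 : (x * (f * e)) * (y * (f * e)) = x * ((f * e) * y) * (f * e) := by noncomm_ring
  rw [h4, G1.qx h hy, mul_zero, zero_mul, add_zero] at h3
  rw [h3]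
  have h5 : e * f * (e * f * x * (y * (f * e))) * (f * e) =
      ((e * f) * (e * f)) * x * y * ((f * e) * (f * e)) := by noncomm_ring
  rw [h5, h.pp, h.qq]
  noncomm_ring

/-- The product of three elements of degree one vanishes. -/
lemma G1.xyz (h : Sl g e f) {y z : Module.End K V} (hx : x ∈ G1 g e f) (hy : y ∈ G1 g e f)
    (hz : z ∈ G1 g e f) : x * y * z = 0 := by
  rw [G1.xy h hx hy, mul_assoc, G1.qx h hz, mul_zero]

end gone

end Pool.Agent.Lib.MP_640417_ag.Tor
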