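import Pool.Agent.Lib.MP_640417_ag.Tor.Spec
import Pool.Agent.Lib.MP_640417_ag.Tor.Base

/-!
# One toric place: the grading
-/

namespace Pool.Agent.Lib.MP_640417_ag.Tor

open Module

variable {K V : Type} [Field K] [AddCommGroup V] [Module K V]

/-- The commutator with `H`. -/
def Grade_D (H : Module.End K V) : Module.End K V →ₗ[K] Module.End K V :=
  LinearMap.mulLeft K H - LinearMap.mulRight K H

lemma Grade_D_apply (H X : Module.End K V) : Grade_D H X = H * X - X * H := rfl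

lemma Grade_D_eig {H u v : Module.End K V} {α β : K} (hu : H * u = α • u) (hv : v * H = β • v)
    (X : Module.End K V) : Grade_D H (u * X * v) = (α - β) • (u * X * v) := by
  rw [Grade_D_apply]
  have h1 : H * (u * X * v) - u * X * v * H = (H * u) * X * v - u * X * (v * H) := by noncomm_ring
  rw [h1, hu, hv, smul_mul_assoc, smul_mul_assoc, mul_smul_comm, sub_smul]

/-- Extraction of the components. -/
lemma Grade_aux [CharZero K] {g : Submodule K (Module.End K V)}
    (D : Module.End K V →ₗ[K] Module.End K V) (hD : ∀ X ∈ g, D X ∈ g)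
    {A2 A1 A0 B1 B2 : Module.End K V} (h2 : D A2 = (2 : K) • A2) (h1 : D A1 = A1) (h0 : D A0 = 0)
    (k1 : D B1 = - B1) (k2 : D B2 = -(2 : K) • B2) (hX : A2 + A1 + A0 + B1 + B2 ∈ g) :
    A2 ∈ g ∧ B2 ∈ g ∧ A1 ∈ g ∧ B1 ∈ g ∧ A0 ∈ g := by
  have d1 : D (A2 + A1 + A0 + B1 + B2) = (2 : K) • A2 + A1 - B1 - (2 : K) • B2 := by
    simp only [map_add, h2, h1, h0, k1, k2]
    module
  have d2 : D ((2 : K) • A2 + A1 - B1 - (2 : K) • B2) =
      (4 : K) • A2 + A1 + B1 + (4 : K) • B2 := by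
    simp only [map_add, map_sub, map_smul, h2, h1, k1, k2]
    module
  have d3 : D ((4 : K) • A2 + A1 + B1 + (4 : K) • B2) =
      (8 : K) • A2 + A1 - B1 - (8 : K) • B2 := by
    simp only [map_add, map_smul, h2, h1, k1, k2]
    module
  have d4 : D ((8 : K) • A2 + A1 - B1 - (8 : K) • B2) =
      (16 : K) • A2 + A1 + B1 + (16 : K) • B2 := by
    simp only [map_add, map_sub, map_smul, h2, h1, k1, k2]
    module
  have m1 := hD _ hX
  rw [d1] at m1
  have m2 := hD _ m1
  rw [d2] at m2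
  have m3 := hD _ m2
  rw [d3] at m3
  have m4 := hD _ m3
  rw [d4] at m4
  refine ⟨?_, ?_, ?_, ?_, ?_⟩
  · have h : A2 = (1 / 24 : K) • ((16 : K) • A2 + A1 + B1 + (16 : K) • B2)
        + (2 / 24 : K) • ((8 : K) • A2 + A1 - B1 - (8 : K) • B2)
        - (1 / 24 : K) • ((4 : K) • A2 + A1 + B1 + (4 : K) • B2)
        - (2 / 24 : K) • ((2 : K) • A2 + A1 - B1 - (2 : K) • B2) := by module
    rw [h]
    exact g.sub_mem (g.sub_mem (g.add_mem (g.smul_mem _ m4) (g.smul_mem _ m3))
      (g.smul_mem _ m2)) (g.smul_mem _ m1)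
  · have h : B2 = (1 / 24 : K) • ((16 : K) • A2 + A1 + B1 + (16 : K) • B2)
        - (2 / 24 : K) • ((8 : K) • A2 + A1 - B1 - (8 : K) • B2)
        - (1 / 24 : K) • ((4 : K) • A2 + A1 + B1 + (4 : K) • B2)
        + (2 / 24 : K) • ((2 : K) • A2 + A1 - B1 - (2 : K) • B2) := by module
    rw [h]
    exact g.add_mem (g.sub_mem (g.sub_mem (g.smul_mem _ m4) (g.smul_mem _ m3))
      (g.smul_mem _ m2)) (g.smul_mem _ m1)
  · have h : A1 = -((1 / 6 : K) • ((16 : K) • A2 + A1 + B1 + (16 : K) • B2)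
        + (1 / 6 : K) • ((8 : K) • A2 + A1 - B1 - (8 : K) • B2)
        - (4 / 6 : K) • ((4 : K) • A2 + A1 + B1 + (4 : K) • B2)
        - (4 / 6 : K) • ((2 : K) • A2 + A1 - B1 - (2 : K) • B2)) := by module
    rw [h]
    exact g.neg_mem (g.sub_mem (g.sub_mem (g.add_mem (g.smul_mem _ m4) (g.smul_mem _ m3))
      (g.smul_mem _ m2)) (g.smul_mem _ m1))
  · have h : B1 = -((1 / 6 : K) • ((16 : K) • A2 + A1 + B1 + (16 : K) • B2)
        - (1 / 6 : K) • ((8 : K) • A2 + A1 - B1 - (8 : K) • B2)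
        - (4 / 6 : K) • ((4 : K) • A2 + A1 + B1 + (4 : K) • B2)
        + (4 / 6 : K) • ((2 : K) • A2 + A1 - B1 - (2 : K) • B2)) := by module
    rw [h]
    exact g.neg_mem (g.add_mem (g.sub_mem (g.sub_mem (g.smul_mem _ m4) (g.smul_mem _ m3))
      (g.smul_mem _ m2)) (g.smul_mem _ m1))
  · have h : A0 = (1 / 4 : K) • ((16 : K) • A2 + A1 + B1 + (16 : K) • B2)
        - (5 / 4 : K) • ((4 : K) • A2 + A1 + B1 + (4 : K) • B2)
        + (A2 + A1 + A0 + B1 + B2) := by module
    rw [h]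
    exact g.add_mem (g.sub_mem (g.smul_mem _ m4) (g.smul_mem _ m2)) hX

/-- The homogeneous components of an element of `g` are in `g`. -/
theorem pGrade : SGrade := by
  intro K V _ _ _ _ _ g hl e f hS X hX
  set p : Module.End K V := e * f with hp
  set q : Module.End K V := f * e with hq
  have hmem : p - q ∈ g := hl e hS.me f hS.mf
  have Hp : (p - q) * p = (1 : K) • p := by
    rw [sub_mul, hp, hq, hS.pp, hS.qp, sub_zero, one_smul]
  have Hq : (p - q) * q = (-1 : K) • q := by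
    rw [sub_mul, hp, hq, hS.pq, hS.qq, zero_sub, neg_smul, one_smul]
  have pH : p * (p - q) = (1 : K) • p := by
    rw [mul_sub, hp, hq, hS.pp, hS.pq, sub_zero, one_smul]
  have qH : q * (p - q) = (-1 : K) • q := by
    rw [mul_sub, hp, hq, hS.qp, hS.qq, zero_sub, neg_smul, one_smul]
  have Hz : (p - q) * (1 - p - q) = (0 : K) • (1 - p - q) := by
    rw [mul_sub, mul_sub, Hp, Hq, mul_one, zero_smul]
    module
  have zH : (1 - p - q) * (p - q) = (0 : K) • (1 - p - q) := by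
    rw [sub_mul, sub_mul, pH, qH, one_mul, zero_smul]
    module
  have hDg : ∀ Y ∈ g, Grade_D (p - q) Y ∈ g := fun Y hY => hl _ hmem Y hY
  have hsum : (p * X * q) + (p * X * (1 - p - q) + (1 - p - q) * X * q)
      + (p * X * p + (1 - p - q) * X * (1 - p - q) + q * X * q)
      + ((1 - p - q) * X * p + q * X * (1 - p - q)) + (q * X * p) = X := by noncomm_ring
  have a2 : Grade_D (p - q) (p * X * q) = (2 : K) • (p * X * q) := by
    rw [Grade_D_eig Hp qH]
    norm_num
  have a1 : Grade_D (p - q) (p * X * (1 - p - q) + (1 - p - q) * X * q) =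
      p * X * (1 - p - q) + (1 - p - q) * X * q := by
    rw [map_add, Grade_D_eig Hp zH, Grade_D_eig Hz qH, sub_zero, zero_sub, neg_neg, one_smul,
      one_smul]
  have a0 : Grade_D (p - q) (p * X * p + (1 - p - q) * X * (1 - p - q) + q * X * q) = 0 := by
    rw [map_add, map_add, Grade_D_eig Hp pH, Grade_D_eig Hz zH, Grade_D_eig Hq qH]
    simp
  have b1 : Grade_D (p - q) ((1 - p - q) * X * p + q * X * (1 - p - q)) =
      -((1 - p - q) * X * p + q * X * (1 - p - q)) := by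
    rw [map_add, Grade_D_eig Hz pH, Grade_D_eig Hq zH]
    module
  have b2 : Grade_D (p - q) (q * X * p) = -(2 : K) • (q * X * p) := by
    rw [Grade_D_eig Hq pH]
    norm_num
  obtain ⟨m2, n2, m1, n1, m0⟩ := Grade_aux (Grade_D (p - q)) hDg a2 a1 a0 b1 b2
    (by rw [hsum]; exact hX)
  refine ⟨m2, n2, ⟨m1, a1⟩, ⟨n1, ?_⟩, m0⟩
  have h1 : (q - p) * ((1 - p - q) * X * p + q * X * (1 - p - q)) -
      ((1 - p - q) * X * p + q * X * (1 - p - q)) * (q - p) =
      -(Grade_D (p - q) ((1 - p - q) * X * p + q * X * (1 - p - q))) := by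
    rw [Grade_D_apply]
    noncomm_ring
  rw [h1, b1, neg_neg]

end Pool.Agent.Lib.MP_640417_ag.Tor
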