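import Pool.Agent.Lib.MP_640417_ag.Tor.Spec
import Pool.Agent.Lib.MP_640417_ag.Tor.Base
import Pool.Agent.Lib.MP_640417_ag.Tor.Adj

/-!
# One toric place: the form of the elements of degree one is nondegenerate
-/

namespace Pool.Agent.Lib.MP_640417_ag.Tor

open Module

variable {K V : Type} [Field K] [AddCommGroup V] [Module K V]

/-- The bracket with `e` maps degree `-1` to degree `1`. -/
lemma bracket_e_mem [CharZero K] {g : Submodule K (Module.End K V)}
    (hl : ∀ X ∈ g, ∀ Y ∈ g, X * Y - Y * X ∈ g) {e f w : Module.End K V} (hS : Sl g e f)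
    (hw : w ∈ G1 g f e) : e * w - w * e ∈ G1 g e f := by
  refine ⟨hl e hS.me w hw.1, ?_⟩
  have h1 := hw.2
  have h2 : (e * f - f * e) * w - w * (e * f - f * e) = - w := by
    have h3 : (e * f - f * e) * w - w * (e * f - f * e) =
        -((f * e - e * f) * w - w * (f * e - e * f)) := by noncomm_ring
    rw [h3, h1]
  have h4 : (e * f - f * e) * (e * w - w * e) - (e * w - w * e) * (e * f - f * e) =
      ((e * f - f * e) * e - e * (e * f - f * e)) * w
        - w * ((e * f - f * e) * e - e * (e * f - f * e))
        + e * ((e * f - f * e) * w - w * (e * f - f * e))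
        - ((e * f - f * e) * w - w * (e * f - f * e)) * e := by noncomm_ring
  rw [h4, hS.he, h2, two_smul]
  noncomm_ring

/-- The form of the elements of degree one is nondegenerate. -/
theorem pNonsing (hTr : STr) (hGrade : SGrade) : SNonsing := by
  intro K V _ _ _ _ _ _ _ ψ g hg e f hP hS x hx hx0
  obtain ⟨W, hW, hW0⟩ : ∃ W ∈ g, tr (x * W) ≠ 0 := by
    by_contra hne
    push Not at hne
    exact hx0 (hTr K V ψ g hg g ⟨le_refl _, hg.lie⟩ x hx.1 hne)
  obtain ⟨-, -, -, hw, -⟩ := hGrade K V g hg.lie e f hS W hW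
  set w : Module.End K V := (1 - e * f - f * e) * W * (e * f) + (f * e) * W * (1 - e * f - f * e)
    with hwdef
  have hxe := G1.xe hS hx
  have hex := G1.ex hS hx
  have hxp := G1.xp hS hx
  have hqx := G1.qx hS hx
  have hpxq := G1.pxq hS hx
  have hxW : tr (x * W) = tr (x * w) := by
    have h1 : x * w = x * W * (e * f) - (x * (e * f)) * W * (e * f) - x * (f * e) * W * (e * f)
        + x * (f * e) * W - x * (f * e) * W * (e * f) - x * (f * e) * W * (f * e) := by
      rw [hwdef]
      noncomm_ring
    rw [h1, hxp, zero_mul, zero_mul, sub_zero]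
    have c1 : tr (x * W * (e * f)) = tr ((e * f) * x * W) := by
      rw [tr_comm, ← mul_assoc]
    have c2 : tr (x * (f * e) * W * (e * f)) = 0 := by
      rw [tr_comm, ← mul_assoc, ← mul_assoc, hpxq, zero_mul]
      unfold tr
      rw [map_zero]
    have c3 : tr (x * (f * e) * W * (f * e)) = 0 := by
      rw [tr_comm, ← mul_assoc, ← mul_assoc, hqx, zero_mul, zero_mul]
      unfold tr
      rw [map_zero]
    have e1 : tr (x * W) = tr (x * (f * e) * W) + tr ((e * f) * x * W) := by
      unfold tr
      rw [← map_add, ← add_mul, ← G1.eq hS hx]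
    rw [e1]
    unfold tr at c1 c2 c3 ⊢
    simp only [map_add, map_sub, c1, c2, c3]
    ring
  rw [hxW] at hW0
  refine ⟨e * w - w * e, bracket_e_mem hg.lie hS hw, fun h0 => hW0 ?_⟩
  -- the trace computation
  have h1 : tr (f * (x * (e * w - w * e) - (e * w - w * e) * x)) = - tr (x * w) := by
    have h2 : f * (x * (e * w - w * e) - (e * w - w * e) * x) =
        f * (x * e) * w - f * x * w * e - f * e * w * x + f * w * (e * x) := by noncomm_ring
    rw [h2, hxe, hex, mul_zero, mul_zero, zero_mul, zero_sub, add_zero]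
    have c1 : tr (f * x * w * e) = tr ((e * f) * x * w) := by
      rw [tr_comm]
      congr 1
    have c2 : tr (f * e * w * x) = tr (x * (f * e) * w) := by
      rw [tr_comm]
      congr 1
    have e1 : tr (x * w) = tr (x * (f * e) * w) + tr ((e * f) * x * w) := by
      unfold tr
      rw [← map_add, ← add_mul, ← G1.eq hS hx]
    rw [e1]
    unfold tr at c1 c2 ⊢
    simp only [map_sub, map_neg, c1, c2]
    ring
  rw [h0, mul_zero] at h1
  unfold tr at h1 ⊢
  rw [map_zero] at h1
  exact (neg_eq_zero.mp h1.symm)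

end Pool.Agent.Lib.MP_640417_ag.Tor
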