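import Pool.Agent.Lib.MP_640417_ag.Tor.Spec
import Pool.Agent.Lib.MP_640417_ag.Tor.Base
import Pool.Agent.Lib.MP_640417_ag.Tor.Nonsing

/-!
# One toric place: the ideal generated by `e`
-/

namespace Pool.Agent.Lib.MP_640417_ag.Tor

open Module

variable {K V : Type} [Field K] [AddCommGroup V] [Module K V]

/-- Generators of the ideal. -/
def Idl_T (g : Submodule K (Module.End K V)) (e f : Module.End K V) : Set (Module.End K V) :=
  {Y | Y = e ∨ Y = f ∨ Y = e * f - f * e ∨ Y ∈ G1 g e f ∨ Y ∈ G1 g f e ∨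
    ∃ x ∈ G1 g e f, ∃ w ∈ G1 g f e, Y = x * w - w * x}

/-- The ideal. -/
def Idl_a (g : Submodule K (Module.End K V)) (e f : Module.End K V) :
    Submodule K (Module.End K V) := Submodule.span K (Idl_T g e f)

variable {g : Submodule K (Module.End K V)} {e f : Module.End K V}

lemma Idl_me : e ∈ Idl_a g e f := Submodule.subset_span (Or.inl rfl)
lemma Idl_mf : f ∈ Idl_a g e f := Submodule.subset_span (Or.inr (Or.inl rfl))
lemma Idl_mh : e * f - f * e ∈ Idl_a g e f :=
  Submodule.subset_span (Or.inr (Or.inr (Or.inl rfl)))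
lemma Idl_mx {x : Module.End K V} (hx : x ∈ G1 g e f) : x ∈ Idl_a g e f :=
  Submodule.subset_span (Or.inr (Or.inr (Or.inr (Or.inl hx))))
lemma Idl_mw {x : Module.End K V} (hx : x ∈ G1 g f e) : x ∈ Idl_a g e f :=
  Submodule.subset_span (Or.inr (Or.inr (Or.inr (Or.inr (Or.inl hx)))))
lemma Idl_mxw {x w : Module.End K V} (hx : x ∈ G1 g e f) (hw : w ∈ G1 g f e) :
    x * w - w * x ∈ Idl_a g e f :=
  Submodule.subset_span (Or.inr (Or.inr (Or.inr (Or.inr (Or.inr ⟨x, hx, w, hw, rfl⟩)))))

lemma Idl_symm_le : Idl_a g f e ≤ Idl_a g e f := by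
  refine Submodule.span_le.mpr ?_
  rintro Y (rfl | rfl | rfl | h | h | ⟨x, hx, w, hw, rfl⟩)
  · exact Idl_mf
  · exact Idl_me
  · have h1 := (Idl_a g e f).neg_mem Idl_mh
    rwa [neg_sub] at h1
  · exact Idl_mw h
  · exact Idl_mx h
  · have h1 := (Idl_a g e f).neg_mem (Idl_mxw hw hx)
    rwa [neg_sub] at h1

lemma Idl_symm : Idl_a g f e = Idl_a g e f := le_antisymm Idl_symm_le Idl_symm_le

lemma Idl_lin {X : Module.End K V} (h : ∀ Y ∈ Idl_T g e f, X * Y - Y * X ∈ Idl_a g e f) :
    ∀ Y ∈ Idl_a g e f, X * Y - Y * X ∈ Idl_a g e f := by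
  intro Y hY
  unfold Idl_a at hY
  induction hY using Submodule.span_induction with
  | mem y hy => exact h y hy
  | zero => rw [mul_zero, zero_mul, sub_zero]; exact zero_mem _
  | add y z _ _ hy hz =>
    have : X * (y + z) - (y + z) * X = (X * y - y * X) + (X * z - z * X) := by noncomm_ring
    rw [this]
    exact add_mem hy hz
  | smul c y _ hy =>
    rw [mul_smul_comm, smul_mul_assoc, ← smul_sub]
    exact Submodule.smul_mem _ _ hy

/-- Jacobi: brackets of elements of given degrees. -/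
lemma deg_bracket {H X Y : Module.End K V} {α β : K} (hX : H * X - X * H = α • X)
    (hY : H * Y - Y * H = β • Y) :
    H * (X * Y - Y * X) - (X * Y - Y * X) * H = (α + β) • (X * Y - Y * X) := by
  have h1 : H * (X * Y - Y * X) - (X * Y - Y * X) * H =
      ((H * X - X * H) * Y - Y * (H * X - X * H)) + (X * (H * Y - Y * H) - (H * Y - Y * H) * X) := by
    noncomm_ring
  rw [h1, hX, hY]
  simp only [smul_mul_assoc, mul_smul_comm, add_smul, smul_sub]
  abel

lemma G1.deg_neg {w : Module.End K V} (hw : w ∈ G1 g f e) :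
    (e * f - f * e) * w - w * (e * f - f * e) = (-1 : K) • w := by
  have h1 := hw.2
  have h3 : (e * f - f * e) * w - w * (e * f - f * e) =
      -((f * e - e * f) * w - w * (f * e - e * f)) := by noncomm_ring
  rw [h3, h1, neg_smul, one_smul]

lemma G1.deg_one {w : Module.End K V} (hw : w ∈ G1 g e f) :
    (e * f - f * e) * w - w * (e * f - f * e) = (1 : K) • w := by
  rw [hw.2, one_smul]

lemma G1.of_deg {w : Module.End K V} (hg : w ∈ g)
    (hw : (e * f - f * e) * w - w * (e * f - f * e) = (1 : K) • w) : w ∈ G1 g e f :=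
  ⟨hg, by rw [hw, one_smul]⟩

/-- Stability under `e`. -/
lemma Idl_e [CharZero K] [FiniteDimensional K V] (hTop : STop)
    (hl : ∀ X ∈ g, ∀ Y ∈ g, X * Y - Y * X ∈ g) (hP : Prm g e) (hS : Sl g e f) :
    ∀ Y ∈ Idl_a g e f, e * Y - Y * e ∈ Idl_a g e f := by
  refine Idl_lin ?_
  rintro Y (rfl | rfl | rfl | h | h | ⟨x, hx, w, hw, rfl⟩)
  · rw [sub_self]
    exact zero_mem _
  · exact Idl_mh
  · have h1 : e * (e * f - f * e) - (e * f - f * e) * e = -(2 : K) • e := by
      have h2 := hS.he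
      rw [neg_smul, ← h2, neg_sub]
    rw [h1]
    exact Submodule.smul_mem _ _ Idl_me
  · rw [G1.ex hS h, G1.xe hS h, sub_zero]
    exact zero_mem _
  · exact Idl_mx (bracket_e_mem hl hS h)
  · have h1 : e * (x * w - w * x) - (x * w - w * x) * e =
        (e * x) * w - w * (e * x) - (x * e) * w + w * (x * e)
          + (x * (e * w - w * e) - (e * w - w * e) * x) := by noncomm_ring
    rw [h1, G1.ex hS hx, G1.xe hS hx]
    simp only [zero_mul, mul_zero, sub_zero, add_zero, zero_add]
    obtain ⟨c, hc⟩ := (hTop K V g hl e f hP hS).2.2 x hx _ (bracket_e_mem hl hS hw)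
    rw [hc]
    exact Submodule.smul_mem _ _ Idl_me

/-- Stability under the elements of degree one. -/
lemma Idl_x [CharZero K] [FiniteDimensional K V] (hTop : STop)
    (hl : ∀ X ∈ g, ∀ Y ∈ g, X * Y - Y * X ∈ g) (hP : Prm g e) (hS : Sl g e f)
    {X : Module.End K V} (hX : X ∈ G1 g e f) :
    ∀ Y ∈ Idl_a g e f, X * Y - Y * X ∈ Idl_a g e f := by
  refine Idl_lin ?_
  rintro Y (rfl | rfl | rfl | h | h | ⟨x, hx, w, hw, rfl⟩)
  · rw [G1.ex hS hX, G1.xe hS hX, sub_zero]
    exact zero_mem _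
  · have h1 := (Idl_a g e Y).neg_mem (Idl_mw (bracket_e_mem hl hS.symm hX))
    rwa [neg_sub] at h1
  · have h1 : X * (e * f - f * e) - (e * f - f * e) * X = - X := by
      rw [← neg_sub, hX.2]
    rw [h1]
    exact Submodule.neg_mem _ (Idl_mx hX)
  · obtain ⟨c, hc⟩ := (hTop K V g hl e f hP hS).2.2 X hX _ h
    rw [hc]
    exact Submodule.smul_mem _ _ Idl_me
  · exact Idl_mxw hX h
  · refine Idl_mx (G1.of_deg (hl X hX.1 _ (hl x hx.1 w hw.1)) ?_)
    rw [deg_bracket (G1.deg_one hX) (deg_bracket (G1.deg_one hx) (G1.deg_neg hw))]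
    norm_num

/-- Stability under the elements of degree zero. -/
lemma Idl_0 [CharZero K] [FiniteDimensional K V] (hTop : STop)
    (hl : ∀ X ∈ g, ∀ Y ∈ g, X * Y - Y * X ∈ g) (hP : Prm g e) (hS : Sl g e f)
    {W X : Module.End K V} (hW : W ∈ g) (hX : X ∈ g)
    (hXW : X = (e * f) * W * (e * f) + (1 - e * f - f * e) * W * (1 - e * f - f * e) +
      (f * e) * W * (f * e)) :
    ∀ Y ∈ Idl_a g e f, X * Y - Y * X ∈ Idl_a g e f := by
  have hXe : X * e - e * X = (e * f) * (W * e - e * W) * (f * e) := by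
    have h1 : X * e - e * X = (e * f) * W * ((e * f) * e)
        + (1 - e * f - f * e) * W * (e - (e * f) * e - (f * e) * e)
        + (f * e) * W * ((f * e) * e) - (e * (e * f)) * W * (e * f)
        - (e - e * (e * f) - e * (f * e)) * W * (1 - e * f - f * e)
        - (e * (f * e)) * W * (f * e) := by
      rw [hXW]
      noncomm_ring
    have h2 : (e * f) * (W * e - e * W) * (f * e) =
        (e * f) * W * (e * (f * e)) - ((e * f) * e) * W * (f * e) := by noncomm_ring
    rw [h1, h2, hS.pe, hS.qe, hS.ep, hS.eq]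
    noncomm_ring
  have hXf : X * f - f * X = (f * e) * (W * f - f * W) * (e * f) := by
    have h1 : X * f - f * X = (e * f) * W * ((e * f) * f)
        + (1 - e * f - f * e) * W * (f - (e * f) * f - (f * e) * f)
        + (f * e) * W * ((f * e) * f) - (f * (e * f)) * W * (e * f)
        - (f - f * (e * f) - f * (f * e)) * W * (1 - e * f - f * e)
        - (f * (f * e)) * W * (f * e) := by
      rw [hXW]
      noncomm_ring
    have h2 : (f * e) * (W * f - f * W) * (e * f) =
        (f * e) * W * (f * (e * f)) - ((f * e) * f) * W * (e * f) := by noncomm_ring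
    rw [h1, h2, hS.pf, hS.qf, hS.fp, hS.fq]
    noncomm_ring
  have hXh : (e * f - f * e) * X - X * (e * f - f * e) = (0 : K) • X := by
    have h1 : (e * f - f * e) * X - X * (e * f - f * e) =
        -(e * (X * f - f * X) + (X * e - e * X) * f - f * (X * e - e * X)
          - (X * f - f * X) * e) := by noncomm_ring
    rw [h1, hXe, hXf, zero_smul]
    have h2 : e * ((f * e) * (W * f - f * W) * (e * f)) + (e * f) * (W * e - e * W) * (f * e) * f
        - f * ((e * f) * (W * e - e * W) * (f * e))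
        - (f * e) * (W * f - f * W) * (e * f) * e =
        (e * (f * e)) * W * (f * (e * f)) - e * ((f * e) * f) * W * (e * f)
        + (e * f) * W * (e * (f * e) * f) - ((e * f) * e) * W * ((f * e) * f)
        - (f * (e * f)) * W * (e * (f * e)) + f * ((e * f) * e) * W * (f * e)
        - (f * e) * W * (f * (e * f) * e) + ((f * e) * f) * W * ((e * f) * e) := by noncomm_ring
    rw [h2, hS.eq, hS.fp, hS.qf, hS.pe]
    noncomm_ring
  obtain ⟨c, hc⟩ := (hTop K V g hl e f hP hS).1 _ (hl W hW e hS.me)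
  obtain ⟨d, hd⟩ := (hTop K V g hl e f hP hS).2.1 _ (hl W hW f hS.mf)
  rw [hc] at hXe
  rw [hd] at hXf
  have hx1 : ∀ x ∈ G1 g e f, X * x - x * X ∈ G1 g e f := by
    intro x hx
    refine G1.of_deg (hl X hX x hx.1) ?_
    rw [deg_bracket hXh (G1.deg_one hx), zero_add]
  have hw1 : ∀ x ∈ G1 g f e, X * x - x * X ∈ G1 g f e := by
    intro x hx
    have h0 : (f * e - e * f) * X - X * (f * e - e * f) = (0 : K) • X := by
      have h1 : (f * e - e * f) * X - X * (f * e - e * f) =
          -((e * f - f * e) * X - X * (e * f - f * e)) := by noncomm_ring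
      rw [h1, hXh, zero_smul, neg_zero]
    refine G1.of_deg (hl X hX x hx.1) ?_
    rw [deg_bracket h0 (G1.deg_one hx), zero_add]
  refine Idl_lin ?_
  rintro Y (rfl | rfl | rfl | h | h | ⟨x, hx, w, hw, rfl⟩)
  · rw [hXe]
    exact Submodule.smul_mem _ _ Idl_me
  · rw [hXf]
    exact Submodule.smul_mem _ _ Idl_mf
  · have h1 : X * (e * f - f * e) - (e * f - f * e) * X = 0 := by
      rw [← neg_sub, hXh, zero_smul, neg_zero]
    rw [h1]
    exact zero_mem _
  · exact Idl_mx (hx1 Y h)
  · exact Idl_mw (hw1 Y h)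
  · have h1 : X * (x * w - w * x) - (x * w - w * x) * X =
        ((X * x - x * X) * w - w * (X * x - x * X))
          + (x * (X * w - w * X) - (X * w - w * X) * x) := by noncomm_ring
    rw [h1]
    exact add_mem (Idl_mxw (hx1 x hx) hw) (Idl_mxw hx (hw1 w hw))

/-- `f` is primitive if `e` is. -/
lemma Prm.symm [CharZero K] (hl : ∀ X ∈ g, ∀ Y ∈ g, X * Y - Y * X ∈ g) (hP : Prm g e)
    (hS : Sl g e f) : Prm g f := by
  refine ⟨hS.mf, ?_, hS.ff, fun X hX => ?_⟩
  · rintro rfl
    apply hP.ne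
    rw [← hS.efe, mul_zero, zero_mul]
  · obtain ⟨c, hc⟩ := hP.line _ (sandwich_mem hl hS.mf hS.ff hX)
    refine ⟨c, ?_⟩
    have h1 : f * X * f = f * (e * (f * X * f) * e) * f := by
      have : f * (e * (f * X * f) * e) * f = (f * e * f) * X * (f * e * f) := by noncomm_ring
      rw [this, hS.fef]
    rw [h1, hc, mul_smul_comm, smul_mul_assoc, hS.fef]

/-- The ideal generated by `e`. -/
theorem pIdl (hGrade : SGrade) (hTop : STop) : SIdl := by
  intro K V _ _ _ _ _ g hl e f hP hS
  have hle : Idl_a g e f ≤ g := by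
    refine Submodule.span_le.mpr ?_
    rintro Y (rfl | rfl | rfl | h | h | ⟨x, hx, w, hw, rfl⟩)
    · exact hS.me
    · exact hS.mf
    · exact hl e hS.me f hS.mf
    · exact h.1
    · exact h.1
    · exact hl x hx.1 w hw.1
  have hidl : Idl g (Idl_a g e f) := by
    refine ⟨hle, fun X hX Y hY => ?_⟩
    obtain ⟨m2, n2, m1, n1, m0⟩ := hGrade K V g hl e f hS X hX
    obtain ⟨c, hc⟩ := (hTop K V g hl e f hP hS).1 X hX
    obtain ⟨d, hd⟩ := (hTop K V g hl e f hP hS).2.1 X hX
    have hsum : X = (e * f) * X * (f * e) + (f * e) * X * (e * f)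
        + ((e * f) * X * (1 - e * f - f * e) + (1 - e * f - f * e) * X * (f * e))
        + ((1 - e * f - f * e) * X * (e * f) + (f * e) * X * (1 - e * f - f * e))
        + ((e * f) * X * (e * f) + (1 - e * f - f * e) * X * (1 - e * f - f * e) +
          (f * e) * X * (f * e)) := by noncomm_ring
    have hY' : Y ∈ Idl_a g f e := by rw [Idl_symm]; exact hY
    have k1 := Idl_e hTop hl hP hS Y hY
    have k2 := Idl_e hTop hl (hP.symm hl hS) hS.symm Y hY'
    have k3 := Idl_x hTop hl hP hS m1 Y hY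
    have k4 := Idl_x hTop hl (hP.symm hl hS) hS.symm n1 Y hY'
    have k5 := Idl_0 hTop hl hP hS hX m0 rfl Y hY
    rw [Idl_symm] at k2 k4
    have hall : X * Y - Y * X = c • (e * Y - Y * e) + d • (f * Y - Y * f)
        + (((e * f) * X * (1 - e * f - f * e) + (1 - e * f - f * e) * X * (f * e)) * Y
          - Y * ((e * f) * X * (1 - e * f - f * e) + (1 - e * f - f * e) * X * (f * e)))
        + (((1 - e * f - f * e) * X * (e * f) + (f * e) * X * (1 - e * f - f * e)) * Y
          - Y * ((1 - e * f - f * e) * X * (e * f) + (f * e) * X * (1 - e * f - f * e)))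
        + (((e * f) * X * (e * f) + (1 - e * f - f * e) * X * (1 - e * f - f * e) +
          (f * e) * X * (f * e)) * Y - Y * ((e * f) * X * (e * f)
          + (1 - e * f - f * e) * X * (1 - e * f - f * e) + (f * e) * X * (f * e))) := by
      rw [smul_sub, smul_sub, ← smul_mul_assoc, ← mul_smul_comm, ← smul_mul_assoc,
        ← mul_smul_comm, ← hc, ← hd]
      noncomm_ring
    rw [hall]
    exact add_mem (add_mem (add_mem (add_mem (Submodule.smul_mem _ _ k1)
      (Submodule.smul_mem _ _ k2)) k3) k4) k5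
  have hS' : ∀ S : Submodule K (Module.End K V), (∀ X ∈ S, ∀ Y ∈ S, X * Y - Y * X ∈ S) → e ∈ S →
      f ∈ S → G1 g e f ≤ S → G1 g f e ≤ S → Idl_a g e f ≤ S := by
    intro S hSl he hf h1 h2
    refine Submodule.span_le.mpr ?_
    rintro Y (rfl | rfl | rfl | h | h | ⟨x, hx, w, hw, rfl⟩)
    · exact he
    · exact hf
    · exact hSl e he f hf
    · exact h1 h
    · exact h2 h
    · exact hSl x (h1 hx) w (h2 hw)
  refine ⟨Idl_a g e f, hidl, Idl_me, fun b hb heb => ?_, hS'⟩
  have hfb : f ∈ b := by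
    have h1 := hb.lie f hS.mf _ (hb.lie f hS.mf e heb)
    have h2 : f * (f * e - e * f) - (f * e - e * f) * f = -(2 : K) • f := by
      have h3 := hS.hf
      rw [← h3]
      noncomm_ring
    rw [h2] at h1
    have h3 := b.smul_mem (-(2 : K))⁻¹ h1
    rwa [smul_smul, inv_mul_cancel₀ (neg_ne_zero.mpr two_ne_zero), one_smul] at h3
  have hhb : e * f - f * e ∈ b := hb.lie e hS.me f hfb
  refine hS' b (fun X hX Y hY => hb.lie X (hb.le hX) Y hY) heb hfb ?_ ?_
  · intro x hx
    have h1 := hb.lie' hx.1 hhb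
    rwa [hx.2] at h1
  · intro x hx
    have h1 := hb.lie x hx.1 _ hhb
    have h2 : x * (e * f - f * e) - (e * f - f * e) * x = x := by
      rw [← neg_sub, G1.deg_neg hx, neg_smul, one_smul, neg_neg]
    rwa [h2] at h1

end Pool.Agent.Lib.MP_640417_ag.Tor
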