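import Pool.Agent.Lib.MP_640417_ag.Tor.Spec
import Pool.Agent.Lib.MP_640417_ag.Tor.Base
import Pool.Agent.Lib.MP_640417_ag.Tor.Nonsing

/-!
# One toric place: stability of the spaces `Lu`
-/

namespace Pool.Agent.Lib.MP_640417_ag.Tor

open Module

variable {K V : Type} [Field K] [AddCommGroup V] [Module K V]

/-- Every element of degree `-1` is a bracket with `f`. -/
lemma G1.bracket_f [CharZero K] {g : Submodule K (Module.End K V)} {e f v : Module.End K V}
    (hS : Sl g e f) (hv : v ∈ G1 g f e) : v = f * (e * v - v * e) - (e * v - v * e) * f := by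
  have h1 := G1.eq hS.symm hv
  have h2 : f * (e * v - v * e) - (e * v - v * e) * f =
      (f * e) * v - (f * v) * e - e * (v * f) + v * (e * f) := by noncomm_ring
  rw [h2, G1.xe hS.symm hv, G1.ex hS.symm hv, zero_mul, mul_zero, sub_zero, sub_zero]
  nth_rw 1 [h1]
  abel

/-- Stability of the spaces `Lu`. -/
theorem pStab (hIdl : SIdl) : SStab := by
  intro K V _ _ _ _ _ g hl e f hP hS hkey
  obtain ⟨a, ha, hea, hmin, hgen⟩ := hIdl K V g hl e f hP hS
  refine ⟨a, ha, hea, hmin, ?_⟩
  let S : Submodule K (Module.End K V) :=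
    { carrier := {X | ∀ u : V, (f * e) u = u → ∀ v ∈ Lu g e f u, X v ∈ Lu g e f u}
      add_mem' := by
        intro X Y hX hY u hu v hv
        rw [LinearMap.add_apply]
        exact add_mem (hX u hu v hv) (hY u hu v hv)
      zero_mem' := by
        intro u hu v hv
        rw [LinearMap.zero_apply]
        exact zero_mem _
      smul_mem' := by
        intro c X hX u hu v hv
        rw [LinearMap.smul_apply]
        exact Submodule.smul_mem _ _ (hX u hu v hv) }
  have hSl : ∀ X ∈ S, ∀ Y ∈ S, X * Y - Y * X ∈ S := by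
    intro X hX Y hY u hu v hv
    rw [LinearMap.sub_apply, Module.End.mul_apply, Module.End.mul_apply]
    exact sub_mem (hX u hu _ (hY u hu v hv)) (hY u hu _ (hX u hu v hv))
  have mk : ∀ (u : V) (α γ : K) (x : Module.End K V), x ∈ G1 g e f →
      α • u + x u + γ • e u ∈ Lu g e f u := fun u α γ x hx => ⟨α, γ, x, hx, rfl⟩
  -- basic evaluations
  have ev_fu : ∀ u : V, (f * e) u = u → f u = 0 := by
    intro u hu
    rw [← hu, ← Module.End.mul_apply, hS.fq, LinearMap.zero_apply]
  have ev_fx : ∀ u : V, (f * e) u = u → ∀ x ∈ G1 g e f, f (x u) = 0 := by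
    intro u hu x hx
    rw [← hu, ← Module.End.mul_apply, ← Module.End.mul_apply, G1.fxq hS hx,
      LinearMap.zero_apply]
  have hSe : e ∈ S := by
    rintro u hu _ ⟨α, γ, x, hx, rfl⟩
    rw [map_add, map_add, map_smul, map_smul, ← Module.End.mul_apply e x, G1.ex hS hx,
      ← Module.End.mul_apply e e, hS.ee, LinearMap.zero_apply, smul_zero, add_zero, add_zero]
    have h1 := mk u 0 α 0 (zero_mem _)
    rwa [zero_smul, LinearMap.zero_apply, zero_add, zero_add] at h1
  have hSf : f ∈ S := by
    rintro u hu _ ⟨α, γ, x, hx, rfl⟩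
    rw [map_add, map_add, map_smul, map_smul, ev_fu u hu, ev_fx u hu x hx, smul_zero, zero_add,
      zero_add, ← Module.End.mul_apply, hu]
    have h1 := mk u γ 0 0 (zero_mem _)
    rwa [zero_smul, LinearMap.zero_apply, add_zero, add_zero] at h1
  have hSx : G1 g e f ≤ S := by
    rintro w hw u hu _ ⟨α, γ, x, hx, rfl⟩
    obtain ⟨c, hc⟩ := hkey w hw x hx
    have h2 : w (x u) = c • e u := by
      have h3 : w * x = c • (e * (f * e)) := by
        rw [← mul_smul_comm, ← hc]
        have h4 := G1.xy hS hw hx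
        have h5 : e * (f * w * x) = (e * f) * (w * x) := by noncomm_ring
        rw [h5, h4]
        have h6 : e * f * (e * f * (w * x) * (f * e)) = (e * f) * (e * f) * (w * x) * (f * e) := by
          noncomm_ring
        rw [h6, hS.pp]
      rw [← Module.End.mul_apply, h3, hS.eq, LinearMap.smul_apply]
    rw [map_add, map_add, map_smul, map_smul, h2, ← Module.End.mul_apply w e, G1.xe hS hw,
      LinearMap.zero_apply, smul_zero, add_zero]
    have h1 := mk u 0 c (α • w) (Submodule.smul_mem _ _ hw)
    rwa [zero_smul, zero_add, LinearMap.smul_apply] at h1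
  have hSw : G1 g f e ≤ S := by
    rintro v hv
    have h1 := G1.bracket_f hS hv
    have h2 := bracket_e_mem hl hS hv
    rw [h1]
    exact hSl f hSf _ (hSx h2)
  exact hgen S hSl hSe hSf hSx hSw

end Pool.Agent.Lib.MP_640417_ag.Tor
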