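import Pool.Agent.Lib.MP_640417_ag.Tor.Spec
import Pool.Agent.Lib.MP_640417_ag.Tor.Base

/-!
# One toric place: degree two is a line
-/

namespace Pool.Agent.Lib.MP_640417_ag.Tor

open Module

/-- Degree two is a line. -/
theorem pTop : STop := by
  intro K V _ _ _ _ _ g hl e f hP hS
  have h2 : ∀ X ∈ g, ∃ c : K, (e * f) * X * (f * e) = c • e := by
    intro X hX
    obtain ⟨c, hc⟩ := hP.line _ (sandwich_mem hl hS.mf hS.ff hX)
    refine ⟨c, ?_⟩
    rw [← hc]
    noncomm_ring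
  refine ⟨h2, ?_, ?_⟩
  · intro X hX
    obtain ⟨c, hc⟩ := hP.line X hX
    refine ⟨c, ?_⟩
    have h1 : (f * e) * X * (e * f) = f * (e * X * e) * f := by noncomm_ring
    rw [h1, hc, mul_smul_comm, smul_mul_assoc, hS.fef]
  · intro x hx y hy
    obtain ⟨c, hc⟩ := h2 _ (hl x hx.1 y hy.1)
    refine ⟨c, ?_⟩
    rw [← hc]
    have h1 := G1.xy hS hx hy
    have h3 := G1.xy hS hy hx
    rw [mul_sub, sub_mul, ← h1, ← h3]

end Pool.Agent.Lib.MP_640417_ag.Tor
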