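import Pool.Agent.Lib.MP_640417_ag.Tor.SpecL
import Pool.Agent.Lib.MP_640417_ag.Tor.Top
import Pool.Agent.Lib.MP_640417_ag.Tor.Idl
import Pool.Agent.Lib.MP_640417_ag.Tor.Stab
import Pool.Agent.Lib.MP_640417_ag.Tor.Grade

/-!
# One toric place: Goursat for two blocks
-/

namespace Pool.Agent.Lib.MP_640417_ag.Tor

open Module

variable {K V : Type} [Field K] [AddCommGroup V] [Module K V] {ψ : LinearMap.BilinForm K V}
  {g : Submodule K (Module.End K V)} {P Q : Module.End K V}

lemma GouC_mul {R A B : Module.End K V} (hR : R * R = R) (hA : R * A = A * R) :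
    (R * A) * (R * B) = R * (A * B) := by
  calc (R * A) * (R * B) = R * (A * R) * B := by noncomm_ring
    _ = (R * R) * (A * B) := by rw [← hA]; noncomm_ring
    _ = _ := by rw [hR]

lemma GouC_comm {R A B : Module.End K V} (hA : R * A = A * R) (hB : R * B = B * R) :
    R * (A * B) = (A * B) * R := by
  rw [← mul_assoc, hA, mul_assoc, hB, mul_assoc]

lemma GouC_skew {R X : Module.End K V} (hadj : ∀ x y, ψ (R x) y = ψ x (R y))
    (hc : R * X = X * R) (hX : Skew ψ X) : Skew ψ (R * X) := by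
  intro x y
  have h1 : X (R y) = R (X y) := by
    rw [← Module.End.mul_apply, ← hc, Module.End.mul_apply]
  rw [Module.End.mul_apply, hadj, hX, h1, Module.End.mul_apply]

lemma GouC_proj {R X : Module.End K V} (hR : R * R = R)
    (hadj : ∀ x y, ψ (R x) y = ψ x (R y)) (hc : R * X = X * R) (hX : Skew ψ X) :
    R * X ∈ spb ψ R := by
  refine ⟨GouC_skew hadj hc hX, ?_⟩
  calc R * (R * X) * R = (R * R) * (X * R) := by noncomm_ring
    _ = R * (R * X) := by rw [hR, hc]
    _ = R * X := by rw [← mul_assoc, hR]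

lemma GouC_double {R A X : Module.End K V} (hR : R * R = R) (hA : R * A = A * R)
    (hX : R * X = X * R) :
    (R * A) * ((R * A) * (R * X) - (R * X) * (R * A)) -
      ((R * A) * (R * X) - (R * X) * (R * A)) * (R * A) =
    R * (A * (A * X - X * A) - (A * X - X * A) * A) := by
  have h1 : R * (A * X - X * A) = (A * X - X * A) * R := by
    rw [mul_sub, sub_mul, GouC_comm hA hX, GouC_comm hX hA]
  rw [GouC_mul hR hA, GouC_mul hR hX, ← mul_sub, GouC_mul hR hA, GouC_mul hR h1, ← mul_sub]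

lemma Gou.eq_zero_of_q (h : Gou ψ g P Q) {X : Module.End K V} (hX : X ∈ g) (h0 : Q * X = 0) :
    X = 0 := by
  rw [← h.sum X hX, h.inj X hX h0, h0, add_zero]

lemma Gou.ext_q (h : Gou ψ g P Q) {X Y : Module.End K V} (hX : X ∈ g) (hY : Y ∈ g)
    (hQ : Q * X = Q * Y) : X = Y := by
  have h1 := h.eq_zero_of_q (sub_mem hX hY) (by rw [mul_sub, hQ, sub_self])
  exact sub_eq_zero.mp h1

lemma GouC_vec {R : Module.End K V} (hR : R * R = R) (h0 : R ≠ 0) : ∃ v, R v = v ∧ v ≠ 0 := by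
  obtain ⟨x, hx⟩ : ∃ x, R x ≠ 0 := by
    by_contra h
    push Not at h
    exact h0 (LinearMap.ext h)
  exact ⟨R x, by rw [← Module.End.mul_apply, hR], hx⟩

lemma Gou.eq_zero_of_p [CharZero K] [FiniteDimensional K V] (h : Gou ψ g P Q)
    {X : Module.End K V} (hX : X ∈ g) (h0 : P * X = 0) : X = 0 := by
  by_contra hne
  let a : Submodule K (Module.End K V) :=
    { carrier := {Y | Y ∈ g ∧ P * Y = 0}
      add_mem' := by
        rintro X Y ⟨h1, h2⟩ ⟨h3, h4⟩
        exact ⟨add_mem h1 h3, by rw [mul_add, h2, h4, add_zero]⟩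
      zero_mem' := ⟨zero_mem _, mul_zero _⟩
      smul_mem' := by
        rintro c X ⟨h1, h2⟩
        exact ⟨Submodule.smul_mem _ _ h1, by rw [mul_smul_comm, h2, smul_zero]⟩ }
  have hq : ∀ Y ∈ a, Q * Y = Y := by
    intro Y hY
    have h1 := h.sum Y hY.1
    rwa [hY.2, zero_add] at h1
  have hle : a ≤ spb ψ Q := by
    intro Y hY
    have h1 := GouC_proj h.qq h.qadj (h.qcom Y hY.1) (h.sp Y hY.1)
    rwa [hq Y hY] at h1
  have hlie : ∀ Z ∈ spb ψ Q, ∀ Y ∈ a, Z * Y - Y * Z ∈ a := by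
    intro Z hZ Y hY
    obtain ⟨Z', hZ', rfl⟩ := h.qsurj Z hZ
    have h3 : Q * Z' * Y - Y * (Q * Z') = Z' * Y - Y * Z' := by
      have h4 : Q * Z' * Y = Z' * Y := by rw [h.qcom Z' hZ', mul_assoc, hq Y hY]
      have h5 : Y * (Q * Z') = Y * Z' := by rw [← mul_assoc, ← h.qcom Y hY.1, hq Y hY]
      rw [h4, h5]
    rw [h3]
    refine ⟨h.lie Z' hZ' Y hY.1, ?_⟩
    rw [mul_sub, ← mul_assoc, h.pcom Z' hZ', mul_assoc, hY.2, mul_zero, ← mul_assoc, hY.2, zero_mul,
      sub_zero]
  have hall := GouA_simple h.anti h.alt h.nd h.qq h.qadj a hle hlie (Y := X) ⟨hX, h0⟩ hne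
  obtain ⟨v, hv, hv0⟩ := GouC_vec h.pp h.pne
  obtain ⟨Y, hY, hPY⟩ := h.psurj _ (GouA_T h.anti h.padj hv hv)
  have h5 : Q * Y ∈ a := hall (GouC_proj h.qq h.qadj (h.qcom Y hY) (h.sp Y hY))
  have h6 : P * Y ∈ g := by
    have h7 := sub_mem hY h5.1
    have h8 : Y - Q * Y = P * Y := by
      nth_rw 1 [← h.sum Y hY]
      rw [add_sub_cancel_right]
    rwa [h8] at h7
  have h7 : P * Y = 0 := h.eq_zero_of_q h6 (by rw [← mul_assoc, h.qp, zero_mul])
  rw [hPY] at h7
  exact GouB_Tvv_ne h.nd hv0 h7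

/-- Extremal elements lift to extremal elements. -/
lemma Gou.extremal [CharZero K] [IsAlgClosed K] [FiniteDimensional K V] (h : Gou ψ g P Q) {v : V}
    (hv : Q v = v) (hv0 : v ≠ 0) : ∃ e ∈ g, Q * e = RankOne_T ψ v v ∧ e ≠ 0 ∧ e * e = 0 ∧
      ∀ X ∈ g, e * X * e = (2 * ψ v (X v)) • e := by
  obtain ⟨e, he, hQe⟩ := h.qsurj _ (GouA_T h.anti h.qadj hv hv)
  have hne : e ≠ 0 := by
    rintro rfl
    rw [mul_zero] at hQe
    exact GouB_Tvv_ne h.nd hv0 hQe.symm
  have hcom := h.qcom e he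
  have hQee : Q * (e * e) = 0 := by
    rw [← GouC_mul h.qq hcom, hQe, GouB_TT h.alt]
  have hdbl : ∀ X ∈ g, e * (e * X - X * e) - (e * X - X * e) * e = (-(4 * ψ v (X v))) • e := by
    intro X hX
    refine h.ext_q (h.lie e he _ (h.lie e he X hX)) (Submodule.smul_mem _ _ he) ?_
    have h1 : Q * (e * (e * X - X * e) - (e * X - X * e) * e) =
        (Q * (e * e)) * X - (2 : K) • (Q * (e * X * e)) + Q * X * (e * e) := by
      rw [two_smul]
      noncomm_ring
    have h2 : Q * X * (e * e) = 0 := by rw [h.qcom X hX, mul_assoc, hQee, mul_zero]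
    have h3 : Q * (e * X * e) = (Q * e) * X * (Q * e) := by
      have h4 : (Q * e) * X * (Q * e) = Q * (e * X * Q) * e := by noncomm_ring
      rw [h4, ← GouC_comm hcom (h.qcom X hX)]
      have h5 : Q * (Q * (e * X)) * e = (Q * Q) * (e * X * e) := by noncomm_ring
      rw [h5, h.qq]
    rw [h1, hQee, h2, h3, hQe, GouB_TXT, zero_mul, zero_sub, add_zero, mul_smul_comm, hQe,
      smul_smul, ← neg_smul]
    congr 1
    ring
  have hPee : P * (e * e) = 0 := by
    rw [← GouC_mul h.pp (h.pcom e he)]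
    refine GouB_sq h.anti h.nd h.pp h.padj (GouC_proj h.pp h.padj (h.pcom e he) (h.sp e he)) ?_
    intro X hX
    obtain ⟨Y, hY, rfl⟩ := h.psurj X hX
    refine ⟨-(4 * ψ v (Y v)), ?_⟩
    rw [GouC_double h.pp (h.pcom e he) (h.pcom Y hY), hdbl Y hY, mul_smul_comm]
  have hee : e * e = 0 := by
    have h1 : e * e = P * (e * e) + Q * (e * e) := by
      rw [← mul_assoc, ← mul_assoc, ← add_mul, h.sum e he]
    rw [h1, hPee, hQee, add_zero]
  refine ⟨e, he, hQe, hne, hee, fun X hX => ?_⟩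
  have h1 := hdbl X hX
  rw [sandwich_eq hee] at h1
  have h2 : (-(2 : K))⁻¹ • (-(2 : K) • (e * X * e)) = (-(2 : K))⁻¹ • ((-(4 * ψ v (X v))) • e) := by
    rw [h1]
  rw [smul_smul, inv_mul_cancel₀ (neg_ne_zero.mpr two_ne_zero), one_smul, smul_smul] at h2
  rw [h2]
  congr 1
  field_simp
  ring

lemma GouC_app {R f : Module.End K V} (hc : R * f = f * R) {v : V} (hv : R v = v) :
    f v = (R * f) v := by
  rw [hc, Module.End.mul_apply, hv]

/-- The two opposite extremal elements. -/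
lemma Gou.sl [CharZero K] [IsAlgClosed K] [FiniteDimensional K V] (h : Gou ψ g P Q) :
    ∃ e f, Sl g e f ∧ Prm g e ∧ Q * e ≠ 0 := by
  obtain ⟨v, hv, hv0⟩ := GouC_vec h.qq h.qne
  obtain ⟨c, hc, hcv⟩ := GouA_pair h.anti h.nd h.qq h.qadj hv hv0
  obtain ⟨i, hi⟩ := IsAlgClosed.exists_pow_nat_eq (-1 : K) (n := 2) (by norm_num)
  have hi0 : i ≠ 0 := by
    rintro rfl
    norm_num at hi
  have hw : Q ((i / 2) • c) = (i / 2) • c := by rw [map_smul, hc]
  have hwv : ψ ((i / 2) • c) v = i / 2 := by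
    rw [map_smul, LinearMap.smul_apply, hcv, smul_eq_mul, mul_one]
  have hw0 : (i / 2) • c ≠ 0 := by
    intro h0
    rw [h0, map_zero, LinearMap.zero_apply] at hwv
    exact (div_ne_zero hi0 two_ne_zero) hwv.symm
  set w := (i / 2) • c with hwdef
  have hvw : ψ v w = -(i / 2) := by rw [h.anti v w, hwv]
  obtain ⟨e, he, hQe, he0, hee, hel⟩ := h.extremal hv hv0
  obtain ⟨f, hf, hQf, hf0, hff, hfl⟩ := h.extremal hw hw0
  have hfv : f v = (2 * ψ w v) • w := by
    rw [GouC_app (h.qcom f hf) hv, hQf, RankOne_T_apply]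
    module
  have hew : e w = (2 * ψ v w) • v := by
    rw [GouC_app (h.qcom e he) hw, hQe, RankOne_T_apply]
    module
  have h1 : e * f * e = e := by
    rw [hel f hf, hfv, map_smul, smul_eq_mul, hwv, hvw]
    have h2 : 2 * (2 * (i / 2) * -(i / 2)) = 1 := by
      have h3 : 2 * (2 * (i / 2) * -(i / 2)) = -(i ^ 2) := by ring
      rw [h3, hi, neg_neg]
    rw [h2, one_smul]
  have h3 : f * e * f = f := by
    rw [hfl e he, hew, map_smul, smul_eq_mul, hwv, hvw]
    have h2 : 2 * (2 * -(i / 2) * (i / 2)) = 1 := by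
      have h3 : 2 * (2 * -(i / 2) * (i / 2)) = -(i ^ 2) := by ring
      rw [h3, hi, neg_neg]
    rw [h2, one_smul]
  refine ⟨e, f, ⟨he, hf, hee, hff, h1, h3⟩, ⟨he, he0, hee, fun X hX => ⟨_, hel X hX⟩⟩, ?_⟩
  rw [hQe]
  exact GouB_Tvv_ne h.nd hv0

/-- The `f`-part of a block. -/
lemma GouC_pack [CharZero K] (anti : ∀ x y, ψ x y = - ψ y x)
    (nd : ∀ x, (∀ y, ψ x y = 0) → x = 0) (hsp : ∀ X ∈ g, Skew ψ X) {R e f : Module.End K V}
    (hR : R * R = R) (hadj : ∀ x y, ψ (R x) y = ψ x (R y)) (hcom : ∀ X ∈ g, R * X = X * R)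
    (hsurj : ∀ X ∈ spb ψ R, ∃ Y ∈ g, R * Y = X) (hP : Prm g f) (hS : Sl g e f)
    (hRe : R * e ≠ 0) : ∃ (u : V) (s : K), R u = u ∧ (f * e) u = u ∧ u ≠ 0 ∧
      ∀ y, R (f y) = (s * ψ u y) • u := by
  have hRf : R * f ≠ 0 := by
    intro h0
    apply hRe
    have h1 : R * e = e * (R * f) * e := by
      rw [hcom f hS.mf]
      have h2 : e * (f * R) * e = e * f * (R * e) := by noncomm_ring
      rw [h2, hcom e hS.me, ← mul_assoc, hS.efe]
    rw [h1, h0, mul_zero, zero_mul]
  obtain ⟨u, s, hus⟩ := GouB_form anti nd hR hadj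
    (GouC_proj hR hadj (hcom f hS.mf) (hsp f hS.mf)) hRf (by
      intro X hX
      obtain ⟨Y, hY, rfl⟩ := hsurj X hX
      obtain ⟨c, hc⟩ := hP.line Y hY
      refine ⟨c, ?_⟩
      rw [GouC_mul hR (hcom f hS.mf), GouC_mul hR (GouC_comm (hcom f hS.mf) (hcom Y hY)), hc,
        mul_smul_comm])
  have hform : ∀ y, R (f y) = (2 * s * ψ u y) • u := by
    intro y
    rw [← Module.End.mul_apply, hus, LinearMap.smul_apply, RankOne_T_apply]
    module
  have hRq : R * (f * e) ≠ 0 := by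
    intro h0
    apply hRe
    have h1 : R * e = e * (R * (f * e)) := by
      have h2 : e * (R * (f * e)) = (e * R) * (f * e) := by noncomm_ring
      rw [h2, ← hcom e hS.me, mul_assoc, hS.eq]
    rw [h1, h0, mul_zero]
  obtain ⟨x, hx⟩ : ∃ x, (R * (f * e)) x ≠ 0 := by
    by_contra h
    push Not at h
    exact hRq (LinearMap.ext h)
  have hx2 : (R * (f * e)) x = (2 * s * ψ u (e x)) • u := by
    rw [Module.End.mul_apply, Module.End.mul_apply, hform]
  have hc0 : 2 * s * ψ u (e x) ≠ 0 := by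
    intro h0
    rw [hx2, h0, zero_smul] at hx
    exact hx rfl
  have hu : u = (2 * s * ψ u (e x))⁻¹ • (R * (f * e)) x := by
    rw [hx2, smul_smul, inv_mul_cancel₀ hc0, one_smul]
  refine ⟨u, 2 * s, ?_, ?_, ?_, hform⟩
  · calc R u = R ((2 * s * ψ u (e x))⁻¹ • (R * (f * e)) x) := by rw [← hu]
      _ = (2 * s * ψ u (e x))⁻¹ • (R * (f * e)) x := by
        rw [map_smul, ← Module.End.mul_apply, ← mul_assoc, hR]
      _ = u := hu.symm
  · calc (f * e) u = (f * e) ((2 * s * ψ u (e x))⁻¹ • (R * (f * e)) x) := by rw [← hu]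
      _ = (2 * s * ψ u (e x))⁻¹ • (R * (f * e)) x := by
        rw [map_smul, ← Module.End.mul_apply, ← mul_assoc,
          ← GouC_comm (hcom f hS.mf) (hcom e hS.me), mul_assoc R (f * e) (f * e), hS.qq]
      _ = u := hu.symm
  · rintro rfl
    rw [smul_zero] at hx2
    exact hx hx2

/-- The products of two elements of degree one in a block. -/
lemma GouC_key [CharZero K] (hsp : ∀ X ∈ g, Skew ψ X) (anti : ∀ x y, ψ x y = - ψ y x)
    {R e f : Module.End K V} (hcom : ∀ X ∈ g, R * X = X * R)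
    (hS : Sl g e f) {u : V} {s : K} (hu : (f * e) u = u) (hRu : R u = u) (hu0 : u ≠ 0)
    (hform : ∀ y, R (f y) = (s * ψ u y) • u) {w w' : Module.End K V}
    (hw : w ∈ G1 g e f) (hw' : w' ∈ G1 g e f) {ω : K} (hω : w * w' - w' * w = ω • e) :
    R * (f * w * w') = (ω / 2) • (R * (f * e)) := by
  have hRuf : R (f (e u)) = u := by
    rw [← Module.End.mul_apply f e, hu, hRu]
  have key : ∀ x ∈ G1 g e f, ∀ y ∈ G1 g e f,
      R * (f * x * y) = (s * ψ u (x (y u))) • (R * (f * e)) := by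
    intro x hx y hy
    refine LinearMap.ext fun z => ?_
    have h1 : x * y = (x * y) * (f * e) := by
      have h0 := G1.xy hS hx hy
      calc x * y = (e * f) * (x * y) * (f * e) := h0
        _ = ((e * f) * (x * y) * (f * e)) * (f * e) := by
          rw [mul_assoc _ (f * e) (f * e), hS.qq]
        _ = (x * y) * (f * e) := by rw [← h0]
    have h2 : R * (f * x * y) = f * x * y * (R * (f * e)) := by
      calc R * (f * x * y) = R * f * (x * y) := by noncomm_ring
        _ = R * f * ((x * y) * (f * e)) := by rw [← h1]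
        _ = (R * (f * (x * y))) * (f * e) := by noncomm_ring
        _ = ((f * (x * y)) * R) * (f * e) := by
            rw [GouC_comm (hcom f hS.mf) (GouC_comm (hcom x hx.1) (hcom y hy.1))]
        _ = _ := by noncomm_ring
    have h3 : (R * (f * e)) z = (s * ψ u (e z)) • u := by
      rw [Module.End.mul_apply, Module.End.mul_apply, hform]
    have h4 : R (f (x (y u))) = (s * ψ u (x (y u))) • u := hform _
    have h6 : (R * (f * x * y)) z = (s * ψ u (e z)) • (f * x * y) u := by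
      rw [h2, Module.End.mul_apply, h3, map_smul]
    have h7 : (f * x * y) u = R (f (x (y u))) := by
      have h8 : (f * x * y) u = (f * x * y * R) u := by
        rw [Module.End.mul_apply (f * x * y) R, hRu]
      have h9 : f * x * y * R = R * (f * x * y) := by
        have := GouC_comm (GouC_comm (hcom f hS.mf) (hcom x hx.1)) (hcom y hy.1)
        exact this.symm
      rw [h8, h9]
      simp only [Module.End.mul_apply]
    rw [h6, h7, h4, LinearMap.smul_apply, h3, smul_smul, smul_smul, mul_comm]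
  have h1 := key w hw w' hw'
  have h2 := key w' hw' w hw
  have h3 : ψ u (w' (w u)) = - ψ u (w (w' u)) := by
    have h4 : ψ u (w' (w u)) = - ψ (w' u) (w u) := by
      rw [hsp w' hw'.1, neg_neg]
    have h5 : ψ u (w (w' u)) = - ψ (w u) (w' u) := by
      rw [hsp w hw.1, neg_neg]
    rw [h4, h5, anti (w' u) (w u)]
  rw [h3] at h2
  have h4 : ω • (R * (f * e)) = (2 * (s * ψ u (w (w' u)))) • (R * (f * e)) := by
    calc ω • (R * (f * e)) = R * (f * (ω • e)) := by rw [mul_smul_comm, mul_smul_comm]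
      _ = R * (f * w * w') - R * (f * w' * w) := by rw [← hω]; noncomm_ring
      _ = _ := by rw [h1, h2]; module
  have h5 : ω • u = (2 * (s * ψ u (w (w' u)))) • u := by
    have h6 := LinearMap.congr_fun h4 u
    rw [LinearMap.smul_apply, LinearMap.smul_apply, Module.End.mul_apply, hu, hRu] at h6
    exact h6
  have h6 : ω = 2 * (s * ψ u (w (w' u))) := by
    have h7 : (ω - 2 * (s * ψ u (w (w' u)))) • u = 0 := by rw [sub_smul, h5, sub_self]
    exact sub_eq_zero.mp ((smul_eq_zero.mp h7).resolve_right hu0)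
  rw [h1]
  congr 1
  rw [h6]
  field_simp

/-- An element of degree one which kills the vector `u` of the block is zero in the block. -/
lemma GouC_inj [CharZero K] (hsp : ∀ X ∈ g, Skew ψ X) (nd : ∀ x, (∀ y, ψ x y = 0) → x = 0)
    {R e f : Module.End K V} (hadj : ∀ x y, ψ (R x) y = ψ x (R y))
    (hcom : ∀ X ∈ g, R * X = X * R)
    (hS : Sl g e f) {u : V} {s : K}
    (hform : ∀ y, R (f y) = (s * ψ u y) • u) {x : Module.End K V}
    (hx : x ∈ G1 g e f) (hxu : x u = 0) : R * x = 0 := by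
  have h1 : ∀ z, x (R (f z)) = 0 := by
    intro z
    rw [hform, map_smul, hxu, smul_zero]
  have h2 : R * (x * (f * e)) = 0 := by
    refine LinearMap.ext fun z => ?_
    have h3 : R * (x * (f * e)) = x * R * (f * e) := by rw [← mul_assoc, hcom x hx.1]
    rw [h3, Module.End.mul_apply, Module.End.mul_apply, Module.End.mul_apply, h1,
      LinearMap.zero_apply]
  have h3 : R * ((e * f) * x) = 0 := by
    refine LinearMap.ext fun y => ?_
    rw [LinearMap.zero_apply]
    apply nd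
    intro z
    rw [Module.End.mul_apply, hadj, Module.End.mul_apply, Module.End.mul_apply, hsp e hS.me,
      hsp f hS.mf, neg_neg, hsp x hx.1]
    have h4 : x (f (e (R z))) = x (R (f (e z))) := by
      have h5 : e (R z) = R (e z) := by
        rw [← Module.End.mul_apply, ← hcom e hS.me, Module.End.mul_apply]
      have h6 : f (R (e z)) = R (f (e z)) := by
        rw [← Module.End.mul_apply, ← hcom f hS.mf, Module.End.mul_apply]
      rw [h5, h6]
    rw [h4, h1, map_zero, neg_zero]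
  rw [G1.eq hS hx, mul_add, h2, h3, add_zero]

/-- **Goursat for two blocks.** -/
theorem pGou : SGou := by
  intro K V _ _ _ _ _ _ ψ g P Q h hcross
  obtain ⟨e, f, hS, hP, hQe⟩ := h.sl
  have hPf : Prm g f := hP.symm h.lie hS
  have hPe : P * e ≠ 0 := fun h0 => hP.ne (h.eq_zero_of_p hS.me h0)
  obtain ⟨u₁, s₁, hPu, hqu₁, hu₁, hform₁⟩ := GouC_pack h.anti h.nd h.sp h.pp h.padj h.pcom h.psurj
    hPf hS hPe
  obtain ⟨u₂, s₂, hQu, hqu₂, hu₂, hform₂⟩ := GouC_pack h.anti h.nd h.sp h.qq h.qadj h.qcom h.qsurj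
    hPf hS hQe
  have hkey : ∀ w ∈ G1 g e f, ∀ w' ∈ G1 g e f, ∃ c : K, f * w * w' = c • (f * e) := by
    intro w hw w' hw'
    obtain ⟨ω, hω⟩ := (pTop K V g h.lie e f hP hS).2.2 w hw w' hw'
    refine ⟨ω / 2, ?_⟩
    have h1 := GouC_key h.sp h.anti h.pcom hS hqu₁ hPu hu₁ hform₁ hw hw' hω
    have h2 := GouC_key h.sp h.anti h.qcom hS hqu₂ hQu hu₂ hform₂ hw hw' hω
    have h3 : f * w * w' = P * (f * w * w') + Q * (f * w * w') := by
      have h4 : P * (f * w * w') + Q * (f * w * w') = (P * f + Q * f) * w * w' := by noncomm_ring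
      rw [h4, h.sum f hS.mf]
    have h4 : f * e = P * (f * e) + Q * (f * e) := by
      have h4 : P * (f * e) + Q * (f * e) = (P * f + Q * f) * e := by noncomm_ring
      rw [h4, h.sum f hS.mf]
    rw [h3, h1, h2, ← smul_add, ← h4]
  obtain ⟨a, ha, hea, -, hstab⟩ := pStab (pIdl pGrade pTop) K V g h.lie e f hP hS hkey
  -- the ideal is everything
  have hga : g ≤ a := by
    let b : Submodule K (Module.End K V) :=
      { carrier := {Z | ∃ X ∈ a, Q * X = Z}
        add_mem' := by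
          rintro _ _ ⟨X, hX, rfl⟩ ⟨Y, hY, rfl⟩
          exact ⟨X + Y, add_mem hX hY, mul_add _ _ _⟩
        zero_mem' := ⟨0, zero_mem _, mul_zero _⟩
        smul_mem' := by
          rintro c _ ⟨X, hX, rfl⟩
          exact ⟨c • X, Submodule.smul_mem _ _ hX, mul_smul_comm _ _ _⟩ }
    have hble : b ≤ spb ψ Q := by
      rintro _ ⟨X, hX, rfl⟩
      exact GouC_proj h.qq h.qadj (h.qcom X (ha.le hX)) (h.sp X (ha.le hX))
    have hblie : ∀ Z ∈ spb ψ Q, ∀ Y ∈ b, Z * Y - Y * Z ∈ b := by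
      rintro Z hZ _ ⟨X, hX, rfl⟩
      obtain ⟨Z', hZ', rfl⟩ := h.qsurj Z hZ
      refine ⟨Z' * X - X * Z', ha.lie Z' hZ' X hX, ?_⟩
      rw [GouC_mul h.qq (h.qcom Z' hZ'), GouC_mul h.qq (h.qcom X (ha.le hX)), mul_sub]
    have hb := GouA_simple h.anti h.alt h.nd h.qq h.qadj b hble hblie (Y := Q * e)
      ⟨e, hea, rfl⟩ hQe
    intro X hX
    obtain ⟨X', hX', hXX⟩ := hb (GouC_proj h.qq h.qadj (h.qcom X hX) (h.sp X hX))
    rw [h.ext_q hX (ha.le hX') hXX.symm]
    exact hX'
  -- the subspace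
  have hPu₂ : P u₂ = 0 := by rw [← hQu, ← Module.End.mul_apply, h.pq, LinearMap.zero_apply]
  have hQu₁ : Q u₁ = 0 := by rw [← hPu, ← Module.End.mul_apply, h.qp, LinearMap.zero_apply]
  have hPu' : P (u₁ + u₂) = u₁ := by rw [map_add, hPu, hPu₂, add_zero]
  have hQu' : Q (u₁ + u₂) = u₂ := by rw [map_add, hQu, hQu₁, zero_add]
  have hqu : (f * e) (u₁ + u₂) = u₁ + u₂ := by rw [map_add, hqu₁, hqu₂]
  have hLstab : ∀ X ∈ g, ∀ v ∈ Lu g e f (u₁ + u₂), X v ∈ Lu g e f (u₁ + u₂) :=
    fun X hX => hstab X (hga hX) _ hqu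
  have huL : u₁ + u₂ ∈ Lu g e f (u₁ + u₂) := ⟨1, 0, 0, zero_mem _, by
    rw [one_smul, LinearMap.zero_apply, zero_smul, add_zero, add_zero]⟩
  have happ : ∀ X ∈ g, ∀ y, P (X y) = X (P y) := by
    intro X hX y
    rw [← Module.End.mul_apply, h.pcom X hX, Module.End.mul_apply]
  have hinj : ∀ y ∈ Lu g e f (u₁ + u₂), P y = 0 → y = 0 := by
    rintro _ ⟨α, γ, x, hx, rfl⟩ h0
    rw [map_add, map_add, map_smul, map_smul, happ x hx.1, happ e hS.me, hPu'] at h0
    have hα : α = 0 := by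
      have h1 := congrArg (f * e) h0
      rw [map_add, map_add, map_smul, map_smul, hqu₁, ← Module.End.mul_apply (f * e) x,
        G1.qx hS hx, ← Module.End.mul_apply (f * e) e, hS.qe, LinearMap.zero_apply, smul_zero,
        add_zero, add_zero, map_zero] at h1
      exact (smul_eq_zero.mp h1).resolve_right hu₁
    rw [hα, zero_smul, zero_add] at h0
    have hγ : γ = 0 := by
      have h1 := congrArg f h0
      have h2 : f (x u₁) = 0 := by
        have h3 : f (x u₁) = (f * x * (f * e)) u₁ := by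
          rw [Module.End.mul_apply (f * x), hqu₁, Module.End.mul_apply]
        rw [h3, G1.fxq hS hx, LinearMap.zero_apply]
      rw [map_add, map_smul, h2, zero_add, ← Module.End.mul_apply f e, hqu₁, map_zero] at h1
      exact (smul_eq_zero.mp h1).resolve_right hu₁
    rw [hγ, zero_smul, add_zero] at h0
    have hx0 : x = 0 := h.eq_zero_of_p hx.1
      (GouC_inj h.sp h.nd h.padj h.pcom hS hform₁ hx h0)
    rw [hα, hγ, hx0, zero_smul, zero_smul, LinearMap.zero_apply, add_zero, add_zero]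
  have hsurj : ∀ x : V, ∃ y ∈ Lu g e f (u₁ + u₂), P y = P x := by
    intro x
    obtain ⟨X, hX, hXu⟩ := GouA_move h.anti h.nd h.pp h.padj hPu hu₁ (a := P x)
      (by rw [← Module.End.mul_apply, h.pp])
    obtain ⟨Y, hY, rfl⟩ := h.psurj X hX
    refine ⟨Y (u₁ + u₂), hLstab Y hY _ huL, ?_⟩
    rw [happ Y hY, hPu', ← hXu, Module.End.mul_apply, happ Y hY, hPu]
  -- the operator
  let L := Lu g e f (u₁ + u₂)
  have hker : LinearMap.ker (P.domRestrict L) = ⊥ := by
    rw [LinearMap.ker_eq_bot']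
    rintro ⟨y, hy⟩ h0
    exact Subtype.ext (hinj y hy h0)
  obtain ⟨s, hs⟩ := LinearMap.exists_leftInverse_of_injective _ hker
  have hsy : ∀ y ∈ L, ((s (P y) : L) : V) = y := by
    intro y hy
    have h1 := LinearMap.congr_fun hs ⟨y, hy⟩
    exact congrArg Subtype.val h1
  let c : Module.End K V := L.subtype ∘ₗ s ∘ₗ P
  have hc : ∀ x, ∀ y ∈ L, P y = P x → c x = y := by
    intro x y hy hxy
    have h1 : c x = ((s (P x) : L) : V) := rfl
    rw [h1, ← hxy, hsy y hy]
  have hcc : ∀ X ∈ g, c * X = X * c := by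
    intro X hX
    refine LinearMap.ext fun x => ?_
    obtain ⟨y, hy, hyx⟩ := hsurj x
    rw [Module.End.mul_apply, Module.End.mul_apply, hc x y hy hyx,
      hc (X x) (X y) (hLstab X hX y hy) (by rw [happ X hX, hyx, happ X hX])]
  have h1 := LinearMap.congr_fun (hcross c hcc) u₁
  rw [Module.End.mul_apply, Module.End.mul_apply, hPu, hc u₁ (u₁ + u₂) huL (by rw [hPu', hPu]),
    hQu', LinearMap.zero_apply] at h1
  exact hu₂ h1

end Pool.Agent.Lib.MP_640417_ag.Tor
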