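import Pool.Agent.Lib.MP_640417_ag.Tor.Spec
import Pool.Agent.Lib.MP_640417_ag.Tor.Base

/-!
# One toric place: the constant of a primitive element
-/

namespace Pool.Agent.Lib.MP_640417_ag.Tor

open Module

/-- The trace of an idempotent is its rank. -/
lemma tr_idem {K V : Type} [Field K] [AddCommGroup V] [Module K V] [FiniteDimensional K V]
    {p : Module.End K V} (hp : p * p = p) : tr p = (rk p : K) :=
  (LinearMap.IsProj.trace (LinearMap.IsIdempotentElem.isProj_range p hp))

/-- The trace of a square-zero operator vanishes. -/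
lemma tr_sq {K V : Type} [Field K] [AddCommGroup V] [Module K V] [FiniteDimensional K V]
    {p : Module.End K V} (hp : p * p = 0) : tr p = 0 :=
  (LinearMap.isNilpotent_trace_of_isNilpotent ⟨2, by rw [pow_two, hp]⟩).eq_zero

/-- The constant of a primitive element. -/
theorem pPrimTr : SPrimTr := by
  intro K V _ _ _ _ _ g e hP X hX
  obtain ⟨c, hc⟩ := hP.line X hX
  by_cases hc0 : c = 0
  · have h1 : (e * X) * (e * X) = 0 := by
      rw [← mul_assoc, hc, hc0, zero_smul, zero_mul]
    rw [tr_sq h1, hc, hc0, zero_smul, smul_zero]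
  · set p : Module.End K V := c⁻¹ • (e * X) with hp
    have hpp : p * p = p := by
      rw [hp, smul_mul_smul_comm, ← mul_assoc, hc, smul_mul_assoc, smul_smul, mul_assoc,
        inv_mul_cancel₀ hc0, mul_one]
    have hpe : p * e = e := by
      rw [hp, smul_mul_assoc, hc, smul_smul, inv_mul_cancel₀ hc0, one_smul]
    have hrk : rk p = rk e := by
      unfold rk
      have : LinearMap.range p = LinearMap.range e := by
        apply le_antisymm
        · rintro _ ⟨v, rfl⟩
          refine ⟨c⁻¹ • X v, ?_⟩
          rw [hp, map_smul, LinearMap.smul_apply, Module.End.mul_apply]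
        · rintro _ ⟨v, rfl⟩
          refine ⟨e v, ?_⟩
          rw [← Module.End.mul_apply, hpe]
      rw [this]
    have htr : tr (e * X) = c * (rk e : K) := by
      have h1 := tr_idem hpp
      rw [hrk] at h1
      rw [← h1, hp]
      unfold tr
      rw [map_smul, smul_eq_mul, ← mul_assoc, mul_inv_cancel₀ hc0, one_mul]
    rw [htr, hc, smul_smul, mul_comm]

end Pool.Agent.Lib.MP_640417_ag.Tor
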