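import Pool.Agent.Lib.MP_640417_ag.Tor.SpecL

/-!
# One toric place: coordinates
-/

set_option autoImplicit false

namespace Pool.Agent.Lib.MP_640417_ag.Tor

open Module Filter Topology TensorProduct Pool.Agent.Lib.MP_640417_ag.Glob

/-! ### Transport along a linear equivalence -/

section transport

variable {K V V' : Type} [Field K] [AddCommGroup V] [Module K V] [AddCommGroup V'] [Module K V']
  (φ : V ≃ₗ[K] V')

theorem CoordT_conj_mul (X Y : Module.End K V) : φ.conj (X * Y) = φ.conj X * φ.conj Y := by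
  apply LinearMap.ext
  intro v
  simp [LinearEquiv.conj_apply]

theorem CoordT_conj_one : φ.conj (1 : Module.End K V) = 1 := by
  apply LinearMap.ext
  intro v
  simp [LinearEquiv.conj_apply]

theorem CoordT_conj_app (X : Module.End K V) (v : V) : φ.conj X (φ v) = φ (X v) := by
  simp [LinearEquiv.conj_apply]

/-- the transported space of operators -/
def CoordT_L (L : Submodule K (Module.End K V)) : Submodule K (Module.End K V') :=
  L.map (φ.conj : Module.End K V ≃ₗ[K] Module.End K V').toLinearMap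

theorem CoordT_mem_L {L : Submodule K (Module.End K V)} {X : Module.End K V} :
    φ.conj X ∈ CoordT_L φ L ↔ X ∈ L := by
  constructor
  · rintro ⟨Y, hY, hYX⟩
    have : Y = X := φ.conj.injective hYX
    rw [← this]
    exact hY
  · intro hX
    exact ⟨X, hX, rfl⟩

theorem CoordT_irr {L : Submodule K (Module.End K V)} {W : Submodule K V'}
    (h : IrrMod (CoordT_L φ L) W) : IrrMod L (W.comap φ.toLinearMap) := by
  have hmap : ∀ U : Submodule K V', (U.comap φ.toLinearMap).map φ.toLinearMap = U := fun U =>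
    Submodule.map_comap_eq_of_surjective φ.surjective U
  have hcomap : ∀ U : Submodule K V, (U.map φ.toLinearMap).comap φ.toLinearMap = U := fun U =>
    Submodule.comap_map_eq_of_injective φ.injective U
  refine ⟨?_, ?_, ?_⟩
  · intro h0
    apply h.1
    rw [← hmap W, h0, Submodule.map_bot]
  · intro X hX y hy
    rw [Submodule.mem_comap] at hy ⊢
    have h1 := h.2.1 (φ.conj X) ((CoordT_mem_L φ).2 hX) _ hy
    have h2 : φ.conj X (φ y) = φ (X y) := CoordT_conj_app φ X y
    change φ (X y) ∈ W
    rw [← h2]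
    exact h1
  · intro W' hW' hst
    have h1 := h.2.2 (W'.map φ.toLinearMap) (by
      rw [← hmap W]
      exact Submodule.map_mono hW') (by
      rintro X' ⟨X, hX, rfl⟩ _ ⟨y, hy, rfl⟩
      refine ⟨X y, hst X hX y hy, ?_⟩
      exact (CoordT_conj_app φ X y).symm)
    rcases h1 with h1 | h1
    · left
      rw [← hcomap W', h1]
      ext v
      simp
    · right
      rw [← hcomap W', h1]

theorem CoordT_rank (W : Submodule K V') (N : Module.End K V) :
    finrank K (W.map (φ.conj N)) = finrank K ((W.comap φ.toLinearMap).map N) := by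
  have h1 : W.map (φ.conj N) = ((W.comap φ.toLinearMap).map N).map φ.toLinearMap := by
    ext v
    constructor
    · rintro ⟨w, hw, rfl⟩
      refine ⟨N (φ.symm w), ⟨φ.symm w, ?_, rfl⟩, ?_⟩
      · change φ (φ.symm w) ∈ W
        rw [LinearEquiv.apply_symm_apply]
        exact hw
      · rw [LinearEquiv.conj_apply_apply]
        rfl
    · rintro ⟨_, ⟨y, hy, rfl⟩, rfl⟩
      exact ⟨φ y, hy, CoordT_conj_app φ N y⟩
  rw [h1]
  exact LinearEquiv.finrank_map_eq φ _

theorem CoordT_dim (W : Submodule K V') :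
    finrank K W = finrank K (W.comap φ.toLinearMap) := by
  have h1 : W = (W.comap φ.toLinearMap).map φ.toLinearMap :=
    (Submodule.map_comap_eq_of_surjective φ.surjective W).symm
  conv_lhs => rw [h1]
  exact LinearEquiv.finrank_map_eq φ _

theorem CoordT_toric {L : Submodule K (Module.End K V)} {W : Submodule K V'} {N : Module.End K V}
    (h : Toric L (W.comap φ.toLinearMap) N) : Toric (CoordT_L φ L) W (φ.conj N) := by
  unfold Toric at h ⊢
  rw [CoordT_rank φ W N, CoordT_dim φ W]
  rcases h with h | ⟨h, t, ht, htt, ht0, ht1⟩ | ⟨h, ha⟩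
  · exact Or.inl h
  · refine Or.inr (Or.inl ⟨h, φ.conj t, (CoordT_mem_L φ).2 ht, ?_, ?_, ?_⟩)
    · rw [← CoordT_conj_mul, htt]
    · intro h0
      exact ht0 (φ.conj.injective (by rw [h0, map_zero]))
    · intro h0
      exact ht1 (φ.conj.injective (by rw [h0, CoordT_conj_one]))
  · refine Or.inr (Or.inr ⟨h, ?_⟩)
    intro a' ha' hlie hid
    have h1 := ha (a'.comap φ.conj.toLinearMap) (by
      intro X hX
      exact (CoordT_mem_L φ).1 (ha' hX)) (by
      intro X hX Y hY
      change φ.conj (X * Y - Y * X) ∈ a'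
      rw [map_sub, CoordT_conj_mul, CoordT_conj_mul]
      exact hlie _ ((CoordT_mem_L φ).2 hX) _ hY) (by
      intro t ht htt
      change φ.conj t ∈ a'
      exact hid _ ((CoordT_mem_L φ).2 ht) (by rw [← CoordT_conj_mul, htt]))
    rw [CoordT_L, ← h1]
    exact (Submodule.map_comap_eq_of_surjective φ.conj.surjective a').symm

end transport

/-! ### The Lie algebras -/

section lie

variable {l : ℕ} [Fact l.Prime] {Γ : Type} [Group Γ] [TopologicalSpace Γ] {V : Type}
  [AddCommGroup V] [Module ℚ_[l] V] [FiniteDimensional ℚ_[l] V] {ρ : Frob.H1Rep Γ ℚ_[l] V}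
  {I : Type} [Fintype I] [DecidableEq I] {e : Basis I ℚ_[l] V} {R : MRep Γ ℚ_[l] I}

theorem CoordT_tan (hR : ∀ γ, R.M γ = LinearMap.toMatrix e e (ρ.T γ)) (A : Module.End ℚ_[l] V) :
    A ∈ Tangent l ρ ↔ LinearMap.toMatrix e e A ∈ R.Zt l := by
  have hent : ∀ (γ : Γ) (i j : I), (R.M γ - 1) i j = e.coord i (ρ.T γ (e j) - e j) := by
    intro γ i j
    have h1 : R.M γ - 1 = LinearMap.toMatrix e e (ρ.T γ - 1) := by
      rw [hR, map_sub, LinearMap.toMatrix_one]
    rw [h1, LinearMap.toMatrix_apply]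
    rfl
  constructor
  · rintro ⟨γ, hγ⟩
    refine ⟨γ, ?_⟩
    refine tendsto_pi_nhds.2 fun i => tendsto_pi_nhds.2 fun j => ?_
    have h1 := hγ (e.coord i) (e j)
    refine (h1.congr fun k => ?_).trans (le_of_eq ?_)
    · rw [Matrix.smul_apply, hent, smul_eq_mul]
    · rw [LinearMap.toMatrix_apply]
      rfl
  · rintro ⟨γ, hγ⟩
    refine ⟨γ, fun f v => ?_⟩
    have hexp : ∀ X : Module.End ℚ_[l] V, f (X v) =
        ∑ i, ∑ j, LinearMap.toMatrix e e X i j * (e.repr v j * f (e i)) := by
      intro X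
      have h1 : X v = ∑ j, e.repr v j • X (e j) := by
        conv_lhs => rw [← e.sum_repr v]
        rw [map_sum]
        exact Finset.sum_congr rfl fun j _ => map_smul _ _ _
      have h2 : ∀ j, X (e j) = ∑ i, LinearMap.toMatrix e e X i j • e i := by
        intro j
        conv_lhs => rw [← e.sum_repr (X (e j))]
        exact Finset.sum_congr rfl fun i _ => by rw [LinearMap.toMatrix_apply]
      rw [h1, map_sum, Finset.sum_comm]
      refine Finset.sum_congr rfl fun j _ => ?_
      rw [map_smul, h2 j, map_sum, smul_eq_mul, Finset.mul_sum]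
      refine Finset.sum_congr rfl fun i _ => ?_
      rw [map_smul, smul_eq_mul]
      ring
    have h3 : ∀ k, ((l : ℚ_[l]) ^ k)⁻¹ * f (ρ.T (γ k) v - v) =
        ∑ i, ∑ j, (((l : ℚ_[l]) ^ k)⁻¹ • (R.M (γ k) - 1)) i j * (e.repr v j * f (e i)) := by
      intro k
      have h4 : ρ.T (γ k) v - v = (ρ.T (γ k) - 1) v := rfl
      have h5 : LinearMap.toMatrix e e (ρ.T (γ k) - 1) = R.M (γ k) - 1 := by
        rw [hR, map_sub, LinearMap.toMatrix_one]
      rw [h4, hexp, h5, Finset.mul_sum]
      refine Finset.sum_congr rfl fun i _ => ?_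
      rw [Finset.mul_sum]
      refine Finset.sum_congr rfl fun j _ => ?_
      rw [Matrix.smul_apply, smul_eq_mul]
      ring
    rw [hexp A]
    refine Tendsto.congr (fun k => (h3 k).symm) ?_
    refine tendsto_finsetSum _ fun i _ => tendsto_finsetSum _ fun j _ => ?_
    have h6 := (tendsto_pi_nhds.1 ((tendsto_pi_nhds.1 hγ) i)) j
    exact h6.mul_const _

theorem CoordT_conj_base {F K V I : Type} [Field F] [Field K] [Algebra F K] [AddCommGroup V]
    [Module F V] [Fintype I] [DecidableEq I] (e : Basis I F V) (A : Module.End F V) :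
    ((Algebra.TensorProduct.basis K e).equivFun).conj (A.baseChange K) = opK K (LinearMap.toMatrix e e A) := by
  apply LinearMap.ext
  intro v
  obtain ⟨y, rfl⟩ := (Algebra.TensorProduct.basis K e).equivFun.surjective v
  rw [CoordT_conj_app, opK, Matrix.toLin'_apply]
  have h1 : (LinearMap.toMatrix e e A).map (algebraMap F K) =
      LinearMap.toMatrix (Algebra.TensorProduct.basis K e) (Algebra.TensorProduct.basis K e) (A.baseChange K) :=
    (LinearMap.toMatrix_baseChange K A e e).symm
  rw [h1]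
  exact (LinearMap.toMatrix_mulVec_repr (Algebra.TensorProduct.basis K e) (Algebra.TensorProduct.basis K e) (A.baseChange K) y).symm

theorem CoordT_lieK (hR : ∀ γ, R.M γ = LinearMap.toMatrix e e (ρ.T γ)) (K : Type) [Field K]
    [Algebra ℚ_[l] K] :
    CoordT_L (Algebra.TensorProduct.basis K e).equivFun (LieK l ρ K) = Submodule.span K (opK K '' (R.Zt l)) := by
  rw [CoordT_L, LieK, Submodule.map_span]
  congr 1
  ext X
  constructor
  · rintro ⟨_, ⟨A, hA, rfl⟩, rfl⟩
    refine ⟨LinearMap.toMatrix e e A, (CoordT_tan hR A).1 hA, ?_⟩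
    exact (CoordT_conj_base e A).symm
  · rintro ⟨M, hM, rfl⟩
    refine ⟨(Matrix.toLin e e M).baseChange K, ⟨Matrix.toLin e e M, ?_, rfl⟩, ?_⟩
    · rw [CoordT_tan hR, LinearMap.toMatrix_toLin]
      exact hM
    · have h1 := CoordT_conj_base (K := K) e (Matrix.toLin e e M)
      rw [LinearMap.toMatrix_toLin] at h1
      exact h1

end lie

theorem pCoordT : SCoordT := by
  intro l _ Γ _ _ V _ _ _ ρ I _ _ e R hR K _ _ hT W hW
  rw [← CoordT_lieK hR K] at hW ⊢
  obtain ⟨γ, h1, h2⟩ := hT _ (CoordT_irr _ hW)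
  have h3 : LinearMap.toMatrix e e (ρ.T γ - 1) = R.M γ - 1 := by
    rw [hR, map_sub, LinearMap.toMatrix_one]
  refine ⟨γ, ?_, ?_⟩
  · rw [← h3, ← LinearMap.toMatrix_mul, h1, map_zero]
  · rw [← h3, ← CoordT_conj_base]
    exact CoordT_toric _ h2

end Pool.Agent.Lib.MP_640417_ag.Tor
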