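import Pool.Agent.Lib.MP_640417_ag.Tor.SpecL
import Pool.Agent.Lib.MP_640417_ag.Glob.RadA

/-!
# One toric place: density
-/

namespace Pool.Agent.Lib.MP_640417_ag.Tor

open Module Matrix Pool.Agent.Lib.MP_640417_ag.Glob

theorem Dens_semisimple {R M : Type} [Ring R] [AddCommGroup M] [Module R M] [IsArtinian R M]
    {Γ : Type} (f : Γ → (Submodule R M ≃o Submodule R M))
    (h : ∀ N : Submodule R M, (∀ γ, f γ N = N) → ∃ N', IsCompl N N') :
    IsSemisimpleModule R M := by
  refine IsSemisimpleModule.of_sSup_simples_eq_top ?_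
  have hset : ∀ γ, f γ '' {m : Submodule R M | IsSimpleModule R m} =
      {m : Submodule R M | IsSimpleModule R m} := by
    intro γ
    ext m
    simp only [isSimpleModule_iff_isAtom, Set.mem_image, Set.mem_setOf_eq]
    constructor
    · rintro ⟨m', hm', rfl⟩
      exact ((f γ).isAtom_iff m').mpr hm'
    · intro hm
      refine ⟨(f γ).symm m, ?_, (f γ).apply_symm_apply m⟩
      exact ((f γ).symm.isAtom_iff m).mpr hm
  have hS : ∀ γ, f γ (sSup {m : Submodule R M | IsSimpleModule R m}) =
      sSup {m : Submodule R M | IsSimpleModule R m} := by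
    intro γ
    rw [OrderIso.map_sSup, ← sSup_image, hset γ]
  obtain ⟨N', hN'⟩ := h _ hS
  have hbot : N' = ⊥ := by
    haveI : IsAtomic (Submodule R M) := isAtomic_of_orderBot_wellFounded_lt wellFounded_lt
    rcases IsAtomic.eq_bot_or_exists_atom_le N' with h1 | ⟨m, hm, hmN⟩
    · exact h1
    · have h2 : m ≤ sSup {m : Submodule R M | IsSimpleModule R m} :=
        le_sSup (isSimpleModule_iff_isAtom.mpr hm)
      exact absurd (le_bot_iff.mp (hN'.disjoint h2 hmN)) hm.1
  have h3 := hN'.sup_eq_top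
  rwa [hbot, sup_bot_eq] at h3

theorem Dens_abs {F V Γ : Type} [Field F] [AddCommGroup V] [Module F V] [FiniteDimensional F V]
    (S : Subalgebra F (Module.End F V)) (m m' : Γ → Module.End F V)
    (h1 : ∀ γ v, m γ (m' γ v) = v) (h2 : ∀ γ v, m' γ (m γ v) = v)
    (hconj : ∀ γ, ∀ a ∈ S, m' γ * a * m γ ∈ S) (hconj' : ∀ γ, ∀ a ∈ S, m γ * a * m' γ ∈ S)
    (hsemi : ∀ W : Submodule F V, (∀ γ, ∀ y ∈ W, m γ y ∈ W) →
      ∃ W' : Submodule F V, (∀ a ∈ S, ∀ y ∈ W', a y ∈ W') ∧ IsCompl W W')
    (X : Module.End F V)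
    (hX : ∀ b : Module.End F V, (∀ a ∈ S, a * b = b * a) → X * b = b * X) : X ∈ S := by
  classical
  have iA : IsArtinian S V := isArtinian_of_tower F inferInstance
  have hsm : ∀ (a : S) (v : V), a • v = a.1 v := fun a v => rfl
  let f : Γ → (Submodule S V ≃o Submodule S V) := fun γ =>
    { toFun := fun N =>
        { carrier := {v | m' γ v ∈ N}
          add_mem' := by
            intro v w hv hw
            show m' γ (v + w) ∈ N
            rw [map_add]
            exact N.add_mem hv hw
          zero_mem' := by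
            show m' γ 0 ∈ N
            rw [map_zero]
            exact N.zero_mem
          smul_mem' := by
            intro a v hv
            show m' γ (a.1 v) ∈ N
            have h3 : m' γ (a.1 v) = (m' γ * a.1 * m γ) (m' γ v) := by
              rw [Module.End.mul_apply, Module.End.mul_apply, h1]
            rw [h3]
            exact N.smul_mem ⟨_, hconj γ a.1 a.2⟩ hv }
      invFun := fun N =>
        { carrier := {v | m γ v ∈ N}
          add_mem' := by
            intro v w hv hw
            show m γ (v + w) ∈ N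
            rw [map_add]
            exact N.add_mem hv hw
          zero_mem' := by
            show m γ 0 ∈ N
            rw [map_zero]
            exact N.zero_mem
          smul_mem' := by
            intro a v hv
            show m γ (a.1 v) ∈ N
            have h3 : m γ (a.1 v) = (m γ * a.1 * m' γ) (m γ v) := by
              rw [Module.End.mul_apply, Module.End.mul_apply, h2]
            rw [h3]
            exact N.smul_mem ⟨_, hconj' γ a.1 a.2⟩ hv }
      left_inv := by
        intro N
        ext v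
        show m' γ (m γ v) ∈ N ↔ v ∈ N
        rw [h2]
      right_inv := by
        intro N
        ext v
        show m γ (m' γ v) ∈ N ↔ v ∈ N
        rw [h1]
      map_rel_iff' := by
        intro N N'
        constructor
        · intro h v hv
          have h3 : m' γ (m γ v) ∈ N' := h (show m' γ (m γ v) ∈ N by
            rw [h2]
            exact hv)
          rwa [h2] at h3
        · intro h v hv
          exact h hv }
  have iS : IsSemisimpleModule S V := by
    refine Dens_semisimple f fun N hN => ?_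
    have hst : ∀ γ, ∀ y ∈ N.restrictScalars F, m γ y ∈ N.restrictScalars F := by
      intro γ y hy
      have h3 : m γ y ∈ f γ N := by
        show m' γ (m γ y) ∈ N
        rw [h2]
        exact hy
      rw [hN γ] at h3
      exact h3
    obtain ⟨W', hW', hc⟩ := hsemi (N.restrictScalars F) hst
    let N' : Submodule S V :=
      { carrier := W'
        add_mem' := fun {v w} hv hw => W'.add_mem hv hw
        zero_mem' := W'.zero_mem
        smul_mem' := fun a v hv => hW' a.1 a.2 v hv }
    refine ⟨N', ?_, ?_⟩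
    · rw [Submodule.disjoint_def]
      intro v hv hv'
      exact (Submodule.disjoint_def.mp hc.disjoint) v hv hv'
    · rw [Submodule.codisjoint_iff_exists_add_eq]
      intro v
      exact (Submodule.codisjoint_iff_exists_add_eq.mp hc.codisjoint) v
  let f0 : Module.End (Module.End S V) V :=
    { toFun := fun v => X v
      map_add' := fun v w => map_add X v w
      map_smul' := by
        intro c v
        show X (c v) = c (X v)
        have h3 := hX (c.restrictScalars F) (fun a ha => LinearMap.ext fun w => by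
          have h4 : c ((⟨a, ha⟩ : S) • w) = (⟨a, ha⟩ : S) • c w := map_smul c _ w
          exact h4.symm)
        exact LinearMap.congr_fun h3 v }
  obtain ⟨r, hr⟩ := jacobson_density (R := S) f0
    (Finset.univ.image fun i => Module.finBasis F V i)
  have hXr : X = r.1 := by
    refine (Module.finBasis F V).ext fun i => ?_
    exact hr _ (Finset.mem_image.mpr ⟨i, Finset.mem_univ i, rfl⟩)
  rw [hXr]
  exact r.2

section

variable {F : Type} [NontriviallyNormedField F] [IsUltrametricDist F] [CompleteSpace F]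
  [CharZero F] {I : Type} [Fintype I] [DecidableEq I]
  {Γ : Type} [Group Γ] [TopologicalSpace Γ] (ρ : MRep Γ F I) (l : ℕ)

theorem Dens_conj (γ : Γ) {a : Matrix I I F}
    (ha : a ∈ Algebra.adjoin F (ρ.Hh l : Set (Matrix I I F))) :
    ρ.M γ * a * ρ.M γ⁻¹ ∈ Algebra.adjoin F (ρ.Hh l : Set (Matrix I I F)) := by
  have hinv : ρ.M γ⁻¹ * ρ.M γ = 1 := by rw [← map_mul, inv_mul_cancel, map_one]
  have hinv' : ρ.M γ * ρ.M γ⁻¹ = 1 := by rw [← map_mul, mul_inv_cancel, map_one]
  induction ha using Algebra.adjoin_induction with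
  | mem x hx => exact Algebra.subset_adjoin (Hh_ad ρ l γ hx)
  | algebraMap r =>
    rw [Algebra.algebraMap_eq_smul_one, Matrix.mul_smul, Matrix.smul_mul, Matrix.mul_one, hinv',
      ← Algebra.algebraMap_eq_smul_one]
    exact Subalgebra.algebraMap_mem _ r
  | add x y _ _ hx hy =>
    rw [Matrix.mul_add, Matrix.add_mul]
    exact add_mem hx hy
  | mul x y _ _ hx hy =>
    have h1 : ρ.M γ * (x * y) * ρ.M γ⁻¹ = ρ.M γ * x * ρ.M γ⁻¹ * (ρ.M γ * y * ρ.M γ⁻¹) := by
      calc ρ.M γ * (x * y) * ρ.M γ⁻¹ = ρ.M γ * x * 1 * (y * ρ.M γ⁻¹) := by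
            rw [mul_one]
            simp only [mul_assoc]
        _ = ρ.M γ * x * ρ.M γ⁻¹ * (ρ.M γ * y * ρ.M γ⁻¹) := by
            rw [← hinv]
            simp only [mul_assoc]
    rw [h1]
    exact mul_mem hx hy

theorem Dens_vec (W : Submodule F (I → F)) (hW : ∀ γ, ∀ y ∈ W, ρ.M γ *ᵥ y ∈ W)
    {a : Matrix I I F} (ha : a ∈ Algebra.adjoin F (ρ.Hh l : Set (Matrix I I F))) :
    ∀ y ∈ W, a *ᵥ y ∈ W := by
  induction ha using Algebra.adjoin_induction with
  | mem x hx => exact fun y hy => Hh_vec ρ l hx W hW hy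
  | algebraMap r =>
    intro y hy
    rw [Algebra.algebraMap_eq_smul_one, Matrix.smul_mulVec, Matrix.one_mulVec]
    exact W.smul_mem r hy
  | add x y _ _ hx hy =>
    intro v hv
    rw [Matrix.add_mulVec]
    exact W.add_mem (hx v hv) (hy v hv)
  | mul x y _ _ hx hy =>
    intro v hv
    rw [← Matrix.mulVec_mulVec]
    exact hx _ (hy v hv)

end

theorem pDens : SDens := by
  intro F _ _ _ _ I _ _ Γ _ _ ρ l hl hl0 hsemi X hX
  classical
  let A : Subalgebra F (Matrix I I F) := Algebra.adjoin F (ρ.Hh l : Set (Matrix I I F))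
  let φ : Matrix I I F ≃ₐ[F] Module.End F (I → F) := Matrix.toLinAlgEquiv'
  have hφ : ∀ (a : Matrix I I F) (v : I → F), φ a v = a *ᵥ v := fun a v =>
    Matrix.toLinAlgEquiv'_apply a v
  have hMM : ∀ (γ : Γ) (v : I → F), φ (ρ.M γ⁻¹) (φ (ρ.M γ) v) = v := by
    intro γ v
    rw [hφ, hφ, Matrix.mulVec_mulVec, ← map_mul, inv_mul_cancel, map_one, Matrix.one_mulVec]
  have hMM' : ∀ (γ : Γ) (v : I → F), φ (ρ.M γ) (φ (ρ.M γ⁻¹) v) = v := by
    intro γ v
    rw [hφ, hφ, Matrix.mulVec_mulVec, ← map_mul, mul_inv_cancel, map_one, Matrix.one_mulVec]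
  obtain ⟨U, hU⟩ := comm_open ρ l hl hl0
  have key : φ X ∈ A.map (φ : Matrix I I F →ₐ[F] Module.End F (I → F)) := by
    refine Dens_abs (A.map (φ : Matrix I I F →ₐ[F] Module.End F (I → F)))
      (fun γ => φ (ρ.M γ)) (fun γ => φ (ρ.M γ⁻¹)) hMM' hMM ?_ ?_ ?_ (φ X) ?_
    · rintro γ _ ⟨a, ha, rfl⟩
      refine ⟨ρ.M γ⁻¹ * a * ρ.M γ, ?_, ?_⟩
      · have h1 := Dens_conj ρ l γ⁻¹ ha
        rwa [inv_inv] at h1
      · show φ (ρ.M γ⁻¹ * a * ρ.M γ) = φ (ρ.M γ⁻¹) * φ a * φ (ρ.M γ)
        rw [map_mul, map_mul]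
    · rintro γ _ ⟨a, ha, rfl⟩
      refine ⟨ρ.M γ * a * ρ.M γ⁻¹, Dens_conj ρ l γ ha, ?_⟩
      show φ (ρ.M γ * a * ρ.M γ⁻¹) = φ (ρ.M γ) * φ a * φ (ρ.M γ⁻¹)
      rw [map_mul, map_mul]
    · intro W hW
      obtain ⟨W', hW', hc⟩ := hsemi W hW
      refine ⟨W', ?_, hc⟩
      rintro _ ⟨a, ha, rfl⟩ y hy
      exact Dens_vec ρ l W' hW' ha y hy
    · intro b hb
      have h1 : ρ.InC (φ.symm b) := ⟨U, hU _ fun Y hY => by
        apply φ.injective
        rw [map_mul, map_mul, AlgEquiv.apply_symm_apply]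
        exact hb (φ Y) ⟨Y, Algebra.subset_adjoin hY, rfl⟩⟩
      have h2 := congrArg φ (hX _ h1)
      rwa [map_mul, map_mul, AlgEquiv.apply_symm_apply] at h2
  obtain ⟨Y, hY, hYX⟩ := key
  have h3 : Y = X := φ.injective hYX
  rw [← h3]
  exact hY

end Pool.Agent.Lib.MP_640417_ag.Tor
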