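import Pool.Agent.Lib.MP_640417_ag.Tor.FullL

/-!
# One toric place: the Lie algebra over an extension field
-/

namespace Pool.Agent.Lib.MP_640417_ag.Tor

open Module Matrix Pool.Agent.Lib.MP_640417_ag.Glob

section

variable {F : Type} [NontriviallyNormedField F] [IsUltrametricDist F] [CompleteSpace F]
  [CharZero F] {I : Type} [Fintype I] [DecidableEq I] {Γ : Type} [Group Γ] [TopologicalSpace Γ]
  (ρ : MRep Γ F I) (l : ℕ) (K : Type) [Field K] [Algebra F K]

/-- The Lie algebra over `K`. -/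
noncomputable def LKm : Submodule K (Module.End K (I → K)) :=
  Submodule.span K (opK K '' (ρ.Zt l))

lemma LKm_mem {A : Matrix I I F} (hA : A ∈ ρ.Zt l) : opK K A ∈ LKm ρ l K :=
  Submodule.subset_span ⟨A, hA, rfl⟩

lemma LKm_span {A : Matrix I I F} (hA : A ∈ Submodule.span F (ρ.Zt l)) : opK K A ∈ LKm ρ l K :=
  opK_span _ hA

variable (hl : ‖(l : F)‖ < 1) (hl0 : (l : F) ≠ 0)

include hl hl0 in
lemma LKm_lie : ∀ X ∈ LKm ρ l K, ∀ Y ∈ LKm ρ l K, X * Y - Y * X ∈ LKm ρ l K := by
  have hbr : ∀ A ∈ ρ.Zt l, ∀ B ∈ ρ.Zt l,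
      opK K A * opK K B - opK K B * opK K A ∈ LKm ρ l K := by
    intro A hA B hB
    obtain ⟨s, hs'⟩ := Zt_Hh ρ l hl hl0 hA
    obtain ⟨t, ht⟩ := Zt_Hh ρ l hl hl0 hB
    have h1 := LKm_span ρ l K (Hh_lie_span ρ l hl hl0 hs' ht)
    have h2 : (A - s • (1 : Matrix I I F)) * (B - t • (1 : Matrix I I F)) -
        (B - t • (1 : Matrix I I F)) * (A - s • (1 : Matrix I I F)) = A * B - B * A := by
      simp only [sub_mul, mul_sub, Matrix.smul_mul, Matrix.mul_smul, one_mul, mul_one]
      rw [smul_comm t s]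
      abel
    rw [h2, opK_sub, opK_mul, opK_mul] at h1
    exact h1
  intro X hX Y hY
  unfold LKm at hX hY
  induction hX using Submodule.span_induction with
  | mem x hx =>
    obtain ⟨A, hA, rfl⟩ := hx
    induction hY using Submodule.span_induction with
    | mem y hy =>
      obtain ⟨B, hB, rfl⟩ := hy
      exact hbr A hA B hB
    | zero => rw [mul_zero, zero_mul, sub_zero]; exact zero_mem _
    | add y z _ _ hy hz =>
      have h1 : opK K A * (y + z) - (y + z) * opK K A =
          (opK K A * y - y * opK K A) + (opK K A * z - z * opK K A) := by noncomm_ring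
      rw [h1]
      exact add_mem hy hz
    | smul c y _ hy =>
      rw [mul_smul_comm, smul_mul_assoc, ← smul_sub]
      exact Submodule.smul_mem _ _ hy
  | zero => rw [mul_zero, zero_mul, sub_zero]; exact zero_mem _
  | add x z _ _ hx hz =>
    have h1 : (x + z) * Y - Y * (x + z) = (x * Y - Y * x) + (z * Y - Y * z) := by noncomm_ring
    rw [h1]
    exact add_mem hx hz
  | smul c x _ hx =>
    rw [mul_smul_comm, smul_mul_assoc, ← smul_sub]
    exact Submodule.smul_mem _ _ hx

include hl hl0 in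
lemma LKm_mult : ∀ X ∈ LKm ρ l K, ∃ c : K, ∀ x y,
    Matrix.toBilin' (ρ.J.map (algebraMap F K)) (X x) y +
      Matrix.toBilin' (ρ.J.map (algebraMap F K)) x (X y) =
      c * Matrix.toBilin' (ρ.J.map (algebraMap F K)) x y := by
  intro X hX
  unfold LKm at hX
  induction hX using Submodule.span_induction with
  | mem x hx =>
    obtain ⟨A, hA, rfl⟩ := hx
    obtain ⟨c, hc⟩ := Zt_mult ρ l hl hl0 hA
    exact ⟨algebraMap F K c, fun x y => FullL_mult hc x y⟩
  | zero =>
    refine ⟨0, fun x y => ?_⟩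
    rw [LinearMap.zero_apply, LinearMap.zero_apply, map_zero, map_zero, LinearMap.zero_apply,
      add_zero, zero_mul]
  | add X Y _ _ hX hY =>
    obtain ⟨c, hc⟩ := hX
    obtain ⟨d, hd⟩ := hY
    refine ⟨c + d, fun x y => ?_⟩
    rw [LinearMap.add_apply, LinearMap.add_apply, map_add, map_add, LinearMap.add_apply,
      add_mul, ← hc, ← hd]
    ring
  | smul a X _ hX =>
    obtain ⟨c, hc⟩ := hX
    refine ⟨a * c, fun x y => ?_⟩
    rw [LinearMap.smul_apply, LinearMap.smul_apply, map_smul, map_smul, LinearMap.smul_apply,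
      smul_eq_mul, smul_eq_mul, mul_assoc, ← hc, mul_add]

include hl hl0 in
lemma LKm_comm [IsTopologicalGroup Γ] [CompactSpace Γ] {c : Matrix I I F} (hc : ρ.InC c) :
    ∀ X ∈ LKm ρ l K, opK K c * X = X * opK K c := by
  intro X hX
  unfold LKm at hX
  induction hX using Submodule.span_induction with
  | mem x hx =>
    obtain ⟨A, hA, rfl⟩ := hx
    obtain ⟨s, hs'⟩ := Zt_Hh ρ l hl hl0 hA
    have h1 := Hh_comm_C ρ l hl hl0 hs' hc
    have h2 : A * c = c * A := by
      rw [Matrix.sub_mul, Matrix.mul_sub, Matrix.smul_mul, Matrix.mul_smul, Matrix.one_mul,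
        Matrix.mul_one] at h1
      exact sub_left_injective h1
    rw [← opK_mul, ← opK_mul, h2]
  | zero => rw [mul_zero, zero_mul]
  | add x y _ _ hx hy => rw [mul_add, add_mul, hx, hy]
  | smul a x _ hx => rw [mul_smul_comm, smul_mul_assoc, hx]

lemma LKm_Hh : ∀ Z ∈ ρ.Hh l, ∃ s : K, opK K Z + s • (1 : Module.End K (I → K)) ∈ LKm ρ l K := by
  rintro Z ⟨-, s, hs'⟩
  refine ⟨algebraMap F K s, ?_⟩
  have h1 := LKm_span ρ l K hs'
  rwa [opK_add, opK_smul, opK_one] at h1

/-- Stable subspaces are stable under the algebra generated by the Lie algebra. -/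
lemma LKm_stab {W : Submodule K (I → K)} (hW : ∀ X ∈ LKm ρ l K, ∀ y ∈ W, X y ∈ W) :
    ∀ A ∈ Algebra.adjoin F (ρ.Hh l : Set (Matrix I I F)), ∀ y ∈ W, opK K A y ∈ W := by
  intro A hA
  induction hA using Algebra.adjoin_induction with
  | mem Z hZ =>
    intro y hy
    obtain ⟨s, hs'⟩ := LKm_Hh ρ l K Z hZ
    have h2 := W.sub_mem (hW _ hs' y hy) (W.smul_mem s hy)
    rwa [LinearMap.add_apply, LinearMap.smul_apply, Module.End.one_apply,
      add_sub_cancel_right] at h2
  | algebraMap c =>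
    intro y hy
    rw [Algebra.algebraMap_eq_smul_one, opK_smul, opK_one, LinearMap.smul_apply,
      Module.End.one_apply]
    exact W.smul_mem _ hy
  | add x z _ _ hx hz =>
    intro y hy
    rw [opK_add, LinearMap.add_apply]
    exact W.add_mem (hx y hy) (hz y hy)
  | mul x z _ _ hx hz =>
    intro y hy
    rw [opK_mul, Module.End.mul_apply]
    exact hx _ (hz y hy)

/-- What commutes with the Lie algebra commutes with the algebra it generates. -/
lemma LKm_commA {c : Module.End K (I → K)} (hc : ∀ X ∈ LKm ρ l K, c * X = X * c) :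
    ∀ A ∈ Algebra.adjoin F (ρ.Hh l : Set (Matrix I I F)), c * opK K A = opK K A * c := by
  intro A hA
  induction hA using Algebra.adjoin_induction with
  | mem Z hZ =>
    obtain ⟨s, hs'⟩ := LKm_Hh ρ l K Z hZ
    have h2 := hc _ hs'
    rw [mul_add, add_mul, mul_smul_comm, smul_mul_assoc, mul_one, one_mul] at h2
    exact add_right_cancel h2
  | algebraMap a =>
    rw [Algebra.algebraMap_eq_smul_one, opK_smul, opK_one, mul_smul_comm, smul_mul_assoc,
      mul_one, one_mul]
  | add x z _ _ hx hz => rw [opK_add, mul_add, add_mul, hx, hz]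
  | mul x z _ _ hx hz => rw [opK_mul, ← mul_assoc, hx, mul_assoc, hz, mul_assoc]

include hl hl0 in
/-- An open subgroup lies in the algebra generated by the Lie algebra. -/
lemma LKm_open [IsTopologicalGroup Γ] [CompactSpace Γ] (hDens : SDens) (hsemi : ρ.Semi) :
    ∃ U : OpenSubgroup Γ, ∀ γ ∈ U,
      ρ.M γ ∈ Algebra.adjoin F (ρ.Hh l : Set (Matrix I I F)) := by
  obtain ⟨U, hU⟩ := comm_open ρ l hl hl0
  refine ⟨U, fun γ hγ => hDens F I Γ ρ l hl hl0 hsemi (ρ.M γ) fun b hb => ?_⟩
  exact hU b (fun X hX => Hh_comm_C ρ l hl hl0 hX hb) γ hγ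

/-- Descent: `X + s ∈ L` over `K` gives `X ∈ Hh`. -/
lemma LKm_desc (hDesc : SDesc) {X : Matrix I I F} (hX : X ∈ spJ ρ.J) {s : K}
    (hs' : opK K X + s • (1 : Module.End K (I → K)) ∈ LKm ρ l K) : X ∈ ρ.Hh l := by
  let U : Submodule F (Matrix I I F) := Submodule.span F (ρ.Zt l) ⊔ Submodule.span F {1}
  have hLU : LKm ρ l K ≤ Submodule.span K (opK K '' (U : Set (Matrix I I F))) := by
    refine Submodule.span_mono ?_
    rintro _ ⟨A, hA, rfl⟩
    exact ⟨A, Submodule.mem_sup_left (Submodule.subset_span hA), rfl⟩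
  have h1U : (1 : Module.End K (I → K)) ∈ Submodule.span K (opK K '' (U : Set (Matrix I I F))) :=
    Submodule.subset_span ⟨1, Submodule.mem_sup_right (Submodule.mem_span_singleton_self _),
      opK_one⟩
  have hXU : X ∈ U := by
    apply hDesc F K I U X
    have h1 := Submodule.sub_mem _ (hLU hs') (Submodule.smul_mem _ s h1U)
    rwa [add_sub_cancel_right] at h1
  obtain ⟨A, hA, Z, hZ, hAZ⟩ := Submodule.mem_sup.mp hXU
  obtain ⟨c, rfl⟩ := Submodule.mem_span_singleton.mp hZ
  refine ⟨hX, -c, ?_⟩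
  rw [← hAZ, add_assoc, ← add_smul, add_neg_cancel, zero_smul, add_zero]
  exact hA

end

end Pool.Agent.Lib.MP_640417_ag.Tor
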