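import Pool.Agent.Lib.MP_640417_ag.Tor.RankOne

/-!
# One toric place: blocks of the symplectic Lie algebra

`spb ψ p` is the symplectic Lie algebra of the range of the self-adjoint idempotent `p`. It is simple.
-/

namespace Pool.Agent.Lib.MP_640417_ag.Tor

open Module

variable {K V : Type} [Field K] [AddCommGroup V] [Module K V]

/-- The skew operators on the range of `p`. -/
def spb (ψ : LinearMap.BilinForm K V) (p : Module.End K V) : Submodule K (Module.End K V) where
  carrier := {X | Skew ψ X ∧ p * X * p = X}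
  add_mem' := by
    rintro X Y ⟨h1, h2⟩ ⟨h3, h4⟩
    refine ⟨fun x y => ?_, ?_⟩
    · rw [LinearMap.add_apply, map_add, LinearMap.add_apply, h1, h3, LinearMap.add_apply, map_add]
      ring
    · rw [mul_add, add_mul, h2, h4]
  zero_mem' := by
    refine ⟨fun x y => ?_, ?_⟩
    · simp
    · rw [mul_zero, zero_mul]
  smul_mem' := by
    rintro c X ⟨h1, h2⟩
    refine ⟨fun x y => ?_, ?_⟩
    · rw [LinearMap.smul_apply, map_smul, LinearMap.smul_apply, h1, LinearMap.smul_apply, map_smul,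
        smul_eq_mul, smul_eq_mul, mul_neg]
    · rw [mul_smul_comm, smul_mul_assoc, h2]

lemma Skew.lie {ψ : LinearMap.BilinForm K V} {X Y : Module.End K V} (hX : Skew ψ X)
    (hY : Skew ψ Y) : Skew ψ (X * Y - Y * X) := by
  intro x y
  rw [LinearMap.sub_apply, map_sub, LinearMap.sub_apply, LinearMap.sub_apply, map_sub,
    hX.mul_mul hY, hY.mul_mul hX]
  ring

lemma RankOne_T_skew {ψ : LinearMap.BilinForm K V} (anti : ∀ x y, ψ x y = - ψ y x) (a b : V) :
    Skew ψ (RankOne_T ψ a b) := by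
  intro x y
  rw [RankOne_T_apply, RankOne_T_apply, map_add, LinearMap.add_apply, map_add, map_smul, map_smul,
    map_smul, map_smul, LinearMap.smul_apply, LinearMap.smul_apply, smul_eq_mul, smul_eq_mul,
    smul_eq_mul, smul_eq_mul, anti x a, anti x b]
  ring

section block

variable {ψ : LinearMap.BilinForm K V} {p : Module.End K V}

lemma GouA_left (hpp : p * p = p) {X : Module.End K V} (hX : X ∈ spb ψ p) : p * X = X := by
  rw [← hX.2, ← mul_assoc, ← mul_assoc, hpp]

lemma GouA_right (hpp : p * p = p) {X : Module.End K V} (hX : X ∈ spb ψ p) : X * p = X := by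
  rw [← hX.2, mul_assoc, hpp]

lemma GouA_lie (hpp : p * p = p) {X Y : Module.End K V} (hX : X ∈ spb ψ p) (hY : Y ∈ spb ψ p) :
    X * Y - Y * X ∈ spb ψ p := by
  refine ⟨hX.1.lie hY.1, ?_⟩
  have h1 : p * (X * Y - Y * X) * p = (p * X) * (Y * p) - (p * Y) * (X * p) := by noncomm_ring
  rw [h1, GouA_left hpp hX, GouA_right hpp hY, GouA_left hpp hY, GouA_right hpp hX]

lemma GouA_compress (hadj : ∀ x y, ψ (p x) y = ψ x (p y)) (a b : V) :
    p * RankOne_T ψ a b * p = RankOne_T ψ (p a) (p b) := by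
  ext x
  rw [Module.End.mul_apply, Module.End.mul_apply, RankOne_T_apply, RankOne_T_apply, map_add,
    map_smul, map_smul, hadj, hadj]

lemma GouA_T (anti : ∀ x y, ψ x y = - ψ y x) (hadj : ∀ x y, ψ (p x) y = ψ x (p y)) {a b : V}
    (ha : p a = a) (hb : p b = b) : RankOne_T ψ a b ∈ spb ψ p :=
  ⟨RankOne_T_skew anti a b, by rw [GouA_compress hadj, ha, hb]⟩

/-- There is a vector of the block with given nonzero pairing. -/
lemma GouA_pair (anti : ∀ x y, ψ x y = - ψ y x) (nd : ∀ x, (∀ y, ψ x y = 0) → x = 0) (hpp : p * p = p)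
    (hadj : ∀ x y, ψ (p x) y = ψ x (p y)) {v : V} (hv : p v = v) (hv0 : v ≠ 0) :
    ∃ c, p c = c ∧ ψ c v = 1 := by
  obtain ⟨y, hy⟩ : ∃ y, ψ v y ≠ 0 := by
    by_contra h
    push Not at h
    exact hv0 (nd v h)
  refine ⟨-(ψ v y)⁻¹ • p y, by rw [map_smul, ← Module.End.mul_apply, hpp], ?_⟩
  have h1 : ψ (p y) v = - ψ v y := by rw [anti (p y) v, ← hadj, hv]
  rw [map_smul, LinearMap.smul_apply, h1, smul_eq_mul]
  field_simp

/-- The block acts transitively on nonzero vectors. -/
lemma GouA_move (anti : ∀ x y, ψ x y = - ψ y x) (nd : ∀ x, (∀ y, ψ x y = 0) → x = 0)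
    (hpp : p * p = p) (hadj : ∀ x y, ψ (p x) y = ψ x (p y)) {v a : V} (hv : p v = v)
    (hv0 : v ≠ 0) (ha : p a = a) [CharZero K] : ∃ X ∈ spb ψ p, X v = a := by
  obtain ⟨c, hc, hcv⟩ := GouA_pair anti nd hpp hadj hv hv0
  refine ⟨RankOne_T ψ c a - (ψ a v / 2) • RankOne_T ψ c c,
    sub_mem (GouA_T anti hadj hc ha) (Submodule.smul_mem _ _ (GouA_T anti hadj hc hc)), ?_⟩
  rw [LinearMap.sub_apply, LinearMap.smul_apply, RankOne_T_apply, RankOne_T_apply, hcv]
  module

/-- The block is simple. -/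
lemma GouA_simple (anti : ∀ x y, ψ x y = - ψ y x) (alt : ∀ x, ψ x x = 0)
    (nd : ∀ x, (∀ y, ψ x y = 0) → x = 0)
    (hpp : p * p = p) (hadj : ∀ x y, ψ (p x) y = ψ x (p y)) [CharZero K] [FiniteDimensional K V]
    (a : Submodule K (Module.End K V)) (hle : a ≤ spb ψ p)
    (hlie : ∀ Z ∈ spb ψ p, ∀ Y ∈ a, Z * Y - Y * Z ∈ a) {Y : Module.End K V} (hY : Y ∈ a)
    (hY0 : Y ≠ 0) : spb ψ p ≤ a := by
  have hYs := hle hY
  obtain ⟨v, hv, hvY⟩ : ∃ v, p v = v ∧ ψ v (Y v) ≠ 0 := by
    by_contra hne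
    push Not at hne
    apply hY0
    have h1 : ∀ x, ψ x (Y x) = 0 := by
      intro x
      have h2 := hne (p x) (by rw [← Module.End.mul_apply, hpp])
      rw [hadj, ← Module.End.mul_apply, ← Module.End.mul_apply, hYs.2] at h2
      exact h2
    ext y
    rw [LinearMap.zero_apply]
    apply nd
    intro x
    have h3 := h1 (x + y)
    rw [map_add, map_add, LinearMap.add_apply, map_add, map_add, h1 x, h1 y] at h3
    have h4 : ψ x (Y y) = - ψ (Y y) x := anti _ _
    have h5 : ψ y (Y x) = - ψ (Y y) x := by rw [hYs.1 y x, neg_neg]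
    have h6 : (2 : K) * ψ (Y y) x = 0 := by linear_combination h4 + h5 - h3
    exact (mul_eq_zero.mp h6).resolve_left two_ne_zero
  have hv0 : v ≠ 0 := by
    rintro rfl
    apply hvY
    simp
  have hYv : p (Y v) = Y v := by rw [← Module.End.mul_apply, GouA_left hpp hYs]
  have hT : RankOne_T ψ v v ∈ spb ψ p := GouA_T anti hadj hv hv
  have hTa : RankOne_T ψ v v ∈ a := by
    have h1 := hlie _ hT _ (hlie _ hT Y hY)
    have h2 : RankOne_T ψ v v * Y - Y * RankOne_T ψ v v = -((2 : K) • RankOne_T ψ v (Y v)) := by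
      rw [← neg_sub, RankOne_lie hYs.1, RankOne_T_comm ψ (Y v) v, two_smul]
    have h3 : RankOne_T ψ v v * (-((2 : K) • RankOne_T ψ v (Y v))) -
        (-((2 : K) • RankOne_T ψ v (Y v))) * RankOne_T ψ v v =
        (-(4 * ψ v (Y v))) • RankOne_T ψ v v := by
      have h4 : RankOne_T ψ v v * (-((2 : K) • RankOne_T ψ v (Y v))) -
        (-((2 : K) • RankOne_T ψ v (Y v))) * RankOne_T ψ v v =
        -((2 : K) • (RankOne_T ψ v v * RankOne_T ψ v (Y v)
          - RankOne_T ψ v (Y v) * RankOne_T ψ v v)) := by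
        rw [mul_neg, neg_mul, mul_smul_comm, smul_mul_assoc, smul_sub]
        abel
      rw [h4, RankOne_lie hT.1, RankOne_T_apply, RankOne_T_apply, alt, zero_smul, add_zero,
        ← add_smul, RankOne_T_smul]
      have h5 : RankOne_T ψ (0 : V) (Y v) = 0 := by
        have h6 := RankOne_T_smul' ψ (0 : K) (Y v) (0 : V)
        rwa [zero_smul, zero_smul] at h6
      rw [h5, zero_add]
      module
    rw [h2, h3] at h1
    have h4 := a.smul_mem (-(4 * ψ v (Y v)))⁻¹ h1
    rwa [smul_smul, inv_mul_cancel₀ (neg_ne_zero.mpr (mul_ne_zero (by norm_num) hvY)),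
      one_smul] at h4
  have hTva : ∀ b, p b = b → RankOne_T ψ v b ∈ a := by
    intro b hb
    obtain ⟨X, hX, hXv⟩ := GouA_move anti nd hpp hadj hv hv0 hb
    have h1 := hlie X hX _ hTa
    rw [RankOne_lie hX.1, hXv, RankOne_T_comm ψ b v, ← two_smul K] at h1
    have h2 := a.smul_mem (2 : K)⁻¹ h1
    rwa [smul_smul, inv_mul_cancel₀ two_ne_zero, one_smul] at h2
  have hTab : ∀ c b, p c = c → p b = b → RankOne_T ψ c b ∈ a := by
    intro c b hc hb
    obtain ⟨X, hX, hXv⟩ := GouA_move anti nd hpp hadj hv hv0 hc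
    have h1 := hlie X hX _ (hTva b hb)
    rw [RankOne_lie hX.1, hXv] at h1
    have h2 := a.sub_mem h1 (hTva (X b) (by rw [← Module.End.mul_apply, GouA_left hpp hX]))
    rwa [add_sub_cancel_right] at h2
  let g : Submodule K (Module.End K V) :=
    { carrier := {Z | p * Z * p ∈ a}
      add_mem' := by
        intro X Y hX hY
        change p * (X + Y) * p ∈ a
        rw [mul_add, add_mul]
        exact a.add_mem hX hY
      zero_mem' := by
        change p * 0 * p ∈ a
        rw [mul_zero, zero_mul]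
        exact a.zero_mem
      smul_mem' := by
        intro c X hX
        change p * (c • X) * p ∈ a
        rw [mul_smul_comm, smul_mul_assoc]
        exact a.smul_mem c hX }
  intro X hX
  have h1 : X ∈ g := RankOne_all alt nd anti g (fun c b => by
    change p * RankOne_T ψ c b * p ∈ a
    rw [GouA_compress hadj]
    exact hTab _ _ (by rw [← Module.End.mul_apply, hpp]) (by rw [← Module.End.mul_apply, hpp]))
    hX.1
  have h2 : p * X * p ∈ a := h1
  rwa [hX.2] at h2

end block

end Pool.Agent.Lib.MP_640417_ag.Tor
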