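import Pool.Agent.Lib.MP_640417_ag.Tor.SpecL
import Pool.Agent.Lib.MP_640417_ag.Glob.Main

/-!
# Unipotent elements with `(M γ - 1) ^ 2 = 0` give elements of the Lie algebra
-/

set_option autoImplicit false

namespace Pool.Agent.Lib.MP_640417_ag.Tor

open Module Filter Topology Pool.Agent.Lib.MP_640417_ag.Glob

theorem Nil_pow {R : Type} [Ring R] (N : R) (hN : N * N = 0) (m : ℕ) :
    (1 + N) ^ m = 1 + (m : R) * N := by
  induction m with
  | zero => simp
  | succ m ih =>
    rw [pow_succ, ih, mul_add, mul_one, add_mul, one_mul, mul_assoc, hN, mul_zero, add_zero]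
    push_cast
    rw [add_mul, one_mul]
    abel

theorem pNil : SNil := by
  intro F _ _ _ _ I _ _ Γ _ _ ρ l hl hl0 γ hN
  set N := ρ.M γ - 1 with hNdef
  have hM : ρ.M γ = 1 + N := by rw [hNdef]; abel
  have hZ : N ∈ ρ.Zt l := by
    refine ⟨fun k => γ ^ (l ^ k), ?_⟩
    have h1 : (fun k : ℕ => ((l : F) ^ k)⁻¹ • (ρ.M (γ ^ (l ^ k)) - 1)) = fun _ => N := by
      funext k
      rw [map_pow, hM, Nil_pow N hN, add_sub_cancel_left]
      have h2 : (((l ^ k : ℕ) : Matrix I I F)) * N = ((l : F) ^ k) • N := by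
        have h3 : ((l ^ k : ℕ) : Matrix I I F) = ((l : F) ^ k) • (1 : Matrix I I F) := by
          rw [← Nat.cast_pow, Nat.cast_smul_eq_nsmul, nsmul_eq_mul, mul_one]
        rw [h3, Matrix.smul_mul, one_mul]
      rw [h2, smul_smul, inv_mul_cancel₀ (pow_ne_zero k hl0), one_smul]
    rw [h1]
    exact tendsto_const_nhds
  refine ⟨hZ, ?_⟩
  obtain ⟨c, hc⟩ := Zt_mult ρ l hl hl0 hZ
  have htr := trace_of_mult ρ.J ρ.det N c hc
  have hnil : IsNilpotent N := ⟨2, by rw [pow_two]; exact hN⟩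
  have ht0 : N.trace = 0 := (Matrix.isNilpotent_trace_of_isNilpotent hnil).eq_zero
  rw [ht0, mul_zero] at htr
  rw [mem_spJ, hc]
  rcases mul_eq_zero.1 htr.symm with h1 | h1
  · rw [h1, zero_smul]
  · have h2 : Fintype.card I = 0 := by exact_mod_cast h1
    haveI : IsEmpty I := Fintype.card_eq_zero_iff.1 h2
    exact Subsingleton.elim _ _

end Pool.Agent.Lib.MP_640417_ag.Tor
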