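import Pool.Agent.Lib.MP_640417_ag.Tor.GouA

/-!
# One toric place: extremal elements of a block
-/

namespace Pool.Agent.Lib.MP_640417_ag.Tor

open Module

variable {K V : Type} [Field K] [AddCommGroup V] [Module K V] {ψ : LinearMap.BilinForm K V}
  {p : Module.End K V}

lemma GouB_Tvv_ne [CharZero K] (nd : ∀ x, (∀ y, ψ x y = 0) → x = 0) {v : V} (hv : v ≠ 0) :
    RankOne_T ψ v v ≠ 0 := by
  intro h0
  obtain ⟨y, hy⟩ : ∃ y, ψ v y ≠ 0 := by
    by_contra h
    push Not at h
    exact hv (nd v h)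
  have h1 := LinearMap.congr_fun h0 y
  rw [RankOne_T_apply, LinearMap.zero_apply, ← add_smul, ← two_mul] at h1
  exact (smul_ne_zero (mul_ne_zero two_ne_zero hy) hv) h1

lemma GouB_T_ne [CharZero K] (nd : ∀ x, (∀ y, ψ x y = 0) → x = 0) {u w : V}
    (h0 : RankOne_T ψ u w = 0) : u = 0 ∨ w = 0 := by
  by_contra hne
  push Not at hne
  obtain ⟨hu, hw⟩ := hne
  obtain ⟨y, hy⟩ : ∃ y, ψ u y ≠ 0 := by
    by_contra h
    push Not at h
    exact hu (nd u h)
  have h1 := LinearMap.congr_fun h0 y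
  rw [RankOne_T_apply, LinearMap.zero_apply] at h1
  have h2 : w = (-(ψ u y)⁻¹ * ψ w y) • u := by
    have h3 : ψ u y • w = -(ψ w y • u) := eq_neg_of_add_eq_zero_left h1
    calc w = (ψ u y)⁻¹ • (ψ u y • w) := by rw [smul_smul, inv_mul_cancel₀ hy, one_smul]
      _ = (ψ u y)⁻¹ • (-(ψ w y • u)) := by rw [h3]
      _ = (-(ψ u y)⁻¹ * ψ w y) • u := by module
  rw [h2, RankOne_T_smul] at h0
  rcases smul_eq_zero.mp h0 with h3 | h3
  · rw [h3, zero_smul] at h2
    exact hw h2
  · exact GouB_Tvv_ne nd hu h3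

/-- The products of the operators `T v v`. -/
lemma GouB_TXT {X : Module.End K V} (v : V) :
    RankOne_T ψ v v * X * RankOne_T ψ v v = (2 * ψ v (X v)) • RankOne_T ψ v v := by
  ext y
  rw [Module.End.mul_apply, Module.End.mul_apply, LinearMap.smul_apply, RankOne_T_apply,
    RankOne_T_apply, map_add, map_smul, map_add, map_smul]
  module

lemma GouB_TT (alt : ∀ x, ψ x x = 0) (v : V) : RankOne_T ψ v v * RankOne_T ψ v v = 0 := by
  ext y
  rw [Module.End.mul_apply, RankOne_T_apply ψ v v y, map_add, map_smul, RankOne_T_apply, alt,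
    zero_smul, add_zero, smul_zero, add_zero, LinearMap.zero_apply]

/-- Extremal elements have square zero. -/
lemma GouB_sq [CharZero K] [IsAlgClosed K] [FiniteDimensional K V]
    (anti : ∀ x y, ψ x y = - ψ y x) (nd : ∀ x, (∀ y, ψ x y = 0) → x = 0)
    (hpp : p * p = p) (hadj : ∀ x y, ψ (p x) y = ψ x (p y)) {a : Module.End K V}
    (ha : a ∈ spb ψ p)
    (hext : ∀ X ∈ spb ψ p, ∃ c : K, a * (a * X - X * a) - (a * X - X * a) * a = c • a) :
    a * a = 0 := by
  have hpa := GouA_left hpp ha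
  have hap := GouA_right hpp ha
  have key : ∀ x, p x = x → (3 : K) • RankOne_T ψ (a x) (a (a x)) +
      RankOne_T ψ x (a (a (a x))) = 0 := by
    intro x hx
    obtain ⟨c, hc⟩ := hext _ (GouA_T anti hadj hx hx)
    have h1 : a * RankOne_T ψ x x - RankOne_T ψ x x * a = (2 : K) • RankOne_T ψ x (a x) := by
      rw [RankOne_lie ha.1, RankOne_T_comm ψ (a x) x, two_smul]
    have h2 : a * ((2 : K) • RankOne_T ψ x (a x)) - ((2 : K) • RankOne_T ψ x (a x)) * a =
        (2 : K) • (RankOne_T ψ (a x) (a x) + RankOne_T ψ x (a (a x))) := by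
      rw [mul_smul_comm, smul_mul_assoc, ← smul_sub, RankOne_lie ha.1]
    rw [h1, h2] at hc
    have h3 : a * ((2 : K) • (RankOne_T ψ (a x) (a x) + RankOne_T ψ x (a (a x)))) -
        ((2 : K) • (RankOne_T ψ (a x) (a x) + RankOne_T ψ x (a (a x)))) * a = 0 := by
      rw [hc, mul_smul_comm, smul_mul_assoc, sub_self]
    have h4 : a * ((2 : K) • (RankOne_T ψ (a x) (a x) + RankOne_T ψ x (a (a x)))) -
        ((2 : K) • (RankOne_T ψ (a x) (a x) + RankOne_T ψ x (a (a x)))) * a =
        (2 : K) • ((a * RankOne_T ψ (a x) (a x) - RankOne_T ψ (a x) (a x) * a)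
          + (a * RankOne_T ψ x (a (a x)) - RankOne_T ψ x (a (a x)) * a)) := by
      rw [mul_smul_comm, smul_mul_assoc, mul_add, add_mul, ← smul_sub]
      congr 1
      abel
    rw [h4, RankOne_lie ha.1, RankOne_lie ha.1, RankOne_T_comm ψ (a (a x)) (a x)] at h3
    have h5 := (smul_eq_zero.mp h3).resolve_left two_ne_zero
    rw [← h5]
    module
  have h3 : ∀ x, p x = x → a (a (a x)) = 0 → a (a x) = 0 := by
    intro x hx h0
    have h1 := key x hx
    rw [h0] at h1
    have h2 : RankOne_T ψ x (0 : V) = 0 := by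
      have h3 := RankOne_T_smul ψ (0 : K) x (0 : V)
      rwa [zero_smul, zero_smul] at h3
    rw [h2, add_zero] at h1
    rcases GouB_T_ne nd ((smul_eq_zero.mp h1).resolve_left (by norm_num)) with h4 | h4
    · rw [h4, map_zero]
    · exact h4
  -- the eigenvectors
  have h4 : ∀ (x : V) (c : K), a x = c • x → c ≠ 0 → x = 0 := by
    intro x c hx hc
    have hpx : p x = x := by
      have h5 : x = c⁻¹ • a x := by rw [hx, smul_smul, inv_mul_cancel₀ hc, one_smul]
      rw [h5, map_smul, ← Module.End.mul_apply, hpa]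
    have h5 := key x hpx
    rw [hx, map_smul, hx, map_smul, map_smul, hx] at h5
    simp only [RankOne_T_smul, RankOne_T_smul'] at h5
    have h6 : (4 * (c * (c * c))) • RankOne_T ψ x x = 0 := by
      rw [← h5]
      module
    by_contra hx0
    rcases smul_eq_zero.mp h6 with h7 | h7
    · have h8 : (4 : K) * (c * (c * c)) ≠ 0 :=
        mul_ne_zero (by norm_num) (mul_ne_zero hc (mul_ne_zero hc hc))
      exact h8 h7
    · exact GouB_Tvv_ne nd hx0 h7
  by_contra hne
  let R : Submodule K V := LinearMap.range (a * a)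
  have hstab : ∀ y ∈ R, a y ∈ R := by
    rintro _ ⟨y, rfl⟩
    exact ⟨a y, rfl⟩
  have hR : Nontrivial R := by
    rw [Submodule.nontrivial_iff_ne_bot]
    intro h0
    exact hne (LinearMap.range_eq_bot.mp h0)
  obtain ⟨c, hc⟩ := Module.End.exists_eigenvalue (a.restrict hstab)
  obtain ⟨⟨x, hx⟩, hxc⟩ := hc.exists_hasEigenvector
  have hx0 : x ≠ 0 := fun h => hxc.2 (Subtype.ext h)
  have hxe : a x = c • x := congrArg Subtype.val (Module.End.HasEigenvector.apply_eq_smul hxc)
  by_cases hc0 : c = 0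
  · obtain ⟨y, hy⟩ := hx
    rw [hc0, zero_smul] at hxe
    have h5 : a (a (p y)) = x := by
      rw [← Module.End.mul_apply a p, hap, ← Module.End.mul_apply, hy]
    have h6 := h3 (p y) (by rw [← Module.End.mul_apply, hpp]) (by rw [h5, hxe])
    rw [h5] at h6
    exact hx0 h6
  · exact hx0 (h4 x c hxe hc0)

/-- Primitive elements of a block have rank one. -/
lemma GouB_form [CharZero K] (anti : ∀ x y, ψ x y = - ψ y x)
    (nd : ∀ x, (∀ y, ψ x y = 0) → x = 0)
    (hpp : p * p = p) (hadj : ∀ x y, ψ (p x) y = ψ x (p y)) {a : Module.End K V}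
    (ha : a ∈ spb ψ p) (ha0 : a ≠ 0)
    (hprim : ∀ X ∈ spb ψ p, ∃ c : K, a * X * a = c • a) :
    ∃ (v : V) (s : K), a = s • RankOne_T ψ v v := by
  have hpa := GouA_left hpp ha
  have hap := GouA_right hpp ha
  obtain ⟨x, hx⟩ : ∃ x, a x ≠ 0 := by
    by_contra h
    push Not at h
    exact ha0 (LinearMap.ext h)
  obtain ⟨c, hc⟩ := hprim _ (GouA_T anti hadj (a := p x) (b := p x)
    (by rw [← Module.End.mul_apply, hpp]) (by rw [← Module.End.mul_apply, hpp]))
  have h1 : a * RankOne_T ψ (p x) (p x) * a = - RankOne_T ψ (a x) (a x) := by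
    ext y
    rw [Module.End.mul_apply, Module.End.mul_apply, LinearMap.neg_apply, RankOne_T_apply,
      RankOne_T_apply, map_add, map_smul, ← Module.End.mul_apply a p, hap, ha.1 x y]
    have h2 : ψ (p x) (a y) = ψ x (a y) := by
      rw [hadj, ← Module.End.mul_apply, hpa]
    rw [h2]
    module
  rw [h1] at hc
  have hc0 : c ≠ 0 := by
    rintro rfl
    rw [zero_smul, neg_eq_zero] at hc
    exact GouB_Tvv_ne nd hx hc
  refine ⟨a x, -c⁻¹, ?_⟩
  rw [neg_smul, ← smul_neg, hc, smul_smul, inv_mul_cancel₀ hc0, one_smul]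

end Pool.Agent.Lib.MP_640417_ag.Tor
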