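import Pool.Agent.Lib.MP_640417_ag.Tor.Spec
import Pool.Agent.Lib.MP_640417_ag.Tor.Base
import Pool.Agent.Lib.MP_640417_ag.Tor.Adj

/-!
# One toric place: the trace form is nondegenerate on every ideal
-/

namespace Pool.Agent.Lib.MP_640417_ag.Tor

open Module

attribute [local instance 100] LieRing.ofAssociativeRing

variable {K V : Type} [Field K] [AddCommGroup V] [Module K V]

/-- The Lie subalgebra with a given underlying space. -/
def Tr_sub (g : Submodule K (Module.End K V)) (hl : ∀ X ∈ g, ∀ Y ∈ g, X * Y - Y * X ∈ g) :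
    LieSubalgebra K (Module.End K V) :=
  { g with
    lie_mem' := by
      intro x y hx hy
      rw [LieRing.of_associative_ring_bracket]
      exact hl x hx y hy }

lemma Tr_mem (g : Submodule K (Module.End K V)) (hl : ∀ X ∈ g, ∀ Y ∈ g, X * Y - Y * X ∈ g)
    (X : Module.End K V) : X ∈ Tr_sub g hl ↔ X ∈ g := Iff.rfl

/-- A space of operators closed under brackets with vanishing trace form has a vector which is killed
by all brackets. -/
lemma Tr_vec [CharZero K] [FiniteDimensional K V] [Nontrivial V]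
    (R : Submodule K (Module.End K V)) (hl : ∀ X ∈ R, ∀ Y ∈ R, X * Y - Y * X ∈ R)
    (htr : ∀ X ∈ R, ∀ Y ∈ R, tr (X * Y) = 0) :
    ∃ v : V, v ≠ 0 ∧ ∀ X ∈ R, ∀ Y ∈ R, (X * Y - Y * X) v = 0 := by
  let L := Tr_sub R hl
  have h0 : LieModule.traceForm K L V = 0 := by
    ext x y
    rw [LieModule.traceForm_apply_apply]
    exact htr x.1 x.2 y.1 y.2
  have := LieModule.isNilpotent_derivedSeries_of_traceForm_eq_zero h0
  have h10 := LieModule.nontrivial_max_triv_of_isNilpotent K
    (LieAlgebra.derivedSeries K L 1) V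
  obtain ⟨⟨v, hv⟩, hv0⟩ := exists_ne (0 : LieModule.maxTrivSubmodule K
    (LieAlgebra.derivedSeries K L 1) V)
  refine ⟨v, fun h => hv0 (Subtype.ext h), fun X hX Y hY => ?_⟩
  rw [LieModule.mem_maxTrivSubmodule] at hv
  have h1 : (⁅(⟨X, hX⟩ : L), (⟨Y, hY⟩ : L)⁆ : L) ∈ LieAlgebra.derivedSeries K L 1 := by
    rw [LieAlgebra.derivedSeries_def, LieAlgebra.derivedSeriesOfIdeal_succ,
      LieAlgebra.derivedSeriesOfIdeal_zero]
    exact LieSubmodule.lie_mem_lie (LieSubmodule.mem_top _) (LieSubmodule.mem_top _)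
  have h2 := hv ⟨_, h1⟩
  exact h2

/-- The trace form is nondegenerate on every ideal. -/
theorem pTr : STr := by
  intro K V _ _ _ _ _ _ _ ψ g hg a ha X hX hX0
  -- the radical of the trace form
  let R : Submodule K (Module.End K V) :=
    { carrier := {X | X ∈ a ∧ ∀ Y ∈ a, tr (X * Y) = 0}
      add_mem' := by
        rintro X Z ⟨h1, h2⟩ ⟨h3, h4⟩
        refine ⟨add_mem h1 h3, fun Y hY => ?_⟩
        have h5 := h2 Y hY
        have h6 := h4 Y hY
        unfold tr at h5 h6 ⊢
        rw [add_mul, map_add, h5, h6, add_zero]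
      zero_mem' := ⟨zero_mem _, fun Y _ => by unfold tr; rw [zero_mul, map_zero]⟩
      smul_mem' := by
        rintro c X ⟨h1, h2⟩
        refine ⟨Submodule.smul_mem _ _ h1, fun Y hY => ?_⟩
        have h5 := h2 Y hY
        unfold tr at h5 ⊢
        rw [smul_mul_assoc, map_smul, h5, smul_zero] }
  have hRa : ∀ Y ∈ R, Y ∈ a := fun Y h => h.1
  have hRid : ∀ Z ∈ g, ∀ Y ∈ R, Z * Y - Y * Z ∈ R := by
    rintro Z hZ Y ⟨h1, h2⟩
    refine ⟨ha.lie Z hZ Y h1, fun W hW => ?_⟩
    have h3 := h2 (W * Z - Z * W) (by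
      have := a.neg_mem (ha.lie Z hZ W hW)
      rwa [neg_sub] at this)
    unfold tr at h3 ⊢
    have h4 : (Z * Y - Y * Z) * W = Z * (Y * W) - Y * Z * W := by noncomm_ring
    have h5 : Y * (W * Z - Z * W) = Y * W * Z - Y * Z * W := by noncomm_ring
    rw [h5, map_sub] at h3
    rw [h4, map_sub, LinearMap.trace_mul_comm]
    exact h3
  have hRR : ∀ Y ∈ R, ∀ Z ∈ R, Y * Z - Z * Y ∈ R := fun Y hY Z hZ =>
    hRid Y (ha.le (hRa Y hY)) Z hZ
  obtain ⟨v, hv0, hv⟩ := Tr_vec R hRR (fun Y hY Z hZ => hY.2 Z (hRa Z hZ))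
  -- the brackets vanish
  let W : Submodule K V :=
    { carrier := {v | ∀ Y ∈ R, ∀ Z ∈ R, (Y * Z - Z * Y) v = 0}
      add_mem' := by
        intro v w hv hw Y hY Z hZ
        rw [map_add, hv Y hY Z hZ, hw Y hY Z hZ, add_zero]
      zero_mem' := fun Y _ Z _ => map_zero _
      smul_mem' := by
        intro c v hv Y hY Z hZ
        rw [map_smul, hv Y hY Z hZ, smul_zero] }
  have hWst : ∀ Z ∈ g, ∀ w ∈ W, Z w ∈ W := by
    intro T hT w hw Y hY Z hZ
    have h1 : (Y * Z - Z * Y) * T = T * (Y * Z - Z * Y)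
        - ((T * Y - Y * T) * Z - Z * (T * Y - Y * T))
        - (Y * (T * Z - Z * T) - (T * Z - Z * T) * Y) := by noncomm_ring
    rw [← Module.End.mul_apply, h1, LinearMap.sub_apply, LinearMap.sub_apply,
      Module.End.mul_apply, hw Y hY Z hZ, hw _ (hRid T hT Y hY) Z hZ, hw Y hY _ (hRid T hT Z hZ),
      map_zero, sub_zero, sub_zero]
  have hWtop : W = ⊤ := by
    rcases hg.irr W hWst with h | h
    · exfalso
      apply hv0
      have h1 : v ∈ W := hv
      rw [h] at h1
      exact (Submodule.mem_bot K).mp h1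
    · exact h
  have hcomm : ∀ Y ∈ R, ∀ Z ∈ R, Y * Z = Z * Y := by
    intro Y hY Z hZ
    rw [← sub_eq_zero]
    ext w
    have h1 : w ∈ W := by rw [hWtop]; exact Submodule.mem_top
    exact h1 Y hY Z hZ
  -- the radical of `g`
  let L := Tr_sub g hg.lie
  have : LieModule.IsIrreducible K L V := by
    refine LieModule.IsIrreducible.mk (fun N hN => ?_)
    rcases hg.irr N.toSubmodule (fun Z hZ y hy => N.lie_mem (x := (⟨Z, hZ⟩ : L)) hy) with h | h
    · exfalso
      apply hN
      rwa [LieSubmodule.toSubmodule_eq_bot] at h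
    · rwa [LieSubmodule.toSubmodule_eq_top] at h
  have : LieModule.IsFaithful K L V := by
    rw [LieModule.isFaithful_iff']
    intro x hx
    apply Subtype.ext
    ext w
    exact hx w
  have htr0 : ∀ x : L, LinearMap.trace K _ (LieModule.toEnd K L V x) = 0 := by
    intro x
    have h1 : LieModule.toEnd K L V x = x.1 := rfl
    rw [h1]
    exact tr_skew ψ hg.nd (hg.sp x.1 x.2)
  have : LieAlgebra.HasTrivialRadical K L :=
    LieAlgebra.hasTrivialRadical_of_isIrreducible_of_isFaithful K L V htr0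
  let I : LieIdeal K L :=
    { carrier := {x : L | x.1 ∈ R}
      add_mem' := fun {x y} hx hy => R.add_mem hx hy
      zero_mem' := R.zero_mem
      smul_mem' := fun c x hx => R.smul_mem c hx
      lie_mem := by
        intro x m hm
        exact hRid x.1 x.2 m.1 hm }
  have : IsLieAbelian I := by
    refine ⟨fun x y => ?_⟩
    apply Subtype.ext
    apply Subtype.ext
    exact sub_eq_zero.mpr (hcomm x.1.1 x.2 y.1.1 y.2)
  have hsolv : LieAlgebra.IsSolvable I := inferInstance
  rw [LieAlgebra.LieIdeal.solvable_iff_le_radical,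
    LieAlgebra.HasTrivialRadical.radical_eq_bot, le_bot_iff] at hsolv
  have hXI : (⟨X, ha.le hX⟩ : L) ∈ I := ⟨hX, hX0⟩
  rw [hsolv, LieSubmodule.mem_bot] at hXI
  exact congrArg Subtype.val hXI

end Pool.Agent.Lib.MP_640417_ag.Tor
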