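import Pool.Agent.Lib.MP_640417_ag.Tor.Spec
import Pool.Agent.Lib.MP_640417_ag.Tor.Base
import Pool.Agent.Lib.MP_640417_ag.Tor.Adj

/-!
# One toric place: square roots of `1/4` lie in the ideal of a primitive element of odd rank
-/

namespace Pool.Agent.Lib.MP_640417_ag.Tor

open Module

/-- An operator for which every vector of the range of the idempotent `q` is an eigenvector is a
scalar there. -/
lemma Coch_scalar {K V : Type} [Field K] [AddCommGroup V] [Module K V] {q B : Module.End K V}
    (hq : q * q = q) (hB : B * q = B)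
    (h : ∀ u : V, q u = u → ∃ c : K, B u = c • u) : ∃ c : K, B = c • q := by
  by_cases h0 : ∃ u : V, q u = u ∧ u ≠ 0
  · obtain ⟨u, hu, hu0⟩ := h0
    obtain ⟨c, hc⟩ := h u hu
    refine ⟨c, ?_⟩
    have key : ∀ v : V, q v = v → B v = c • v := by
      intro v hv
      obtain ⟨d, hd⟩ := h v hv
      obtain ⟨s, hs⟩ := h (u + v) (by rw [map_add, hu, hv])
      rw [map_add, hc, hd, smul_add] at hs
      by_cases hv0 : v = 0
      · rw [hv0, map_zero, smul_zero]
      by_cases hlin : LinearIndependent K ![u, v]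
      · rw [LinearIndependent.pair_iff] at hlin
        have h1 := hlin (c - s) (d - s) (by
          rw [sub_smul, sub_smul]
          have : c • u - s • u + (d • v - s • v) = (c • u + d • v) - (s • u + s • v) := by abel
          rw [this, hs, sub_self])
        rw [hd]
        congr 1
        linear_combination h1.2 - h1.1
      · rw [LinearIndependent.pair_iff' hu0] at hlin
        push Not at hlin
        obtain ⟨r, hr⟩ := hlin
        rw [← hr, map_smul, hc, smul_smul, smul_smul, mul_comm]
    ext v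
    rw [LinearMap.smul_apply, ← key (q v) (by rw [← Module.End.mul_apply, hq]),
      ← Module.End.mul_apply, hB]
  · push Not at h0
    refine ⟨0, ?_⟩
    rw [zero_smul]
    ext v
    rw [← hB, Module.End.mul_apply, h0 (q v) (by rw [← Module.End.mul_apply, hq]), map_zero,
      LinearMap.zero_apply]

/-- Square roots of `1/4` lie in the ideal of a primitive element of odd rank. -/
theorem pCoch (hDec : SDec) (hZero : SZero) (hAdapt : SAdapt) (hKey : SKey) (hStab : SStab) :
    SCoch := by
  intro K V _ _ _ _ _ _ _ ψ g hg e₀ hP₀ hodd₀ t₀ ht₀ htt₀ b hb he₀b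
  obtain ⟨e, f, t, hA, hP, hrk, ht, hid⟩ := hAdapt K V ψ g hg e₀ hP₀ hodd₀ t₀ ht₀ htt₀
  have hS := hA.toSl
  have hodd : Odd (rk e) := by rw [hrk]; exact hodd₀
  have heb : e ∈ b := hid b hb he₀b
  have hkey := hKey K V ψ g hg e f t hA hP hodd
  obtain ⟨a, ha, hea, hmin, hst⟩ := hStab K V g hg.lie e f hP hS hkey
  have hab : a ≤ b := hmin b hb heb
  suffices hta : t ∈ a by
    rcases ht with h | h
    · rw [← h]
      exact hab hta
    · have h1 := b.neg_mem (hab hta)
      rwa [h, neg_neg] at h1
  obtain ⟨t₁, ht₁, t₂, ht₂, hsum, hcomm⟩ := hDec K V ψ g hg a ha t hA.mt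
  have h1 : t₁ * e - e * t₁ = e := by
    have h2 : t₁ * e - e * t₁ = (t * e - e * t) - (t₂ * e - e * t₂) := by
      rw [hsum]
      noncomm_ring
    rw [h2, hcomm e hea, sub_self, sub_zero, hA.te, hA.et]
    module
  -- `f t₁ e` is a scalar on the range of `q`
  obtain ⟨c, hc⟩ : ∃ c : K, f * t₁ * e = c • (f * e) := by
    refine Coch_scalar hS.qq ?_ fun u hu => ?_
    · rw [mul_assoc, hS.eq]
    · have hmem : e u ∈ Lu g e f u := ⟨0, 1, 0, zero_mem _, by
        rw [zero_smul, LinearMap.zero_apply, one_smul, zero_add, zero_add]⟩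
      obtain ⟨α, γ, x, hx, hxe⟩ := hst t₁ ht₁ u hu _ hmem
      refine ⟨γ, ?_⟩
      rw [Module.End.mul_apply, Module.End.mul_apply, hxe, map_add, map_add, map_smul, map_smul]
      have e1 : f u = 0 := by
        rw [← hu, ← Module.End.mul_apply, hS.fq, LinearMap.zero_apply]
      have e2 : f (x u) = 0 := by
        rw [← hu, ← Module.End.mul_apply, ← Module.End.mul_apply, G1.fxq hS hx,
          LinearMap.zero_apply]
      rw [e1, e2, smul_zero, zero_add, zero_add, ← Module.End.mul_apply, hu]
  have hte : t₁ * e = c • e := by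
    have h3 : (e * f) * (t₁ * e) = c • e := by
      have : (e * f) * (t₁ * e) = e * (f * t₁ * e) := by noncomm_ring
      rw [this, hc, mul_smul_comm, hS.eq]
    have h4 : t₁ * e = e + e * t₁ := by
      nth_rw 2 [← h1]
      abel
    have h5 : (e * f) * (t₁ * e) = t₁ * e := by
      rw [h4, mul_add, ← mul_assoc (e * f) e t₁, hS.pe]
    rw [← h5, h3]
  have het : e * t₁ = -(c • e) := by
    ext v
    have key : ∀ w, ψ ((e * t₁) v) w = ψ ((-(c • e)) v) w := by
      intro w
      rw [Module.End.mul_apply, hg.sp e hP.mem, hg.sp t₁ (ha.le ht₁), neg_neg,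
        ← Module.End.mul_apply, hte, LinearMap.smul_apply, map_smul, LinearMap.neg_apply,
        LinearMap.smul_apply, map_neg, map_smul, LinearMap.neg_apply, LinearMap.smul_apply,
        hg.sp e hP.mem, smul_eq_mul, smul_eq_mul]
      ring
    rw [← sub_eq_zero]
    apply hg.nd
    intro w
    rw [map_sub, LinearMap.sub_apply, key, sub_self]
  have hc2 : c = 1 / 2 := by
    rw [hte, het, sub_neg_eq_add, ← add_smul] at h1
    have h5 : (c + c - 1) • e = 0 := by rw [sub_smul, h1, one_smul, sub_self]
    have h6 := (smul_eq_zero.mp h5).resolve_right hP.ne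
    linear_combination h6 / 2
  have ht₂e : t₂ * e = 0 := by
    have h2 : t₂ * e = t * e - t₁ * e := by
      rw [hsum]
      noncomm_ring
    rw [h2, hA.te, hte, hc2, sub_self]
  have ht₂0 : t₂ = 0 := by
    refine hZero K V ψ g hg a ha e hea hP.ne t₂ hcomm ?_
    rw [← hcomm e hea, ht₂e]
  rw [hsum, ht₂0, add_zero]
  exact ht₁

end Pool.Agent.Lib.MP_640417_ag.Tor
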