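import Pool.Agent.Lib.MP_640417_ag.Tor.Spec
import Pool.Agent.Lib.MP_640417_ag.Tor.Base
import Pool.Agent.Lib.MP_640417_ag.Tor.Adj

/-!
# One toric place: parity
-/

namespace Pool.Agent.Lib.MP_640417_ag.Tor

open Module

variable {K V : Type} [Field K] [AddCommGroup V] [Module K V]

/-- The rank is additive along an idempotent which commutes with the operator. -/
lemma rk_split [FiniteDimensional K V] {P X : Module.End K V} (hP : P * P = P)
    (h : P * X = X * P) : rk X = rk (X * P) + rk (X * (1 - P)) := by
  unfold rk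
  have h1 : LinearMap.range X = LinearMap.range (X * P) ⊔ LinearMap.range (X * (1 - P)) := by
    apply le_antisymm
    · rintro _ ⟨v, rfl⟩
      rw [Submodule.mem_sup]
      refine ⟨(X * P) v, ⟨v, rfl⟩, (X * (1 - P)) v, ⟨v, rfl⟩, ?_⟩
      have h2 : X * P + X * (1 - P) = X := by noncomm_ring
      rw [← LinearMap.add_apply, h2]
    · refine sup_le ?_ ?_
      · rintro _ ⟨v, rfl⟩
        exact ⟨P v, rfl⟩
      · rintro _ ⟨v, rfl⟩
        exact ⟨(1 - P) v, rfl⟩
  have h2 : LinearMap.range (X * P) ⊓ LinearMap.range (X * (1 - P)) = ⊥ := by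
    rw [eq_bot_iff]
    rintro v ⟨⟨a, ha⟩, ⟨b, hb⟩⟩
    have e1 : P v = v := by
      rw [← ha, ← Module.End.mul_apply, ← mul_assoc, h, mul_assoc, hP]
    have e2 : P v = 0 := by
      rw [← hb, ← Module.End.mul_apply, ← mul_assoc, h, mul_assoc, mul_sub, hP, mul_one, sub_self,
        mul_zero, LinearMap.zero_apply]
    rw [Submodule.mem_bot, ← e1, e2]
  rw [h1]
  have h3 := Submodule.finrank_sup_add_finrank_inf_eq (LinearMap.range (X * P))
    (LinearMap.range (X * (1 - P)))
  rw [h2, finrank_bot, add_zero] at h3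
  exact h3

lemma rk_neg (X : Module.End K V) : rk (-X) = rk X := by
  unfold rk
  rw [LinearMap.range_neg]

/-- The idempotents attached to a square root of `1/4`. -/
lemma half_idem [CharZero K] {t : Module.End K V}
    (ht : t * t = (1 / 4 : K) • (1 : Module.End K V)) :
    ((1 / 2 : K) • (1 : Module.End K V) + t) * ((1 / 2 : K) • (1 : Module.End K V) + t) =
      (1 / 2 : K) • (1 : Module.End K V) + t := by
  rw [mul_add, add_mul, add_mul, ht, smul_mul_smul_comm, one_mul, smul_mul_assoc, one_mul,
    mul_smul_comm, mul_one]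
  module

/-- A skew operator commuting with a skew square root of `1/4` has even rank. -/
theorem pPar : SPar := by
  intro K V _ _ _ _ _ ψ halt hnd t e ht htt he hte
  set P : Module.End K V := (1 / 2 : K) • (1 : Module.End K V) + t with hPdef
  have hPP : P * P = P := half_idem htt
  have hPe : P * e = e * P := by
    rw [hPdef, add_mul, mul_add, hte, smul_mul_assoc, mul_smul_comm, one_mul, mul_one]
  have hadj : ∀ x y, ψ (P x) y = ψ x ((1 - P) y) := by
    intro x y
    have h1 : (1 : Module.End K V) - P = (1 / 2 : K) • (1 : Module.End K V) - t := by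
      rw [hPdef]
      module
    rw [h1, hPdef, LinearMap.add_apply, LinearMap.sub_apply, map_add, map_sub,
      LinearMap.add_apply, ht x y, LinearMap.smul_apply, LinearMap.smul_apply, map_smul, map_smul,
      LinearMap.smul_apply, Module.End.one_apply, Module.End.one_apply, sub_eq_add_neg]
  have h1 : rk (e * P) = rk (-((1 - P) * e)) := by
    refine rk_adj ψ hnd (fun x y => ?_)
    rw [Module.End.mul_apply, he, hadj, LinearMap.neg_apply, map_neg, Module.End.mul_apply]
  have h2 : (1 - P) * e = e * (1 - P) := by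
    rw [sub_mul, mul_sub, one_mul, mul_one, hPe]
  rw [rk_neg, h2] at h1
  rw [rk_split hPP hPe, h1]
  exact ⟨_, rfl⟩

end Pool.Agent.Lib.MP_640417_ag.Tor
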