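import Pool.Agent.Lib.MP_640417_ag.Tor.Spec
import Pool.Agent.Lib.MP_640417_ag.Tor.Base
import Pool.Agent.Lib.MP_640417_ag.Tor.Adj

/-!
# One toric place: a square-zero element lies in an ideal or commutes with it
-/

namespace Pool.Agent.Lib.MP_640417_ag.Tor

open Module

/-- Schur: an element which commutes with `g` vanishes. -/
lemma center_zero {K V : Type} [Field K] [IsAlgClosed K] [CharZero K] [AddCommGroup V]
    [Module K V] [FiniteDimensional K V] [Nontrivial V] {ψ : LinearMap.BilinForm K V}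
    {g : Submodule K (Module.End K V)} (hg : Dat ψ g) {X : Module.End K V} (hX : Skew ψ X)
    (h : ∀ Y ∈ g, X * Y = Y * X) : X = 0 := by
  obtain ⟨c, hc⟩ := Module.End.exists_eigenvalue X
  obtain ⟨v, hv⟩ := hc.exists_hasEigenvector
  have h1 : X.eigenspace c = ⊤ := by
    rcases hg.irr (X.eigenspace c) (fun Y hY y hy => by
      rw [Module.End.mem_eigenspace_iff] at hy ⊢
      rw [← Module.End.mul_apply, h Y hY, Module.End.mul_apply, hy, map_smul]) with h2 | h2
    · exfalso
      exact hc h2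
    · exact h2
  have h2 : X = c • (1 : Module.End K V) := by
    ext v
    have h3 : v ∈ X.eigenspace c := by rw [h1]; exact Submodule.mem_top
    rw [Module.End.mem_eigenspace_iff] at h3
    rw [h3, LinearMap.smul_apply, Module.End.one_apply]
  have h3 := tr_skew ψ hg.nd hX
  unfold tr at h3
  rw [h2, map_smul, LinearMap.trace_one, smul_eq_mul, mul_eq_zero] at h3
  rcases h3 with h3 | h3
  · rw [h2, h3, zero_smul]
  · exfalso
    have h4 : finrank K V ≠ 0 := (Module.finrank_pos (R := K) (M := V)).ne'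
    exact h4 (by exact_mod_cast h3)

/-- The elements of `g` which commute with an ideal form an ideal. -/
lemma centralizer_idl {K V : Type} [Field K] [AddCommGroup V] [Module K V]
    {g a : Submodule K (Module.End K V)} (hl : ∀ X ∈ g, ∀ Y ∈ g, X * Y - Y * X ∈ g)
    (ha : Idl g a) : ∃ b, Idl g b ∧ ∀ X, X ∈ b ↔ X ∈ g ∧ ∀ A ∈ a, X * A = A * X := by
  refine ⟨{ carrier := {X | X ∈ g ∧ ∀ A ∈ a, X * A = A * X}
            add_mem' := ?_
            zero_mem' := ?_
            smul_mem' := ?_ }, ⟨fun X hX => hX.1, ?_⟩, fun X => Iff.rfl⟩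
  · rintro X Y ⟨h1, h2⟩ ⟨h3, h4⟩
    refine ⟨g.add_mem h1 h3, fun A hA => ?_⟩
    rw [add_mul, mul_add, h2 A hA, h4 A hA]
  · exact ⟨g.zero_mem, fun A _ => by rw [zero_mul, mul_zero]⟩
  · rintro c X ⟨h1, h2⟩
    refine ⟨g.smul_mem c h1, fun A hA => ?_⟩
    rw [smul_mul_assoc, mul_smul_comm, h2 A hA]
  · rintro Z hZ X ⟨h1, h2⟩
    refine ⟨hl Z hZ X h1, fun A hA => ?_⟩
    have h3 := h2 _ (ha.lie Z hZ A hA)
    have h4 := h2 A hA
    have h5 : (Z * X - X * Z) * A - A * (Z * X - X * Z) =
        Z * (X * A - A * X) - (X * A - A * X) * Z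
          - (X * (Z * A - A * Z) - (Z * A - A * Z) * X) := by noncomm_ring
    rw [h4, h3, sub_self, sub_self, mul_zero, zero_mul, sub_zero, sub_zero] at h5
    exact sub_eq_zero.mp h5

/-- A square-zero element lies in an ideal or commutes with it. -/
theorem pSq (hDec : SDec) (hZero : SZero) : SSq := by
  intro K V _ _ _ _ _ _ _ ψ g hg N hN hNN a ha
  obtain ⟨n, hn, n', hn', hNn, hcomm⟩ := hDec K V ψ g hg a ha N hN
  obtain ⟨b, hb, hbm⟩ := centralizer_idl hg.lie ha
  have hn'b : n' ∈ b := (hbm n').mpr ⟨hn', hcomm⟩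
  have hprod : ∀ X ∈ a, ∀ Y ∈ b, (n * X - X * n) * (n' * Y - Y * n') = 0 := by
    intro X hX Y hY
    have hY2 := ((hbm Y).mp hY).2
    set A : Module.End K V := n * X - X * n with hA
    have hAa : A ∈ a := ha.lie n (ha.le hn) X hX
    have hNX : N * X - X * N = A := by
      have h1 : N * X - X * N = (n * X - X * n) + (n' * X - X * n') := by
        rw [hNn]
        noncomm_ring
      rw [h1, hcomm X hX, sub_self, add_zero]
    have h0 : N * A + A * N = 0 := by
      have h1 : N * (N * X - X * N) + (N * X - X * N) * N = (N * N) * X - X * (N * N) := by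
        noncomm_ring
      rw [hNX, hNN, zero_mul, mul_zero, sub_self] at h1
      exact h1
    have hAY : Y * A = A * Y := hY2 A hAa
    set B : Module.End K V := n' * Y - Y * n' with hB
    have hNY : N * Y - Y * N = B := by
      have h1 : N * Y - Y * N = (n' * Y - Y * n') - (Y * n - n * Y) := by
        rw [hNn]
        noncomm_ring
      rw [h1, hY2 n hn, sub_self, sub_zero]
    have h1 : B * A + A * B = 0 := by
      have h2 : (N * Y - Y * N) * A + A * (N * Y - Y * N) =
          ((N * A + A * N) * Y - Y * (N * A + A * N))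
            + N * (Y * A - A * Y) + (Y * A - A * Y) * N := by noncomm_ring
      rw [hNY, hAY, h0, sub_self, mul_zero, zero_mul, mul_zero, sub_self, add_zero,
        zero_mul, add_zero] at h2
      exact h2
    have hBb : B ∈ b := hb.lie' ((hbm Y).mp hY).1 hn'b
    have h3 : B * A = A * B := ((hbm B).mp hBb).2 A hAa
    rw [h3, ← two_smul K] at h1
    exact (smul_eq_zero.mp h1).resolve_left two_ne_zero
  by_cases hcase : ∀ X ∈ a, n * X - X * n = 0
  · right
    have hn0 : n = 0 := by
      refine center_zero hg (hg.sp n (ha.le hn)) fun Y hY => ?_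
      obtain ⟨Y₁, h1, Y₂, -, rfl, h2⟩ := hDec K V ψ g hg a ha Y hY
      rw [mul_add, add_mul, sub_eq_zero.mp (hcase Y₁ h1), h2 n hn]
    rw [hn0, zero_add] at hNn
    rw [hNn]
    exact hcomm
  · left
    push Not at hcase
    obtain ⟨X, hX, hX0⟩ := hcase
    have hn0 : n' = 0 := by
      refine center_zero hg (hg.sp n' hn') fun Y hY => ?_
      obtain ⟨Y₁, h1, Y₂, hY2, rfl, h2⟩ := hDec K V ψ g hg a ha Y hY
      have hY2b : Y₂ ∈ b := (hbm Y₂).mpr ⟨hY2, h2⟩
      have hB : n' * Y₂ - Y₂ * n' = 0 := by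
        refine hZero K V ψ g hg a ha _ (ha.lie n (ha.le hn) X hX) hX0 _ ?_ (hprod X hX Y₂ hY2b)
        exact ((hbm _).mp (hb.lie' hY2 hn'b)).2
      rw [mul_add, add_mul, sub_eq_zero.mp hB, hcomm Y₁ h1]
    rw [hn0, add_zero] at hNn
    rw [hNn]
    exact hn

end Pool.Agent.Lib.MP_640417_ag.Tor
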