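import Pool.Agent.Lib.MP_640417_ag.Tor.Spec
import Pool.Agent.Lib.MP_640417_ag.Tor.Base
import Pool.Agent.Lib.MP_640417_ag.Tor.Adj
import Pool.Agent.Lib.MP_640417_ag.Tor.Sq
import Pool.Agent.Lib.MP_640417_ag.Tor.Par
import Pool.Agent.Lib.MP_640417_ag.Tor.PrimTr

/-!
# One toric place: rank prime to the dimension
-/

namespace Pool.Agent.Lib.MP_640417_ag.Tor

open Module

/-- A skew square root of `1/4` makes the dimension even. -/
lemma Cop_even {K V : Type} [Field K] [CharZero K] [AddCommGroup V] [Module K V]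
    [FiniteDimensional K V] (ψ : LinearMap.BilinForm K V)
    (hnd : ∀ x, (∀ y, ψ x y = 0) → x = 0) {t : Module.End K V} (ht : Skew ψ t)
    (htt : t * t = (1 / 4 : K) • (1 : Module.End K V)) : Even (finrank K V) := by
  have h1 := tr_idem (half_idem htt)
  have h2 : tr ((1 / 2 : K) • (1 : Module.End K V) + t) = (1 / 2 : K) * (finrank K V : K) := by
    have h3 := tr_skew ψ hnd ht
    unfold tr at h3 ⊢
    rw [map_add, map_smul, LinearMap.trace_one, h3, add_zero, smul_eq_mul]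
  rw [h2] at h1
  have h3 : (finrank K V : K) =
      ((rk ((1 / 2 : K) • (1 : Module.End K V) + t) +
        rk ((1 / 2 : K) • (1 : Module.End K V) + t) : ℕ) : K) := by
    push_cast
    linear_combination 2 * h1
  exact ⟨_, by exact_mod_cast h3⟩

/-- Rank prime to the dimension gives an element of rank one. -/
theorem pCop (hOdd : SOdd) (hAdapt : SAdapt) (hKey : SKey) (hMult : SMult) (hSq : SSq) :
    SCop := by
  intro K V _ _ _ _ _ _ _ ψ g hg N hN hNN hcop hex
  obtain ⟨t₀, ht₀, htt₀⟩ := hex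
  have hodd : Odd (rk N) := by
    rw [← Nat.not_even_iff_odd]
    intro h1
    have h2 := Cop_even ψ hg.nd (hg.sp t₀ ht₀) htt₀
    have h3 : 2 ∣ Nat.gcd (rk N) (finrank K V) := Nat.dvd_gcd h1.two_dvd h2.two_dvd
    rw [Nat.Coprime] at hcop
    rw [hcop] at h3
    omega
  obtain ⟨e₀, hP₀, hodd₀, hid₀⟩ := hOdd K V ψ g hg N hN hNN hodd
  obtain ⟨e, f, t, hA, hP, hrk, -, hid⟩ := hAdapt K V ψ g hg e₀ hP₀ hodd₀ t₀ ht₀ htt₀
  have hS := hA.toSl
  have hodd' : Odd (rk e) := by rw [hrk]; exact hodd₀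
  obtain ⟨a, ha, hea, hmin, hdim, hdvd⟩ := hMult K V ψ g hg e f hP hS
    (hKey K V ψ g hg e f t hA hP hodd')
  have hfa : f ∈ a := by
    have h1 := ha.lie f hS.mf _ (ha.lie f hS.mf e hea)
    have h2 : f * (f * e - e * f) - (f * e - e * f) * f = -(2 : K) • f := by
      have h3 := hS.hf
      rw [← h3]
      noncomm_ring
    rw [h2] at h1
    have h3 := a.smul_mem (-(2 : K))⁻¹ h1
    rwa [smul_smul, inv_mul_cancel₀ (neg_ne_zero.mpr two_ne_zero), one_smul] at h3
  have hNa : N ∈ a := by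
    rcases hSq K V ψ g hg N hN hNN a ha with h | h
    · exact h
    · exfalso
      obtain ⟨b, hb, hbm⟩ := centralizer_idl hg.lie ha
      have hNb : N ∈ b := (hbm N).mpr ⟨hN, h⟩
      have heb : e ∈ b := hid b hb (hid₀ b hb hNb)
      have hef := ((hbm e).mp heb).2 f hfa
      apply hP.ne
      rw [← hS.efe, hef, mul_assoc, hS.ee, mul_zero]
  refine ⟨e, hP.mem, ?_⟩
  have h1 := Nat.dvd_gcd (hdvd N hNa) hdim
  rw [Nat.Coprime] at hcop
  rw [hcop] at h1
  exact Nat.dvd_one.mp h1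

end Pool.Agent.Lib.MP_640417_ag.Tor
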