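import Pool.Agent.Lib.MP_640417_ag.Tor.Spec
import Pool.Agent.Lib.MP_640417_ag.Tor.Base

/-!
# One toric place: decomposition along an ideal
-/

namespace Pool.Agent.Lib.MP_640417_ag.Tor

open Module

/-- Decomposition along an ideal. -/
theorem pDec (hTr : STr) : SDec := by
  intro K V _ _ _ _ _ _ _ ψ g hg a ha X hX
  -- the trace pairing on the ideal
  let B : a →ₗ[K] Module.Dual K a :=
    { toFun := fun A =>
        { toFun := fun C => tr (A.1 * C.1)
          map_add' := by
            intro C D
            unfold tr
            rw [Submodule.coe_add, mul_add, map_add]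
          map_smul' := by
            intro c C
            unfold tr
            rw [Submodule.coe_smul, mul_smul_comm, map_smul, RingHom.id_apply] }
      map_add' := by
        intro C D
        ext E
        unfold tr
        simp only [LinearMap.coe_mk, AddHom.coe_mk, LinearMap.add_apply, Submodule.coe_add,
          add_mul, map_add]
      map_smul' := by
        intro c C
        ext E
        unfold tr
        simp only [LinearMap.coe_mk, AddHom.coe_mk, LinearMap.smul_apply, Submodule.coe_smul,
          smul_mul_assoc, map_smul, RingHom.id_apply] }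
  have hB : ∀ A C : a, B A C = tr (A.1 * C.1) := fun _ _ => rfl
  have hinj : Function.Injective B := by
    rw [injective_iff_map_eq_zero]
    intro A hA
    apply Subtype.ext
    refine hTr K V ψ g hg a ha A.1 A.2 fun Y hY => ?_
    rw [← hB A ⟨Y, hY⟩, hA, LinearMap.zero_apply]
  have hsurj : Function.Surjective B :=
    (LinearMap.injective_iff_surjective_of_finrank_eq_finrank
      (Subspace.dual_finrank_eq (K := K) (V := a)).symm).mp hinj
  let φ : Module.Dual K a :=
    { toFun := fun C => tr (X * C.1)
      map_add' := by
        intro C D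
        unfold tr
        rw [Submodule.coe_add, mul_add, map_add]
      map_smul' := by
        intro c C
        unfold tr
        rw [Submodule.coe_smul, mul_smul_comm, map_smul, RingHom.id_apply] }
  obtain ⟨X₁, hX₁⟩ := hsurj φ
  have h1 : ∀ C ∈ a, tr (X₁.1 * C) = tr (X * C) := by
    intro C hC
    have h2 := LinearMap.congr_fun hX₁ ⟨C, hC⟩
    exact h2
  have h0 : ∀ C ∈ a, tr ((X - X₁.1) * C) = 0 := by
    intro C hC
    have h2 := h1 C hC
    unfold tr at h2 ⊢
    rw [sub_mul, map_sub, h2, sub_self]
  have hmem : X - X₁.1 ∈ g := g.sub_mem hX (ha.le X₁.2)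
  refine ⟨X₁.1, X₁.2, X - X₁.1, hmem, by abel, fun A hA => ?_⟩
  have hz : (X - X₁.1) * A - A * (X - X₁.1) ∈ a := ha.lie _ hmem A hA
  have h3 := hTr K V ψ g hg a ha _ hz (fun C hC => by
    have h4 : tr (((X - X₁.1) * A - A * (X - X₁.1)) * C) =
        tr ((X - X₁.1) * (A * C - C * A)) := by
      unfold tr
      have h5 : ((X - X₁.1) * A - A * (X - X₁.1)) * C =
          (X - X₁.1) * A * C - A * ((X - X₁.1) * C) := by noncomm_ring
      have h6 : (X - X₁.1) * (A * C - C * A) = (X - X₁.1) * A * C - ((X - X₁.1) * C) * A := by
        noncomm_ring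
      rw [h5, h6, map_sub, map_sub, LinearMap.trace_mul_comm K A]
    rw [h4]
    exact h0 _ (ha.lie A (ha.le hA) C hC))
  exact sub_eq_zero.mp h3

end Pool.Agent.Lib.MP_640417_ag.Tor
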