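import Pool.Agent.Lib.MP_640417_ag.Tor.Spec
import Pool.Agent.Lib.MP_640417_ag.Tor.Base
import Pool.Agent.Lib.MP_640417_ag.Tor.Adj
import Pool.Agent.Lib.MP_640417_ag.Tor.PrimTr

/-!
# One toric place: the operator `f w²` has square zero
-/

namespace Pool.Agent.Lib.MP_640417_ag.Tor

open Module

section rank

variable {K V : Type} [Field K] [AddCommGroup V] [Module K V] [FiniteDimensional K V]

lemma rk_mul_le_left (A B : Module.End K V) : rk (A * B) ≤ rk A := by
  unfold rk
  apply Submodule.finrank_mono
  rintro _ ⟨v, rfl⟩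
  exact ⟨B v, rfl⟩

lemma rk_mul_le_right (A B : Module.End K V) : rk (A * B) ≤ rk B := by
  unfold rk
  have h1 : LinearMap.range (A * B) = (LinearMap.range B).map A := LinearMap.range_comp B A
  rw [h1]
  exact Submodule.finrank_map_le A _

lemma Sl.rk_q {g : Submodule K (Module.End K V)} {e f : Module.End K V} (h : Sl g e f) :
    rk (f * e) = rk e := by
  apply le_antisymm (rk_mul_le_right f e)
  conv_lhs => rw [← h.eq]
  exact rk_mul_le_right e (f * e)

end rank

/-- The operator `f w²` has square zero. -/
theorem pU (hTop : STop) : SU := by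
  intro K V _ _ _ _ _ _ _ ψ g hg e f hP hS hodd w hw
  have hl := hg.lie
  have www : w * w * w = 0 := G1.xyz hS hw hw hw
  have hww := G1.xy hS hw hw
  -- the fourth bracket
  have hmem : w * w * f * (w * w) ∈ g := by
    have h1 := hl w hw.1 f hS.mf
    have h2 := hl w hw.1 _ h1
    have h3 := hl w hw.1 _ h2
    have h4 := hl w hw.1 _ h3
    have h5 : w * (w * (w * (w * f - f * w) - (w * f - f * w) * w)
        - (w * (w * f - f * w) - (w * f - f * w) * w) * w)
        - (w * (w * (w * f - f * w) - (w * f - f * w) * w)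
        - (w * (w * f - f * w) - (w * f - f * w) * w) * w) * w =
        (w * w * w) * w * f - (4 : K) • ((w * w * w) * f * w) + (6 : K) • (w * w * f * (w * w))
          - (4 : K) • (w * f * (w * w * w)) + f * (w * w * w) * w := by
      have e4 : (4 : K) = 1 + 1 + 1 + 1 := by norm_num
      have e6 : (6 : K) = 1 + 1 + 1 + 1 + 1 + 1 := by norm_num
      rw [e4, e6]
      simp only [add_smul, one_smul]
      noncomm_ring
    rw [h5, www] at h4
    simp only [zero_mul, mul_zero, smul_zero, sub_zero, zero_add, add_zero] at h4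
    have h6 := g.smul_mem (6 : K)⁻¹ h4
    rwa [smul_smul, inv_mul_cancel₀ (by norm_num), one_smul] at h6
  obtain ⟨c, hc⟩ := (hTop K V g hl e f hP hS).1 _ hmem
  have hc' : w * w * f * (w * w) = c • e := by
    rw [← hc]
    have h1 : e * f * (w * w * f * (w * w)) * (f * e) =
        (e * f * (w * w)) * f * ((w * w) * (f * e)) := by noncomm_ring
    have h2 : e * f * (w * w) = w * w := by
      nth_rw 1 [hww]
      have : e * f * (e * f * (w * w) * (f * e)) = (e * f) * (e * f) * (w * w) * (f * e) := by
        noncomm_ring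
      rw [this, hS.pp, ← hww]
    have h3 : (w * w) * (f * e) = w * w := by
      nth_rw 1 [hww]
      have : e * f * (w * w) * (f * e) * (f * e) = (e * f) * (w * w) * ((f * e) * (f * e)) := by
        noncomm_ring
      rw [this, hS.qq, ← hww]
    rw [h1, h2, h3]
  set u : Module.End K V := f * w * w with hu
  have hpww : e * f * (w * w) = w * w := by
    nth_rw 1 [hww]
    have : e * f * (e * f * (w * w) * (f * e)) = (e * f) * (e * f) * (w * w) * (f * e) := by
      noncomm_ring
    rw [this, hS.pp, ← hww]
  have hwwq : (w * w) * (f * e) = w * w := by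
    nth_rw 1 [hww]
    have : e * f * (w * w) * (f * e) * (f * e) = (e * f) * (w * w) * ((f * e) * (f * e)) := by
      noncomm_ring
    rw [this, hS.qq, ← hww]
  have hqu : (f * e) * u = u := by
    rw [hu, mul_assoc f w w, ← mul_assoc, hS.fef]
  have huq : u * (f * e) = u := by
    rw [hu, mul_assoc f w w, mul_assoc f, hwwq]
  have huu : u * u = c • (f * e) := by
    have h1 : u * u = f * (w * w * f * (w * w)) := by
      rw [hu]
      noncomm_ring
    rw [h1, hc', mul_smul_comm]
  -- the trace of `u`
  have htru : tr u = 0 := by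
    have h1 : tr u = tr (-(w * w * f)) := by
      refine tr_adj ψ hg.nd fun x y => ?_
      rw [hu, Module.End.mul_apply, Module.End.mul_apply, hg.sp f hS.mf, hg.sp w hw.1,
        hg.sp w hw.1, LinearMap.neg_apply, map_neg, Module.End.mul_apply, Module.End.mul_apply]
      ring
    have h2 : tr (-(w * w * f)) = - tr u := by
      have h3 : tr (w * w * f) = tr u := by
        rw [hu, tr_comm, mul_assoc]
      rw [← h3]
      unfold tr
      rw [map_neg]
    rw [h2] at h1
    have h3 : (2 : K) * tr u = 0 := by linear_combination h1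
    exact (mul_eq_zero.mp h3).resolve_left two_ne_zero
  by_cases hc0 : c = 0
  · rw [huu, hc0, zero_smul]
  exfalso
  obtain ⟨d, hd⟩ := IsAlgClosed.exists_eq_mul_self c
  have hd0 : d ≠ 0 := by
    rintro rfl
    apply hc0
    rw [hd, mul_zero]
  set π : Module.End K V := (1 / 2 : K) • ((f * e) + d⁻¹ • u) with hπ
  have hππ : π * π = π := by
    rw [hπ, smul_mul_smul_comm, add_mul, mul_add, mul_add, hS.qq, mul_smul_comm, hqu,
      smul_mul_assoc, huq, smul_mul_smul_comm, huu, hd, smul_smul]
    have h1 : d⁻¹ * d⁻¹ * (d * d) = 1 := by field_simp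
    rw [h1, one_smul]
    module
  have h1 := tr_idem hππ
  have h2 : tr π = (1 / 2 : K) * (rk e : K) := by
    rw [← hS.rk_q, ← tr_idem hS.qq, hπ]
    unfold tr at htru ⊢
    rw [map_smul, map_add, map_smul, htru, smul_zero, add_zero, smul_eq_mul]
  rw [h2] at h1
  have h3 : (rk e : K) = ((2 * rk π : ℕ) : K) := by
    push_cast
    linear_combination 2 * h1
  have h4 : rk e = 2 * rk π := by exact_mod_cast h3
  rw [h4] at hodd
  exact (Nat.not_odd_iff_even.mpr (even_two_mul _)) hodd

end Pool.Agent.Lib.MP_640417_ag.Tor
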