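import Pool.Agent.Lib.MP_640417_ag.Tor.Spec
import Pool.Agent.Lib.MP_640417_ag.Tor.Base
import Pool.Agent.Lib.MP_640417_ag.Tor.U

/-!
# One toric place: generation by cocharacters
-/

namespace Pool.Agent.Lib.MP_640417_ag.Tor

open Module

/-- Odd rank and generation by cocharacters give an element of rank one. -/
theorem pGen (hOdd : SOdd) (hCoch : SCoch) (hAdapt : SAdapt) (hKey : SKey) (hStab : SStab) :
    SGen := by
  intro K V _ _ _ _ _ _ _ ψ g hg N hN hNN hodd hgen
  obtain ⟨e₀, hP₀, hodd₀, -⟩ := hOdd K V ψ g hg N hN hNN hodd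
  obtain ⟨t₀, ht₀, htt₀⟩ : ∃ t ∈ g, t * t = (1 / 4 : K) • (1 : Module.End K V) := by
    by_contra hne
    push Not at hne
    have h1 := hgen ⊥ ⟨bot_le, fun X _ Y hY => by
      rw [Submodule.mem_bot] at hY ⊢
      rw [hY, mul_zero, zero_mul, sub_zero]⟩ (fun t ht htt => absurd htt (hne t ht))
    have h2 := hP₀.mem
    rw [← h1, Submodule.mem_bot] at h2
    exact hP₀.ne h2
  obtain ⟨e, f, t, hA, hP, hrk, -, -⟩ := hAdapt K V ψ g hg e₀ hP₀ hodd₀ t₀ ht₀ htt₀
  have hS := hA.toSl
  have hodd' : Odd (rk e) := by rw [hrk]; exact hodd₀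
  obtain ⟨a, ha, hea, -, hst⟩ := hStab K V g hg.lie e f hP hS
    (hKey K V ψ g hg e f t hA hP hodd')
  have hag : a = g := hgen a ha fun t' ht' htt' =>
    hCoch K V ψ g hg e hP hodd' t' ht' htt' a ha hea
  -- a vector in the range of `q`
  obtain ⟨v, hv⟩ : ∃ v, (f * e) v ≠ 0 := by
    by_contra hne
    push Not at hne
    apply hP.ne
    rw [← hS.eq]
    ext v
    rw [Module.End.mul_apply, hne v, map_zero, LinearMap.zero_apply]
  set u : V := (f * e) v with hu
  have hqu : (f * e) u = u := by rw [hu, ← Module.End.mul_apply, hS.qq]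
  have huL : u ∈ Lu g e f u := ⟨1, 0, 0, zero_mem _, by
    rw [one_smul, LinearMap.zero_apply, zero_smul, add_zero, add_zero]⟩
  have htop : Lu g e f u = ⊤ := by
    rcases hg.irr (Lu g e f u) (fun X hX y hy => hst X (by rw [hag]; exact hX) u hqu y hy)
      with h | h
    · exfalso
      rw [h, Submodule.mem_bot] at huL
      exact hv huL
    · exact h
  have hrange : LinearMap.range (f * e) = Submodule.span K {u} := by
    apply le_antisymm
    · rintro _ ⟨y, rfl⟩
      have hy : y ∈ Lu g e f u := by rw [htop]; exact Submodule.mem_top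
      obtain ⟨α, γ, x, hx, rfl⟩ := hy
      rw [map_add, map_add, map_smul, map_smul, hqu, ← Module.End.mul_apply (f * e) x,
        G1.qx hS hx, ← Module.End.mul_apply (f * e) e, hS.qe, LinearMap.zero_apply, smul_zero,
        add_zero, add_zero]
      exact Submodule.smul_mem _ _ (Submodule.mem_span_singleton_self u)
    · rw [Submodule.span_singleton_le_iff_mem]
      exact ⟨v, rfl⟩
  refine ⟨e, hP.mem, ?_⟩
  rw [← hS.rk_q]
  unfold rk
  rw [hrange]
  exact finrank_span_singleton hv

end Pool.Agent.Lib.MP_640417_ag.Tor
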