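import Pool.Agent.Lib.MP_640417_ag.Tor.Spec
import Pool.Agent.Lib.MP_640417_ag.Tor.Base

/-!
# One toric place: the key identity
-/

namespace Pool.Agent.Lib.MP_640417_ag.Tor

open Module

variable {K V : Type} [Field K] [AddCommGroup V] [Module K V]

/-- The operator is injective on the range of `q = f e`. -/
def Key_Inj (e f x : Module.End K V) : Prop := ∀ v : V, (f * e) v = v → x v = 0 → v = 0

section basic

variable {g : Submodule K (Module.End K V)} {e f t : Module.End K V}

lemma Key_tp (h : Adp g e f t) : t * (e * f) = (1 / 2 : K) • (e * f) := by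
  rw [← mul_assoc, h.te, smul_mul_assoc]

lemma Key_pt (h : Adp g e f t) : (e * f) * t = (1 / 2 : K) • (e * f) := by
  rw [mul_assoc, h.ft, mul_smul_comm]

lemma Key_tq (h : Adp g e f t) : t * (f * e) = -(1 / 2 : K) • (f * e) := by
  rw [← mul_assoc, h.tf, smul_mul_assoc]

lemma Key_qt (h : Adp g e f t) : (f * e) * t = -(1 / 2 : K) • (f * e) := by
  rw [mul_assoc, h.et, mul_smul_comm]

lemma Key_ht (h : Adp g e f t) : (e * f - f * e) * t - t * (e * f - f * e) = 0 := by
  rw [sub_mul, mul_sub, Key_pt h, Key_qt h, Key_tp h, Key_tq h, sub_self]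

/-- The decomposition of an element of degree one. -/
lemma Key_split [CharZero K] (hl : ∀ X ∈ g, ∀ Y ∈ g, X * Y - Y * X ∈ g) (h : Adp g e f t)
    {w : Module.End K V} (hw : w ∈ G1 g e f) :
    ∃ x ∈ G1 g e f, ∃ y ∈ G1 g e f, t * x = x * t ∧ t * y - y * t = y ∧ w = x + y := by
  have hy : t * w - w * t ∈ G1 g e f := by
    refine ⟨hl t h.mt w hw.1, ?_⟩
    have h1 : (e * f - f * e) * (t * w - w * t) - (t * w - w * t) * (e * f - f * e) =
        t * ((e * f - f * e) * w - w * (e * f - f * e))
          - ((e * f - f * e) * w - w * (e * f - f * e)) * t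
          + ((e * f - f * e) * t - t * (e * f - f * e)) * w
          - w * ((e * f - f * e) * t - t * (e * f - f * e)) := by noncomm_ring
    rw [h1, hw.2, Key_ht h, zero_mul, mul_zero, add_zero, sub_zero]
  have hty : t * (t * w - w * t) - (t * w - w * t) * t = t * w - w * t := by
    have e1 := G1.eq h.toSl hw
    have e2 : t * w * t = -(1 / 2 : K) • (t * w * (f * e)) + (1 / 2 : K) • ((e * f) * w * t) := by
      nth_rw 1 [e1]
      have e3 : t * (w * (f * e) + (e * f) * w) * t =
          t * w * ((f * e) * t) + (t * (e * f)) * w * t := by noncomm_ring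
      rw [e3, Key_qt h, Key_tp h]
      simp only [mul_smul_comm, smul_mul_assoc]
    have e4 : t * w - w * t = t * w * (f * e) + (1 / 2 : K) • ((e * f) * w)
        + (1 / 2 : K) • (w * (f * e)) - (e * f) * w * t := by
      nth_rw 1 2 [e1]
      have e5 : t * (w * (f * e) + (e * f) * w) - (w * (f * e) + (e * f) * w) * t =
          t * w * (f * e) + (t * (e * f)) * w - w * ((f * e) * t) - (e * f) * w * t := by
        noncomm_ring
      have e10 : w * ((f * e) * t) = -((1 / 2 : K) • (w * (f * e))) := by
        rw [Key_qt h, mul_smul_comm, neg_smul]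
      rw [e5, Key_tp h, e10, smul_mul_assoc]
      abel
    have e6 : t * (t * w - w * t) - (t * w - w * t) * t =
        (t * t) * w + w * (t * t) - (2 : K) • (t * w * t) := by
      rw [two_smul]
      noncomm_ring
    rw [e6, h.tt, e2, e4]
    have e7 : w = w * (f * e) + (e * f) * w := e1
    simp only [smul_mul_assoc, mul_smul_comm, one_mul, mul_one]
    have e8 : (1 / 4 : K) • w + (1 / 4 : K) • w = (1 / 2 : K) • (w * (f * e)) +
        (1 / 2 : K) • ((e * f) * w) := by
      rw [← add_smul, ← smul_add, ← e7]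
      norm_num
    rw [e8]
    simp only [smul_add, smul_smul, neg_smul, smul_neg]
    have e9 : (2 : K) * (1 / 2) = 1 := by norm_num
    rw [e9, one_smul, one_smul]
    abel
  refine ⟨w - (t * w - w * t), sub_mem hw hy, t * w - w * t, hy, ?_, hty, by abel⟩
  have h1 : t * (w - (t * w - w * t)) - (w - (t * w - w * t)) * t =
      (t * w - w * t) - (t * (t * w - w * t) - (t * w - w * t) * t) := by noncomm_ring
  rw [hty, sub_self] at h1
  exact sub_eq_zero.mp h1

lemma Key_txy [CharZero K] (h : Adp g e f t) {x y : Module.End K V} (hx : x ∈ G1 g e f)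
    (hy : y ∈ G1 g e f) :
    t * (x * y) = (1 / 2 : K) • (x * y) ∧ (x * y) * t = -(1 / 2 : K) • (x * y) := by
  have h1 := G1.xy h.toSl hx hy
  constructor
  · nth_rw 1 [h1]
    have h2 : t * ((e * f) * (x * y) * (f * e)) = (t * (e * f)) * (x * y) * (f * e) := by
      noncomm_ring
    rw [h2, Key_tp h, smul_mul_assoc, smul_mul_assoc, ← h1]
  · nth_rw 1 [h1]
    rw [mul_assoc, Key_qt h, mul_smul_comm, ← h1]

/-- Products inside the part of degree zero for `t` vanish. -/
lemma Key_00 [CharZero K] (h : Adp g e f t) {x y : Module.End K V} (hx : x ∈ G1 g e f)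
    (hy : y ∈ G1 g e f) (tx : t * x = x * t) (ty : t * y = y * t) : x * y = 0 := by
  obtain ⟨h1, h2⟩ := Key_txy h hx hy
  have h3 : t * (x * y) = (x * y) * t := by
    rw [← mul_assoc, tx, mul_assoc, ty, mul_assoc]
  rw [h1, h2] at h3
  have h4 : (x * y : Module.End K V) = 0 := by
    have h5 : (1 / 2 : K) • (x * y) - -(1 / 2 : K) • (x * y) = 0 := by rw [h3, sub_self]
    rw [← sub_smul] at h5
    have h6 : (1 / 2 : K) - -(1 / 2) = 1 := by norm_num
    rwa [h6, one_smul] at h5
  exact h4

/-- Products inside the part of degree one for `t` vanish. -/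
lemma Key_11 [CharZero K] (h : Adp g e f t) {x y : Module.End K V} (hx : x ∈ G1 g e f)
    (hy : y ∈ G1 g e f) (tx : t * x - x * t = x) (ty : t * y - y * t = y) : x * y = 0 := by
  obtain ⟨h1, h2⟩ := Key_txy h hx hy
  have h3 : t * (x * y) - (x * y) * t = (2 : K) • (x * y) := by
    have h4 : t * (x * y) - (x * y) * t = (t * x - x * t) * y + x * (t * y - y * t) := by
      noncomm_ring
    rw [h4, tx, ty, two_smul]
  rw [h1, h2, ← sub_smul] at h3
  have h5 : ((1 / 2 : K) - -(1 / 2) - 2) • (x * y) = 0 := by
    rw [sub_smul _ (2 : K), h3, sub_self]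
  have h6 : (1 / 2 : K) - -(1 / 2) - 2 = -1 := by norm_num
  rw [h6, neg_smul, one_smul, neg_eq_zero] at h5
  exact h5

/-- Nonzero brackets force injectivity. -/
lemma Key_inj [CharZero K] (h : Adp g e f t) {x y : Module.End K V} (hx : x ∈ G1 g e f)
    (hy : y ∈ G1 g e f) (tx : t * x = x * t) (ty : t * y - y * t = y) {c : K} (hc : c ≠ 0)
    (hxy : x * y - y * x = c • e)
    (hu : (f * (x + y) * (x + y)) * (f * (x + y) * (x + y)) = 0) :
    Key_Inj e f x ∧ Key_Inj e f y := by
  have xx := Key_00 h hx hx tx tx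
  have yy := Key_11 h hy hy ty ty
  have hu' : f * (x + y) * (x + y) = f * (x * y + y * x) := by
    have : f * (x + y) * (x + y) = f * (x * x + x * y + y * x + y * y) := by noncomm_ring
    rw [this, xx, yy, zero_add, add_zero]
  rw [hu'] at hu
  have key : ∀ v : V, (f * (x * y + y * x)) v = c • v ∨ (f * (x * y + y * x)) v = -(c • v) →
      v = 0 := by
    intro v hv
    have h1 : (f * (x * y + y * x)) ((f * (x * y + y * x)) v) = 0 := by
      rw [← Module.End.mul_apply, hu, LinearMap.zero_apply]
    have h2 : (f * (x * y + y * x)) ((f * (x * y + y * x)) v) = (c * c) • v := by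
      rcases hv with hv | hv
      · rw [hv, map_smul, hv, smul_smul]
      · rw [hv, map_neg, map_smul, hv, smul_neg, neg_neg, smul_smul]
    rw [h2] at h1
    exact (smul_eq_zero.mp h1).resolve_left (mul_ne_zero hc hc)
  constructor
  · intro v hv hxv
    apply key
    left
    have h1 : x * y + y * x = (2 : K) • (y * x) + c • e := by
      rw [← hxy, two_smul]
      abel
    rw [h1, mul_add, mul_smul_comm, mul_smul_comm, LinearMap.add_apply, LinearMap.smul_apply,
      LinearMap.smul_apply, hv, Module.End.mul_apply, Module.End.mul_apply, hxv, map_zero,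
      map_zero, smul_zero, zero_add]
  · intro v hv hyv
    apply key
    right
    have h1 : x * y + y * x = (2 : K) • (x * y) - c • e := by
      rw [← hxy, two_smul]
      abel
    rw [h1, mul_sub, mul_smul_comm, mul_smul_comm, LinearMap.sub_apply, LinearMap.smul_apply,
      LinearMap.smul_apply, hv, Module.End.mul_apply, Module.End.mul_apply, hyv, map_zero,
      map_zero, smul_zero, zero_sub]

end basic

section main

variable [IsAlgClosed K] [CharZero K] [FiniteDimensional K V] [Nontrivial V]
  {ψ : LinearMap.BilinForm K V} {g : Submodule K (Module.End K V)} {e f t : Module.End K V}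

/-- A nonzero element of degree one has an element of pure `t`-degree with nonzero bracket. -/
lemma Key_partner (hTop : STop) (hNonsing : SNonsing) (hU : SU) (hg : Dat ψ g) (h : Adp g e f t)
    (hP : Prm g e) (hodd : Odd (rk e)) {y : Module.End K V} (hy : y ∈ G1 g e f)
    (ty : t * y - y * t = y) (hy0 : y ≠ 0) : Key_Inj e f y := by
  obtain ⟨w, hw, hyw⟩ := hNonsing K V ψ g hg e f hP h.toSl y hy hy0
  obtain ⟨x₀, hx₀, x₁, hx₁, tx₀, tx₁, rfl⟩ := Key_split hg.lie h hw
  have h1 : y * x₁ = 0 := Key_11 h hy hx₁ ty tx₁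
  have h2 : x₁ * y = 0 := Key_11 h hx₁ hy tx₁ ty
  have h3 : y * (x₀ + x₁) - (x₀ + x₁) * y = y * x₀ - x₀ * y := by
    rw [mul_add, add_mul, h1, h2, add_zero, add_zero]
  rw [h3] at hyw
  obtain ⟨c, hc⟩ := (hTop K V g hg.lie e f hP h.toSl).2.2 x₀ hx₀ y hy
  have hc0 : c ≠ 0 := by
    rintro rfl
    apply hyw
    rw [zero_smul] at hc
    rw [sub_eq_zero.mp hc, sub_self]
  exact (Key_inj h hx₀ hy tx₀ ty hc0 hc
    (hU K V ψ g hg e f hP h.toSl hodd _ (add_mem hx₀ hy))).2

/-- The operator `f (x + y)²` vanishes. -/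
lemma Key_zero (hTop : STop) (hNonsing : SNonsing) (hU : SU) (hg : Dat ψ g) (h : Adp g e f t)
    (hP : Prm g e) (hodd : Odd (rk e)) {x y : Module.End K V} (hx : x ∈ G1 g e f)
    (hy : y ∈ G1 g e f) (tx : t * x = x * t) (ty : t * y - y * t = y) :
    f * (x * y + y * x) = 0 := by
  have hS := h.toSl
  have xx := Key_00 h hx hx tx tx
  have yy := Key_11 h hy hy ty ty
  by_cases hy0 : y = 0
  · rw [hy0, mul_zero, zero_mul, add_zero, mul_zero]
  have injy := Key_partner hTop hNonsing hU hg h hP hodd hy ty hy0
  have huu := hU K V ψ g hg e f hP hS hodd _ (add_mem hx hy)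
  have hu' : f * (x + y) * (x + y) = f * (x * y + y * x) := by
    have : f * (x + y) * (x + y) = f * (x * x + x * y + y * x + y * y) := by noncomm_ring
    rw [this, xx, yy, zero_add, add_zero]
  rw [hu'] at huu
  set u : Module.End K V := f * (x * y + y * x) with hu
  have hqu : (f * e) * u = u := by
    rw [hu, ← mul_assoc, hS.fef]
  obtain ⟨c, hc⟩ := (hTop K V g hg.lie e f hP hS).2.2 x hx y hy
  have hu2 : u = (2 : K) • (f * (y * x)) + c • (f * e) := by
    have hcf : c • (f * e) = f * (x * y - y * x) := by rw [hc, mul_smul_comm]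
    rw [hcf, hu, two_smul]
    noncomm_ring
  -- the element of degree one
  set a : Module.End K V := y * f * y with ha
  have hag : a ∈ g := sandwich_mem hg.lie hy.1 yy hS.mf
  have hya : (e * f - f * e) * a - a * (e * f - f * e) = 0 := by
    have h1 : (e * f - f * e) * a - a * (e * f - f * e) =
        ((e * f - f * e) * y - y * (e * f - f * e)) * f * y
          + y * ((e * f - f * e) * f - f * (e * f - f * e)) * y
          + y * f * ((e * f - f * e) * y - y * (e * f - f * e)) := by
      rw [ha]
      noncomm_ring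
    rw [h1, hy.2, hS.hf, mul_smul_comm, smul_mul_assoc, neg_smul, two_smul]
    noncomm_ring
  have hta : t * a - a * t = a := by
    have h1 : t * a - a * t = (t * y - y * t) * f * y + y * (t * f - f * t) * y
        + y * f * (t * y - y * t) := by
      rw [ha]
      noncomm_ring
    have h2 : t * f - f * t = - f := by
      rw [h.tf, h.ft, ← sub_smul]
      have : -(1 / 2 : K) - 1 / 2 = -1 := by norm_num
      rw [this, neg_smul, one_smul]
    rw [h1, ty, h2, ha]
    noncomm_ring
  set b : Module.End K V := a * x - x * a with hb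
  have hb1 : b ∈ G1 g e f := by
    refine ⟨hg.lie a hag x hx.1, ?_⟩
    have h1 : (e * f - f * e) * b - b * (e * f - f * e) =
        ((e * f - f * e) * a - a * (e * f - f * e)) * x
          - x * ((e * f - f * e) * a - a * (e * f - f * e))
          + a * ((e * f - f * e) * x - x * (e * f - f * e))
          - ((e * f - f * e) * x - x * (e * f - f * e)) * a := by
      rw [hb]
      noncomm_ring
    rw [h1, hya, hx.2, zero_mul, mul_zero, sub_zero, zero_add]
  have htb : t * b - b * t = b := by
    have h1 : t * b - b * t = (t * a - a * t) * x - x * (t * a - a * t)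
        + a * (t * x - x * t) - (t * x - x * t) * a := by
      rw [hb]
      noncomm_ring
    rw [h1, hta, tx, sub_self, mul_zero, zero_mul, add_zero, sub_zero]
  have hy'' : b + (c / 2) • y ∈ G1 g e f := add_mem hb1 (Submodule.smul_mem _ _ hy)
  have hty'' : t * (b + (c / 2) • y) - (b + (c / 2) • y) * t = b + (c / 2) • y := by
    have h1 : t * (b + (c / 2) • y) - (b + (c / 2) • y) * t =
        (t * b - b * t) + (c / 2) • (t * y - y * t) := by
      rw [mul_add, add_mul, mul_smul_comm, smul_mul_assoc, smul_sub]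
      abel
    rw [h1, htb, ty]
  have haq : a * (f * e) = 0 := by
    have h1 : a * (f * e) = y * (f * y * f) * e := by rw [ha]; noncomm_ring
    rw [h1, G1.fxf hS hy, mul_zero, zero_mul]
  have hyxq : y * x * (f * e) = y * x := by
    rw [G1.xy hS hy hx, mul_assoc _ (f * e) (f * e), hS.qq]
  have hq'' : (b + (c / 2) • y) * (f * e) = (1 / 2 : K) • (y * u) := by
    have h1 : (b + (c / 2) • y) * (f * e) =
        y * f * (y * x * (f * e)) - x * (a * (f * e)) + (c / 2) • (y * (f * e)) := by
      rw [hb, ha, add_mul, smul_mul_assoc]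
      noncomm_ring
    rw [h1, haq, hyxq, hu2, mul_zero, sub_zero, mul_add, smul_add, mul_smul_comm, mul_smul_comm,
      smul_smul, smul_smul]
    have h2 : (1 / 2 : K) * 2 = 1 := by norm_num
    have h3 : (1 / 2 : K) * c = c / 2 := by ring
    rw [h2, h3, one_smul, mul_assoc]
  -- it vanishes
  have hzero : b + (c / 2) • y = 0 := by
    by_contra hne
    have hinj := Key_partner hTop hNonsing hU hg h hP hodd hy'' hty'' hne
    have hall : ∀ m : V, (f * e) m = m → u m = 0 → m = 0 := by
      intro m hm hum
      apply hinj m hm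
      rw [← hm, ← Module.End.mul_apply, hq'', LinearMap.smul_apply, Module.End.mul_apply, hum,
        map_zero, smul_zero]
    have hall2 : ∀ m : V, (f * e) m = m → m = 0 := by
      intro m hm
      apply hall m hm
      apply hall (u m)
      · rw [← Module.End.mul_apply, hqu]
      · rw [← Module.End.mul_apply, huu, LinearMap.zero_apply]
    apply hP.ne
    rw [← hS.eq]
    ext v
    rw [Module.End.mul_apply, hall2 ((f * e) v) (by rw [← Module.End.mul_apply, hS.qq]), map_zero,
      LinearMap.zero_apply]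
  rw [hzero, zero_mul] at hq''
  have hyu : y * u = 0 := by
    have h1 := (smul_eq_zero.mp hq''.symm).resolve_left (by norm_num)
    exact h1
  ext v
  rw [LinearMap.zero_apply]
  apply injy (u v)
  · rw [← Module.End.mul_apply, hqu]
  · rw [← Module.End.mul_apply, hyu, LinearMap.zero_apply]

end main

/-- **The key identity.** -/
theorem pKey (hTop : STop) (hNonsing : SNonsing) (hU : SU) : SKey := by
  intro K V _ _ _ _ _ _ _ ψ g hg e f t h hP hodd w hw w' hw'
  have hS := h.toSl
  obtain ⟨x, hx, y, hy, tx, ty, rfl⟩ := Key_split hg.lie h hw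
  obtain ⟨x', hx', y', hy', tx', ty', rfl⟩ := Key_split hg.lie h hw'
  have half : ∀ X ∈ G1 g e f, ∀ Y ∈ G1 g e f, t * X = X * t → t * Y - Y * t = Y →
      (∃ c : K, f * X * Y = c • (f * e)) ∧ ∃ c : K, f * Y * X = c • (f * e) := by
    intro X hX Y hY tX tY
    have h0 := Key_zero hTop hNonsing hU hg h hP hodd hX hY tX tY
    obtain ⟨c, hc⟩ := (hTop K V g hg.lie e f hP hS).2.2 X hX Y hY
    have hcf : c • (f * e) = f * (X * Y - Y * X) := by rw [hc, mul_smul_comm]
    have h1 : (2 : K) • (f * X * Y) = c • (f * e) := by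
      rw [hcf, two_smul]
      have : f * X * Y + f * X * Y = f * (X * Y + Y * X) + f * (X * Y - Y * X) := by noncomm_ring
      rw [this, h0, zero_add]
    have h2 : (2 : K) • (f * Y * X) = (-c) • (f * e) := by
      rw [neg_smul, hcf, two_smul]
      have : f * Y * X + f * Y * X = f * (X * Y + Y * X) - f * (X * Y - Y * X) := by noncomm_ring
      rw [this, h0, zero_sub]
    constructor
    · refine ⟨2⁻¹ * c, ?_⟩
      rw [← smul_smul, ← h1, smul_smul, inv_mul_cancel₀ two_ne_zero, one_smul]
    · refine ⟨2⁻¹ * -c, ?_⟩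
      rw [← smul_smul, ← h2, smul_smul, inv_mul_cancel₀ two_ne_zero, one_smul]
  obtain ⟨⟨c₁, h1⟩, -⟩ := half x hx y' hy' tx ty'
  obtain ⟨-, ⟨c₂, h2⟩⟩ := half x' hx' y hy tx' ty
  refine ⟨c₁ + c₂, ?_⟩
  have h3 : f * (x + y) * (x' + y') = f * (x * x') + f * x * y' + f * y * x' + f * (y * y') := by
    noncomm_ring
  rw [h3, Key_00 h hx hx' tx tx', Key_11 h hy hy' ty ty', mul_zero, zero_add, add_zero, h1, h2,
    add_smul]

end Pool.Agent.Lib.MP_640417_ag.Tor
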