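import Pool.Agent.Lib.MP_640417_ag.Tor.Spec
import Pool.Agent.Lib.MP_640417_ag.Tor.Base
import Pool.Agent.Lib.MP_640417_ag.Tor.Adj
import Pool.Agent.Lib.MP_640417_ag.Tor.PrimTr

/-!
# One toric place: the multiplicity space
-/

namespace Pool.Agent.Lib.MP_640417_ag.Tor

open Module

section

variable {K V : Type} [Field K] [AddCommGroup V] [Module K V]

/-- The space `W = K × G1 × K`. -/
abbrev Mult_W (g : Submodule K (Module.End K V)) (e f : Module.End K V) : Type :=
  K × (G1 g e f) × K

/-- The map `φ_u (α, x, γ) = α u + x u + γ e u`. -/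
noncomputable def Mult_phi (g : Submodule K (Module.End K V)) (e f : Module.End K V) :
    V →ₗ[K] Mult_W g e f →ₗ[K] V :=
  LinearMap.mk₂ K (fun u w => w.1 • u + (w.2.1 : Module.End K V) u + w.2.2 • e u)
    (by
      intro u v w
      simp only [map_add, smul_add]
      abel)
    (by
      intro c u w
      simp only [map_smul, smul_add, smul_smul, mul_comm c])
    (by
      intro u w w'
      simp only [Prod.fst_add, Prod.snd_add, Submodule.coe_add, LinearMap.add_apply, add_smul]
      abel)
    (by
      intro c u w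
      simp only [Prod.smul_fst, Prod.smul_snd, Submodule.coe_smul, LinearMap.smul_apply, smul_add,
        smul_smul, smul_eq_mul])

lemma Mult_phi_apply (g : Submodule K (Module.End K V)) (e f : Module.End K V) (u : V)
    (w : Mult_W g e f) :
    Mult_phi g e f u w = w.1 • u + (w.2.1 : Module.End K V) u + w.2.2 • e u := rfl

/-- The operators which act through `W`. -/
def Mult_S (g : Submodule K (Module.End K V)) (e f : Module.End K V) :
    Submodule K (Module.End K V) where
  carrier := {X | ∃ X' : Mult_W g e f →ₗ[K] Mult_W g e f, ∀ u, (f * e) u = u → ∀ w,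
    X (Mult_phi g e f u w) = Mult_phi g e f u (X' w)}
  add_mem' := by
    rintro X Y ⟨X', hX⟩ ⟨Y', hY⟩
    refine ⟨X' + Y', fun u hu w => ?_⟩
    rw [LinearMap.add_apply, hX u hu, hY u hu, LinearMap.add_apply, map_add]
  zero_mem' := ⟨0, fun u _ w => by simp⟩
  smul_mem' := by
    rintro c X ⟨X', hX⟩
    refine ⟨c • X', fun u hu w => ?_⟩
    rw [LinearMap.smul_apply, hX u hu, LinearMap.smul_apply, map_smul]

lemma Mult_S_lie (g : Submodule K (Module.End K V)) (e f : Module.End K V) :
    ∀ X ∈ Mult_S g e f, ∀ Y ∈ Mult_S g e f, X * Y - Y * X ∈ Mult_S g e f := by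
  rintro X ⟨X', hX⟩ Y ⟨Y', hY⟩
  refine ⟨X' ∘ₗ Y' - Y' ∘ₗ X', fun u hu w => ?_⟩
  rw [LinearMap.sub_apply, Module.End.mul_apply, Module.End.mul_apply, hX u hu, hY u hu, hX u hu,
    hY u hu, LinearMap.sub_apply, map_sub, LinearMap.comp_apply, LinearMap.comp_apply]

/-- The rank of the operator `w ↦ (X' w_i)_i`. -/
lemma Mult_pi {W : Type} [AddCommGroup W] [Module K W] [FiniteDimensional K W] (X' : W →ₗ[K] W)
    (n : ℕ) : finrank K (LinearMap.range (X'.compLeft (Fin n))) =
      n * finrank K (LinearMap.range X') := by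
  have h1 : LinearMap.range (X'.compLeft (Fin n)) =
      LinearMap.range ((LinearMap.range X').subtype.compLeft (Fin n)) := by
    ext w
    constructor
    · rintro ⟨v, rfl⟩
      exact ⟨fun i => ⟨X' (v i), ⟨v i, rfl⟩⟩, rfl⟩
    · rintro ⟨v, rfl⟩
      choose z hz using fun i => (v i).2
      refine ⟨z, ?_⟩
      ext i
      exact hz i
  have h2 : Function.Injective ((LinearMap.range X').subtype.compLeft (Fin n)) := by
    intro v v' h
    funext i
    apply Subtype.ext
    exact congrFun h i
  rw [h1, LinearMap.finrank_range_of_inj h2, Module.finrank_pi_fintype]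
  simp

end

section

variable {K V : Type} [Field K] [CharZero K] [AddCommGroup V] [Module K V] [FiniteDimensional K V]
  {g : Submodule K (Module.End K V)} {e f : Module.End K V}

lemma Mult_fu (hs : Sl g e f) {u : V} (hu : (f * e) u = u) : f u = 0 := by
  rw [← hu, ← Module.End.mul_apply, hs.fq, LinearMap.zero_apply]

lemma Mult_feu {u : V} (hu : (f * e) u = u) : f (e u) = u := hu

lemma Mult_fxu (hs : Sl g e f) {x : Module.End K V} (hx : x ∈ G1 g e f) {u : V}
    (hu : (f * e) u = u) : f (x u) = 0 := by
  have h1 := congrArg (fun A : Module.End K V => A u) (G1.fxq hs hx)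
  simp only [Module.End.mul_apply, LinearMap.zero_apply] at h1
  rw [show f (e u) = u from hu] at h1
  exact h1

lemma Mult_rkq (hs : Sl g e f) : rk (f * e) = rk e := by
  unfold rk
  apply le_antisymm
  · have h1 : LinearMap.range (f * e) = (LinearMap.range e).map f := LinearMap.range_comp _ _
    rw [h1]
    exact Submodule.finrank_map_le f _
  · have h1 : LinearMap.range e ≤ (LinearMap.range (f * e)).map e := by
      rintro _ ⟨x, rfl⟩
      refine ⟨(f * e) x, ⟨x, rfl⟩, ?_⟩
      conv_rhs => rw [← hs.eq]
      rfl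
    exact (Submodule.finrank_mono h1).trans (Submodule.finrank_map_le e _)

lemma Mult_rk_ne (he : e ≠ 0) : (rk e : K) ≠ 0 := by
  intro h0
  have h1 : rk e = 0 := by exact_mod_cast h0
  apply he
  rw [← LinearMap.range_eq_bot]
  exact Submodule.finrank_eq_zero.1 h1

/-- The functional `tr / rk e`. -/
noncomputable def Mult_L (e : Module.End K V) : Module.End K V →ₗ[K] K :=
  (rk e : K)⁻¹ • LinearMap.trace K V

lemma Mult_L_apply (A : Module.End K V) : Mult_L e A = (rk e : K)⁻¹ * tr A := rfl

/-- `f w x = L (f w x) q`. -/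
lemma Mult_L_spec (hs : Sl g e f) (he : e ≠ 0)
    (hc : ∀ w ∈ G1 g e f, ∀ w' ∈ G1 g e f, ∃ c : K, f * w * w' = c • (f * e))
    {w x : Module.End K V} (hw : w ∈ G1 g e f) (hx : x ∈ G1 g e f) :
    f * w * x = Mult_L e (f * w * x) • (f * e) := by
  obtain ⟨c, h⟩ := hc w hw x hx
  have h1 : Mult_L e (f * w * x) = c := by
    rw [Mult_L_apply, h]
    have h2 : tr (c • (f * e)) = c * (rk e : K) := by
      have h3 : tr (c • (f * e)) = c * tr (f * e) := map_smul _ _ _
      rw [h3, tr_idem hs.qq, Mult_rkq hs]
    rw [h2, mul_comm c, ← mul_assoc, inv_mul_cancel₀ (Mult_rk_ne he), one_mul]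
  rw [h1]
  exact h

/-- `w x u = L (f w x) e u`. -/
lemma Mult_wxu (hs : Sl g e f) (he : e ≠ 0)
    (hc : ∀ w ∈ G1 g e f, ∀ w' ∈ G1 g e f, ∃ c : K, f * w * w' = c • (f * e))
    {w x : Module.End K V} (hw : w ∈ G1 g e f) (hx : x ∈ G1 g e f) {u : V}
    (hu : (f * e) u = u) : w (x u) = Mult_L e (f * w * x) • e u := by
  have h1 : w * x = Mult_L e (f * w * x) • e := by
    have h2 := Mult_L_spec hs he hc hw hx
    generalize Mult_L e (f * w * x) = c at h2 ⊢
    calc w * x = (e * f) * (w * x) * (f * e) := G1.xy hs hw hx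
      _ = e * (f * w * x) * (f * e) := by noncomm_ring
      _ = c • e := by rw [h2, mul_smul_comm, smul_mul_assoc, hs.eq, hs.eq]
  rw [← Module.End.mul_apply, h1, LinearMap.smul_apply]

/-- The bracket of `e` with an element of degree `-1`. -/
lemma Mult_ev (hs : Sl g e f) (hlie : ∀ X ∈ g, ∀ Y ∈ g, X * Y - Y * X ∈ g)
    {v : Module.End K V} (hv : v ∈ G1 g f e) : e * v - v * e ∈ G1 g e f := by
  refine ⟨hlie e hs.me v hv.1, ?_⟩
  have h1 := hv.2
  have h2 := hs.he
  have h3 : (e * f - f * e) * (e * v - v * e) - (e * v - v * e) * (e * f - f * e) =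
      ((e * f - f * e) * e - e * (e * f - f * e)) * v -
        v * ((e * f - f * e) * e - e * (e * f - f * e)) -
        (e * ((f * e - e * f) * v - v * (f * e - e * f)) -
          ((f * e - e * f) * v - v * (f * e - e * f)) * e) := by noncomm_ring
  rw [h3, h1, h2, smul_mul_assoc, mul_smul_comm]
  module

/-- An element of degree `-1` is a bracket with `f`. -/
lemma Mult_fv (hs : Sl g e f) {v : Module.End K V} (hv : v ∈ G1 g f e) :
    v = f * (e * v - v * e) - (e * v - v * e) * f := by
  have h1 := G1.eq hs.symm hv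
  have h2 := G1.ex hs.symm hv
  have h3 := G1.xe hs.symm hv
  have h4 : f * (e * v - v * e) - (e * v - v * e) * f =
      v * (e * f) + (f * e) * v - (f * v) * e - e * (v * f) := by noncomm_ring
  rw [h4, h2, h3, zero_mul, mul_zero, sub_zero, sub_zero]
  exact h1

lemma Mult_e_mem (hs : Sl g e f) : e ∈ Mult_S g e f := by
  refine ⟨{ toFun := fun w => (0, 0, w.1)
            map_add' := by
              intro w w'
              simp
            map_smul' := by
              intro c w
              simp }, fun u hu w => ?_⟩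
  rw [Mult_phi_apply, Mult_phi_apply, map_add, map_add, map_smul, map_smul]
  have h1 : e ((w.2.1 : Module.End K V) u) = 0 := by
    rw [← Module.End.mul_apply, G1.ex hs w.2.1.2, LinearMap.zero_apply]
  have h2 : e (e u) = 0 := by
    rw [← Module.End.mul_apply, hs.ee, LinearMap.zero_apply]
  rw [h1, h2]
  simp

lemma Mult_f_mem (hs : Sl g e f) : f ∈ Mult_S g e f := by
  refine ⟨{ toFun := fun w => (w.2.2, 0, 0)
            map_add' := by
              intro w w'
              simp
            map_smul' := by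
              intro c w
              simp }, fun u hu w => ?_⟩
  rw [Mult_phi_apply, Mult_phi_apply, map_add, map_add, map_smul, map_smul, Mult_fu hs hu,
    Mult_fxu hs w.2.1.2 hu, Mult_feu hu]
  simp

lemma Mult_w_mem (hs : Sl g e f) (he : e ≠ 0)
    (hc : ∀ w ∈ G1 g e f, ∀ w' ∈ G1 g e f, ∃ c : K, f * w * w' = c • (f * e))
    {w0 : Module.End K V} (hw0 : w0 ∈ G1 g e f) : w0 ∈ Mult_S g e f := by
  refine ⟨{ toFun := fun w => (0, w.1 • (⟨w0, hw0⟩ : G1 g e f),
              Mult_L e (f * w0 * (w.2.1 : Module.End K V)))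
            map_add' := by
              intro w w'
              simp only [Prod.fst_add, Prod.snd_add, Submodule.coe_add, mul_add, map_add,
                add_smul, Prod.mk_add_mk, add_zero]
            map_smul' := by
              intro c w
              simp only [Prod.smul_fst, Prod.smul_snd, Submodule.coe_smul, mul_smul_comm,
                map_smul, smul_eq_mul, RingHom.id_apply, Prod.smul_mk, mul_smul,
                smul_zero, mul_zero] }, fun u hu w => ?_⟩
  rw [Mult_phi_apply, Mult_phi_apply, map_add, map_add, map_smul, map_smul,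
    Mult_wxu hs he hc hw0 w.2.1.2 hu]
  have h2 : w0 (e u) = 0 := by
    rw [← Module.End.mul_apply, G1.xe hs hw0, LinearMap.zero_apply]
  rw [h2]
  simp

lemma Mult_v_mem (hs : Sl g e f) (he : e ≠ 0)
    (hlie : ∀ X ∈ g, ∀ Y ∈ g, X * Y - Y * X ∈ g)
    (hc : ∀ w ∈ G1 g e f, ∀ w' ∈ G1 g e f, ∃ c : K, f * w * w' = c • (f * e))
    {v : Module.End K V} (hv : v ∈ G1 g f e) : v ∈ Mult_S g e f := by
  rw [Mult_fv hs hv]
  exact Mult_S_lie g e f f (Mult_f_mem hs) _ (Mult_w_mem hs he hc (Mult_ev hs hlie hv))

end

/-- **The multiplicity space.** -/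
theorem pMult (hIdl : SIdl) (hTop : STop) (hNonsing : SNonsing) (hDec : SDec) : SMult := by
  intro K V _ _ _ _ _ _ _ ψ g hg e f hP hs hc
  obtain ⟨a, ha, hea, hmin, hS⟩ := hIdl K V g hg.lie e f hP hs
  have haS := hS (Mult_S g e f) (Mult_S_lie g e f) (Mult_e_mem hs) (Mult_f_mem hs)
    (fun w hw => Mult_w_mem hs hP.ne hc hw) (fun v hv => Mult_v_mem hs hP.ne hg.lie hc hv)
  -- the range of `q` and a basis
  set M : Submodule K V := LinearMap.range (f * e) with hM
  set n : ℕ := finrank K M with hn
  have hnr : rk e = n := (Mult_rkq hs).symm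
  let bM : Basis (Fin n) K M := Module.finBasis K M
  set u : Fin n → V := fun i => (bM i : V) with hu
  have hMq : ∀ v, v ∈ M → (f * e) v = v := by
    rintro _ ⟨v, rfl⟩
    rw [← Module.End.mul_apply, hs.qq]
  have huq : ∀ i, (f * e) (u i) = u i := fun i => hMq _ (bM i).2
  have hli : LinearIndependent K u := bM.linearIndependent.map' M.subtype (Submodule.ker_subtype M)
  -- the map `Θ`
  let Θ : (Fin n → Mult_W g e f) →ₗ[K] V :=
    ∑ i, (Mult_phi g e f (u i)) ∘ₗ LinearMap.proj i
  have hΘ : ∀ w, Θ w = ∑ i, Mult_phi g e f (u i) (w i) := by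
    intro w
    show (∑ i, (Mult_phi g e f (u i)) ∘ₗ LinearMap.proj i) w = _
    rw [LinearMap.sum_apply]
    rfl
  -- injectivity
  have hinj : Function.Injective Θ := by
    rw [injective_iff_map_eq_zero]
    intro w hw
    rw [hΘ] at hw
    have h1 : ∀ i, (w i).1 = 0 := by
      refine Fintype.linearIndependent_iff.1 hli (fun i => (w i).1) ?_
      have h2 := congrArg (f * e) hw
      rw [map_sum, map_zero] at h2
      rw [← h2]
      refine Finset.sum_congr rfl fun i _ => ?_
      rw [Mult_phi_apply, map_add, map_add, map_smul, map_smul, huq i]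
      have h3 : (f * e) (((w i).2.1 : Module.End K V) (u i)) = 0 := by
        rw [← Module.End.mul_apply, G1.qx hs (w i).2.1.2, LinearMap.zero_apply]
      have h4 : (f * e) (e (u i)) = 0 := by
        rw [← Module.End.mul_apply, hs.qe, LinearMap.zero_apply]
      rw [h3, h4, smul_zero, add_zero, add_zero]
    have h2 : ∀ i, (w i).2.2 = 0 := by
      refine Fintype.linearIndependent_iff.1 hli (fun i => (w i).2.2) ?_
      have h2 := congrArg f hw
      rw [map_sum, map_zero] at h2
      rw [← h2]
      refine Finset.sum_congr rfl fun i _ => ?_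
      rw [Mult_phi_apply, map_add, map_add, map_smul, map_smul, Mult_fu hs (huq i),
        Mult_fxu hs (w i).2.1.2 (huq i), Mult_feu (huq i), smul_zero, zero_add, zero_add]
    have h3 : ∀ y ∈ G1 g e f, ∀ i, f * y * ((w i).2.1 : Module.End K V) = 0 := by
      intro y hy i
      rw [Mult_L_spec hs hP.ne hc hy (w i).2.1.2]
      have h4 : ∀ i, Mult_L e (f * y * ((w i).2.1 : Module.End K V)) = 0 := by
        refine Fintype.linearIndependent_iff.1 hli
          (fun i => Mult_L e (f * y * ((w i).2.1 : Module.End K V))) ?_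
        have h5 := congrArg (fun v => f (y v)) hw
        simp only [map_sum, map_zero] at h5
        rw [← h5]
        refine Finset.sum_congr rfl fun j _ => ?_
        have h6 : y (e (u j)) = 0 := by
          rw [← Module.End.mul_apply, G1.xe hs hy, LinearMap.zero_apply]
        have h7 : y (Mult_phi g e f (u j) (w j)) = (w j).1 • y (u j) +
            Mult_L e (f * y * ((w j).2.1 : Module.End K V)) • e (u j) := by
          rw [Mult_phi_apply, map_add, map_add, map_smul, map_smul,
            Mult_wxu hs hP.ne hc hy (w j).2.1.2 (huq j), h6, smul_zero, add_zero]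
        rw [h7, map_add, map_smul, map_smul, Mult_fxu hs hy (huq j),
          smul_zero, zero_add, Mult_feu (huq j)]
      rw [h4 i, zero_smul]
    have h4 : ∀ i, (w i).2.1 = 0 := by
      intro i
      apply Subtype.ext
      by_contra hne
      obtain ⟨y, hy, hyne⟩ := hNonsing K V ψ g hg e f hP hs _ (w i).2.1.2 hne
      apply hyne
      obtain ⟨om, hom⟩ := (hTop K V g hg.lie e f hP hs).2.2 _ (w i).2.1.2 y hy
      have h5 := h3 y hy i
      set x : Module.End K V := ((w i).2.1 : Module.End K V) with hx
      have hxm : x ∈ G1 g e f := (w i).2.1.2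
      -- `f x y = om q`
      have h6 : f * x * y = om • (f * e) := by
        have h7 := congrArg (fun A => f * A) hom
        simp only [mul_sub, mul_smul_comm] at h7
        rw [← mul_assoc, ← mul_assoc, h5, sub_zero] at h7
        exact h7
      have h7 : tr (f * x * y) = 0 := by
        have h8 : tr (f * x * y) = tr (- (y * x * f)) := by
          refine tr_adj ψ hg.nd fun s t => ?_
          have e1 := hg.sp f hs.mf
          have e2 := hg.sp x hxm.1
          have e3 := hg.sp y hy.1
          rw [Module.End.mul_apply, Module.End.mul_apply, e1, e2, e3, LinearMap.neg_apply,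
            Module.End.mul_apply, Module.End.mul_apply, map_neg]
          ring
        have h9 : tr (- (y * x * f)) = - tr (y * x * f) := map_neg _ _
        have h10 : tr (y * x * f) = tr (f * y * x) := by
          rw [tr_comm (y * x) f, mul_assoc]
        rw [h8, h9, h10, h5]
        have h11 : tr (0 : Module.End K V) = 0 := map_zero _
        rw [h11, neg_zero]
      rw [h6] at h7
      have h8 : tr (om • (f * e)) = om * tr (f * e) := map_smul _ _ _
      rw [h8, tr_idem hs.qq, Mult_rkq hs] at h7
      have h9 : om = 0 := (mul_eq_zero.1 h7).resolve_right (Mult_rk_ne hP.ne)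
      rw [hom, h9, zero_smul]
    funext i
    exact Prod.ext (h1 i) (Prod.ext (h4 i) (h2 i))
  -- elements `φ_v w` are in the range
  have hrange : ∀ v, (f * e) v = v → ∀ w, Mult_phi g e f v w ∈ LinearMap.range Θ := by
    intro v hv w
    have hvM : v ∈ M := ⟨v, hv⟩
    refine ⟨fun i => bM.repr ⟨v, hvM⟩ i • w, ?_⟩
    rw [hΘ]
    have h1 : ∑ i, bM.repr ⟨v, hvM⟩ i • u i = v := by
      have h2 := congrArg Subtype.val (bM.sum_repr ⟨v, hvM⟩)
      rw [Submodule.coe_sum] at h2
      exact h2
    conv_rhs => rw [← h1]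
    rw [map_sum, LinearMap.sum_apply]
    refine Finset.sum_congr rfl fun i _ => ?_
    rw [map_smul, map_smul, LinearMap.smul_apply]
  -- `f`, `h` and `G1` are in `a`
  have hfa : f ∈ a := by
    have h1 := ha.lie f hs.mf e hea
    have h2 := ha.lie f hs.mf _ h1
    rw [sandwich_eq hs.ff, hs.fef] at h2
    have h3 := a.smul_mem (-(2 : K))⁻¹ h2
    rwa [smul_smul, inv_mul_cancel₀ (neg_ne_zero.mpr two_ne_zero), one_smul] at h3
  have hha : e * f - f * e ∈ a := ha.lie e hs.me f hfa
  have hGa : ∀ x ∈ G1 g e f, x ∈ a := by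
    intro x hx
    have h1 := ha.lie' hx.1 hha
    rwa [hx.2] at h1
  -- surjectivity
  have hstab : ∀ X ∈ g, ∀ y ∈ LinearMap.range Θ, X y ∈ LinearMap.range Θ := by
    intro X hX y hy
    obtain ⟨X₁, hX₁, X₂, hX₂, rfl, hcomm⟩ := hDec K V ψ g hg a ha X hX
    obtain ⟨w, rfl⟩ := hy
    rw [LinearMap.add_apply]
    refine Submodule.add_mem _ ?_ ?_
    · obtain ⟨X', hX'⟩ := haS hX₁
      rw [hΘ, map_sum]
      refine Submodule.sum_mem _ fun i _ => ?_
      rw [hX' _ (huq i)]
      exact hrange _ (huq i) _
    · rw [hΘ, map_sum]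
      refine Submodule.sum_mem _ fun i _ => ?_
      have h1 : X₂ (Mult_phi g e f (u i) (w i)) = Mult_phi g e f (X₂ (u i)) (w i) := by
        rw [Mult_phi_apply, Mult_phi_apply, map_add, map_add, map_smul, map_smul]
        have h2 : X₂ (((w i).2.1 : Module.End K V) (u i)) =
            ((w i).2.1 : Module.End K V) (X₂ (u i)) := by
          rw [← Module.End.mul_apply, hcomm _ (hGa _ (w i).2.1.2), Module.End.mul_apply]
        have h3 : X₂ (e (u i)) = e (X₂ (u i)) := by
          rw [← Module.End.mul_apply, hcomm _ hea, Module.End.mul_apply]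
        rw [h2, h3]
      rw [h1]
      refine hrange _ ?_ _
      have h2 : (f * e) * X₂ = X₂ * (f * e) := by
        rw [mul_assoc, ← hcomm _ hea, ← mul_assoc, ← hcomm _ hfa, mul_assoc]
      rw [← Module.End.mul_apply, h2, Module.End.mul_apply, huq i]
  have hsurj : LinearMap.range Θ = ⊤ := by
    rcases hg.irr _ hstab with h1 | h1
    · exfalso
      apply hP.ne
      have h2 : f * e = 0 := by
        ext v
        have h3 := hrange ((f * e) v) (by rw [← Module.End.mul_apply, hs.qq]) (1, 0, 0)
        rw [h1, Submodule.mem_bot, Mult_phi_apply] at h3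
        simpa using h3
      rw [← hs.eq, h2, mul_zero]
    · exact h1
  refine ⟨a, ha, hea, hmin, ?_, ?_⟩
  · have h1 := LinearMap.finrank_range_of_inj hinj
    rw [hsurj, finrank_top, Module.finrank_pi_fintype] at h1
    rw [h1, hnr]
    simp
  · intro X hX
    obtain ⟨X', hX'⟩ := haS hX
    have h1 : (X : Module.End K V) ∘ₗ Θ = Θ ∘ₗ (X'.compLeft (Fin n)) := by
      refine LinearMap.ext fun w => ?_
      rw [LinearMap.comp_apply, LinearMap.comp_apply, hΘ, hΘ, map_sum]
      refine Finset.sum_congr rfl fun i _ => ?_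
      rw [hX' _ (huq i)]
      rfl
    have h2 : rk X = n * finrank K (LinearMap.range X') := by
      unfold rk
      rw [← LinearMap.range_comp_of_range_eq_top X hsurj, h1, LinearMap.range_comp,
        ← (Submodule.equivMapOfInjective Θ hinj _).finrank_eq, Mult_pi]
    rw [h2, hnr]
    exact Dvd.intro _ rfl

end Pool.Agent.Lib.MP_640417_ag.Tor
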