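import Pool.Agent.Lib.MP_640417_ag.Tor.Spec
import Pool.Agent.Lib.MP_640417_ag.Tor.Base

/-!
# One toric place: a primitive element of odd rank
-/

namespace Pool.Agent.Lib.MP_640417_ag.Tor

open Module

lemma rk_pos {K V : Type} [Field K] [AddCommGroup V] [Module K V] [FiniteDimensional K V]
    {X : Module.End K V} (h : X ≠ 0) : 0 < rk X := by
  unfold rk
  rw [Module.finrank_pos_iff, Submodule.nontrivial_iff_ne_bot]
  rwa [Ne, LinearMap.range_eq_bot]

/-- A primitive element of odd rank. -/
theorem pOdd (hSplit : SSplit) : SOdd := by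
  intro K V _ _ _ _ _ _ _ ψ g hg
  have main : ∀ m : ℕ, ∀ N ∈ g, N * N = 0 → Odd (rk N) → rk N = m →
      ∃ e, Prm g e ∧ Odd (rk e) ∧ ∀ a, Idl g a → N ∈ a → e ∈ a := by
    intro m
    induction m using Nat.strong_induction_on with
    | _ m ih =>
      intro N hN hNN hodd hm
      by_cases hP : Prm g N
      · exact ⟨N, hP, hodd, fun a _ h => h⟩
      · have hN0 : N ≠ 0 := by
          rintro rfl
          have h1 : rk (0 : Module.End K V) = 0 := by
            unfold rk
            rw [LinearMap.range_zero, finrank_bot]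
          rw [h1] at hodd
          exact Nat.not_odd_zero hodd
        obtain ⟨N₁, h1, N₂, h2, h10, h20, h11, h22, hsum, hrk, hid⟩ :=
          hSplit K V ψ g hg N hN hNN hN0 hP
        have p1 := rk_pos h10
        have p2 := rk_pos h20
        rw [hrk, Nat.odd_add] at hodd
        by_cases ho : Odd (rk N₁)
        · obtain ⟨e, he, heo, hea⟩ := ih (rk N₁) (by omega) N₁ h1 h11 ho rfl
          exact ⟨e, he, heo, fun a ha hNa => hea a ha (hid a ha hNa).1⟩
        · have ho2 : Odd (rk N₂) := by
            rw [← Nat.not_even_iff_odd]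
            intro h3
            exact ho (hodd.mpr h3)
          obtain ⟨e, he, heo, hea⟩ := ih (rk N₂) (by omega) N₂ h2 h22 ho2 rfl
          exact ⟨e, he, heo, fun a ha hNa => hea a ha (hid a ha hNa).2⟩
  intro N hN hNN hodd
  exact main (rk N) N hN hNN hodd rfl

end Pool.Agent.Lib.MP_640417_ag.Tor
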