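import Pool.Agent.Lib.MP_640417_ag.Tor.Spec
import Pool.Agent.Lib.MP_640417_ag.Tor.Base

/-!
# One toric place: operators on the range of an idempotent
-/

namespace Pool.Agent.Lib.MP_640417_ag.Tor

open Module Polynomial

/-- Operators on the range of an idempotent over an algebraically closed field. -/
theorem pPoly : SPoly := by
  intro K V _ _ _ _ _ q a hq hq0 hqa haq
  -- powers of `a` and `q`
  have hcomm : ∀ P : K[X], aeval a P * q = q * aeval a P := by
    intro P
    induction P using Polynomial.induction_on' with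
    | add P Q hP hQ => rw [map_add, add_mul, mul_add, hP, hQ]
    | monomial n c =>
      rw [aeval_monomial]
      have h1 : a ^ n * q = q * a ^ n := by
        have hc : Commute a q := by
          unfold Commute SemiconjBy
          rw [hqa, haq]
        exact hc.pow_left n
      rw [mul_assoc, h1, ← mul_assoc, ← mul_assoc, Algebra.commutes]
  let I : Ideal K[X] :=
    { carrier := {P | aeval a P * q = 0}
      add_mem' := by
        intro P Q hP hQ
        change aeval a (P + Q) * q = 0
        rw [map_add, add_mul, hP, hQ, add_zero]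
      zero_mem' := by
        change aeval a (0 : K[X]) * q = 0
        rw [map_zero, zero_mul]
      smul_mem' := by
        intro R P hP
        change aeval a (R * P) * q = 0
        rw [map_mul, mul_assoc, hP, mul_zero] }
  have hI : ∀ P : K[X], P ∈ I ↔ aeval a P * q = 0 := fun _ => Iff.rfl
  set m : K[X] := Submodule.IsPrincipal.generator I with hm
  have hdvd : ∀ P : K[X], P ∈ I ↔ m ∣ P := fun P =>
    Submodule.IsPrincipal.mem_iff_generator_dvd I
  have hmI : aeval a m * q = 0 := (hI m).mp ((hdvd m).mpr dvd_rfl)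
  have hm0 : m ≠ 0 := by
    intro h0
    have h1 : minpoly K a ∈ I := by
      rw [hI, minpoly.aeval, zero_mul]
    rw [hdvd, h0, zero_dvd_iff] at h1
    exact minpoly.ne_zero (Algebra.IsIntegral.isIntegral a) h1
  have hmu : ¬ IsUnit m := by
    intro hu
    have h1 : (1 : K[X]) ∈ I := (hdvd 1).mpr hu.dvd
    rw [hI, map_one, one_mul] at h1
    exact hq0 h1
  have hdeg : m.degree ≠ 0 := fun h => hmu (Polynomial.isUnit_iff_degree_eq_zero.mpr h)
  obtain ⟨c, hc⟩ := IsAlgClosed.exists_root m hdeg
  obtain ⟨m₁, hm₁, hnd⟩ := Polynomial.exists_eq_pow_rootMultiplicity_mul_and_not_dvd m hm0 c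
  set k : ℕ := m.rootMultiplicity c with hk
  have hk0 : 0 < k := (Polynomial.rootMultiplicity_pos hm0).mpr hc
  have hcop : IsCoprime ((X - C c) ^ k) m₁ := by
    apply IsCoprime.pow_left
    exact (Polynomial.irreducible_X_sub_C c).coprime_iff_not_dvd.mpr hnd
  by_cases hunit : IsUnit m₁
  · right
    refine ⟨c, k, ?_⟩
    have h1 : (X - C c) ^ k ∈ I := by
      rw [hdvd, hm₁]
      obtain ⟨v, hv⟩ := hunit.exists_right_inv
      exact ⟨v, by rw [mul_assoc, hv, mul_one]⟩
    rw [hI, map_pow, map_sub, aeval_X, aeval_C] at h1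
    have h2 : a - c • q = (a - algebraMap K (Module.End K V) c) * q := by
      rw [sub_mul, haq, Algebra.algebraMap_eq_smul_one, smul_mul_assoc, one_mul]
    have hcq : Commute (a - algebraMap K (Module.End K V) c) q := by
      have hc1 : Commute a q := by
        unfold Commute SemiconjBy
        rw [hqa, haq]
      exact hc1.sub_left (Algebra.commutes c q)
    rw [h2, hcq.mul_pow]
    have h4 : ∀ j : ℕ, q ^ (j + 1) = q := by
      intro j
      induction j with
      | zero => rw [zero_add, pow_one]
      | succ j ih => rw [pow_succ, ih, hq]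
    have h3 : q ^ k = q := by
      obtain ⟨j, hj⟩ := Nat.exists_eq_succ_of_ne_zero hk0.ne'
      rw [hj]
      exact h4 j
    rw [h3, h1]
  · left
    obtain ⟨v, u, huv⟩ := hcop
    have hP : ∀ R : K[X], (aeval a R * q) * (aeval a R * q) = aeval a (R * R) * q := by
      intro R
      have h1 : (aeval a R * q) * (aeval a R * q) = aeval a R * (q * aeval a R) * q := by
        noncomm_ring
      rw [h1, ← hcomm, map_mul]
      have h2 : aeval a R * (aeval a R * q) * q = aeval a R * aeval a R * (q * q) := by
        noncomm_ring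
      rw [h2, hq]
    refine ⟨u * m₁, ?_, ?_, ?_⟩
    · rw [hP]
      have h1 : (u * m₁) * (u * m₁) - u * m₁ ∈ I := by
        rw [hdvd, hm₁]
        refine ⟨-(u * v), ?_⟩
        have h2 : u * m₁ - 1 = -(v * (X - C c) ^ k) := by rw [← huv]; ring
        have h3 : (u * m₁) * (u * m₁) - u * m₁ = (u * m₁) * (u * m₁ - 1) := by ring
        rw [h3, h2]
        ring
      rw [hI, map_sub, sub_mul, sub_eq_zero] at h1
      exact h1
    · intro h0
      have h1 : u * m₁ ∈ I := h0
      rw [hdvd, hm₁] at h1
      have h2 : (X - C c) ^ k ∣ u * m₁ := (Dvd.intro _ rfl).trans h1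
      have h3 : (X - C c) ^ k ∣ 1 := by
        rw [← huv]
        exact dvd_add (Dvd.intro_left _ rfl) h2
      have h4 : IsUnit ((X - C c) ^ k) := isUnit_of_dvd_one h3
      rw [isUnit_pow_iff hk0.ne'] at h4
      exact (Polynomial.irreducible_X_sub_C c).not_isUnit h4
    · intro h0
      have h1 : v * (X - C c) ^ k ∈ I := by
        rw [hI]
        have h2 : v * (X - C c) ^ k = 1 - u * m₁ := by rw [← huv]; ring
        rw [h2, map_sub, map_one, sub_mul, one_mul, h0, sub_self]
      rw [hdvd, hm₁] at h1
      have h2 : m₁ ∣ v * (X - C c) ^ k := (Dvd.intro_left _ rfl).trans h1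
      have h3 : m₁ ∣ 1 := by
        rw [← huv]
        exact dvd_add h2 (Dvd.intro_left _ rfl)
      exact hunit (isUnit_of_dvd_one h3)

end Pool.Agent.Lib.MP_640417_ag.Tor
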