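import Pool.Agent.Lib.MP_640417_ag.Tor.Spec
import Pool.Agent.Lib.MP_640417_ag.Tor.Base

/-!
# One toric place: a criterion for primitive elements
-/

namespace Pool.Agent.Lib.MP_640417_ag.Tor

open Module

/-- A criterion for primitive elements. -/
theorem pPrimConv (hTr : STr) (hPrimTr : SPrimTr) : SPrimConv := by
  intro K V _ _ _ _ _ _ _ ψ g hg y hy hy0 hyy r hr
  obtain ⟨X, hX, hX0⟩ : ∃ X ∈ g, tr (y * X) ≠ 0 := by
    by_contra hne
    push Not at hne
    exact hy0 (hTr K V ψ g hg g ⟨le_refl _, hg.lie⟩ y hy hne)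
  have hr0 : (r : K) ≠ 0 := by
    intro h0
    have h1 := hr X hX
    rw [h0, zero_smul] at h1
    exact (smul_ne_zero hX0 hy0) h1.symm
  have hP : Prm g y := by
    refine ⟨hy, hy0, hyy, fun Z hZ => ⟨(r : K)⁻¹ * tr (y * Z), ?_⟩⟩
    rw [← smul_smul, ← hr Z hZ, smul_smul, inv_mul_cancel₀ hr0, one_smul]
  refine ⟨hP, ?_⟩
  have h1 := hPrimTr K V g y hP X hX
  rw [← hr X hX, ← sub_eq_zero, ← sub_smul] at h1
  have h2 : y * X * y ≠ 0 := by
    intro h0
    have h3 := hr X hX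
    rw [h0, smul_zero] at h3
    exact (smul_ne_zero hX0 hy0) h3.symm
  have h3 := (smul_eq_zero.mp h1).resolve_right h2
  exact_mod_cast sub_eq_zero.mp h3

end Pool.Agent.Lib.MP_640417_ag.Tor
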