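import Pool.Agent.Lib.MP_640417_ag.Tor.Spec
import Pool.Agent.Lib.MP_640417_ag.Tor.Base

/-!
# One toric place: an element of rank one

Write `T a b x = ψ(a, x) b + ψ(b, x) a`. If `T v v`, `T w w` are in `g` and `ψ(v, w) ≠ 0`, the space
`A = {a | T v a ∈ g}` is equal to `{a | T w a ∈ g}`, so `T a b ∈ g` for all `a`, `b ∈ A`, and `A` is
`g`-stable: `[X, T v v] = 2 T (X v) v` and `[X, T v a] = T (X v) a + T v (X a)`.
-/

namespace Pool.Agent.Lib.MP_640417_ag.Tor

open Module

section

variable {K V : Type} [Field K] [AddCommGroup V] [Module K V]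

/-- The skew operator `x ↦ ψ(a, x) b + ψ(b, x) a`. -/
def RankOne_T (ψ : LinearMap.BilinForm K V) (a b : V) : Module.End K V :=
  (ψ a).smulRight b + (ψ b).smulRight a

lemma RankOne_T_apply (ψ : LinearMap.BilinForm K V) (a b x : V) :
    RankOne_T ψ a b x = ψ a x • b + ψ b x • a := rfl

lemma RankOne_T_comm (ψ : LinearMap.BilinForm K V) (a b : V) :
    RankOne_T ψ a b = RankOne_T ψ b a := by
  ext x
  rw [RankOne_T_apply, RankOne_T_apply, add_comm]

lemma RankOne_T_add (ψ : LinearMap.BilinForm K V) (a b c : V) :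
    RankOne_T ψ a (b + c) = RankOne_T ψ a b + RankOne_T ψ a c := by
  ext x
  simp only [RankOne_T_apply, LinearMap.add_apply, map_add]
  module

lemma RankOne_T_smul (ψ : LinearMap.BilinForm K V) (s : K) (a b : V) :
    RankOne_T ψ a (s • b) = s • RankOne_T ψ a b := by
  ext x
  simp only [RankOne_T_apply, LinearMap.smul_apply, map_smul, smul_eq_mul]
  module

lemma RankOne_T_add' (ψ : LinearMap.BilinForm K V) (a b c : V) :
    RankOne_T ψ (b + c) a = RankOne_T ψ b a + RankOne_T ψ c a := by
  rw [RankOne_T_comm, RankOne_T_add, RankOne_T_comm ψ a b, RankOne_T_comm ψ a c]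

lemma RankOne_T_smul' (ψ : LinearMap.BilinForm K V) (s : K) (a b : V) :
    RankOne_T ψ (s • b) a = s • RankOne_T ψ b a := by
  rw [RankOne_T_comm, RankOne_T_smul, RankOne_T_comm ψ a b]

/-- The bracket of a skew operator with `T a b`. -/
lemma RankOne_lie {ψ : LinearMap.BilinForm K V} {X : Module.End K V} (hX : Skew ψ X) (a b : V) :
    X * RankOne_T ψ a b - RankOne_T ψ a b * X = RankOne_T ψ (X a) b + RankOne_T ψ a (X b) := by
  ext x
  simp only [LinearMap.sub_apply, Module.End.mul_apply, RankOne_T_apply, map_add, map_smul,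
    LinearMap.add_apply]
  rw [hX a x, hX b x]
  module

/-- A skew operator of rank one. -/
lemma RankOne_form {ψ : LinearMap.BilinForm K V} (nd : ∀ x, (∀ y, ψ x y = 0) → x = 0)
    (anti : ∀ x y, ψ x y = - ψ y x)
    {e : Module.End K V} (he : Skew ψ e) (hr : rk e = 1) :
    ∃ (v : V) (s : K), v ≠ 0 ∧ s ≠ 0 ∧ ∀ x, e x = (s * ψ v x) • v := by
  obtain ⟨v', hv, hspan⟩ := finrank_eq_one_iff'.1 hr
  obtain ⟨v, hvm⟩ := v'
  have hv0 : v ≠ 0 := fun h => hv (Subtype.ext h)
  have h1 : ∀ x, ∃ c : K, e x = c • v := by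
    intro x
    obtain ⟨c, hc⟩ := hspan ⟨e x, LinearMap.mem_range_self e x⟩
    exact ⟨c, (congrArg Subtype.val hc).symm⟩
  choose lam hlam using h1
  obtain ⟨y, hy⟩ : ∃ y, ψ v y ≠ 0 := by
    by_contra h
    push Not at h
    exact hv0 (nd v h)
  have h2 : ∀ x, lam x * ψ v y = lam y * ψ v x := by
    intro x
    have h3 := he x y
    rw [hlam x, hlam y, map_smul, map_smul, LinearMap.smul_apply, smul_eq_mul, smul_eq_mul,
      anti x v] at h3
    rw [h3]
    ring
  refine ⟨v, lam y * (ψ v y)⁻¹, hv0, ?_, ?_⟩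
  · intro h0
    have h4 : lam y = 0 := by
      rcases mul_eq_zero.1 h0 with h5 | h5
      · exact h5
      · exact absurd (inv_eq_zero.1 h5) hy
    have h5 : e = 0 := by
      ext x
      have h6 := h2 x
      rw [h4, zero_mul] at h6
      have h7 : lam x = 0 := (mul_eq_zero.1 h6).resolve_right hy
      rw [hlam x, h7, zero_smul, LinearMap.zero_apply]
    rw [h5] at hr
    unfold rk at hr
    rw [LinearMap.range_zero, finrank_bot] at hr
    exact absurd hr zero_ne_one
  · intro x
    rw [hlam x]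
    congr 1
    field_simp
    rw [h2 x]

end

/-- Every skew operator is a combination of the operators `T a b`. -/
lemma RankOne_all {K V : Type} [Field K] [CharZero K] [AddCommGroup V] [Module K V]
    [FiniteDimensional K V] {ψ : LinearMap.BilinForm K V} (alt : ∀ x, ψ x x = 0)
    (nd : ∀ x, (∀ y, ψ x y = 0) → x = 0) (anti : ∀ x y, ψ x y = - ψ y x)
    (g : Submodule K (Module.End K V))
    (h : ∀ a b, RankOne_T ψ a b ∈ g) {X : Module.End K V} (hX : Skew ψ X) : X ∈ g := by
  classical
  have hnd : ψ.Nondegenerate := by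
    refine ⟨fun x hx => nd x hx, fun y hy => nd y fun x => ?_⟩
    rw [anti, hy, neg_zero]
  let b := Module.finBasis K V
  let b' := ψ.dualBasis hnd b
  have h1 : ∀ x, ∑ i, ψ (b' i) x • b i = x := by
    intro x
    have h2 : ∀ i, ψ (b' i) x = b.repr x i := by
      intro i
      conv_lhs => rw [← b.sum_repr x]
      rw [map_sum]
      rw [Finset.sum_eq_single i]
      · rw [map_smul, LinearMap.BilinForm.apply_dualBasis_left, if_pos rfl, smul_eq_mul, mul_one]
      · intro j _ hj
        rw [map_smul, LinearMap.BilinForm.apply_dualBasis_left, if_neg hj, smul_zero]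
      · intro hi
        exact absurd (Finset.mem_univ i) hi
    simp_rw [h2]
    exact b.sum_repr x
  have h3 : ∀ y, ∑ i, ψ (b i) y • b' i = - y := by
    intro y
    apply eq_neg_of_add_eq_zero_left
    refine nd _ fun z => ?_
    rw [map_add, LinearMap.add_apply]
    rw [show ψ (∑ i, ψ (b i) y • b' i) z = ∑ i, ψ (b i) y * ψ (b' i) z by
      rw [map_sum, LinearMap.sum_apply]
      simp only [map_smul, LinearMap.smul_apply, smul_eq_mul]]
    have h4 : ψ y z = - ∑ i, ψ (b i) y * ψ (b' i) z := by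
      conv_lhs => rw [← h1 z]
      rw [map_sum, ← Finset.sum_neg_distrib]
      refine Finset.sum_congr rfl fun i _ => ?_
      rw [map_smul, smul_eq_mul, anti y (b i)]
      ring
    rw [h4]
    exact add_neg_cancel _
  have h5 : (2 : K) • X = ∑ i, RankOne_T ψ (b' i) (X (b i)) := by
    ext x
    rw [LinearMap.sum_apply, LinearMap.smul_apply]
    simp only [RankOne_T_apply]
    rw [Finset.sum_add_distrib]
    have h6 : ∑ i, ψ (b' i) x • X (b i) = X x := by
      conv_rhs => rw [← h1 x]
      rw [map_sum]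
      simp only [map_smul]
    have h7 : ∑ i, ψ (X (b i)) x • b' i = X x := by
      have h8 := h3 (X x)
      rw [← neg_eq_iff_eq_neg, ← Finset.sum_neg_distrib] at h8
      rw [← h8]
      refine Finset.sum_congr rfl fun i _ => ?_
      rw [hX (b i) x, neg_smul]
    rw [h6, h7, two_smul]
  have h6 : (2 : K) • X ∈ g := by
    rw [h5]
    exact g.sum_mem fun i _ => h _ _
  have h7 := g.smul_mem (2 : K)⁻¹ h6
  rwa [smul_smul, inv_mul_cancel₀ two_ne_zero, one_smul] at h7

/-- **An irreducible Lie algebra with an element of rank one is the symplectic one.** -/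
theorem pRankOne (_hTr : STr) (hSl : SSl) (_hGrade : SGrade) : SRankOne := by
  intro K V _ _ _ _ _ _ _ ψ g hg e he hrk X hX
  have anti := hg.anti
  obtain ⟨v, s, hv, hs, hev⟩ := RankOne_form hg.nd anti (hg.sp e he) hrk
  have hee : e * e = 0 := by
    ext x
    rw [Module.End.mul_apply, hev x, map_smul, hev v, hg.alt v, mul_zero, zero_smul, smul_zero,
      LinearMap.zero_apply]
  obtain ⟨f, hf⟩ := hSl K V ψ g hg e he hee
  have hfr : rk f = 1 := by
    have h1 : rk f ≤ rk e := by
      have h2 : LinearMap.range f ≤ (LinearMap.range e).map f := by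
        rintro _ ⟨x, rfl⟩
        refine ⟨e (f x), ⟨f x, rfl⟩, ?_⟩
        conv_rhs => rw [← hf.fef]
        rfl
      exact (Submodule.finrank_mono h2).trans (Submodule.finrank_map_le f _)
    have h3 : rk f ≠ 0 := by
      intro h4
      have h5 : f = 0 := by
        rw [← LinearMap.range_eq_bot]
        exact Submodule.finrank_eq_zero.1 h4
      have h6 : e = 0 := by rw [← hf.efe, h5, mul_zero, zero_mul]
      rw [h6] at hrk
      unfold rk at hrk
      rw [LinearMap.range_zero, finrank_bot] at hrk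
      exact absurd hrk zero_ne_one
    omega
  obtain ⟨w, s', hw, hs', hfw⟩ := RankOne_form hg.nd anti (hg.sp f hf.mf) hfr
  have hTvv : RankOne_T ψ v v ∈ g := by
    have h1 : RankOne_T ψ v v = (2 * s⁻¹) • e := by
      ext x
      rw [RankOne_T_apply, LinearMap.smul_apply, hev x, smul_smul, ← add_smul]
      congr 1
      field_simp
      ring
    rw [h1]
    exact g.smul_mem _ he
  have hTww : RankOne_T ψ w w ∈ g := by
    have h1 : RankOne_T ψ w w = (2 * s'⁻¹) • f := by
      ext x
      rw [RankOne_T_apply, LinearMap.smul_apply, hfw x, smul_smul, ← add_smul]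
      congr 1
      field_simp
      ring
    rw [h1]
    exact g.smul_mem _ hf.mf
  have hvw : ψ v w ≠ 0 := by
    intro h0
    have h1 : e = 0 := by
      rw [← hf.efe]
      ext x
      rw [Module.End.mul_apply, Module.End.mul_apply, hfw (e x), map_smul, hev w, h0, mul_zero,
        zero_smul, smul_zero, LinearMap.zero_apply]
    rw [h1] at hrk
    unfold rk at hrk
    rw [LinearMap.range_zero, finrank_bot] at hrk
    exact absurd hrk zero_ne_one
  have hwv : ψ w v ≠ 0 := by
    rw [anti w v]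
    exact neg_ne_zero.2 hvw
  have skT : ∀ {a b : V}, RankOne_T ψ a b ∈ g → Skew ψ (RankOne_T ψ a b) := fun h => hg.sp _ h
  -- the bracket of two operators
  have hTT : ∀ a b c d : V, RankOne_T ψ a b ∈ g → RankOne_T ψ c d ∈ g →
      RankOne_T ψ (RankOne_T ψ a b c) d + RankOne_T ψ c (RankOne_T ψ a b d) ∈ g := by
    intro a b c d h1 h2
    rw [← RankOne_lie (skT h1)]
    exact hg.lie _ h1 _ h2
  have hTvw : RankOne_T ψ v w ∈ g := by
    have h1 := hTT v v w w hTvv hTww
    rw [RankOne_T_apply, ← add_smul, RankOne_T_smul, RankOne_T_smul', RankOne_T_comm ψ w v,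
      ← add_smul] at h1
    have h2 : ψ v w + ψ v w + (ψ v w + ψ v w) ≠ 0 := by
      have h3 : ψ v w + ψ v w + (ψ v w + ψ v w) = 4 * ψ v w := by ring
      rw [h3]
      exact mul_ne_zero (by norm_num) hvw
    have h4 := g.smul_mem (ψ v w + ψ v w + (ψ v w + ψ v w))⁻¹ h1
    rwa [smul_smul, inv_mul_cancel₀ h2, one_smul] at h4
  -- `A_v ≤ A_w`
  have hAw : ∀ a, RankOne_T ψ v a ∈ g → RankOne_T ψ w a ∈ g := by
    intro a ha
    have h1 := hTT w w v a hTww ha
    rw [RankOne_T_apply, RankOne_T_apply, ← add_smul, ← add_smul, RankOne_T_smul,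
      RankOne_T_smul'] at h1
    have h2 := g.sub_mem h1 (g.smul_mem (ψ w a + ψ w a) hTvw)
    rw [add_sub_cancel_right] at h2
    have h3 : ψ w v + ψ w v ≠ 0 := by
      rw [← two_mul]
      exact mul_ne_zero two_ne_zero hwv
    have h4 := g.smul_mem (ψ w v + ψ w v)⁻¹ h2
    rwa [smul_smul, inv_mul_cancel₀ h3, one_smul] at h4
  -- `T a b ∈ g` for `a`, `b ∈ A`
  have hAB : ∀ a b, RankOne_T ψ v a ∈ g → RankOne_T ψ v b ∈ g → RankOne_T ψ a b ∈ g := by
    intro a b ha hb
    have h1 := hTT w a v b (hAw a ha) hb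
    rw [RankOne_T_apply, RankOne_T_apply, RankOne_T_add', RankOne_T_add, RankOne_T_smul,
      RankOne_T_smul, RankOne_T_smul', RankOne_T_smul'] at h1
    have h2 := g.sub_mem (g.sub_mem (g.sub_mem h1 (g.smul_mem (ψ a v) (hAw b hb)))
      (g.smul_mem (ψ w b) ha)) (g.smul_mem (ψ a b) hTvw)
    have h3 : ψ w v • RankOne_T ψ a b + ψ a v • RankOne_T ψ w b +
        (ψ w b • RankOne_T ψ v a + ψ a b • RankOne_T ψ v w) - ψ a v • RankOne_T ψ w b -
        ψ w b • RankOne_T ψ v a - ψ a b • RankOne_T ψ v w = ψ w v • RankOne_T ψ a b := by abel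
    rw [h3] at h2
    have h4 := g.smul_mem (ψ w v)⁻¹ h2
    rwa [smul_smul, inv_mul_cancel₀ hwv, one_smul] at h4
  -- the space `A`
  let A : Submodule K V :=
    { carrier := {a | RankOne_T ψ v a ∈ g}
      add_mem' := by
        intro a b ha hb
        show RankOne_T ψ v (a + b) ∈ g
        rw [RankOne_T_add]
        exact g.add_mem ha hb
      zero_mem' := by
        show RankOne_T ψ v 0 ∈ g
        have h1 := RankOne_T_smul ψ (0 : K) v v
        rw [zero_smul, zero_smul] at h1
        rw [h1]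
        exact g.zero_mem
      smul_mem' := by
        intro c a ha
        show RankOne_T ψ v (c • a) ∈ g
        rw [RankOne_T_smul]
        exact g.smul_mem c ha }
  have hAst : ∀ Y ∈ g, ∀ a ∈ A, Y a ∈ A := by
    intro Y hY a ha
    have ha' : RankOne_T ψ v a ∈ g := ha
    have h1 : RankOne_T ψ v (Y v) ∈ g := by
      have h2 := hg.lie Y hY _ hTvv
      rw [RankOne_lie (hg.sp Y hY), RankOne_T_comm ψ (Y v) v, ← two_smul K] at h2
      have h3 := g.smul_mem (2 : K)⁻¹ h2
      rwa [smul_smul, inv_mul_cancel₀ two_ne_zero, one_smul] at h3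
    have h2 := hg.lie Y hY _ ha'
    rw [RankOne_lie (hg.sp Y hY)] at h2
    have h3 := g.sub_mem h2 (hAB (Y v) a h1 ha')
    rw [add_sub_cancel_left] at h3
    exact h3
  have hAtop : A = ⊤ := by
    rcases hg.irr A hAst with h1 | h1
    · exfalso
      have h2 : v ∈ A := hTvv
      rw [h1, Submodule.mem_bot] at h2
      exact hv h2
    · exact h1
  have hall : ∀ a, RankOne_T ψ v a ∈ g := by
    intro a
    have h1 : a ∈ A := by
      rw [hAtop]
      exact Submodule.mem_top
    exact h1
  exact RankOne_all hg.alt hg.nd anti g (fun a b => hAB a b (hall a) (hall b)) hX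

end Pool.Agent.Lib.MP_640417_ag.Tor
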