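import Pool.Agent.Lib.MP_640417_ag.Tor.Spec
import Pool.Agent.Lib.MP_640417_ag.Tor.Base
import Pool.Agent.Lib.MP_640417_ag.Tor.Adj
import Pool.Agent.Lib.MP_640417_ag.Tor.PrimTr

/-!
# One toric place: splitting of a square-zero element which is not primitive
-/

namespace Pool.Agent.Lib.MP_640417_ag.Tor

open Module Polynomial

section

variable {K V : Type} [Field K] [AddCommGroup V] [Module K V]

lemma Split_tr_add (A B : Module.End K V) : tr (A + B) = tr A + tr B := map_add _ A B

lemma Split_tr_sub (A B : Module.End K V) : tr (A - B) = tr A - tr B := map_sub _ A B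

lemma Split_tr_smul (c : K) (A : Module.End K V) : tr (c • A) = c * tr A := map_smul _ c A

lemma Split_tr_nil [FiniteDimensional K V] {A : Module.End K V} (h : IsNilpotent A) : tr A = 0 :=
  (LinearMap.isNilpotent_trace_of_isNilpotent h).eq_zero

/-- A property of all `L a^k R` passes to `L P(a) R`. -/
lemma Split_poly (b : Submodule K (Module.End K V)) (φ : Module.End K V →ₗ[K] Module.End K V)
    (a : Module.End K V) (h : ∀ k : ℕ, φ (a ^ k) ∈ b) (P : K[X]) : φ (aeval a P) ∈ b := by
  rw [aeval_eq_sum_range, map_sum]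
  refine b.sum_mem fun i _ => ?_
  rw [map_smul]
  exact b.smul_mem _ (h i)

end

section

variable {K V : Type} [Field K] [CharZero K] [AddCommGroup V] [Module K V]

/-- The elements `N a^k`, `a = f N X N`, belong to every ideal which contains `N`. -/
lemma Split_pow {g b : Submodule K (Module.End K V)} (hb : Idl g b) {N f X : Module.End K V}
    (hs : Sl g N f) (hN : N ∈ b) (hX : X ∈ g) (k : ℕ) :
    N * (f * N * X * N) ^ k ∈ b := by
  set a : Module.End K V := f * N * X * N with ha
  have haN : a * N = 0 := by
    rw [ha, mul_assoc, hs.ee, mul_zero]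
  have hB : N * a ∈ b := by
    have h1 : N * a = N * X * N := by
      rw [ha, show N * (f * N * X * N) = (N * f * N) * X * N by noncomm_ring, hs.efe]
    rw [h1]
    exact sandwich_mem_idl hb hN hs.ee hX
  have hqa : (f * N) * a = a := by
    rw [ha, show f * N * (f * N * X * N) = (f * N * f) * N * X * N by noncomm_ring, hs.fef]
  have haq : a * (f * N) = a := by
    rw [ha, show f * N * X * N * (f * N) = f * N * X * (N * f * N) by noncomm_ring, hs.efe]
  have hpq : ∀ i : ℕ, N * a ^ i * (f * N) = N * a ^ i := by
    intro i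
    cases i with
    | zero => rw [pow_zero, mul_one, hs.eq]
    | succ i => rw [pow_succ, mul_assoc, mul_assoc, haq]
  have hpN : ∀ i : ℕ, N * a ^ i * N = 0 := by
    intro i
    rw [← hpq i, mul_assoc, mul_assoc f, hs.ee, mul_zero, mul_zero]
  have hqp : ∀ i : ℕ, N * ((f * N) * a ^ i) = N * a ^ i := by
    intro i
    rw [← mul_assoc, hs.eq]
  induction k with
  | zero =>
    rw [pow_zero, mul_one]
    exact hN
  | succ k ih =>
    have h1 : (N * a) * f - f * (N * a) ∈ b := hb.lie' hs.mf hB
    have h2 := hb.lie _ (hb.le ih) _ h1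
    have h3 : N * a ^ k * (N * a * f - f * (N * a)) - (N * a * f - f * (N * a)) * (N * a ^ k) =
        -(2 : K) • (N * a ^ (k + 1)) := by
      have e1 : N * a ^ k * (N * a * f - f * (N * a)) - (N * a * f - f * (N * a)) * (N * a ^ k) =
          (N * a ^ k * N) * a * f - (N * a ^ k * (f * N)) * a - N * a * (f * N * a ^ k) +
            f * (N * (a * N) * a ^ k) := by noncomm_ring
      have e2 : N * a * (f * N * a ^ k) = N * a ^ (k + 1) := by
        rw [show N * a * (f * N * a ^ k) = N * (a * (f * N)) * a ^ k by noncomm_ring, haq,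
          mul_assoc, ← pow_succ']
      rw [e1, e2, hpN, hpq, haN, mul_zero, zero_mul, zero_mul, zero_mul, mul_zero, zero_sub,
        add_zero, mul_assoc N, ← pow_succ, neg_smul, two_smul]
      abel
    rw [h3] at h2
    have h4 := b.smul_mem (-(2 : K))⁻¹ h2
    rwa [smul_smul, inv_mul_cancel₀ (neg_ne_zero.mpr two_ne_zero), one_smul] at h4

end

section

variable {K V : Type} [Field K] [AddCommGroup V] [Module K V] [FiniteDimensional K V]

/-- The rank of a product with a partial inverse. -/
lemma Split_rk {A B C : Module.End K V} (h : C * (A * B) = B) : rk (A * B) = rk B := by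
  unfold rk
  apply le_antisymm
  · have h1 : LinearMap.range (A * B) = (LinearMap.range B).map A := LinearMap.range_comp _ _
    rw [h1]
    exact Submodule.finrank_map_le A _
  · have h1 : LinearMap.range B ≤ (LinearMap.range (A * B)).map C := by
      rintro _ ⟨x, rfl⟩
      refine ⟨(A * B) x, ⟨x, rfl⟩, ?_⟩
      conv_rhs => rw [← h]
      rfl
    exact (Submodule.finrank_mono h1).trans (Submodule.finrank_map_le C _)

/-- Ranks of complementary idempotents. -/
lemma Split_idem [CharZero K] {q π : Module.End K V} (hq : q * q = q) (hπ : π * π = π)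
    (h1 : q * π = π) (h2 : π * q = π) : rk q = rk π + rk (q - π) := by
  have h3 : (q - π) * (q - π) = q - π := by
    rw [sub_mul, mul_sub, mul_sub, hq, h1, h2, hπ, sub_self, sub_zero]
  have h4 := tr_idem hq
  have h5 := tr_idem hπ
  have h6 := tr_idem h3
  rw [Split_tr_sub, h4, h5] at h6
  have h7 : (rk q : K) = ((rk π + rk (q - π) : ℕ) : K) := by
    push_cast
    rw [← h6]
    ring
  exact_mod_cast h7

end

/-- **Splitting of a square-zero element which is not primitive.** -/
theorem pSplit (hTr : STr) (hSl : SSl) (hPoly : SPoly) : SSplit := by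
  intro K V _ _ _ _ _ _ _ ψ g hg N hN hNN hN0 hprim
  obtain ⟨f, hs⟩ := hSl K V ψ g hg N hN hNN
  have hgg : Idl g g := ⟨le_refl _, hg.lie⟩
  set q : Module.End K V := f * N with hq
  have hqq : q * q = q := hs.qq
  have hNq : N * q = N := hs.eq
  have hq0 : q ≠ 0 := by
    intro h
    rw [h, mul_zero] at hNq
    exact hN0 hNq.symm
  -- facts on `a = f N X N`
  have fqa : ∀ X : Module.End K V, q * (f * N * X * N) = f * N * X * N := by
    intro X
    rw [hq, show f * N * (f * N * X * N) = (f * N * f) * N * X * N by noncomm_ring, hs.fef]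
  have faq : ∀ X : Module.End K V, (f * N * X * N) * q = f * N * X * N := by
    intro X
    rw [hq, show f * N * X * N * (f * N) = f * N * X * (N * f * N) by noncomm_ring, hs.efe]
  by_cases hcase : ∃ X ∈ g, ∃ P : K[X],
      (aeval (f * N * X * N) P * q) * (aeval (f * N * X * N) P * q) =
        aeval (f * N * X * N) P * q ∧ aeval (f * N * X * N) P * q ≠ 0 ∧
        aeval (f * N * X * N) P * q ≠ q
  · -- step (2)
    obtain ⟨X, hX, P, hPP, hP0, hP1⟩ := hcase
    have hqa := fqa X
    have haq := faq X
    have hmem : ∀ b, Idl g b → N ∈ b → N * aeval (f * N * X * N) P ∈ b := by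
      intro b hb hNb
      exact Split_poly b (LinearMap.mulLeft K N) (f * N * X * N)
        (fun k => Split_pow hb hs hNb hX k) P
    set a : Module.End K V := f * N * X * N with ha
    set π : Module.End K V := aeval a P * q with hπ
    have haN : a * N = 0 := by
      rw [ha, mul_assoc, hNN, mul_zero]
    -- `N P(a) = N π`
    have hcomm : q * aeval a P = aeval a P * q := by
      have h1 : Commute q a := by
        show q * a = a * q
        rw [hqa, haq]
      have h2 : q * aeval a P - aeval a P * q ∈ (⊥ : Submodule K (Module.End K V)) := by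
        refine Split_poly ⊥ (LinearMap.mulLeft K q - LinearMap.mulRight K q) a (fun k => ?_) P
        rw [Submodule.mem_bot, LinearMap.sub_apply, LinearMap.mulLeft_apply,
          LinearMap.mulRight_apply, (h1.pow_right k).eq, sub_self]
      rw [Submodule.mem_bot] at h2
      exact sub_eq_zero.1 h2
    have hNP : N * aeval a P = N * π := by
      rw [hπ, ← hcomm, ← mul_assoc, hNq]
    have hqπ : q * π = π := by
      rw [hπ, ← mul_assoc, hcomm, mul_assoc, hqq]
    have hπq : π * q = π := by
      rw [hπ, mul_assoc, hqq]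
    have hπN : ∃ c : K, π * N = c • 0 := ⟨0, by
      rw [hπ, mul_assoc, hq, mul_assoc f, hNN, mul_zero, mul_zero, smul_zero]⟩
    have hπN0 : π * N = 0 := by
      obtain ⟨c, hc⟩ := hπN
      rw [hc, smul_zero]
    have hfN : ∀ B : Module.End K V, q * B = B → f * (N * B) = B := by
      intro B hB
      rw [← mul_assoc, ← hq, hB]
    have hqm : q * (q - π) = q - π := by rw [mul_sub, hqq, hqπ]
    have hN2 : N - N * π = N * (q - π) := by rw [mul_sub, hNq]
    refine ⟨N * π, ?_, N - N * π, ?_, ?_, ?_, ?_, ?_, ?_, ?_, ?_⟩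
    · rw [← hNP]
      exact hmem g hgg hN
    · rw [← hNP]
      exact g.sub_mem hN (hmem g hgg hN)
    · intro h0
      apply hP0
      rw [← hfN π hqπ, h0, mul_zero]
    · intro h0
      rw [hN2] at h0
      apply hP1
      have h1 := hfN (q - π) hqm
      rw [h0, mul_zero] at h1
      exact (sub_eq_zero.1 h1.symm).symm
    · rw [mul_assoc, ← mul_assoc π, hπN0, zero_mul, mul_zero]
    · rw [sub_mul, mul_sub, mul_sub, hNN, mul_assoc N π N, hπN0, mul_zero, ← mul_assoc N N, hNN,
        zero_mul, mul_assoc, ← mul_assoc π, hπN0, zero_mul, mul_zero]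
      simp
    · abel
    · have h1 : rk N = rk q := by
        have h2 : rk (N * q) = rk q := Split_rk (C := f) (hfN q hqq)
        rwa [hNq] at h2
      have h3 : rk (N * π) = rk π := Split_rk (C := f) (hfN π hqπ)
      have h4 : rk (N * (q - π)) = rk (q - π) := Split_rk (C := f) (hfN _ hqm)
      rw [hN2, h1, h3, h4]
      exact Split_idem hqq hPP hqπ hπq
    · intro b hb hNb
      have h1 := hmem b hb hNb
      rw [hNP] at h1
      exact ⟨h1, b.sub_mem hNb h1⟩
  · -- step (3)
    exfalso
    have hnil : ∀ X ∈ g, ∃ c : K, IsNilpotent (f * N * X * N - c • q) := by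
      intro X hX
      rcases hPoly K V q (f * N * X * N) hqq hq0 (fqa X) (faq X) with h1 | h1
      · obtain ⟨P, hP⟩ := h1
        exact absurd ⟨X, hX, P, hP⟩ hcase
      · exact h1
    have htq : tr q ≠ 0 := by
      rw [tr_idem hqq]
      intro h0
      have h1 : rk q = 0 := by exact_mod_cast h0
      apply hq0
      rw [← LinearMap.range_eq_bot]
      exact Submodule.finrank_eq_zero.1 h1
    obtain ⟨X, hX, hXc⟩ : ∃ X ∈ g, ∀ c : K, N * X * N ≠ c • N := by
      by_contra h
      push Not at h
      exact hprim ⟨hN, hN0, hNN, h⟩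
    obtain ⟨c, hc⟩ := hnil X hX
    set n : Module.End K V := f * N * X * N - c • q with hn
    have hX' : X - c • f ∈ g := g.sub_mem hX (g.smul_mem c hs.mf)
    have hn' : f * N * (X - c • f) * N = n := by
      rw [hn, mul_sub, sub_mul, mul_smul_comm, smul_mul_assoc, hs.fef]
    have hNn : N * n = N * (X - c • f) * N := by
      rw [← hn', show N * (f * N * (X - c • f) * N) = (N * f * N) * (X - c • f) * N by
        noncomm_ring, hs.efe]
    have hne : N * (X - c • f) * N ≠ 0 := by
      intro h0
      rw [mul_sub, sub_mul, mul_smul_comm, smul_mul_assoc, hs.efe, sub_eq_zero] at h0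
      exact hXc c h0
    have hmem : N * (X - c • f) * N ∈ g := sandwich_mem hg.lie hN hNN hX'
    obtain ⟨Z, hZ, hZt⟩ : ∃ Z ∈ g, tr (N * (X - c • f) * N * Z) ≠ 0 := by
      by_contra h
      push Not at h
      exact hne (hTr K V ψ g hg g hgg _ hmem h)
    obtain ⟨d, hd⟩ := hnil Z hZ
    set n' : Module.End K V := f * N * Z * N - d • q with hn'def
    have hnq : n * q = n := by
      rw [hn, sub_mul, faq, smul_mul_assoc, hqq]
    have htn : tr n = 0 := Split_tr_nil hc
    have htn' : tr n' = 0 := Split_tr_nil hd
    have ht1 : tr (N * (X - c • f) * N * Z) = tr (n * n') := by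
      rw [← hNn, mul_assoc, tr_comm, hn'def]
      have h1 : n * Z * N = n * (f * N * Z * N) := by
        conv_lhs => rw [← hnq]
        rw [hq]
        noncomm_ring
      rw [h1, mul_sub, Split_tr_sub, mul_smul_comm, hnq, Split_tr_smul, htn, mul_zero, sub_zero]
    obtain ⟨c', hc'⟩ := hnil (X + Z) (g.add_mem hX hZ)
    have h2 : f * N * (X + Z) * N - c' • q = n + n' + (c + d - c') • q := by
      rw [hn, hn'def, mul_add, add_mul]
      module
    rw [h2] at hc'
    have h3 := Split_tr_nil hc'
    rw [Split_tr_add, Split_tr_add, htn, htn', Split_tr_smul, zero_add, zero_add] at h3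
    have h4 : c + d - c' = 0 := (mul_eq_zero.1 h3).resolve_right htq
    rw [h4, zero_smul, add_zero] at hc'
    have h5 : IsNilpotent ((n + n') * (n + n')) := by
      obtain ⟨k, hk⟩ := hc'
      refine ⟨k, ?_⟩
      rw [← pow_two, ← pow_mul, mul_comm 2 k, pow_mul, hk, zero_pow two_ne_zero]
    have h6 : IsNilpotent (n * n) := by
      obtain ⟨k, hk⟩ := hc
      refine ⟨k, ?_⟩
      rw [← pow_two, ← pow_mul, mul_comm 2 k, pow_mul, hk, zero_pow two_ne_zero]
    have h7 : IsNilpotent (n' * n') := by
      obtain ⟨k, hk⟩ := hd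
      refine ⟨k, ?_⟩
      rw [← pow_two, ← pow_mul, mul_comm 2 k, pow_mul, hk, zero_pow two_ne_zero]
    have h8 := Split_tr_nil h5
    rw [show (n + n') * (n + n') = n * n + n * n' + n' * n + n' * n' by noncomm_ring,
      Split_tr_add, Split_tr_add, Split_tr_add, Split_tr_nil h6, Split_tr_nil h7, tr_comm n' n,
      zero_add, add_zero, ← two_mul] at h8
    rw [ht1] at hZt
    exact hZt ((mul_eq_zero.1 h8).resolve_left two_ne_zero)

end Pool.Agent.Lib.MP_640417_ag.Tor
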