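import Pool.Agent.Lib.MP_640417_ag.Tor.Spec
import Pool.Agent.Lib.MP_640417_ag.Tor.Base

/-!
# One toric place: no zero divisors across an ideal
-/

namespace Pool.Agent.Lib.MP_640417_ag.Tor

open Module

/-- No zero divisors across an ideal. -/
theorem pZero (hDec : SDec) : SZero := by
  intro K V _ _ _ _ _ _ _ ψ g hg a ha A hA hA0 B hB hAB
  let S : Subalgebra K (Module.End K V) := Algebra.adjoin K (a : Set (Module.End K V))
  have hcomm : ∀ C : Module.End K V, (∀ Y ∈ a, C * Y = Y * C) → ∀ α ∈ S, C * α = α * C := by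
    intro C hC α hα
    induction hα using Algebra.adjoin_induction with
    | mem x hx => exact hC x hx
    | algebraMap r => exact (Algebra.commutes r C).symm
    | add x y _ _ hx hy => rw [mul_add, add_mul, hx, hy]
    | mul x y _ _ hx hy => rw [← mul_assoc, hx, mul_assoc, hy, mul_assoc]
  let J : Submodule K V :=
    { carrier := {v | ∀ α ∈ S, (A * α) v = 0}
      add_mem' := by
        intro v w hv hw α hα
        rw [map_add, hv α hα, hw α hα, add_zero]
      zero_mem' := fun α _ => map_zero _
      smul_mem' := by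
        intro c v hv α hα
        rw [map_smul, hv α hα, smul_zero] }
  have hJ : ∀ v, v ∈ J ↔ ∀ α ∈ S, (A * α) v = 0 := fun _ => Iff.rfl
  have hstable : ∀ X ∈ g, ∀ y ∈ J, X y ∈ J := by
    intro X hX y hy
    obtain ⟨X₁, h1, X₂, -, rfl, h2⟩ := hDec K V ψ g hg a ha X hX
    rw [LinearMap.add_apply]
    refine J.add_mem ?_ ?_
    · intro α hα
      rw [← Module.End.mul_apply, mul_assoc]
      exact hy _ (S.mul_mem hα (Algebra.subset_adjoin h1))
    · intro α hα
      rw [← Module.End.mul_apply, mul_assoc, ← hcomm X₂ h2 α hα, ← mul_assoc, ← h2 A hA,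
        mul_assoc, Module.End.mul_apply, hy α hα, map_zero]
  rcases hg.irr J hstable with h | h
  · ext v
    have h1 : B v ∈ J := by
      intro α hα
      rw [← Module.End.mul_apply, mul_assoc, ← hcomm B hB α hα, ← mul_assoc, hAB, zero_mul,
        LinearMap.zero_apply]
    rw [h, Submodule.mem_bot] at h1
    rw [h1, LinearMap.zero_apply]
  · exfalso
    apply hA0
    ext v
    have h1 : v ∈ J := by rw [h]; exact Submodule.mem_top
    have h2 := h1 1 S.one_mem
    rwa [mul_one] at h2

end Pool.Agent.Lib.MP_640417_ag.Tor
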