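import Pool.Agent.Lib.MP_640417_ag.Tor.Tr
import Pool.Agent.Lib.MP_640417_ag.Tor.Dec
import Pool.Agent.Lib.MP_640417_ag.Tor.Zero
import Pool.Agent.Lib.MP_640417_ag.Tor.Sq
import Pool.Agent.Lib.MP_640417_ag.Tor.Sl
import Pool.Agent.Lib.MP_640417_ag.Tor.PrimTr
import Pool.Agent.Lib.MP_640417_ag.Tor.PrimConv
import Pool.Agent.Lib.MP_640417_ag.Tor.Poly
import Pool.Agent.Lib.MP_640417_ag.Tor.Odd
import Pool.Agent.Lib.MP_640417_ag.Tor.Par
import Pool.Agent.Lib.MP_640417_ag.Tor.Adapt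
import Pool.Agent.Lib.MP_640417_ag.Tor.Grade
import Pool.Agent.Lib.MP_640417_ag.Tor.Top
import Pool.Agent.Lib.MP_640417_ag.Tor.Nonsing
import Pool.Agent.Lib.MP_640417_ag.Tor.U
import Pool.Agent.Lib.MP_640417_ag.Tor.Key
import Pool.Agent.Lib.MP_640417_ag.Tor.Idl
import Pool.Agent.Lib.MP_640417_ag.Tor.Stab
import Pool.Agent.Lib.MP_640417_ag.Tor.Coch
import Pool.Agent.Lib.MP_640417_ag.Tor.Gen
import Pool.Agent.Lib.MP_640417_ag.Tor.Cop
import Pool.Agent.Lib.MP_640417_ag.Tor.Two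
import Pool.Agent.Lib.MP_640417_ag.Tor.Split
import Pool.Agent.Lib.MP_640417_ag.Tor.Mult
import Pool.Agent.Lib.MP_640417_ag.Tor.RankOne

/-!
# One toric place: the algebraic main theorem
-/

namespace Pool.Agent.Lib.MP_640417_ag.Tor

/-- **The algebraic main theorem.** -/
theorem pMain : SMain := by
  have hTr := pTr
  have hDec := pDec hTr
  have hZero := pZero hDec
  have hSq := pSq hDec hZero
  have hSl := pSl hTr
  have hPrimTr := pPrimTr
  have hPrimConv := pPrimConv hTr hPrimTr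
  have hSplit := pSplit hTr hSl pPoly
  have hOdd := pOdd hSplit
  have hAdapt := pAdapt hPrimTr hPrimConv pPar hSl
  have hGrade := pGrade
  have hTop := pTop
  have hNonsing := pNonsing hTr hGrade
  have hU := pU hTop
  have hKey := pKey hTop hNonsing hU
  have hIdl := pIdl hGrade hTop
  have hStab := pStab hIdl
  have hCoch := pCoch hDec hZero hAdapt hKey hStab
  have hGen := pGen hOdd hCoch hAdapt hKey hStab
  have hMult := pMult hIdl hTop hNonsing hDec
  have hCop := pCop hOdd hAdapt hKey hMult hSq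
  have hTwo := pTwo hSplit hSl hGrade hTop
  have hRankOne := pRankOne hTr hSl hGrade
  intro K V _ _ _ _ _ _ _ ψ g hg N hN hNN h X hX
  obtain ⟨e, he, hrk⟩ : ∃ e ∈ g, rk e = 1 := by
    rcases h with ⟨h1, h2⟩ | ⟨h1, h2⟩ | ⟨h1, h2⟩
    · exact hTwo K V ψ g hg N hN hNN h1 h2
    · exact hCop K V ψ g hg N hN hNN h1 h2
    · exact hGen K V ψ g hg N hN hNN h1 h2
  exact hRankOne K V ψ g hg e he hrk X hX

end Pool.Agent.Lib.MP_640417_ag.Tor
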