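import Pool.Agent.Lib.MP_640417_ag.Tor.SpecL

/-!
# One toric place: idempotents have multiplier one
-/

namespace Pool.Agent.Lib.MP_640417_ag.Tor

open Module

/-- Idempotents have multiplier one. -/
theorem pIdem : SIdem := by
  intro K V _ _ _ _ ψ anti nd t c htt ht0 ht1 hm
  have htt' : ∀ x, t (t x) = t x := fun x => by rw [← Module.End.mul_apply, htt]
  have hsplit : ∀ y, y = t y + (y - t y) := fun y => by abel
  have hker : ∀ y, t (y - t y) = 0 := fun y => by rw [map_sub, htt', sub_self]
  have hc : c = 1 := by
    by_contra hc1
    -- range and kernel are orthogonal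
    have h1 : ∀ x y, ψ (t x) (y - t y) = 0 := by
      intro x y
      have h2 := hm (t x) (y - t y)
      rw [htt', hker, map_zero, add_zero] at h2
      have h3 : (1 - c) * ψ (t x) (y - t y) = 0 := by linear_combination h2
      exact (mul_eq_zero.mp h3).resolve_left (sub_ne_zero.mpr (Ne.symm hc1))
    by_cases hc2 : c = 2
    · -- the kernel is zero
      apply ht1
      refine LinearMap.ext fun x => ?_
      have h2 : x - t x = 0 := by
        apply nd
        intro y
        rw [hsplit y, map_add, anti (x - t x) (t y), h1, neg_zero, zero_add]
        have h3 := hm (x - t x) (y - t y)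
        rw [hker, hker, map_zero, LinearMap.zero_apply, map_zero, add_zero] at h3
        rw [hc2] at h3
        exact (mul_eq_zero.mp h3.symm).resolve_left two_ne_zero
      rw [Module.End.one_apply]
      exact (sub_eq_zero.mp h2).symm
    · apply ht0
      refine LinearMap.ext fun x => ?_
      rw [LinearMap.zero_apply]
      apply nd
      intro y
      rw [hsplit y, map_add, h1, add_zero]
      have h3 := hm (t x) (t y)
      rw [htt', htt'] at h3
      have h4 : (2 - c) * ψ (t x) (t y) = 0 := by linear_combination h3
      exact (mul_eq_zero.mp h4).resolve_left (sub_ne_zero.mpr (Ne.symm hc2))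
  intro x y
  have h1 := hm x y
  rw [hc, one_mul] at h1
  rw [LinearMap.sub_apply, LinearMap.sub_apply, LinearMap.smul_apply, LinearMap.smul_apply,
    Module.End.one_apply, Module.End.one_apply, map_sub, map_sub, LinearMap.sub_apply, map_smul,
    map_smul, LinearMap.smul_apply, smul_eq_mul]
  linear_combination h1

end Pool.Agent.Lib.MP_640417_ag.Tor
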