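import Pool.Agent.Lib.MP_640417_ag.Tor.Spec
import Pool.Agent.Lib.MP_640417_ag.Tor.Base
import Pool.Agent.Lib.MP_640417_ag.Tor.Adj

/-!
# One toric place: adapted primitive elements
-/

namespace Pool.Agent.Lib.MP_640417_ag.Tor

open Module

section aux

variable {K V : Type} [Field K] [CharZero K] [AddCommGroup V] [Module K V]
  {t : Module.End K V}

/-- The two idempotents of a square root of `1/4`. -/
lemma Adapt_id (ht : t * t = (1 / 4 : K) • (1 : Module.End K V)) (P Q : Module.End K V)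
    (hP : P = (1 / 2 : K) • (1 : Module.End K V) + t)
    (hQ : Q = (1 / 2 : K) • (1 : Module.End K V) - t) :
    P * P = P ∧ Q * Q = Q ∧ P * Q = 0 ∧ Q * P = 0 ∧ P + Q = 1 ∧ t * P = (1 / 2 : K) • P ∧
      P * t = (1 / 2 : K) • P ∧ t * Q = -(1 / 2 : K) • Q ∧ Q * t = -(1 / 2 : K) • Q := by
  have tP : t * P = (1 / 2 : K) • P := by
    rw [hP, mul_add, ht, mul_smul_comm, mul_one]
    module
  have Pt : P * t = (1 / 2 : K) • P := by
    rw [hP, add_mul, ht, smul_mul_assoc, one_mul]
    module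
  have tQ : t * Q = -(1 / 2 : K) • Q := by
    rw [hQ, mul_sub, ht, mul_smul_comm, mul_one]
    module
  have Qt : Q * t = -(1 / 2 : K) • Q := by
    rw [hQ, sub_mul, ht, smul_mul_assoc, one_mul]
    module
  refine ⟨?_, ?_, ?_, ?_, ?_, tP, Pt, tQ, Qt⟩
  · nth_rw 1 [hP]
    rw [add_mul, tP, smul_mul_assoc, one_mul]
    module
  · nth_rw 1 [hQ]
    rw [sub_mul, tQ, smul_mul_assoc, one_mul]
    module
  · nth_rw 1 [hP]
    rw [add_mul, tQ, smul_mul_assoc, one_mul]
    module
  · nth_rw 1 [hQ]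
    rw [sub_mul, tP, smul_mul_assoc, one_mul]
    module
  · rw [hP, hQ]
    module

/-- The components of an element of a space which is stable under brackets with `t`. -/
lemma Adapt_comp {a : Submodule K (Module.End K V)} (ha : ∀ X ∈ a, t * X - X * t ∈ a)
    {P Q : Module.End K V} (hPQ : P + Q = 1) (tP : t * P = (1 / 2 : K) • P)
    (Pt : P * t = (1 / 2 : K) • P) (tQ : t * Q = -(1 / 2 : K) • Q)
    (Qt : Q * t = -(1 / 2 : K) • Q) {X : Module.End K V} (hX : X ∈ a) :
    P * X * Q ∈ a ∧ Q * X * P ∈ a := by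
  have h1 : t * X - X * t = P * X * Q - Q * X * P := by
    have h2 : t = (t * P + t * Q) := by rw [← mul_add, hPQ, mul_one]
    have h3 : t * X - X * t = (P + Q) * (t * X - X * t) * (P + Q) := by
      rw [hPQ, one_mul, mul_one]
    have h4 : (P + Q) * (t * X - X * t) * (P + Q) =
        (P * t) * X * P + (P * t) * X * Q + (Q * t) * X * P + (Q * t) * X * Q
        - P * X * (t * P) - P * X * (t * Q) - Q * X * (t * P) - Q * X * (t * Q) := by
      noncomm_ring
    rw [h3, h4, Pt, Qt, tP, tQ]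
    simp only [smul_mul_assoc, mul_smul_comm]
    module
  have h2 : t * (P * X * Q - Q * X * P) - (P * X * Q - Q * X * P) * t =
      P * X * Q + Q * X * P := by
    have h4 : t * (P * X * Q - Q * X * P) - (P * X * Q - Q * X * P) * t =
        (t * P) * X * Q - (t * Q) * X * P - P * X * (Q * t) + Q * X * (P * t) := by
      noncomm_ring
    rw [h4, Pt, Qt, tP, tQ]
    simp only [smul_mul_assoc, mul_smul_comm]
    module
  have m1 := ha X hX
  have m2 := ha _ m1
  rw [h1] at m1 m2
  rw [h2] at m2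
  constructor
  · have h5 : P * X * Q = (1 / 2 : K) • ((P * X * Q - Q * X * P) + (P * X * Q + Q * X * P)) := by
      module
    rw [h5]
    exact a.smul_mem _ (a.add_mem m1 m2)
  · have h5 : Q * X * P = (1 / 2 : K) • ((P * X * Q + Q * X * P) - (P * X * Q - Q * X * P)) := by
      module
    rw [h5]
    exact a.smul_mem _ (a.sub_mem m2 m1)

end aux

/-- The case in which the component of positive degree does not vanish. -/
lemma Adapt_main (hPrimTr : SPrimTr) (hPrimConv : SPrimConv) (hSl : SSl)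
    {K V : Type} [Field K] [IsAlgClosed K] [CharZero K] [AddCommGroup V] [Module K V]
    [FiniteDimensional K V] [Nontrivial V] {ψ : LinearMap.BilinForm K V}
    {g : Submodule K (Module.End K V)} (hg : Dat ψ g) {e : Module.End K V} (hP : Prm g e)
    {t : Module.End K V} (ht : t ∈ g) (htt : t * t = (1 / 4 : K) • (1 : Module.End K V))
    {P Q : Module.End K V} (hPdef : P = (1 / 2 : K) • (1 : Module.End K V) + t)
    (hQdef : Q = (1 / 2 : K) • (1 : Module.End K V) - t) (hne : P * e * Q ≠ 0) :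
    ∃ e' f, Adp g e' f t ∧ Prm g e' ∧ rk e' = rk e ∧ ∀ a, Idl g a → e ∈ a → e' ∈ a := by
  obtain ⟨PP, QQ, PQ, QP, hPQ, tP, Pt, tQ, Qt⟩ := Adapt_id htt P Q hPdef hQdef
  have hcomp : ∀ X ∈ g, P * X * Q ∈ g ∧ Q * X * P ∈ g := fun X hX =>
    Adapt_comp (fun Y hY => hg.lie t ht Y hY) hPQ tP Pt tQ Qt hX
  set e' : Module.End K V := P * e * Q with he'
  have hee : e' * e' = 0 := by
    have : e' * e' = P * e * (Q * P) * e * Q := by rw [he']; noncomm_ring
    rw [this, QP, mul_zero, zero_mul, zero_mul]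
  have hprim : ∀ X ∈ g, (rk e : K) • (e' * X * e') = tr (e' * X) • e' := by
    intro X hX
    have h1 := hPrimTr K V g e hP _ (hcomp X hX).2
    have h2 : tr (e * (Q * X * P)) = tr (e' * X) := by
      have h3 : e * (Q * X * P) = (e * Q * X) * P := by noncomm_ring
      rw [h3, tr_comm, he']
      congr 1
    have h4 : e' * X * e' = P * (e * (Q * X * P) * e) * Q := by
      rw [he']
      noncomm_ring
    rw [h4, ← smul_mul_assoc, ← mul_smul_comm, h1, h2, mul_smul_comm, smul_mul_assoc, he']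
  obtain ⟨hP', hrk⟩ := hPrimConv K V ψ g hg e' (hcomp e hP.mem).1 hne hee (rk e) hprim
  obtain ⟨f₀, hf₀⟩ := hSl K V ψ g hg e' hP'.mem hee
  have Pe : P * e' = e' := by rw [he', ← mul_assoc, ← mul_assoc, PP]
  have eQ : e' * Q = e' := by rw [he', mul_assoc, QQ]
  have te : t * e' = (1 / 2 : K) • e' := by
    rw [he', ← mul_assoc, ← mul_assoc, tP, smul_mul_assoc, smul_mul_assoc]
  have et : e' * t = -(1 / 2 : K) • e' := by
    rw [he', mul_assoc, Qt, mul_smul_comm]
  refine ⟨e', Q * f₀ * P, ⟨⟨hP'.mem, (hcomp f₀ hf₀.mf).2, hee, ?_, ?_, ?_⟩, ht, htt, te, et,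
    ?_, ?_⟩, hP', hrk, fun a ha hea => ?_⟩
  · have : Q * f₀ * P * (Q * f₀ * P) = Q * f₀ * (P * Q) * f₀ * P := by noncomm_ring
    rw [this, PQ, mul_zero, zero_mul, zero_mul]
  · have : e' * (Q * f₀ * P) * e' = (e' * Q) * f₀ * (P * e') := by noncomm_ring
    rw [this, Pe, eQ, hf₀.efe]
  · have : Q * f₀ * P * e' * (Q * f₀ * P) = Q * f₀ * (P * e') * Q * f₀ * P := by noncomm_ring
    rw [this, Pe]
    have : Q * f₀ * e' * Q * f₀ * P = Q * (f₀ * (e' * Q) * f₀) * P := by noncomm_ring
    rw [this, eQ, hf₀.fef]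
  · rw [← mul_assoc, ← mul_assoc, tQ, smul_mul_assoc, smul_mul_assoc]
  · rw [mul_assoc, Pt, mul_smul_comm]
  · exact (Adapt_comp (fun Y hY => ha.lie t ht Y hY) hPQ tP Pt tQ Qt hea).1

/-- Adapted primitive elements. -/
theorem pAdapt (hPrimTr : SPrimTr) (hPrimConv : SPrimConv) (hPar : SPar) (hSl : SSl) :
    SAdapt := by
  intro K V _ _ _ _ _ _ _ ψ g hg e hP hodd t ht htt
  have htt' : (-t) * (-t) = (1 / 4 : K) • (1 : Module.End K V) := by rw [neg_mul_neg, htt]
  set P : Module.End K V := (1 / 2 : K) • (1 : Module.End K V) + t with hPdef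
  set Q : Module.End K V := (1 / 2 : K) • (1 : Module.End K V) - t with hQdef
  by_cases h1 : P * e * Q = 0
  · by_cases h2 : Q * e * P = 0
    · exfalso
      obtain ⟨PP, QQ, PQ, QP, hPQ, tP, Pt, tQ, Qt⟩ := Adapt_id htt P Q hPdef hQdef
      have hcomm : t * e = e * t := by
        have h3 : e = P * e * P + Q * e * Q := by
          have : e = (P + Q) * e * (P + Q) := by rw [hPQ, one_mul, mul_one]
          have h4 : (P + Q) * e * (P + Q) = P * e * P + P * e * Q + Q * e * P + Q * e * Q := by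
            noncomm_ring
          rw [h4, h1, h2, add_zero, add_zero] at this
          exact this
        rw [h3]
        have h5 : t * (P * e * P + Q * e * Q) = (t * P) * e * P + (t * Q) * e * Q := by
          noncomm_ring
        have h6 : (P * e * P + Q * e * Q) * t = P * e * (P * t) + Q * e * (Q * t) := by
          noncomm_ring
        rw [h5, h6, tP, tQ, Pt, Qt]
        simp only [smul_mul_assoc, mul_smul_comm]
      have h3 := hPar K V ψ hg.alt hg.nd t e (hg.sp t ht) htt (hg.sp e hP.mem) hcomm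
      exact (Nat.not_odd_iff_even.mpr h3) hodd
    · obtain ⟨e', f, hA, hP', hrk, hid⟩ := Adapt_main hPrimTr hPrimConv hSl hg hP
        (g.neg_mem ht) htt' (P := Q) (Q := P) (by rw [hQdef, sub_eq_add_neg])
        (by rw [hPdef, sub_neg_eq_add]) h2
      exact ⟨e', f, -t, hA, hP', hrk, Or.inr rfl, hid⟩
  · obtain ⟨e', f, hA, hP', hrk, hid⟩ := Adapt_main hPrimTr hPrimConv hSl hg hP
      ht htt hPdef hQdef h1
    exact ⟨e', f, t, hA, hP', hrk, Or.inl rfl, hid⟩

end Pool.Agent.Lib.MP_640417_ag.Tor
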