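import Pool.Agent.Lib.MP_640417_ag.Tor.Block

/-!
# One toric place: all blocks
-/

namespace Pool.Agent.Lib.MP_640417_ag.Tor

open Module

/-- All blocks. -/
theorem pAll (hBlock : SBlock) (hGour : SGour) : SAll := by
  intro K V _ _ _ _ _ _ ψ alt anti nd L hlie hmult B _ _ p hsum hpp hp0 horth hadj hcom hirr
    hcross htor
  have hcom' : ∀ c : Module.End K V, (∀ X ∈ L, c * X = X * c) → ∀ X ∈ skp ψ L, c * X = X * c := by
    rintro c hc X ⟨-, s, hs⟩
    have h1 := hc _ hs
    rw [mul_add, add_mul, mul_smul_comm, smul_mul_assoc, mul_one, one_mul] at h1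
    exact add_right_cancel h1
  refine hGour K V ψ alt anti nd (skp ψ L) (Block_lie hlie) (fun X hX => hX.1) B p hsum hpp horth
    hadj (fun b => hcom' (p b) (hcom b)) ?_ ?_
  · intro b
    obtain ⟨N, hN, hNN, hNs, ht⟩ := htor b
    exact hBlock K V ψ alt anti nd L hlie hmult (p b) (hpp b) (hp0 b) (hadj b) (hcom b) (hirr b) N
      hN hNN hNs ht
  · intro a b hab c hc
    refine hcross a b hab c fun X hX => ?_
    obtain ⟨s, hs⟩ := Block_split hmult hX
    have h1 := hc _ hs
    rw [mul_sub, sub_mul, mul_smul_comm, smul_mul_assoc, mul_one, one_mul] at h1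
    exact sub_left_injective h1

end Pool.Agent.Lib.MP_640417_ag.Tor
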