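import Pool.Agent.Lib.MP_640417_ag.Tor.SpecL
import Pool.Agent.Lib.MP_640417_ag.Glob.GenD

/-!
# Base change of the centralizer
-/

set_option autoImplicit false

namespace Pool.Agent.Lib.MP_640417_ag.Tor

open Module Pool.Agent.Lib.MP_640417_ag.Glob

theorem Cent_eq {S I : Type} [Fintype I] [DecidableEq I] [CommRing S] (b X : Matrix I I S)
    (i j : I) :
    ∑ p, ∑ q, ((if p = i then b q j else 0) - (if q = j then b i p else 0)) * X p q =
      (X * b - b * X) i j := by
  rw [Matrix.sub_apply, Matrix.mul_apply, Matrix.mul_apply]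
  have h1 : ∀ p, ∑ q, ((if p = i then b q j else 0) - (if q = j then b i p else 0)) * X p q =
      (if p = i then ∑ q, b q j * X p q else 0) - b i p * X p j := by
    intro p
    simp only [sub_mul, Finset.sum_sub_distrib, ite_mul, zero_mul, Finset.sum_ite_eq',
      Finset.mem_univ, if_true]
    congr 1
    split_ifs
    · rfl
    · simp
  simp only [h1, Finset.sum_sub_distrib, Finset.sum_ite_eq', Finset.mem_univ, if_true]
  congr 1
  refine Finset.sum_congr rfl fun q _ => ?_
  ring

theorem pCent (hDens : SDens) : SCent := by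
  intro F _ _ _ _ I _ _ Γ _ _ ρ l hl hl0 hsemi K _ _ X hX
  set X0 : Matrix I I K := LinearMap.toMatrix' X with hX0
  have hXX : X = Matrix.toLin' X0 := by rw [hX0, Matrix.toLin'_toMatrix']
  let E : Set (Matrix I I F) :=
    {a | ∃ b, ρ.InC b ∧ ∃ i j, a = Matrix.of fun p q =>
      (if p = i then b q j else 0) - (if q = j then b i p else 0)}
  have hcomm : ∀ b, ρ.InC b →
      X0 * b.map (algebraMap F K) - b.map (algebraMap F K) * X0 = 0 := by
    intro b hb
    have h1 := hX b hb
    rw [hXX, opK] at h1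
    have h2 : Matrix.toLin' (b.map (algebraMap F K) * X0) =
        Matrix.toLin' (X0 * b.map (algebraMap F K)) := by
      rw [Matrix.toLin'_mul, Matrix.toLin'_mul]
      exact h1
    rw [Matrix.toLin'.injective h2, sub_self]
  have hE : ∀ a ∈ E, ∑ i, ∑ j, algebraMap F K (a i j) * X0 i j = 0 := by
    rintro a ⟨b, hb, i, j, rfl⟩
    have h3 := Cent_eq (b.map (algebraMap F K)) X0 i j
    rw [hcomm b hb, Matrix.zero_apply] at h3
    rw [← h3]
    refine Finset.sum_congr rfl fun p _ => Finset.sum_congr rfl fun q _ => ?_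
    simp only [Matrix.of_apply, map_sub, Matrix.map_apply]
    congr 2 <;> split_ifs <;> simp
  have h4 := span_of_eq E X0 hE
  rw [hXX]
  have h5 : Matrix.toLin' X0 ∈ (Submodule.span K {Y : Matrix I I K | ∃ A : Matrix I I F,
      (∀ a ∈ E, ∑ i, ∑ j, a i j * A i j = 0) ∧ Y = A.map (algebraMap F K)}).map
      (Matrix.toLin' : Matrix I I K ≃ₗ[K] _).toLinearMap := Submodule.mem_map_of_mem h4
  rw [Submodule.map_span] at h5
  refine Submodule.span_mono ?_ h5
  rintro _ ⟨_, ⟨A, hA, rfl⟩, rfl⟩
  refine ⟨A, ?_, rfl⟩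
  refine hDens F I Γ ρ l hl hl0 hsemi A ?_
  intro b hb
  have h6 : A * b - b * A = 0 := by
    ext i j
    rw [← Cent_eq b A i j, Matrix.zero_apply]
    exact hA _ ⟨b, hb, i, j, rfl⟩
  exact sub_eq_zero.1 h6

end Pool.Agent.Lib.MP_640417_ag.Tor
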