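import Mathlib

/-!
# One toric place: Lie algebras of operators, definitions

`K` is an algebraically closed field of characteristic `0`, `V` a finite dimensional symplectic space
over `K`, and `g` an irreducible Lie algebra of skew operators on `V`.
-/

namespace Pool.Agent.Lib.MP_640417_ag.Tor

open Module

variable {K V : Type} [Field K] [AddCommGroup V] [Module K V]

/-- The rank of an operator. -/
noncomputable def rk (X : Module.End K V) : ℕ := finrank K (LinearMap.range X)

/-- The trace of an operator. -/
noncomputable def tr (X : Module.End K V) : K := LinearMap.trace K V X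

/-- Skew operators. -/
def Skew (ψ : LinearMap.BilinForm K V) (X : Module.End K V) : Prop :=
  ∀ x y, ψ (X x) y = - ψ x (X y)

/-- `g` is an irreducible Lie algebra of skew operators of the symplectic space `(V, ψ)`. -/
structure Dat (ψ : LinearMap.BilinForm K V) (g : Submodule K (Module.End K V)) : Prop where
  /-- The form is alternating. -/
  alt : ∀ x, ψ x x = 0
  /-- The form is nondegenerate. -/
  nd : ∀ x, (∀ y, ψ x y = 0) → x = 0
  /-- `g` is a Lie algebra. -/
  lie : ∀ X ∈ g, ∀ Y ∈ g, X * Y - Y * X ∈ g
  /-- `g` consists of skew operators. -/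
  sp : ∀ X ∈ g, Skew ψ X
  /-- `g` is irreducible. -/
  irr : ∀ W : Submodule K V, (∀ X ∈ g, ∀ y ∈ W, X y ∈ W) → W = ⊥ ∨ W = ⊤

/-- `a` is an ideal of `g`. -/
structure Idl (g a : Submodule K (Module.End K V)) : Prop where
  /-- `a` is contained in `g`. -/
  le : a ≤ g
  /-- `a` is stable under brackets with `g`. -/
  lie : ∀ X ∈ g, ∀ Y ∈ a, X * Y - Y * X ∈ a

/-- `e` is a primitive element of `g`: it is nonzero of square `0`, and `e g e` is a line. -/
structure Prm (g : Submodule K (Module.End K V)) (e : Module.End K V) : Prop where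
  mem : e ∈ g
  ne : e ≠ 0
  sq : e * e = 0
  line : ∀ X ∈ g, ∃ c : K, e * X * e = c • e

/-- `e` and `f` are elements of `g` of square `0` with `e f e = e` and `f e f = f`. -/
structure Sl (g : Submodule K (Module.End K V)) (e f : Module.End K V) : Prop where
  me : e ∈ g
  mf : f ∈ g
  ee : e * e = 0
  ff : f * f = 0
  efe : e * f * e = e
  fef : f * e * f = f

/-- `e`, `f` as before, and `t` is an element of `g` with `t ^ 2 = 1 / 4`, `t e = e / 2`,
`e t = - e / 2`, `t f = - f / 2`, `f t = f / 2`. -/
structure Adp (g : Submodule K (Module.End K V)) (e f t : Module.End K V) : Prop extends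
    Sl g e f where
  mt : t ∈ g
  tt : t * t = (1 / 4 : K) • (1 : Module.End K V)
  te : t * e = (1 / 2 : K) • e
  et : e * t = -(1 / 2 : K) • e
  tf : t * f = -(1 / 2 : K) • f
  ft : f * t = (1 / 2 : K) • f

/-- The elements of degree one of `g` for the semisimple element `h = e f - f e`. -/
def G1 (g : Submodule K (Module.End K V)) (e f : Module.End K V) :
    Submodule K (Module.End K V) where
  carrier := {x | x ∈ g ∧ (e * f - f * e) * x - x * (e * f - f * e) = x}
  add_mem' := by
    rintro x y ⟨h1, h2⟩ ⟨h3, h4⟩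
    refine ⟨add_mem h1 h3, ?_⟩
    conv_rhs => rw [← h2, ← h4]
    noncomm_ring
  zero_mem' := ⟨zero_mem _, by simp⟩
  smul_mem' := by
    rintro c x ⟨h1, h2⟩
    refine ⟨Submodule.smul_mem _ _ h1, ?_⟩
    conv_rhs => rw [← h2]
    rw [smul_sub, mul_smul_comm, smul_mul_assoc]

/-- The space spanned by `u`, `x u` (`x` of degree one) and `e u`. -/
def Lu (g : Submodule K (Module.End K V)) (e f : Module.End K V) (u : V) : Submodule K V where
  carrier := {v | ∃ a c : K, ∃ x ∈ G1 g e f, v = a • u + x u + c • e u}
  add_mem' := by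
    rintro _ _ ⟨a, c, x, hx, rfl⟩ ⟨a', c', x', hx', rfl⟩
    refine ⟨a + a', c + c', x + x', add_mem hx hx', ?_⟩
    rw [LinearMap.add_apply, add_smul, add_smul]
    abel
  zero_mem' := ⟨0, 0, 0, zero_mem _, by simp⟩
  smul_mem' := by
    rintro b _ ⟨a, c, x, hx, rfl⟩
    refine ⟨b * a, b * c, b • x, Submodule.smul_mem _ _ hx, ?_⟩
    rw [LinearMap.smul_apply, smul_add, smul_add, smul_smul, smul_smul]

end Pool.Agent.Lib.MP_640417_ag.Tor
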