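import Pool.Agent.Lib.MP_640417_ag.Four.Defs

/-!
# One toric place: the Lie algebra of the image and the conditions
-/

namespace Pool.Agent.Lib.MP_640417_ag.Tor

open Module Filter Topology TensorProduct Pool.Agent.Lib.MP_640417_ag.Frob

/-- `W` is an irreducible module for the space of operators `L`. -/
def IrrMod {K V : Type} [Field K] [AddCommGroup V] [Module K V]
    (L : Submodule K (Module.End K V)) (W : Submodule K V) : Prop :=
  W ≠ ⊥ ∧ (∀ X ∈ L, ∀ y ∈ W, X y ∈ W) ∧
    ∀ W' ≤ W, (∀ X ∈ L, ∀ y ∈ W', X y ∈ W') → W' = ⊥ ∨ W' = W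

/-- The condition on the logarithm of monodromy `N` at the constituent `W`. Let `r` be the rank of `N` on
`W`. Either `r` is `1` or `2`, or `r` is prime to the dimension of `W` and `L` contains an idempotent
which is not `0`, `1`, or `r` is odd and the idempotents in `L` generate `L` as an ideal. -/
def Toric {K V : Type} [Field K] [AddCommGroup V] [Module K V]
    (L : Submodule K (Module.End K V)) (W : Submodule K V) (N : Module.End K V) : Prop :=
  (finrank K (W.map N) = 1 ∨ finrank K (W.map N) = 2) ∨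
  (Nat.Coprime (finrank K (W.map N)) (finrank K W) ∧ ∃ t ∈ L, t * t = t ∧ t ≠ 0 ∧ t ≠ 1) ∨
  (Odd (finrank K (W.map N)) ∧ ∀ a ≤ L, (∀ X ∈ L, ∀ Y ∈ a, X * Y - Y * X ∈ a) →
    (∀ t ∈ L, t * t = t → t ∈ a) → a = L)

section rep

variable {Γ : Type} [Group Γ] [TopologicalSpace Γ] {V : Type} [AddCommGroup V] (l : ℕ)
  [Fact l.Prime] [Module ℚ_[l] V]

/-- The Lie algebra of the image of an `l`-adic representation: the limits of the operators
`(T (γ k) - 1) / l ^ k`. -/
def Tangent (ρ : H1Rep Γ ℚ_[l] V) : Set (Module.End ℚ_[l] V) :=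
  {A | ∃ γ : ℕ → Γ, ∀ (f : Module.Dual ℚ_[l] V) (v : V),
    Tendsto (fun k => ((l : ℚ_[l]) ^ k)⁻¹ * f (ρ.T (γ k) v - v)) atTop (𝓝 (f (A v)))}

/-- The Lie algebra of the image over an extension `K`. -/
noncomputable def LieK (ρ : H1Rep Γ ℚ_[l] V) (K : Type) [Field K] [Algebra ℚ_[l] K] :
    Submodule K (Module.End K (K ⊗[ℚ_[l]] V)) :=
  Submodule.span K ((fun A => A.baseChange K) '' Tangent l ρ)

/-- Every absolutely irreducible constituent of the Lie algebra of the image has a toric place. -/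
def ToricPlaces (ρ : H1Rep Γ ℚ_[l] V) (K : Type) [Field K] [Algebra ℚ_[l] K] : Prop :=
  ∀ W : Submodule K (K ⊗[ℚ_[l]] V), IrrMod (LieK l ρ K) W →
    ∃ γ : Γ, (ρ.T γ - 1) * (ρ.T γ - 1) = 0 ∧
      Toric (LieK l ρ K) W ((ρ.T γ - 1).baseChange K)

end rep

end Pool.Agent.Lib.MP_640417_ag.Tor
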