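import Pool.Agent.Lib.MP_640417_ag.Tor.SpecL

/-!
# Descent of membership in a span
-/

set_option autoImplicit false

namespace Pool.Agent.Lib.MP_640417_ag.Tor

open Module

theorem pDesc : SDesc := by
  intro F K _ _ _ I _ _ U X hX
  classical
  by_contra hn
  obtain ⟨φ, hφX, hφU⟩ := Submodule.exists_le_ker_of_notMem hn
  set φ' : Module.End K (I → K) →ₗ[K] K :=
    { toFun := fun f => ∑ i, ∑ j, LinearMap.toMatrix' f i j *
        algebraMap F K (φ (Matrix.single i j 1))
      map_add' := by
        intro f g
        simp only [map_add, Matrix.add_apply, add_mul, Finset.sum_add_distrib]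
      map_smul' := by
        intro c f
        simp only [map_smul, Matrix.smul_apply, smul_eq_mul, RingHom.id_apply, Finset.mul_sum,
          mul_assoc] } with hφ'
  have key : ∀ Y : Matrix I I F, φ' (opK K Y) = algebraMap F K (φ Y) := by
    intro Y
    have h1 : φ' (opK K Y) = ∑ i, ∑ j, LinearMap.toMatrix' (opK K Y) i j *
        algebraMap F K (φ (Matrix.single i j 1)) := rfl
    rw [h1]
    conv_rhs => rw [Matrix.matrix_eq_sum_single Y]
    rw [map_sum, map_sum]
    refine Finset.sum_congr rfl fun i _ => ?_
    rw [map_sum, map_sum]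
    refine Finset.sum_congr rfl fun j _ => ?_
    have h2 : Matrix.single i j (Y i j) = Y i j • (Matrix.single i j 1 : Matrix I I F) := by
      rw [Matrix.smul_single, smul_eq_mul, mul_one]
    rw [h2, map_smul, smul_eq_mul, map_mul, opK, LinearMap.toMatrix'_toLin', Matrix.map_apply]
  have hzero : Submodule.span K (opK K '' (U : Set (Matrix I I F))) ≤ LinearMap.ker φ' := by
    rw [Submodule.span_le]
    rintro _ ⟨Y, hY, rfl⟩
    change φ' (opK K Y) = 0
    rw [key]
    have h1 : φ Y = 0 := hφU hY
    rw [h1, map_zero]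
  have h3 : φ' (opK K X) = 0 := hzero hX
  rw [key] at h3
  exact hφX ((map_eq_zero _).1 h3)

end Pool.Agent.Lib.MP_640417_ag.Tor
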