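import Pool.Agent.Lib.MP_640417_ag.Tor.SpecL
import Pool.Agent.Lib.MP_640417_ag.Tor.GouC

/-!
# One toric place: Goursat for finitely many blocks
-/

namespace Pool.Agent.Lib.MP_640417_ag.Tor

open Module

variable {K V : Type} [Field K] [AddCommGroup V] [Module K V] {ψ : LinearMap.BilinForm K V}
  {g : Submodule K (Module.End K V)} {P Q : Module.End K V}

/-- The center of a block is zero. -/
lemma Gour_center [CharZero K] (anti : ∀ x y, ψ x y = - ψ y x)
    (nd : ∀ x, (∀ y, ψ x y = 0) → x = 0) {R : Module.End K V} (hR : R * R = R)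
    (hadj : ∀ x y, ψ (R x) y = ψ x (R y)) {Z : Module.End K V} (hZ : Z ∈ spb ψ R)
    (hc : ∀ X ∈ spb ψ R, Z * X = X * Z) : Z = 0 := by
  have h1 : ∀ v, R v = v → Z v = 0 := by
    intro v hv
    have h2 := hc _ (GouA_T anti hadj hv hv)
    have h3 : Z * RankOne_T ψ v v - RankOne_T ψ v v * Z = 0 := by rw [h2, sub_self]
    rw [RankOne_lie hZ.1, RankOne_T_comm ψ (Z v) v, ← two_smul K] at h3
    rcases GouB_T_ne nd ((smul_eq_zero.mp h3).resolve_left two_ne_zero) with h4 | h4
    · rw [h4, map_zero]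
    · exact h4
  refine LinearMap.ext fun x => ?_
  rw [← GouA_right hR hZ, Module.End.mul_apply, h1 _ (by rw [← Module.End.mul_apply, hR]),
    LinearMap.zero_apply]

/-- Two blocks: there is an element of `g` which is zero in the block `Q` and not in the block `P`. -/
lemma Gour_two [CharZero K] [IsAlgClosed K] [FiniteDimensional K V] (alt : ∀ x, ψ x x = 0)
    (anti : ∀ x y, ψ x y = - ψ y x) (nd : ∀ x, (∀ y, ψ x y = 0) → x = 0)
    (lie : ∀ X ∈ g, ∀ Y ∈ g, X * Y - Y * X ∈ g) (sp : ∀ X ∈ g, Skew ψ X)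
    (pp : P * P = P) (qq : Q * Q = Q) (pq : P * Q = 0) (qp : Q * P = 0) (pne : P ≠ 0)
    (qne : Q ≠ 0) (padj : ∀ x y, ψ (P x) y = ψ x (P y)) (qadj : ∀ x y, ψ (Q x) y = ψ x (Q y))
    (pcom : ∀ X ∈ g, P * X = X * P) (qcom : ∀ X ∈ g, Q * X = X * Q)
    (psurj : ∀ X ∈ spb ψ P, ∃ Y ∈ g, P * Y = X) (qsurj : ∀ X ∈ spb ψ Q, ∃ Y ∈ g, Q * Y = X)
    (hcross : ∀ c : Module.End K V, (∀ X ∈ g, c * X = X * c) → Q * c * P = 0) :
    ∃ X ∈ g, Q * X = 0 ∧ P * X ≠ 0 := by
  by_contra hno
  push Not at hno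
  let g' : Submodule K (Module.End K V) :=
    { carrier := {Z | ∃ Y ∈ g, (P + Q) * Y = Z}
      add_mem' := by
        rintro _ _ ⟨X, hX, rfl⟩ ⟨Y, hY, rfl⟩
        exact ⟨X + Y, add_mem hX hY, mul_add _ _ _⟩
      zero_mem' := ⟨0, zero_mem _, mul_zero _⟩
      smul_mem' := by
        rintro c _ ⟨X, hX, rfl⟩
        exact ⟨c • X, Submodule.smul_mem _ _ hX, mul_smul_comm _ _ _⟩ }
  have hEE : (P + Q) * (P + Q) = P + Q := by
    rw [mul_add, add_mul, add_mul, pp, qp, pq, qq, add_zero, zero_add]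
  have hEc : ∀ X ∈ g, (P + Q) * X = X * (P + Q) := by
    intro X hX
    rw [add_mul, mul_add, pcom X hX, qcom X hX]
  have hEadj : ∀ x y, ψ ((P + Q) x) y = ψ x ((P + Q) y) := by
    intro x y
    rw [LinearMap.add_apply, map_add, LinearMap.add_apply, padj, qadj, LinearMap.add_apply,
      map_add]
  have hPE : P * (P + Q) = P := by rw [mul_add, pp, pq, add_zero]
  have hQE : Q * (P + Q) = Q := by rw [mul_add, qq, qp, zero_add]
  have hEP : (P + Q) * P = P := by rw [add_mul, pp, qp, add_zero]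
  have hEQ : (P + Q) * Q = Q := by rw [add_mul, qq, pq, zero_add]
  have hP' : ∀ Y, P * ((P + Q) * Y) = P * Y := fun Y => by rw [← mul_assoc, hPE]
  have hQ' : ∀ Y, Q * ((P + Q) * Y) = Q * Y := fun Y => by rw [← mul_assoc, hQE]
  have h : Gou ψ g' P Q :=
    { alt := alt
      anti := anti
      nd := nd
      lie := by
        rintro _ ⟨X, hX, rfl⟩ _ ⟨Y, hY, rfl⟩
        refine ⟨X * Y - Y * X, lie X hX Y hY, ?_⟩
        rw [GouC_mul hEE (hEc X hX), GouC_mul hEE (hEc Y hY), mul_sub]
      sp := by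
        rintro _ ⟨X, hX, rfl⟩
        exact GouC_skew hEadj (hEc X hX) (sp X hX)
      pp := pp
      qq := qq
      pq := pq
      qp := qp
      pne := pne
      qne := qne
      padj := padj
      qadj := qadj
      pcom := by
        rintro _ ⟨X, hX, rfl⟩
        rw [hP', hEc X hX, mul_assoc, hEP, pcom X hX]
      qcom := by
        rintro _ ⟨X, hX, rfl⟩
        rw [hQ', hEc X hX, mul_assoc, hEQ, qcom X hX]
      sum := by
        rintro _ ⟨X, hX, rfl⟩
        rw [hP', hQ', ← add_mul]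
      psurj := by
        intro X hX
        obtain ⟨Y, hY, h1⟩ := psurj X hX
        exact ⟨_, ⟨Y, hY, rfl⟩, by rw [hP', h1]⟩
      qsurj := by
        intro X hX
        obtain ⟨Y, hY, h1⟩ := qsurj X hX
        exact ⟨_, ⟨Y, hY, rfl⟩, by rw [hQ', h1]⟩
      inj := by
        rintro _ ⟨X, hX, rfl⟩ h1
        rw [hQ'] at h1
        rw [hP']
        exact hno X hX h1 }
  refine pGou K V ψ g' P Q h ?_
  intro c hc
  have h1 := hcross ((P + Q) * c * (P + Q)) (by
    intro X hX
    have h2 := hc _ ⟨X, hX, rfl⟩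
    calc (P + Q) * c * (P + Q) * X = (P + Q) * (c * ((P + Q) * X)) := by noncomm_ring
      _ = (P + Q) * ((P + Q) * X * c) := by rw [h2]
      _ = ((P + Q) * (P + Q)) * X * c := by noncomm_ring
      _ = X * ((P + Q) * c) := by rw [hEE, hEc X hX]; noncomm_ring
      _ = X * ((P + Q) * (c * ((P + Q) * 1))) + X * ((P + Q) * c * (1 - (P + Q))) := by
        noncomm_ring
      _ = X * ((P + Q) * c * (P + Q)) + X * ((P + Q) * c * (1 - (P + Q))) := by noncomm_ring
      _ = X * ((P + Q) * c * (P + Q)) := by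
        have h3 : X * ((P + Q) * c * (1 - (P + Q))) = ((P + Q) * X * c) * (1 - (P + Q)) := by
          rw [hEc X hX]
          noncomm_ring
        rw [h3, ← h2]
        have h4 : c * ((P + Q) * X) * (1 - (P + Q)) =
            c * ((P + Q) * X - ((P + Q) * X) * (P + Q)) := by noncomm_ring
        rw [h4, hEc X hX, mul_assoc X, hEE, sub_self, mul_zero, add_zero])
  have h2 : Q * ((P + Q) * c * (P + Q)) * P = (Q * (P + Q)) * c * ((P + Q) * P) := by noncomm_ring
  rw [h2, hQE, hEP] at h1
  exact h1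

/-- **Goursat for finitely many blocks.** -/
theorem pGour : SGour := by
  intro K V _ _ _ _ _ _ ψ alt anti nd g lie sp B _ _ p hsum hpp horth hadj hcom hfull hcross
  -- the statement for a finite set
  have key : ∀ (S : Finset B) (b : B), b ∉ S → ∀ X ∈ spb ψ (p b), ∃ Y ∈ g, p b * Y = X ∧
      ∀ s ∈ S, p s * Y = 0 := by
    intro S
    induction S using Finset.induction_on with
    | empty =>
      intro b _ X hX
      obtain ⟨Y, hY, h1⟩ := hfull b X hX
      exact ⟨Y, hY, h1, fun s hs => absurd hs (Finset.notMem_empty s)⟩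
    | insert s S hs ih =>
      intro b hb X hX
      have hbs : b ≠ s := fun h => hb (h ▸ Finset.mem_insert_self _ _)
      have hbS : b ∉ S := fun h => hb (Finset.mem_insert_of_mem h)
      by_cases hb0 : p b = 0
      · refine ⟨0, zero_mem _, ?_, fun _ _ => mul_zero _⟩
        rw [mul_zero, ← hX.2, hb0, mul_zero]
      by_cases hs0 : p s = 0
      · obtain ⟨Y, hY, h1, h2⟩ := ih b hbS X hX
        refine ⟨Y, hY, h1, fun t ht => ?_⟩
        rcases Finset.mem_insert.mp ht with h | h
        · rw [h, hs0, zero_mul]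
        · exact h2 t h
      -- an element of g which is zero in the block s
      obtain ⟨Z, hZ, hZs, hZb⟩ := Gour_two alt anti nd lie sp (hpp b) (hpp s) (horth b s hbs)
        (horth s b hbs.symm) hb0 hs0 (hadj b) (hadj s) (hcom b) (hcom s) (hfull b) (hfull s)
        (hcross s b hbs.symm)
      let a : Submodule K (Module.End K V) :=
        { carrier := {X | ∃ Y ∈ g, p b * Y = X ∧ p s * Y = 0 ∧ ∀ t ∈ S, p t * Y = 0}
          add_mem' := by
            rintro _ _ ⟨X, hX, rfl, h1, h2⟩ ⟨Y, hY, rfl, h3, h4⟩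
            refine ⟨X + Y, add_mem hX hY, mul_add _ _ _, by rw [mul_add, h1, h3, add_zero],
              fun t ht => by rw [mul_add, h2 t ht, h4 t ht, add_zero]⟩
          zero_mem' := ⟨0, zero_mem _, mul_zero _, mul_zero _, fun _ _ => mul_zero _⟩
          smul_mem' := by
            rintro c _ ⟨X, hX, rfl, h1, h2⟩
            exact ⟨c • X, Submodule.smul_mem _ _ hX, mul_smul_comm _ _ _,
              by rw [mul_smul_comm, h1, smul_zero],
              fun t ht => by rw [mul_smul_comm, h2 t ht, smul_zero]⟩ }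
      have hale : a ≤ spb ψ (p b) := by
        rintro _ ⟨Y, hY, rfl, -, -⟩
        exact GouC_proj (hpp b) (hadj b) (hcom b Y hY) (sp Y hY)
      -- brackets
      have hzero : ∀ t, ∀ W ∈ g, ∀ Y ∈ g, p t * Y = 0 → p t * (W * Y - Y * W) = 0 := by
        intro t W hW Y hY h0
        rw [mul_sub, ← mul_assoc, ← mul_assoc, hcom t W hW, mul_assoc, h0, mul_zero, zero_mul,
          sub_zero]
      have hzero' : ∀ t, ∀ W ∈ g, ∀ Y ∈ g, p t * W = 0 → p t * (W * Y - Y * W) = 0 := by
        intro t W hW Y hY h0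
        rw [mul_sub, ← mul_assoc, ← mul_assoc, hcom t Y hY, mul_assoc Y, h0, mul_zero, zero_mul,
          sub_zero]
      have halie : ∀ W ∈ spb ψ (p b), ∀ Y ∈ a, W * Y - Y * W ∈ a := by
        rintro W hW _ ⟨Y, hY, rfl, h1, h2⟩
        obtain ⟨W', hW', rfl⟩ := hfull b W hW
        refine ⟨W' * Y - Y * W', lie W' hW' Y hY, ?_, hzero s W' hW' Y hY h1,
          fun t ht => hzero t W' hW' Y hY (h2 t ht)⟩
        rw [GouC_mul (hpp b) (hcom b W' hW'), GouC_mul (hpp b) (hcom b Y hY), mul_sub]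
      -- a nonzero element of a
      have hZp : p b * Z ∈ spb ψ (p b) :=
        GouC_proj (hpp b) (hadj b) (hcom b Z hZ) (sp Z hZ)
      obtain ⟨W, hW, hWZ⟩ : ∃ W ∈ spb ψ (p b), (p b * Z) * W ≠ W * (p b * Z) := by
        by_contra hno
        push Not at hno
        exact hZb (Gour_center anti nd (hpp b) (hadj b) hZp hno)
      obtain ⟨W', hW', hW'b, hW'S⟩ := ih b hbS W hW
      have hne : p b * (Z * W' - W' * Z) ≠ 0 := by
        intro h0
        apply hWZ
        rw [← hW'b, GouC_mul (hpp b) (hcom b Z hZ), GouC_mul (hpp b) (hcom b W' hW')]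
        rw [mul_sub] at h0
        exact sub_eq_zero.mp h0
      have hmem : p b * (Z * W' - W' * Z) ∈ a :=
        ⟨_, lie Z hZ W' hW', rfl, hzero' s Z hZ W' hW' hZs,
          fun t ht => hzero t Z hZ W' hW' (hW'S t ht)⟩
      have hall := GouA_simple anti alt nd (hpp b) (hadj b) a hale halie hmem hne
      obtain ⟨Y, hY, h1, h2, h3⟩ := hall hX
      refine ⟨Y, hY, h1, fun t ht => ?_⟩
      rcases Finset.mem_insert.mp ht with h | h
      · rw [h, h2]
      · exact h3 t h
  intro X hX hXc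
  have hblock : ∀ b, p b * X * p b ∈ g := by
    intro b
    have h1 : p b * X * p b ∈ spb ψ (p b) := by
      have h2 : p b * X * p b = p b * X := by rw [hXc b, mul_assoc, hpp]
      rw [h2]
      exact GouC_proj (hpp b) (hadj b) (hXc b) hX
    obtain ⟨Y, hY, h2, h3⟩ := key (Finset.univ.erase b) b (Finset.notMem_erase b _) _ h1
    have h4 : Y = p b * X * p b := by
      calc Y = (∑ s, p s) * Y := by rw [hsum, one_mul]
        _ = ∑ s, p s * Y := Finset.sum_mul _ _ _
        _ = p b * Y := by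
          rw [Finset.sum_eq_single b]
          · intro s _ hs
            exact h3 s (Finset.mem_erase.mpr ⟨hs, Finset.mem_univ s⟩)
          · intro h
            exact absurd (Finset.mem_univ b) h
        _ = _ := h2
    rw [← h4]
    exact hY
  have h5 : X = ∑ b, p b * X * p b := by
    calc X = (∑ b, p b) * X := by rw [hsum, one_mul]
      _ = ∑ b, p b * X := Finset.sum_mul _ _ _
      _ = ∑ b, p b * X * p b := by
        refine Finset.sum_congr rfl fun b _ => ?_
        rw [hXc b, mul_assoc, hpp]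
  rw [h5]
  exact Submodule.sum_mem _ fun b _ => hblock b

end Pool.Agent.Lib.MP_640417_ag.Tor
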