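import Pool.Agent.Lib.MP_640417_ag.Glob.TanH

/-!
# The Lie algebra does not change under restriction to an open subgroup
-/

namespace Pool.Agent.Lib.MP_640417_ag.Tor

open Filter Topology Matrix Pool.Agent.Lib.MP_640417_ag.Glob

theorem Hh_res {F : Type} [NontriviallyNormedField F] [IsUltrametricDist F] [CompleteSpace F]
    [CharZero F] {I : Type} [Fintype I] [DecidableEq I] {Γ : Type} [Group Γ] [TopologicalSpace Γ]
    [IsTopologicalGroup Γ] [CompactSpace Γ] (R : MRep Γ F I) (U : OpenSubgroup Γ)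
    (R' : MRep U F I) (hM : ∀ γ : U, R'.M γ = R.M γ) (hJ : R'.J = R.J) (l : ℕ)
    (hl : ‖(l : F)‖ < 1) (hl0 : (l : F) ≠ 0) : R.Hh l ≤ R'.Hh l := by
  rintro X ⟨hX, s, hs⟩
  refine ⟨by rw [hJ]; exact hX, s, ?_⟩
  have h1 : Submodule.span F (R.Zt l) ≤ Submodule.span F (R'.Zt l) := by
    refine Submodule.span_le.mpr fun A hA => ?_
    obtain ⟨n, hn, γ, hγ, hlim⟩ := Zt_open R l hl hl0 U hA
    have h2 : (n : F) • A ∈ R'.Zt l := by
      refine ⟨fun k => ⟨γ k, hγ k⟩, ?_⟩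
      refine hlim.congr fun k => ?_
      rw [hM]
    have h3 := Submodule.smul_mem (Submodule.span F (R'.Zt l)) (n : F)⁻¹
      (Submodule.subset_span h2)
    rwa [smul_smul, inv_mul_cancel₀ (Nat.cast_ne_zero.2 hn.ne'), one_smul] at h3
  exact h1 hs

end Pool.Agent.Lib.MP_640417_ag.Tor
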