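import Pool.Agent.Lib.MP_640417_ag.Tor.FullTy
import Pool.Agent.Lib.MP_640417_ag.Tor.ResHh
import Pool.Agent.Lib.MP_640417_ag.Tor.IdemL
import Pool.Agent.Lib.MP_640417_ag.Tor.Gour
import Pool.Agent.Lib.MP_640417_ag.Tor.PMB
import Pool.Agent.Lib.MP_640417_ag.Tor.Desc
import Pool.Agent.Lib.MP_640417_ag.Tor.Dens
import Pool.Agent.Lib.MP_640417_ag.Tor.Nil
import Pool.Agent.Lib.MP_640417_ag.Tor.CoordT
import Pool.Agent.Lib.MP_640417_ag.Ty.Main
import Pool.Agent.Lib.MP_640417_ag.Tor.GoodFull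

/-!
# Toric places, without factors of type III and IV: the main theorem
-/

namespace Pool.Agent.Lib.MP_640417_ag.Tor

open Module TensorProduct Pool.Agent.Lib.MP_640417_ag Pool.Agent.Lib.MP_640417_ag.Frob
  Pool.Agent.Lib.MP_640417_ag.Four Pool.Agent.Lib.MP_640417_ag.Glob
  Pool.Agent.Lib.MP_640417_ag.Ty

/-- **Toric places decide.** -/
theorem noExotic_of_toricTy
    (l : ℕ) [Fact l.Prime] {Γ : Type}
    [Group Γ] [TopologicalSpace Γ] [IsTopologicalGroup Γ] [CompactSpace Γ] {V : Type}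
    [AddCommGroup V] [Module ℚ_[l] V] [FiniteDimensional ℚ_[l] V] (ρ : H1Rep Γ ℚ_[l] V)
    (hss : Semisimple ρ) (hr : RealType ρ) (K : Type) [Field K] [Algebra ℚ_[l] K]
    [IsAlgClosed K] (h : ToricPlaces l ρ K) : NoExotic ρ := by
  have hl : ‖(l : ℚ_[l])‖ < 1 := by
    rw [Padic.norm_p]
    exact inv_lt_one_of_one_lt₀ (by exact_mod_cast (Fact.out : l.Prime).one_lt)
  have hl0 : (l : ℚ_[l]) ≠ 0 := Nat.cast_ne_zero.mpr (Fact.out : l.Prime).ne_zero
  -- the Lie algebra is full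
  obtain ⟨R, h1, h2, h3⟩ := exists_coord ρ (Module.finBasis ℚ_[l] V)
  have hsemi := coord_semi ρ _ R h1 hss
  obtain ⟨P⟩ := exists_pack R K hsemi (real_coord ρ _ R h1 h3 hr)
  have hfull := full_of_toric (pAll (pBlock pPMB pIdem) pGour) pDesc pNil pDens R l hl hl0 hsemi K
    P (pCoordT l Γ V ρ _ (Module.finBasis ℚ_[l] V) R h1 K h)
  -- an open subgroup which commutes with the commutant
  obtain ⟨U, hU⟩ := exists_U0 ρ
  have i1 := topGroup_U U
  have i2 := compact_U U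
  obtain ⟨R', h1', h2', h3'⟩ := exists_coord (res ρ U) (Module.finBasis ℚ_[l] V)
  have hM : ∀ γ : U, R'.M γ = R.M γ := fun γ => by
    rw [h1', h1]
    rfl
  have hJ : R'.J = R.J := by
    ext i j
    rw [h3', h3]
    rfl
  have hfull0 := full_coord (res ρ U) _ R' h1'
    (fun c hc γ => (hU γ.1).mp γ.2 c ((commF_res ρ U c).mp hc))
  have hs' := coord_semi (res ρ U) _ R' h1' (semi_res ρ U hss)
  have hr' := real_coord (res ρ U) _ R' h1' h3' (real_res ρ U hr)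
  obtain ⟨P'⟩ := exists_pack R' (AlgebraicClosure ℚ_[l]) hs' hr'
  have hH : ∀ X ∈ spJ R'.J, (∀ b, R'.InC b → X * b = b * X) → X ∈ R'.Hh l := by
    intro X hX hXC
    refine Hh_res R U R' hM hJ l hl hl0 (hfull X (by rw [← hJ]; exact hX) fun b hb => hXC b ?_)
    obtain ⟨U', hU'⟩ := hb
    refine ⟨U'.comap U.toSubgroup.subtype continuous_subtype_val, fun γ hγ => ?_⟩
    rw [hM]
    exact hU' γ.1 hγ
  obtain ⟨O, -, ⟨γ, hγ⟩, hg⟩ := good_openW_of_full R' P' l hl hs' hr' hfull0 hH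
  have hgT := good_of_four (res ρ U) _ R' h1' h2' P' hfull0 γ (hg γ hγ)
  exact noExotic_of_good l ρ hss hr ((good_res ρ U γ).mp hgT)

end Pool.Agent.Lib.MP_640417_ag.Tor
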