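import Pool.Agent.Lib.MP_640417_ag.Tor.SpecL
import Pool.Agent.Lib.MP_640417_ag.Glob.Main

/-!
# One toric place: the Lie algebra is the centralizer of the commutant
-/

namespace Pool.Agent.Lib.MP_640417_ag.Tor

open Module Matrix Pool.Agent.Lib.MP_640417_ag.Glob

section ops

variable {F K : Type} [Field F] [Field K] [Algebra F K] {I : Type} [Fintype I] [DecidableEq I]

lemma opK_apply (A : Matrix I I F) (x : I → K) : opK K A x = A.map (algebraMap F K) *ᵥ x := rfl

lemma opK_mul (A B : Matrix I I F) : opK K (A * B) = opK K A * opK K B := by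
  unfold opK
  rw [Matrix.map_mul, Matrix.toLin'_mul]
  rfl

lemma opK_add (A B : Matrix I I F) : opK K (A + B) = opK K A + opK K B := by
  unfold opK
  rw [Matrix.map_add (algebraMap F K) (map_add _), map_add]

lemma opK_sub (A B : Matrix I I F) : opK K (A - B) = opK K A - opK K B := by
  unfold opK
  rw [Matrix.map_sub (algebraMap F K) (map_sub _), map_sub]

lemma opK_smul (c : F) (A : Matrix I I F) : opK K (c • A) = algebraMap F K c • opK K A := by
  refine LinearMap.ext fun x => ?_
  rw [LinearMap.smul_apply, opK_apply, opK_apply, ← Matrix.smul_mulVec]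
  congr 1
  ext i j
  simp

lemma opK_one : opK K (1 : Matrix I I F) = 1 := by
  unfold opK
  rw [Matrix.map_one (algebraMap F K) (map_zero _) (map_one _), Matrix.toLin'_one]
  rfl

lemma opK_zero : opK K (0 : Matrix I I F) = 0 := by
  unfold opK
  rw [Matrix.map_zero (algebraMap F K) (map_zero _), map_zero]

/-- The span of the operators of a subspace. -/
lemma opK_span (S : Set (Matrix I I F)) {A : Matrix I I F} (hA : A ∈ Submodule.span F S) :
    opK K A ∈ Submodule.span K (opK K '' S) := by
  induction hA using Submodule.span_induction with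
  | mem x hx => exact Submodule.subset_span ⟨x, hx, rfl⟩
  | zero => rw [opK_zero]; exact zero_mem _
  | add x y _ _ hx hy => rw [opK_add]; exact add_mem hx hy
  | smul c x _ hx => rw [opK_smul]; exact Submodule.smul_mem _ _ hx

lemma FullL_form (J : Matrix I I F) (x y : I → K) :
    Matrix.toBilin' (J.map (algebraMap F K)) x y = x ⬝ᵥ (J.map (algebraMap F K)) *ᵥ y :=
  Matrix.toBilin'_apply' _ x y

lemma FullL_anti {J : Matrix I I F} (hJ : Jᵀ = -J) (x y : I → K) :
    Matrix.toBilin' (J.map (algebraMap F K)) x y =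
      - Matrix.toBilin' (J.map (algebraMap F K)) y x := by
  rw [FullL_form, FullL_form]
  have h1 : J.map (algebraMap F K) = -(J.map (algebraMap F K))ᵀ := by
    rw [← Matrix.transpose_map, hJ]
    ext i j
    simp
  have h2 : y ⬝ᵥ J.map (algebraMap F K) *ᵥ x = x ⬝ᵥ (J.map (algebraMap F K))ᵀ *ᵥ y := by
    rw [Matrix.dotProduct_mulVec, ← Matrix.mulVec_transpose, dotProduct_comm]
  rw [h2]
  conv_lhs => rw [h1]
  rw [Matrix.neg_mulVec, dotProduct_neg]

lemma FullL_nd {J : Matrix I I F} (hJ : J.det ≠ 0) (x : I → K)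
    (h : ∀ y, Matrix.toBilin' (J.map (algebraMap F K)) x y = 0) : x = 0 := by
  have h1 : (J.map (algebraMap F K)).det ≠ 0 := by
    have h2 : (J.map (algebraMap F K)).det = algebraMap F K J.det := by
      rw [RingHom.map_det]
      rfl
    rw [h2]
    exact (map_ne_zero _).mpr hJ
  apply Matrix.eq_zero_of_vecMul_eq_zero h1
  apply dotProduct_eq_zero
  intro y
  have h2 := h y
  rw [FullL_form, Matrix.dotProduct_mulVec] at h2
  exact h2

lemma FullL_mult {J A : Matrix I I F} {c : F} (h : Aᵀ * J + J * A = c • J) (x y : I → K) :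
    Matrix.toBilin' (J.map (algebraMap F K)) (opK K A x) y +
      Matrix.toBilin' (J.map (algebraMap F K)) x (opK K A y) =
      algebraMap F K c * Matrix.toBilin' (J.map (algebraMap F K)) x y := by
  rw [FullL_form, FullL_form, FullL_form, opK_apply, opK_apply]
  have h1 : (A.map (algebraMap F K) *ᵥ x) ⬝ᵥ J.map (algebraMap F K) *ᵥ y =
      x ⬝ᵥ ((Aᵀ * J).map (algebraMap F K)) *ᵥ y := by
    rw [Matrix.map_mul, ← Matrix.mulVec_mulVec, Matrix.transpose_map,
      Matrix.dotProduct_mulVec x, Matrix.vecMul_transpose]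
  have h2 : x ⬝ᵥ J.map (algebraMap F K) *ᵥ (A.map (algebraMap F K) *ᵥ y) =
      x ⬝ᵥ ((J * A).map (algebraMap F K)) *ᵥ y := by
    rw [Matrix.map_mul, Matrix.mulVec_mulVec]
  rw [h1, h2, ← dotProduct_add, ← Matrix.add_mulVec, ← Matrix.map_add (algebraMap F K) (map_add _),
    h]
  have h3 : (c • J).map (algebraMap F K) = algebraMap F K c • J.map (algebraMap F K) := by
    ext i j
    simp
  rw [h3, Matrix.smul_mulVec, dotProduct_smul, smul_eq_mul]

end ops

lemma FullL_skew {F K : Type} [NontriviallyNormedField F] [Field K] [Algebra F K] {I : Type}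
    [Fintype I] [DecidableEq I] {J A : Matrix I I F} (h : A ∈ spJ J) :
    Skew (Matrix.toBilin' (J.map (algebraMap F K))) (opK K A) := by
  intro x y
  have h0 : Aᵀ * J + J * A = (0 : F) • J := by rw [zero_smul]; exact h
  have h5 := FullL_mult (K := K) h0 x y
  rw [map_zero, zero_mul] at h5
  exact eq_neg_of_add_eq_zero_left h5

/-- The Lie algebra is the centralizer of the commutant. -/
theorem pFull (hAll : SAll) (hDesc : SDesc) (hNil : SNil) (hJoint : SJoint)
    (hCent : SCent) : SFull := by
  intro F _ _ _ _ I _ _ Γ _ _ _ _ ρ l hl hl0 hsemi hs K _ _ _ htor X hX hXC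
  have hcz : CharZero K := charZero_of_injective_algebraMap (algebraMap F K).injective
  set L : Submodule K (Module.End K (I → K)) := Submodule.span K (opK K '' (ρ.Zt l)) with hL
  set ψ : LinearMap.BilinForm K (I → K) := Matrix.toBilin' (ρ.J.map (algebraMap F K)) with hψ
  have anti : ∀ x y, ψ x y = - ψ y x := fun x y => FullL_anti (J_skew ρ) x y
  have alt : ∀ x, ψ x x = 0 := by
    intro x
    have h1 := anti x x
    have h2 : (2 : K) * ψ x x = 0 := by linear_combination h1
    exact (mul_eq_zero.mp h2).resolve_left two_ne_zero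
  have nd : ∀ x, (∀ y, ψ x y = 0) → x = 0 := fun x h => FullL_nd ρ.det x h
  have hZL : ∀ A ∈ ρ.Zt l, opK K A ∈ L := fun A hA => Submodule.subset_span ⟨A, hA, rfl⟩
  have hspan : ∀ A ∈ Submodule.span F (ρ.Zt l), opK K A ∈ L := fun A hA => opK_span _ hA
  -- brackets
  have hbr : ∀ A ∈ ρ.Zt l, ∀ B ∈ ρ.Zt l, opK K A * opK K B - opK K B * opK K A ∈ L := by
    intro A hA B hB
    obtain ⟨s, hs'⟩ := Zt_Hh ρ l hl hl0 hA
    obtain ⟨t, ht⟩ := Zt_Hh ρ l hl hl0 hB
    have h1 := hspan _ (Hh_lie_span ρ l hl hl0 hs' ht)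
    have h2 : (A - s • (1 : Matrix I I F)) * (B - t • (1 : Matrix I I F)) -
        (B - t • (1 : Matrix I I F)) * (A - s • (1 : Matrix I I F)) = A * B - B * A := by
      simp only [sub_mul, mul_sub, Matrix.smul_mul, Matrix.mul_smul, one_mul, mul_one]
      rw [smul_comm t s]
      abel
    rw [h2, opK_sub, opK_mul, opK_mul] at h1
    exact h1
  have hlie : ∀ X ∈ L, ∀ Y ∈ L, X * Y - Y * X ∈ L := by
    intro X hX Y hY
    rw [hL] at hX hY
    induction hX using Submodule.span_induction with
    | mem x hx =>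
      obtain ⟨A, hA, rfl⟩ := hx
      induction hY using Submodule.span_induction with
      | mem y hy =>
        obtain ⟨B, hB, rfl⟩ := hy
        exact hbr A hA B hB
      | zero => rw [mul_zero, zero_mul, sub_zero]; exact zero_mem _
      | add y z _ _ hy hz =>
        have h1 : opK K A * (y + z) - (y + z) * opK K A =
            (opK K A * y - y * opK K A) + (opK K A * z - z * opK K A) := by noncomm_ring
        rw [h1]
        exact add_mem hy hz
      | smul c y _ hy =>
        rw [mul_smul_comm, smul_mul_assoc, ← smul_sub]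
        exact Submodule.smul_mem _ _ hy
    | zero => rw [mul_zero, zero_mul, sub_zero]; exact zero_mem _
    | add x z _ _ hx hz =>
      have h1 : (x + z) * Y - Y * (x + z) = (x * Y - Y * x) + (z * Y - Y * z) := by noncomm_ring
      rw [h1]
      exact add_mem hx hz
    | smul c x _ hx =>
      rw [mul_smul_comm, smul_mul_assoc, ← smul_sub]
      exact Submodule.smul_mem _ _ hx
  -- multipliers
  have hmult : ∀ X ∈ L, ∃ c : K, ∀ x y, ψ (X x) y + ψ x (X y) = c * ψ x y := by
    intro X hX
    rw [hL] at hX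
    induction hX using Submodule.span_induction with
    | mem x hx =>
      obtain ⟨A, hA, rfl⟩ := hx
      obtain ⟨c, hc⟩ := Zt_mult ρ l hl hl0 hA
      exact ⟨algebraMap F K c, fun x y => FullL_mult hc x y⟩
    | zero =>
      refine ⟨0, fun x y => ?_⟩
      rw [LinearMap.zero_apply, LinearMap.zero_apply, map_zero, map_zero, LinearMap.zero_apply,
        add_zero, zero_mul]
    | add X Y _ _ hX hY =>
      obtain ⟨c, hc⟩ := hX
      obtain ⟨d, hd⟩ := hY
      refine ⟨c + d, fun x y => ?_⟩
      rw [LinearMap.add_apply, LinearMap.add_apply, map_add, map_add, LinearMap.add_apply,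
        add_mul, ← hc, ← hd]
      ring
    | smul a X _ hX =>
      obtain ⟨c, hc⟩ := hX
      refine ⟨a * c, fun x y => ?_⟩
      rw [LinearMap.smul_apply, LinearMap.smul_apply, map_smul, map_smul, LinearMap.smul_apply,
        smul_eq_mul, smul_eq_mul, mul_assoc, ← hc, mul_add]
  -- commutant
  have hLc : ∀ c, ρ.InC c → ∀ X ∈ L, opK K c * X = X * opK K c := by
    intro c hc X hX
    rw [hL] at hX
    induction hX using Submodule.span_induction with
    | mem x hx =>
      obtain ⟨A, hA, rfl⟩ := hx
      obtain ⟨s, hs'⟩ := Zt_Hh ρ l hl hl0 hA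
      have h1 := Hh_comm_C ρ l hl hl0 hs' hc
      have h2 : A * c = c * A := by
        rw [Matrix.sub_mul, Matrix.mul_sub, Matrix.smul_mul, Matrix.mul_smul, Matrix.one_mul,
          Matrix.mul_one] at h1
        exact sub_left_injective h1
      rw [← opK_mul, ← opK_mul, h2]
    | zero => rw [mul_zero, zero_mul]
    | add x y _ _ hx hy => rw [mul_add, add_mul, hx, hy]
    | smul a x _ hx => rw [mul_smul_comm, smul_mul_assoc, hx]
  obtain ⟨B, _, _, p, hsum, hpp, hp0, horth, hadj, hiff⟩ := hJoint F I Γ ρ hsemi hs K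
  have hpL : ∀ b, ∀ X ∈ L, p b * X = X * p b := fun b X hX =>
    (hiff X).mpr (fun c hc => hLc c hc X hX) b
  -- Hh in terms of L
  have hHL : ∀ Z ∈ ρ.Hh l, ∃ s : K, opK K Z + s • (1 : Module.End K (I → K)) ∈ L := by
    rintro Z ⟨-, s, hs'⟩
    refine ⟨algebraMap F K s, ?_⟩
    have h1 := hspan _ hs'
    rwa [opK_add, opK_smul, opK_one] at h1
  let D : Submodule K (Module.End K (I → K)) :=
    Submodule.span K (opK K '' (Algebra.adjoin F (ρ.Hh l : Set (Matrix I I F)) :
      Set (Matrix I I F)))
  have hDmem : ∀ X : Module.End K (I → K), (∀ b, p b * X = X * p b) → X ∈ D := fun X h =>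
    hCent F I Γ ρ l hl hl0 hsemi K X ((hiff X).mp h)
  -- stable subspaces are stable under D
  have hDstab : ∀ W : Submodule K (I → K), (∀ X ∈ L, ∀ y ∈ W, X y ∈ W) → ∀ X ∈ D, ∀ y ∈ W,
      X y ∈ W := by
    intro W hW
    have h1 : ∀ A ∈ Algebra.adjoin F (ρ.Hh l : Set (Matrix I I F)), ∀ y ∈ W, opK K A y ∈ W := by
      intro A hA
      induction hA using Algebra.adjoin_induction with
      | mem Z hZ =>
        intro y hy
        obtain ⟨s, hs'⟩ := hHL Z hZ
        have h2 := W.sub_mem (hW _ hs' y hy) (W.smul_mem s hy)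
        rwa [LinearMap.add_apply, LinearMap.smul_apply, Module.End.one_apply,
          add_sub_cancel_right] at h2
      | algebraMap c =>
        intro y hy
        rw [Algebra.algebraMap_eq_smul_one, opK_smul, opK_one, LinearMap.smul_apply,
          Module.End.one_apply]
        exact W.smul_mem _ hy
      | add x z _ _ hx hz =>
        intro y hy
        rw [opK_add, LinearMap.add_apply]
        exact W.add_mem (hx y hy) (hz y hy)
      | mul x z _ _ hx hz =>
        intro y hy
        rw [opK_mul, Module.End.mul_apply]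
        exact hx _ (hz y hy)
    intro X hX y hy
    induction hX using Submodule.span_induction with
    | mem x hx =>
      obtain ⟨A, hA, rfl⟩ := hx
      exact h1 A hA y hy
    | zero => rw [LinearMap.zero_apply]; exact W.zero_mem
    | add x z _ _ hx hz => rw [LinearMap.add_apply]; exact W.add_mem hx hz
    | smul a x _ hx => rw [LinearMap.smul_apply]; exact W.smul_mem _ hx
  have hDcomm : ∀ c : Module.End K (I → K), (∀ X ∈ L, c * X = X * c) → ∀ X ∈ D, c * X = X * c := by
    intro c hc
    have h1 : ∀ A ∈ Algebra.adjoin F (ρ.Hh l : Set (Matrix I I F)),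
        c * opK K A = opK K A * c := by
      intro A hA
      induction hA using Algebra.adjoin_induction with
      | mem Z hZ =>
        obtain ⟨s, hs'⟩ := hHL Z hZ
        have h2 := hc _ hs'
        rw [mul_add, add_mul, mul_smul_comm, smul_mul_assoc, mul_one, one_mul] at h2
        exact add_right_cancel h2
      | algebraMap a =>
        rw [Algebra.algebraMap_eq_smul_one, opK_smul, opK_one, mul_smul_comm, smul_mul_assoc,
          mul_one, one_mul]
      | add x z _ _ hx hz => rw [opK_add, mul_add, add_mul, hx, hz]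
      | mul x z _ _ hx hz => rw [opK_mul, ← mul_assoc, hx, mul_assoc, hz, mul_assoc]
    intro X hX
    induction hX using Submodule.span_induction with
    | mem x hx =>
      obtain ⟨A, hA, rfl⟩ := hx
      exact h1 A hA
    | zero => rw [mul_zero, zero_mul]
    | add x z _ _ hx hz => rw [mul_add, add_mul, hx, hz]
    | smul a x _ hx => rw [mul_smul_comm, smul_mul_assoc, hx]
  have hpp' : ∀ b y, p b (p b y) = p b y := fun b y => by rw [← Module.End.mul_apply, hpp]
  -- the blocks are irreducible
  have hirr : ∀ b, IrrMod L (LinearMap.range (p b)) := by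
    intro b
    refine ⟨fun h0 => hp0 b (LinearMap.range_eq_bot.mp h0), ?_, ?_⟩
    · rintro X hX _ ⟨y, rfl⟩
      exact ⟨X y, by rw [← Module.End.mul_apply, hpL b X hX, Module.End.mul_apply]⟩
    · intro W' hW' hst
      by_cases hbot : W' = ⊥
      · exact Or.inl hbot
      refine Or.inr (le_antisymm hW' ?_)
      obtain ⟨w, hw, hw0⟩ := W'.ne_bot_iff.mp hbot
      have hpw : p b w = w := by
        obtain ⟨y, rfl⟩ := hW' hw
        exact hpp' b y
      rintro _ ⟨z, rfl⟩
      obtain ⟨φ, hφ⟩ : ∃ φ : Module.Dual K (I → K), φ w = 1 := by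
        obtain ⟨φ, hφ, -⟩ := Submodule.exists_le_ker_of_notMem
          (p := (⊥ : Submodule K (I → K))) (v := w) (fun h => hw0 ((Submodule.mem_bot K).mp h))
        exact ⟨(φ w)⁻¹ • φ, by rw [LinearMap.smul_apply, smul_eq_mul, inv_mul_cancel₀ hφ]⟩
      let R : Module.End K (I → K) := (φ ∘ₗ p b).smulRight (p b z)
      have hR : ∀ x, R x = φ (p b x) • p b z := fun x => rfl
      have hRcomm : ∀ a, p a * R = R * p a := by
        intro a
        refine LinearMap.ext fun x => ?_
        rw [Module.End.mul_apply, Module.End.mul_apply, hR, hR, map_smul]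
        by_cases hab : a = b
        · rw [hab, hpp', hpp']
        · rw [← Module.End.mul_apply (p a), horth a b hab, ← Module.End.mul_apply (p b),
            horth b a (Ne.symm hab), LinearMap.zero_apply, LinearMap.zero_apply, map_zero,
            smul_zero, zero_smul]
      have h1 := hDstab W' hst R (hDmem R hRcomm) w hw
      rwa [hR, hpw, hφ, one_smul] at h1
  have hcross : ∀ a b, a ≠ b → ∀ c : Module.End K (I → K), (∀ X ∈ L, c * X = X * c) →
      p a * c * p b = 0 := by
    intro a b hab c hc
    have h1 : p b ∈ D := hDmem (p b) (fun a' => by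
      by_cases h : a' = b
      · rw [h]
      · rw [horth a' b h, horth b a' (Ne.symm h)])
    rw [mul_assoc, hDcomm c hc _ h1, ← mul_assoc, horth a b hab, zero_mul]
  have htor' : ∀ b, ∃ N ∈ L, N * N = 0 ∧ Skew ψ N ∧ Toric L (LinearMap.range (p b)) N := by
    intro b
    obtain ⟨γ, h1, h2⟩ := htor _ (hirr b)
    obtain ⟨h3, h4⟩ := hNil F I Γ ρ l hl hl0 γ h1
    refine ⟨opK K (ρ.M γ - 1), hZL _ h3, ?_, ?_, h2⟩
    · rw [← opK_mul, h1, opK_zero]
    · exact FullL_skew h4
  have hXs : Skew ψ (opK K X) := FullL_skew hX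
  have hXp : ∀ b, p b * opK K X = opK K X * p b := (hiff _).mpr fun c hc => by
    rw [← opK_mul, ← opK_mul, hXC c hc]
  obtain ⟨-, s, hs'⟩ := hAll K (I → K) ψ alt anti nd L hlie hmult B p hsum hpp hp0 horth hadj hpL
    hirr hcross htor' (opK K X) hXs hXp
  -- descent
  let U : Submodule F (Matrix I I F) := Submodule.span F (ρ.Zt l) ⊔ Submodule.span F {1}
  have hLU : L ≤ Submodule.span K (opK K '' (U : Set (Matrix I I F))) := by
    refine Submodule.span_mono ?_
    rintro _ ⟨A, hA, rfl⟩
    exact ⟨A, Submodule.mem_sup_left (Submodule.subset_span hA), rfl⟩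
  have h1U : (1 : Module.End K (I → K)) ∈ Submodule.span K (opK K '' (U : Set (Matrix I I F))) :=
    Submodule.subset_span ⟨1, Submodule.mem_sup_right (Submodule.mem_span_singleton_self _),
      opK_one⟩
  have hXU : X ∈ U := by
    apply hDesc F K I U X
    have h1 := Submodule.sub_mem _ (hLU hs') (Submodule.smul_mem _ s h1U)
    rwa [add_sub_cancel_right] at h1
  obtain ⟨A, hA, Z, hZ, hAZ⟩ := Submodule.mem_sup.mp hXU
  obtain ⟨c, rfl⟩ := Submodule.mem_span_singleton.mp hZ
  refine ⟨hX, -c, ?_⟩
  rw [← hAZ, add_assoc, ← add_smul, add_neg_cancel, zero_smul, add_zero]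
  exact hA

end Pool.Agent.Lib.MP_640417_ag.Tor
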