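import Pool.Agent.Lib.MP_640417_ag.Tor.FullL
import Pool.Agent.Lib.MP_640417_ag.Tor.AllL
import Pool.Agent.Lib.MP_640417_ag.Tor.IdemL
import Pool.Agent.Lib.MP_640417_ag.Tor.Gour
import Pool.Agent.Lib.MP_640417_ag.Tor.PMB
import Pool.Agent.Lib.MP_640417_ag.Tor.Desc
import Pool.Agent.Lib.MP_640417_ag.Tor.Dens
import Pool.Agent.Lib.MP_640417_ag.Tor.Nil
import Pool.Agent.Lib.MP_640417_ag.Tor.Cent
import Pool.Agent.Lib.MP_640417_ag.Four.Detect

/-!
# One toric place: the main theorem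
-/

namespace Pool.Agent.Lib.MP_640417_ag.Tor

open Module Pool.Agent.Lib.MP_640417_ag Pool.Agent.Lib.MP_640417_ag.Frob
  Pool.Agent.Lib.MP_640417_ag.Four Pool.Agent.Lib.MP_640417_ag.Glob

/-- **Toric places decide.** -/
theorem noExotic_of_toric (hJoint : SJoint) (hCoordT : SCoordT) (l : ℕ) [Fact l.Prime] {Γ : Type}
    [Group Γ] [TopologicalSpace Γ] [IsTopologicalGroup Γ] [CompactSpace Γ] {V : Type}
    [AddCommGroup V] [Module ℚ_[l] V] [FiniteDimensional ℚ_[l] V] (ρ : H1Rep Γ ℚ_[l] V)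
    (hss : Semisimple ρ) (hsym : SymmetricCommutant ρ) (K : Type) [Field K] [Algebra ℚ_[l] K]
    [IsAlgClosed K] (h : ToricPlaces l ρ K) : NoExotic ρ := by
  have hl : ‖(l : ℚ_[l])‖ < 1 := by
    rw [Padic.norm_p]
    exact inv_lt_one_of_one_lt₀ (by exact_mod_cast (Fact.out : l.Prime).one_lt)
  have hl0 : (l : ℚ_[l]) ≠ 0 := Nat.cast_ne_zero.mpr (Fact.out : l.Prime).ne_zero
  obtain ⟨R, h1, h2, h3⟩ := exists_coord ρ (Module.finBasis ℚ_[l] V)
  have hsemi := coord_semi ρ _ R h1 hss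
  have hs := coord_symm ρ _ R h1 h3 hsym
  have hCent := pCent pDens
  have hAll := pAll (pBlock pPMB pIdem) pGour
  obtain ⟨O, -, ⟨γ, hγ⟩, hg⟩ := good_open_of_full R l hl hsemi hs
    (pFull hAll pDesc pNil hJoint hCent ℚ_[l] _ Γ R l hl hl0 hsemi hs K
      (hCoordT l Γ V ρ _ (Module.finBasis ℚ_[l] V) R h1 K h))
  have hgood := coord_good ρ _ R h1 h2 γ (hg γ hγ)
  exact noExotic_of_detects ρ hss hsym γ (hgood.isSemisimple ρ γ) (hgood.detects ρ γ)

end Pool.Agent.Lib.MP_640417_ag.Tor
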