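import Pool.Agent.Lib.MP_640417_ag.Tor.LKm
import Pool.Agent.Lib.MP_640417_ag.Tor.AllL
import Pool.Agent.Lib.MP_640417_ag.Ty.Defs
import Pool.Agent.Lib.MP_640417_ag.Ty.SpanK
import Pool.Agent.Lib.MP_640417_ag.Ty.RegK

/-!
# Toric places, without factors of type III and IV: the Lie algebra is the centralizer of the commutant
-/

namespace Pool.Agent.Lib.MP_640417_ag.Tor

open Module Matrix Pool.Agent.Lib.MP_640417_ag.Glob Pool.Agent.Lib.MP_640417_ag.Ty

section pack

variable {Γ : Type} [Group Γ] [TopologicalSpace Γ] {F : Type} [NontriviallyNormedField F]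
  {I : Type} [Fintype I] [DecidableEq I] {ρ : MRep Γ F I} {K : Type} [Field K] [Algebra F K]
  (P : Pack ρ K)

/-- The space `W` of a pack. -/
abbrev FTy_W : Type := Fin P.m ⊕ Fin P.m → K

/-- The inclusion. -/
noncomputable def FTy_i : FTy_W P →ₗ[K] (I → K) := Matrix.toLin' P.ι

/-- The projection. -/
noncomputable def FTy_p : (I → K) →ₗ[K] FTy_W P := Matrix.toLin' P.π

/-- Compression to `W`. -/
noncomputable def FTy_c : Module.End K (I → K) →ₗ[K] Module.End K (FTy_W P) where
  toFun X := FTy_p P ∘ₗ X ∘ₗ FTy_i P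
  map_add' X Y := by
    ext1 w
    rw [LinearMap.add_comp, LinearMap.comp_add]
  map_smul' c X := by
    ext1 w
    rw [LinearMap.smul_comp, LinearMap.comp_smul, RingHom.id_apply]

/-- The operators which commute with the commutant. -/
def FTy_Ctr (ρ : MRep Γ F I) (X : Module.End K (I → K)) : Prop :=
  ∀ c : Matrix I I K, InCK ρ K c → Matrix.toLin' c * X = X * Matrix.toLin' c

lemma FTy_c_apply (X : Module.End K (I → K)) (w : FTy_W P) :
    FTy_c P X w = FTy_p P (X (FTy_i P w)) := rfl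

lemma FTy_pi (w : FTy_W P) : FTy_p P (FTy_i P w) = w := by
  unfold FTy_p FTy_i
  rw [← Matrix.toLin'_mul_apply, P.πι, Matrix.toLin'_one, LinearMap.id_apply]

lemma FTy_ip (v : I → K) : FTy_i P (FTy_p P v) = Matrix.toLin' (P.ι * P.π) v := by
  unfold FTy_p FTy_i
  rw [← Matrix.toLin'_mul_apply]

variable {P}

lemma FTy_Ctr.E {X : Module.End K (I → K)} (hX : FTy_Ctr ρ X) (v : I → K) :
    X (FTy_i P (FTy_p P v)) = FTy_i P (FTy_p P (X v)) := by
  rw [FTy_ip, FTy_ip]
  exact (LinearMap.congr_fun (hX _ P.inC) v).symm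

lemma FTy_Ctr.i {X : Module.End K (I → K)} (hX : FTy_Ctr ρ X) (w : FTy_W P) :
    X (FTy_i P w) = FTy_i P (FTy_c P X w) := by
  rw [FTy_c_apply, ← hX.E, FTy_pi]

lemma FTy_Ctr.p {X : Module.End K (I → K)} (hX : FTy_Ctr ρ X) (v : I → K) :
    FTy_p P (X v) = FTy_c P X (FTy_p P v) := by
  rw [FTy_c_apply, hX.E, FTy_pi]

lemma FTy_mul {X : Module.End K (I → K)} (hX : FTy_Ctr ρ X) (Y : Module.End K (I → K)) :
    FTy_c P (X * Y) = FTy_c P X * FTy_c P Y := by
  refine LinearMap.ext fun w => ?_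
  rw [Module.End.mul_apply, FTy_c_apply P Y, ← hX.p, FTy_c_apply, Module.End.mul_apply]

lemma FTy_mul' {X Y : Module.End K (I → K)} (hY : FTy_Ctr ρ Y) :
    FTy_c P (X * Y) = FTy_c P X * FTy_c P Y := by
  refine LinearMap.ext fun w => ?_
  rw [Module.End.mul_apply, FTy_c_apply P X (FTy_c P Y w), ← hY.i, FTy_c_apply,
    Module.End.mul_apply]

lemma FTy_one : FTy_c P 1 = 1 := by
  refine LinearMap.ext fun w => ?_
  rw [FTy_c_apply, Module.End.one_apply, Module.End.one_apply, FTy_pi]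

/-- An operator which commutes with the commutant is determined by its compression. -/
lemma FTy_inj {D : Module.End K (I → K)} (hD : FTy_Ctr ρ D) (h0 : FTy_c P D = 0) : D = 0 := by
  refine LinearMap.ext fun v => ?_
  have h1 : v = ∑ j, Matrix.toLin' (P.q j) (Matrix.toLin' (P.i j) v) := by
    have h2 := congrArg (fun M : Matrix I I K => Matrix.toLin' M v) P.sum
    simp only [map_sum, LinearMap.sum_apply, Matrix.toLin'_one, LinearMap.id_apply,
      Matrix.toLin'_mul_apply] at h2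
    exact h2.symm
  have h3 : ∀ j w, D (Matrix.toLin' (P.q j) w) = 0 := by
    intro j w
    have h4 := LinearMap.congr_fun (hD _ (P.qC j)) (FTy_i P w)
    rw [Module.End.mul_apply, Module.End.mul_apply, Matrix.toLin'_mul_apply,
      Matrix.toLin'_mul_apply] at h4
    have h5 : Matrix.toLin' P.π (FTy_i P w) = w := FTy_pi P w
    have h6 : Matrix.toLin' P.π (D (FTy_i P w)) = FTy_c P D w := rfl
    rw [h5, h6, h0, LinearMap.zero_apply, map_zero] at h4
    exact h4.symm
  rw [h1, map_sum, LinearMap.zero_apply]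
  exact Finset.sum_eq_zero fun j _ => h3 j _

lemma FTy_form (x y : FTy_W P) : Matrix.toBilin' (Matrix.of (om K)) x y =
    Matrix.toBilin' (ρ.J.map (algebraMap F K)) (FTy_i P x) (FTy_i P y) := by
  rw [Matrix.toBilin'_apply', Matrix.toBilin'_apply']
  show x ⬝ᵥ _ = (P.ι *ᵥ x) ⬝ᵥ (ρ.J.map (algebraMap F K) *ᵥ (P.ι *ᵥ y))
  rw [← P.form, ← Matrix.mulVec_mulVec, ← Matrix.mulVec_mulVec, Matrix.dotProduct_mulVec x,
    Matrix.vecMul_transpose]

lemma FTy_E_adj (x y : I → K) :
    Matrix.toBilin' (ρ.J.map (algebraMap F K)) (FTy_i P (FTy_p P x)) y =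
      Matrix.toBilin' (ρ.J.map (algebraMap F K)) x (FTy_i P (FTy_p P y)) := by
  have h1 : x ⬝ᵥ (ρ.J.map (algebraMap F K) *ᵥ ((P.ι * P.π) *ᵥ y)) =
      ((P.ι * P.π) *ᵥ x) ⬝ᵥ (ρ.J.map (algebraMap F K) *ᵥ y) := by
    rw [Matrix.mulVec_mulVec y, ← P.sym, ← Matrix.mulVec_mulVec y (P.ι * P.π)ᵀ,
      Matrix.dotProduct_mulVec x, Matrix.vecMul_transpose]
  rw [FTy_ip, FTy_ip, Matrix.toBilin'_apply', Matrix.toBilin'_apply', Matrix.toLin'_apply,
    Matrix.toLin'_apply, h1]

end pack

section main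

variable {F : Type} [NontriviallyNormedField F] [IsUltrametricDist F] [CompleteSpace F]
  [CharZero F] {I : Type} [Fintype I] [DecidableEq I] {Γ : Type} [Group Γ] [TopologicalSpace Γ]
  [IsTopologicalGroup Γ] [CompactSpace Γ] (ρ : MRep Γ F I) (l : ℕ) (hl : ‖(l : F)‖ < 1)
  (hl0 : (l : F) ≠ 0) (K : Type) [Field K] [Algebra F K]

omit [IsUltrametricDist F] [CompleteSpace F] [IsTopologicalGroup Γ] [CompactSpace Γ] in
/-- What commutes with the commutant over `F` commutes with the commutant over `K`. -/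
lemma FTy_ctr_of {X : Module.End K (I → K)}
    (h : ∀ b, ρ.InC b → opK K b * X = X * opK K b) : FTy_Ctr ρ X := by
  intro c hc
  have h1 := inCK_span ρ K hc
  clear hc
  induction h1 using Submodule.span_induction with
  | mem x hx =>
    obtain ⟨b, hb, rfl⟩ := hx
    exact h b hb
  | zero => rw [map_zero, zero_mul, mul_zero]
  | add x y _ _ hx hy => rw [map_add, add_mul, mul_add, hx, hy]
  | smul r x _ hx => rw [map_smul, smul_mul_assoc, mul_smul_comm, hx]

include hl hl0 in
lemma FTy_ctr_L {X : Module.End K (I → K)} (hX : X ∈ LKm ρ l K) : FTy_Ctr ρ X :=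
  FTy_ctr_of ρ K fun _ hb => LKm_comm ρ l K hl hl0 hb X hX

include hl hl0 in
/-- What commutes with the Lie algebra is in the commutant. -/
lemma FTy_inCK (hDens : SDens) (hsemi : ρ.Semi) {c : Matrix I I K}
    (hc : ∀ X ∈ LKm ρ l K, Matrix.toLin' c * X = X * Matrix.toLin' c) : InCK ρ K c := by
  obtain ⟨U, hU⟩ := LKm_open ρ l hl hl0 hDens hsemi
  refine ⟨U, fun γ hγ => ?_⟩
  have h1 := LKm_commA ρ l K hc _ (hU γ hγ)
  apply (Matrix.toLin' : Matrix I I K ≃ₗ[K] _).injective
  rw [Matrix.toLin'_mul, Matrix.toLin'_mul]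
  exact h1.symm

include hl hl0 in
/-- Stable subspaces are the ranges of projections in the commutant. -/
lemma FTy_proj (hDens : SDens) (hsemi : ρ.Semi) (N : Submodule K (I → K))
    (hN : ∀ X ∈ LKm ρ l K, ∀ y ∈ N, X y ∈ N) :
    ∃ p : Matrix I I K, InCK ρ K p ∧ (∀ y, p *ᵥ y ∈ N) ∧ ∀ y ∈ N, p *ᵥ y = y := by
  obtain ⟨U, hU⟩ := LKm_open ρ l hl hl0 hDens hsemi
  exact proj_K ρ K hsemi U N fun γ hγ y hy => LKm_stab ρ l K hN _ (hU γ hγ) y hy

end main

/-- **The Lie algebra is the centralizer of the commutant in the symplectic Lie algebra.** -/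
theorem full_of_toric (hAll : SAll) (hDesc : SDesc) (hNil : SNil) (hDens : SDens)
    {F : Type} [NontriviallyNormedField F] [IsUltrametricDist F] [CompleteSpace F]
    [CharZero F] {I : Type} [Fintype I] [DecidableEq I] {Γ : Type} [Group Γ] [TopologicalSpace Γ]
    [IsTopologicalGroup Γ] [CompactSpace Γ] (ρ : MRep Γ F I) (l : ℕ) (hl : ‖(l : F)‖ < 1)
    (hl0 : (l : F) ≠ 0) (hsemi : ρ.Semi) (K : Type) [Field K] [Algebra F K] [IsAlgClosed K]
    (P : Pack ρ K) (htor : ∀ W : Submodule K (I → K), IrrMod (LKm ρ l K) W → ∃ γ : Γ,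
        (ρ.M γ - 1) * (ρ.M γ - 1) = 0 ∧ Toric (LKm ρ l K) W (opK K (ρ.M γ - 1)))
    (X : Matrix I I F) (hX : X ∈ spJ ρ.J) (hXC : ∀ b, ρ.InC b → X * b = b * X) :
    X ∈ ρ.Hh l := by
  classical
  have hcz : CharZero K := charZero_of_injective_algebraMap (algebraMap F K).injective
  set ψ : LinearMap.BilinForm K (I → K) := Matrix.toBilin' (ρ.J.map (algebraMap F K)) with hψ
  set ψW : LinearMap.BilinForm K (FTy_W P) := Matrix.toBilin' (Matrix.of (om K)) with hψW
  have anti : ∀ x y, ψ x y = - ψ y x := fun x y => FullL_anti (J_skew ρ) x y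
  have nd : ∀ x, (∀ y, ψ x y = 0) → x = 0 := fun x h => FullL_nd ρ.det x h
  have hform : ∀ x y, ψW x y = ψ (FTy_i P x) (FTy_i P y) := fun x y => FTy_form x y
  have hE : ∀ x y, ψ (FTy_i P (FTy_p P x)) y = ψ x (FTy_i P (FTy_p P y)) :=
    fun x y => FTy_E_adj x y
  have hψi : ∀ x z, ψ (FTy_i P x) z = ψ (FTy_i P x) (FTy_i P (FTy_p P z)) := by
    intro x z
    rw [← hE, FTy_pi]
  have antiW : ∀ x y, ψW x y = - ψW y x := fun x y => by rw [hform, hform, anti]
  have altW : ∀ x, ψW x x = 0 := by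
    intro x
    have h1 := antiW x x
    have h2 : (2 : K) * ψW x x = 0 := by linear_combination h1
    exact (mul_eq_zero.mp h2).resolve_left two_ne_zero
  have ndW : ∀ x, (∀ y, ψW x y = 0) → x = 0 := by
    intro x h
    have h1 : FTy_i P x = 0 := by
      apply nd
      intro z
      rw [hψi, ← hform]
      exact h _
    rw [← FTy_pi P x, h1, map_zero]
  have hctr : ∀ X ∈ LKm ρ l K, FTy_Ctr ρ X := fun X hX => FTy_ctr_L ρ l hl hl0 K hX
  set L' : Submodule K (Module.End K (FTy_W P)) := (LKm ρ l K).map (FTy_c P) with hL'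
  have hadjW : ∀ (Y : Module.End K (I → K)), FTy_Ctr ρ Y → ∀ x y,
      ψW (FTy_c P Y x) y = ψ (Y (FTy_i P x)) (FTy_i P y) := by
    intro Y hY x y
    rw [hform, ← hY.i]
  have hadjW' : ∀ (Y : Module.End K (I → K)), FTy_Ctr ρ Y → ∀ x y,
      ψW x (FTy_c P Y y) = ψ (FTy_i P x) (Y (FTy_i P y)) := by
    intro Y hY x y
    rw [hform, ← hY.i]
  have hlie : ∀ X ∈ L', ∀ Y ∈ L', X * Y - Y * X ∈ L' := by
    rintro _ ⟨X, hX, rfl⟩ _ ⟨Y, hY, rfl⟩
    refine ⟨X * Y - Y * X, LKm_lie ρ l K hl hl0 X hX Y hY, ?_⟩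
    rw [map_sub, FTy_mul (hctr X hX), FTy_mul (hctr Y hY)]
  have hmult : ∀ X ∈ L', ∃ c : K, ∀ x y, ψW (X x) y + ψW x (X y) = c * ψW x y := by
    rintro _ ⟨X, hX, rfl⟩
    obtain ⟨c, hc⟩ := LKm_mult ρ l K hl hl0 X hX
    refine ⟨c, fun x y => ?_⟩
    rw [hadjW X (hctr X hX), hadjW' X (hctr X hX), hform]
    exact hc _ _
  -- the blocks
  let B : Type := {b : Fin P.n // ∃ a, blk P.bl a = b}
  let dg : Fin P.n → Matrix (Fin P.m ⊕ Fin P.m) (Fin P.m ⊕ Fin P.m) K := fun b =>
    Matrix.diagonal (fun a => if blk P.bl a = b then (1 : K) else 0)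
  let p : B → Module.End K (FTy_W P) := fun b => Matrix.toLin' (dg b.1)
  have hpa : ∀ (b : B) (w : FTy_W P) a, p b w a = if blk P.bl a = b.1 then w a else 0 := by
    intro b w a
    show (dg b.1 *ᵥ w) a = _
    rw [Matrix.mulVec_diagonal]
    split_ifs <;> simp
  have hsum : ∑ b, p b = 1 := by
    refine LinearMap.ext fun w => funext fun a => ?_
    rw [LinearMap.sum_apply, Finset.sum_apply, Module.End.one_apply]
    rw [Finset.sum_eq_single (⟨blk P.bl a, a, rfl⟩ : B)]
    · rw [hpa, if_pos rfl]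
    · intro b _ hb
      rw [hpa, if_neg]
      intro h
      exact hb (Subtype.ext h.symm)
    · intro h
      exact absurd (Finset.mem_univ _) h
  have hpp : ∀ b, p b * p b = p b := by
    intro b
    refine LinearMap.ext fun w => funext fun a => ?_
    rw [Module.End.mul_apply, hpa, hpa]
    split_ifs <;> rfl
  have horth : ∀ a b, a ≠ b → p a * p b = 0 := by
    intro b b' hb
    refine LinearMap.ext fun w => funext fun a => ?_
    rw [Module.End.mul_apply, hpa, hpa, LinearMap.zero_apply, Pi.zero_apply]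
    by_cases h1 : blk P.bl a = b.1
    · rw [if_pos h1, if_neg]
      intro h2
      exact hb (Subtype.ext (h1.symm.trans h2))
    · rw [if_neg h1]
  have hp0 : ∀ b, p b ≠ 0 := by
    rintro ⟨b, a, ha⟩ h0
    have h1 := congrFun (LinearMap.congr_fun h0 (Pi.single a (1 : K))) a
    rw [hpa, if_pos ha, Pi.single_eq_same, LinearMap.zero_apply, Pi.zero_apply] at h1
    exact one_ne_zero h1
  have hbs : ∀ a : Fin P.m ⊕ Fin P.m, blk P.bl a.swap = blk P.bl a := by
    rintro (a | a) <;> rfl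
  have hadj : ∀ b x y, ψW (p b x) y = ψW x (p b y) := by
    intro b x y
    rw [hψW, Matrix.toBilin'_apply, Matrix.toBilin'_apply]
    refine Finset.sum_congr rfl fun a _ => Finset.sum_congr rfl fun a' _ => ?_
    rw [hpa, hpa, Matrix.of_apply]
    by_cases h1 : a' = a.swap
    · have h2 : blk P.bl a' = blk P.bl a := by rw [h1, hbs]
      rw [h2]
      split_ifs <;> simp
    · rw [om_swap a a' h1, mul_zero, zero_mul, mul_zero, zero_mul]
  -- the block projections come from the commutant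
  have hpc : ∀ b : B, p b = FTy_c P (Matrix.toLin' (P.ι * dg b.1 * P.π)) := by
    intro b
    refine LinearMap.ext fun w => ?_
    rw [FTy_c_apply]
    show Matrix.toLin' (dg b.1) w =
      Matrix.toLin' P.π (Matrix.toLin' (P.ι * dg b.1 * P.π) (Matrix.toLin' P.ι w))
    rw [← Matrix.toLin'_mul_apply, ← Matrix.toLin'_mul_apply]
    have h1 : P.π * (P.ι * dg b.1 * P.π) * P.ι = dg b.1 := by
      calc P.π * (P.ι * dg b.1 * P.π) * P.ι = (P.π * P.ι) * dg b.1 * (P.π * P.ι) := by
            simp only [Matrix.mul_assoc]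
        _ = _ := by rw [P.πι, Matrix.one_mul, Matrix.mul_one]
    rw [h1]
  have hcom : ∀ b, ∀ X ∈ L', p b * X = X * p b := by
    rintro b _ ⟨X, hX, rfl⟩
    rw [hpc, ← FTy_mul' (hctr X hX), ← FTy_mul (hctr X hX), hctr X hX _ (P.inCb b.1)]
  -- elements of the commutant
  have hC : ∀ c : Matrix I I K, InCK ρ K c → ∃ w : Fin P.n → K, ∀ (y : FTy_W P) a,
      FTy_c P (Matrix.toLin' c) y a = w (blk P.bl a) * y a := by
    intro c hc
    obtain ⟨w, hw⟩ := P.comm c hc
    refine ⟨w, fun y a => ?_⟩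
    rw [FTy_c_apply]
    show Matrix.toLin' P.π (Matrix.toLin' c (Matrix.toLin' P.ι y)) a = _
    rw [← Matrix.toLin'_mul_apply, ← Matrix.toLin'_mul_apply, hw, Matrix.toLin'_apply,
      Matrix.mulVec_diagonal]
  have hrange : ∀ (b : B) (y : FTy_W P), p b y = y → ∀ a, blk P.bl a ≠ b.1 → y a = 0 := by
    intro b y hy a ha
    rw [← hy, hpa, if_neg ha]
  have hstabN : ∀ N' : Submodule K (FTy_W P), (∀ X ∈ L', ∀ y ∈ N', X y ∈ N') →
      ∀ X ∈ LKm ρ l K, ∀ y ∈ N'.map (FTy_i P), X y ∈ N'.map (FTy_i P) := by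
    rintro N' hst X hX _ ⟨y, hy, rfl⟩
    exact ⟨FTy_c P X y, hst _ ⟨X, hX, rfl⟩ y hy, ((hctr X hX).i y).symm⟩
  have hirr : ∀ b, IrrMod L' (LinearMap.range (p b)) := by
    intro b
    refine ⟨fun h0 => hp0 b (LinearMap.range_eq_bot.mp h0), ?_, ?_⟩
    · rintro X hX _ ⟨y, rfl⟩
      exact ⟨X y, by rw [← Module.End.mul_apply, hcom b X hX, Module.End.mul_apply]⟩
    · intro N' hN' hst
      by_cases hbot : N' = ⊥
      · exact Or.inl hbot
      refine Or.inr (le_antisymm hN' ?_)
      obtain ⟨q, hq, hq1, hq2⟩ := FTy_proj ρ l hl hl0 K hDens hsemi _ (hstabN N' hst)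
      obtain ⟨w, hw⟩ := hC q hq
      have hpN : ∀ y ∈ LinearMap.range (p b), p b y = y := by
        rintro _ ⟨z, rfl⟩
        rw [← Module.End.mul_apply, hpp]
      -- on the block `q` is the scalar `w b`
      have hscal : ∀ y ∈ LinearMap.range (p b), FTy_c P (Matrix.toLin' q) y = w b.1 • y := by
        intro y hy
        funext a
        rw [hw, Pi.smul_apply, smul_eq_mul]
        by_cases h1 : blk P.bl a = b.1
        · rw [h1]
        · rw [hrange b y (hpN y hy) a h1, mul_zero, mul_zero]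
      have hmemN : ∀ y, FTy_c P (Matrix.toLin' q) y ∈ N' := by
        intro y
        obtain ⟨z, hz, hz2⟩ := hq1 (FTy_i P y)
        rw [FTy_c_apply, Matrix.toLin'_apply, ← hz2, FTy_pi]
        exact hz
      obtain ⟨y, hy, hy0⟩ := N'.ne_bot_iff.mp hbot
      have hw1 : w b.1 = 1 := by
        have h1 : FTy_c P (Matrix.toLin' q) y = y := by
          rw [FTy_c_apply, Matrix.toLin'_apply, hq2 _ ⟨y, hy, rfl⟩, FTy_pi]
        rw [hscal y (hN' hy)] at h1
        have h2 : (w b.1 - 1) • y = 0 := by rw [sub_smul, h1, one_smul, sub_self]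
        exact sub_eq_zero.mp ((smul_eq_zero.mp h2).resolve_right hy0)
      intro z hz
      have h1 := hmemN z
      rwa [hscal z hz, hw1, one_smul] at h1
  have hcross : ∀ a b, a ≠ b → ∀ c : Module.End K (FTy_W P), (∀ X ∈ L', c * X = X * c) →
      p a * c * p b = 0 := by
    intro a b hab c hc
    let c0 : Module.End K (I → K) := FTy_i P ∘ₗ c ∘ₗ FTy_p P
    have hc0 : ∀ X ∈ LKm ρ l K, Matrix.toLin' (LinearMap.toMatrix' c0) * X =
        X * Matrix.toLin' (LinearMap.toMatrix' c0) := by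
      intro X hX
      rw [Matrix.toLin'_toMatrix']
      refine LinearMap.ext fun v => ?_
      show FTy_i P (c (FTy_p P (X v))) = X (FTy_i P (c (FTy_p P v)))
      rw [(hctr X hX).p, (hctr X hX).i]
      congr 1
      exact LinearMap.congr_fun (hc _ ⟨X, hX, rfl⟩) (FTy_p P v)
    obtain ⟨w, hw⟩ := hC _ (FTy_inCK ρ l hl hl0 K hDens hsemi hc0)
    rw [Matrix.toLin'_toMatrix'] at hw
    have hcw : ∀ y e, c y e = w (blk P.bl e) * y e := by
      intro y e
      rw [← hw, FTy_c_apply]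
      show _ = FTy_p P (FTy_i P (c (FTy_p P (FTy_i P y)))) e
      rw [FTy_pi, FTy_pi]
    refine LinearMap.ext fun y => funext fun e => ?_
    rw [Module.End.mul_apply, Module.End.mul_apply, hpa, hcw, hpa, LinearMap.zero_apply,
      Pi.zero_apply]
    by_cases h1 : blk P.bl e = a.1
    · rw [if_pos h1, if_neg, mul_zero]
      intro h2
      exact hab (Subtype.ext (h1.symm.trans h2))
    · rw [if_neg h1]
  -- the toric places
  have htor' : ∀ b, ∃ N ∈ L', N * N = 0 ∧ Skew ψW N ∧ Toric L' (LinearMap.range (p b)) N := by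
    intro b
    have hirrN : IrrMod (LKm ρ l K) ((LinearMap.range (p b)).map (FTy_i P)) := by
      refine ⟨?_, hstabN _ (hirr b).2.1, ?_⟩
      · intro h0
        apply (hirr b).1
        rw [eq_bot_iff]
        intro y hy
        have h1 : FTy_i P y ∈ (LinearMap.range (p b)).map (FTy_i P) := ⟨y, hy, rfl⟩
        rw [h0, Submodule.mem_bot] at h1
        rw [Submodule.mem_bot, ← FTy_pi P y, h1, map_zero]
      · intro N hN hst
        have hNi : ∀ y ∈ N, FTy_i P (FTy_p P y) = y := by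
          intro y hy
          obtain ⟨z, hz, rfl⟩ := hN hy
          rw [FTy_pi]
        have hle : N.map (FTy_p P) ≤ LinearMap.range (p b) := by
          rintro _ ⟨y, hy, rfl⟩
          obtain ⟨z, hz, rfl⟩ := hN hy
          rw [FTy_pi]
          exact hz
        have hst' : ∀ X ∈ L', ∀ y ∈ N.map (FTy_p P), X y ∈ N.map (FTy_p P) := by
          rintro _ ⟨X, hX, rfl⟩ _ ⟨y, hy, rfl⟩
          exact ⟨X y, hst X hX y hy, (hctr X hX).p y⟩
        have hback : N = (N.map (FTy_p P)).map (FTy_i P) := by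
          apply le_antisymm
          · intro y hy
            exact ⟨FTy_p P y, ⟨y, hy, rfl⟩, hNi y hy⟩
          · rintro _ ⟨_, ⟨y, hy, rfl⟩, rfl⟩
            rw [hNi y hy]
            exact hy
        rcases (hirr b).2.2 _ hle hst' with h | h
        · left
          rw [hback, h, Submodule.map_bot]
        · right
          rw [hback, h]
    obtain ⟨γ, h1, h2⟩ := htor _ hirrN
    obtain ⟨h3, h4⟩ := hNil F I Γ ρ l hl hl0 γ h1
    have hNL : opK K (ρ.M γ - 1) ∈ LKm ρ l K := LKm_mem ρ l K h3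
    have hNc := hctr _ hNL
    have hfr : ∀ W' : Submodule K (FTy_W P),
        finrank K (W'.map (FTy_i P)) = finrank K W' := by
      intro W'
      refine LinearEquiv.finrank_eq (Submodule.equivMapOfInjective (FTy_i P) ?_ W').symm
      intro x y hxy
      rw [← FTy_pi P x, hxy, FTy_pi]
    have hmapN : ((LinearMap.range (p b)).map (FTy_i P)).map (opK K (ρ.M γ - 1)) =
        ((LinearMap.range (p b)).map (FTy_c P (opK K (ρ.M γ - 1)))).map (FTy_i P) := by
      rw [← Submodule.map_comp, ← Submodule.map_comp]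
      congr 1
      exact LinearMap.ext fun y => hNc.i y
    refine ⟨FTy_c P (opK K (ρ.M γ - 1)), ⟨_, hNL, rfl⟩, ?_, ?_, ?_⟩
    · rw [← FTy_mul hNc, ← opK_mul, h1, opK_zero, map_zero]
    · intro x y
      rw [hadjW _ hNc, hadjW' _ hNc]
      exact FullL_skew h4 _ _
    · have hinj : ∀ t ∈ LKm ρ l K, FTy_c P t = 0 → t = 0 := fun t ht h => FTy_inj (hctr t ht) h
      unfold Toric at h2 ⊢
      rw [hmapN, hfr, hfr] at h2
      rcases h2 with h | ⟨h, t, ht, htt, ht0, ht1⟩ | ⟨h, hgen⟩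
      · exact Or.inl h
      · refine Or.inr (Or.inl ⟨h, FTy_c P t, ⟨t, ht, rfl⟩, ?_, fun h0 => ht0 (hinj t ht h0), ?_⟩)
        · rw [← FTy_mul (hctr t ht), htt]
        · intro h0
          apply ht1
          rw [← sub_eq_zero]
          apply FTy_inj (P := P)
          · intro c hc
            rw [mul_sub, sub_mul, hctr t ht c hc, mul_one, one_mul]
          · rw [map_sub, h0, FTy_one, sub_self]
      · refine Or.inr (Or.inr ⟨h, fun a ha halie haid => le_antisymm ha ?_⟩)
        let a' : Submodule K (Module.End K (I → K)) := LKm ρ l K ⊓ a.comap (FTy_c P)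
        have ha' : a' = LKm ρ l K := by
          refine hgen a' inf_le_left ?_ ?_
          · rintro X hX Y ⟨hY, hYa⟩
            refine ⟨LKm_lie ρ l K hl hl0 X hX Y hY, ?_⟩
            show FTy_c P (X * Y - Y * X) ∈ a
            rw [map_sub, FTy_mul (hctr X hX), FTy_mul (hctr Y hY)]
            exact halie _ ⟨X, hX, rfl⟩ _ hYa
          · intro t ht htt
            refine ⟨ht, ?_⟩
            show FTy_c P t ∈ a
            refine haid _ ⟨t, ht, rfl⟩ ?_
            rw [← FTy_mul (hctr t ht), htt]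
        rintro _ ⟨X, hX, rfl⟩
        have h5 : X ∈ a' := by rw [ha']; exact hX
        exact h5.2
  -- the conclusion
  have hXctr : FTy_Ctr ρ (opK K X) := FTy_ctr_of ρ K fun b hb => by
    rw [← opK_mul, ← opK_mul, hXC b hb]
  have hXs : Skew ψW (FTy_c P (opK K X)) := by
    intro x y
    rw [hadjW _ hXctr, hadjW' _ hXctr]
    exact FullL_skew hX _ _
  have hXp : ∀ b, p b * FTy_c P (opK K X) = FTy_c P (opK K X) * p b := by
    intro b
    rw [hpc, ← FTy_mul' hXctr, ← FTy_mul hXctr, hXctr _ (P.inCb b.1)]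
  obtain ⟨-, s, A, hA, hAs⟩ := hAll K (FTy_W P) ψW altW antiW ndW L' hlie hmult B p hsum hpp hp0
    horth hadj hcom hirr hcross htor' (FTy_c P (opK K X)) hXs hXp
  have hAX : A = opK K X + s • (1 : Module.End K (I → K)) := by
    rw [← sub_eq_zero]
    apply FTy_inj (P := P)
    · intro c hc
      rw [mul_sub, sub_mul, mul_add, add_mul, hctr A hA c hc, hXctr c hc, mul_smul_comm,
        smul_mul_assoc, mul_one, one_mul]
    · rw [map_sub, map_add, map_smul, FTy_one, hAs, sub_self]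
  rw [hAX] at hA
  exact LKm_desc ρ l K hDesc hX hA

end Pool.Agent.Lib.MP_640417_ag.Tor
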