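import Pool.Agent.Lib.MP_640417_ag.Tor.SpecL
import Pool.Agent.Lib.MP_640417_ag.Glob.Main

/-!
# One toric place: the blocks of the commutant
-/

namespace Pool.Agent.Lib.MP_640417_ag.Tor

open Module Matrix Pool.Agent.Lib.MP_640417_ag.Glob

/-- Joint eigenspaces of commuting diagonalizable self-adjoint operators. -/
theorem Joint_main {K V : Type} [Field K] [AddCommGroup V] [Module K V] [FiniteDimensional K V]
    (form : LinearMap.BilinForm K V) {S : Type} (f : S → Module.End K V)
    (hcomm : ∀ s t, Commute (f s) (f t)) (hsym : ∀ s x y, form (f s x) y = form x (f s y))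
    (hd : ∀ s, ⨆ t : K, Module.End.eigenspace (f s) t = ⊤) :
    ∃ (B : Type) (_ : Fintype B) (_ : DecidableEq B) (p : B → Module.End K V),
      ∑ b, p b = 1 ∧ (∀ b, p b * p b = p b) ∧ (∀ b, p b ≠ 0) ∧
      (∀ a b, a ≠ b → p a * p b = 0) ∧ (∀ b x y, form (p b x) y = form x (p b y)) ∧
      ∀ X : Module.End K V, (∀ b, p b * X = X * p b) ↔ ∀ s, f s * X = X * f s := by
  classical
  let E : (S → K) → Submodule K V := fun χ => ⨅ s, (f s).maxGenEigenspace (χ s)
  have hmaps : ∀ i j φ, Set.MapsTo (f i) ((f j).maxGenEigenspace φ) ((f j).maxGenEigenspace φ) :=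
    fun i j φ => Module.End.mapsTo_maxGenEigenspace_of_comm (hcomm j i) φ
  have hind : iSupIndep E := Module.End.independent_iInf_maxGenEigenspace_of_forall_mapsTo f hmaps
  have htopm : ∀ s, ⨆ t, (f s).maxGenEigenspace t = ⊤ := by
    intro s
    rw [eq_top_iff, ← hd s]
    exact iSup_mono fun t => Module.End.eigenspace_le_maxGenEigenspace
  have htop : ⨆ χ, E χ = ⊤ :=
    Module.End.iSup_iInf_maxGenEigenspace_eq_top_of_forall_mapsTo f hmaps htopm
  have heig : ∀ χ, ∀ x ∈ E χ, ∀ s : S, f s x = χ s • x := by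
    intro χ x hx s
    have h1 : x ∈ (f s).maxGenEigenspace (χ s) := (Submodule.mem_iInf _).mp hx s
    have h2 : (f s).maxGenEigenspace (χ s) ≤ (f s).eigenspace (χ s) :=
      eq_of_indep (a := fun t => (f s).eigenspace t) (b := fun t => (f s).maxGenEigenspace t)
        (fun t => Module.End.eigenspace_le_maxGenEigenspace)
        (Module.End.independent_maxGenEigenspace (f s)) (hd s) (χ s)
    exact Module.End.mem_eigenspace_iff.mp (h2 h1)
  have hmem : ∀ χ x, (∀ s, f s x = χ s • x) → x ∈ E χ := by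
    intro χ x hx
    refine (Submodule.mem_iInf _).mpr fun s => ?_
    exact Module.End.eigenspace_le_maxGenEigenspace (Module.End.mem_eigenspace_iff.mpr (hx s))
  have hfin : Finite {χ : S → K // E χ ≠ ⊥} := WellFoundedGT.finite_ne_bot_of_iSupIndep hind
  have iF : Fintype {χ : S → K // E χ ≠ ⊥} := Fintype.ofFinite _
  have htop' : ⨆ b : {χ : S → K // E χ ≠ ⊥}, E b.1 = ⊤ := by
    rw [eq_top_iff, ← htop]
    refine iSup_le fun χ => ?_
    by_cases hχ : E χ = ⊥
    · rw [hχ]
      exact bot_le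
    · exact le_iSup (fun b : {χ : S → K // E χ ≠ ⊥} => E b.1) ⟨χ, hχ⟩
  have hind' : iSupIndep (fun b : {χ : S → K // E χ ≠ ⊥} => E b.1) :=
    hind.comp Subtype.val_injective
  obtain ⟨p, hp1, hp2, hp3, hp4, hp5⟩ := joint_proj form (fun b : {χ : S → K // E χ ≠ ⊥} => E b.1)
    hind' htop' (by
      intro a b hab x hx y hy
      obtain ⟨s, hs'⟩ : ∃ s, a.1 s ≠ b.1 s := by
        by_contra hcon
        push Not at hcon
        exact hab (Subtype.ext (funext hcon))
      have h1 := hsym s x y
      rw [heig a.1 x hx s, heig b.1 y hy s, map_smul, map_smul, LinearMap.smul_apply, smul_eq_mul,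
        smul_eq_mul, ← sub_eq_zero, ← sub_mul] at h1
      exact (mul_eq_zero.mp h1).resolve_left (sub_ne_zero.mpr hs'))
  have hsum : ∀ x, ∑ b, p b x = x := by
    intro x
    have h1 := LinearMap.congr_fun hp2 x
    rwa [LinearMap.sum_apply, Module.End.one_apply] at h1
  have hid : ∀ b : {χ : S → K // E χ ≠ ⊥}, ∀ x ∈ E b.1, p b x = x := by
    intro b x hx
    have h1 : x - p b x ∈ E b.1 := (E b.1).sub_mem hx (hp1 b x)
    have h2 : x - p b x ∈ ⨆ (j : {χ : S → K // E χ ≠ ⊥}) (_ : j ≠ b), E j.1 := by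
      have h3 : x - p b x = ∑ j ∈ Finset.univ.erase b, p j x := by
        have h5 := hsum x
        rw [← Finset.sum_erase_add Finset.univ (fun j => p j x) (Finset.mem_univ b)] at h5
        rw [sub_eq_iff_eq_add]
        exact h5.symm
      rw [h3]
      refine Submodule.sum_mem _ fun j hj => ?_
      exact (le_iSup₂ (f := fun (j : {χ : S → K // E χ ≠ ⊥}) (_ : j ≠ b) => E j.1) j
        (Finset.ne_of_mem_erase hj)) (hp1 j x)
    have h4 := (Submodule.disjoint_def.mp (hind' b)) _ h1 h2
    exact (sub_eq_zero.mp h4).symm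
  refine ⟨{χ : S → K // E χ ≠ ⊥}, iF, inferInstance, p, hp2, hp3, ?_, hp4, hp5, fun X => ?_⟩
  · intro b hb
    obtain ⟨x, hx, hx0⟩ := (Submodule.ne_bot_iff _).mp b.2
    apply hx0
    rw [← hid b x hx, hb, LinearMap.zero_apply]
  · constructor
    · intro hX s
      refine LinearMap.ext fun x => ?_
      have h1 : ∀ y, f s y = ∑ b, b.1 s • p b y := by
        intro y
        conv_lhs => rw [← hsum y]
        rw [map_sum]
        exact Finset.sum_congr rfl fun b _ => heig b.1 _ (hp1 b y) s
      rw [Module.End.mul_apply, Module.End.mul_apply, h1, h1, map_sum]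
      refine Finset.sum_congr rfl fun b _ => ?_
      rw [map_smul]
      congr 1
      exact LinearMap.congr_fun (hX b) x
    · intro hX b
      have hE : ∀ j : {χ : S → K // E χ ≠ ⊥}, ∀ x ∈ E j.1, X x ∈ E j.1 := by
        intro j x hx
        refine hmem _ _ fun s => ?_
        have h1 := LinearMap.congr_fun (hX s) x
        rw [Module.End.mul_apply, Module.End.mul_apply, heig j.1 x hx s, map_smul] at h1
        exact h1
      refine LinearMap.ext fun x => ?_
      rw [Module.End.mul_apply, Module.End.mul_apply]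
      have h1 : X x = ∑ j, X (p j x) := by
        conv_lhs => rw [← hsum x]
        rw [map_sum]
      rw [h1, map_sum, Finset.sum_eq_single b]
      · exact hid b _ (hE b _ (hp1 b x))
      · intro j _ hj
        have h2 : X (p j x) = p j (X (p j x)) := (hid j _ (hE j _ (hp1 j x))).symm
        rw [h2]
        exact LinearMap.congr_fun (hp4 b j (Ne.symm hj)) _
      · intro h
        exact absurd (Finset.mem_univ b) h

theorem pJoint : SJoint := by
  intro F _ _ _ _ I _ _ Γ _ _ _ ρ hsemi hs K _ _ _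
  let C := cAlg ρ
  have hmap : ∀ c : C, opK K c.1 = Matrix.toLin' (c.1.map (algebraMap F K)) := fun c => rfl
  have hop : ∀ a b : Matrix I I F, opK K (a * b) = opK K a * opK K b := by
    intro a b
    unfold opK
    rw [Matrix.map_mul, Matrix.toLin'_mul]
    rfl
  obtain ⟨B, iB, iD, p, h1, h2, h3, h4, h5, h6⟩ := Joint_main
    (Matrix.toBilin' (ρ.J.map (algebraMap F K))) (fun c : C => opK K c.1) (by
      intro a b
      show opK K a.1 * opK K b.1 = opK K b.1 * opK K a.1
      rw [← hop, ← hop, inC_comm ρ hs a.2 b.2]) (by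
      intro a x y
      rw [Matrix.toBilin'_apply', Matrix.toBilin'_apply']
      show (a.1.map (algebraMap F K) *ᵥ x) ⬝ᵥ ρ.J.map (algebraMap F K) *ᵥ y =
        x ⬝ᵥ ρ.J.map (algebraMap F K) *ᵥ (a.1.map (algebraMap F K) *ᵥ y)
      have h0 : a.1ᵀ.map (algebraMap F K) * ρ.J.map (algebraMap F K) =
          ρ.J.map (algebraMap F K) * a.1.map (algebraMap F K) := by
        rw [← Matrix.map_mul, ← Matrix.map_mul, hs a.1 a.2]
      rw [Matrix.mulVec_mulVec, ← h0, ← Matrix.mulVec_mulVec, Matrix.transpose_map,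
        Matrix.dotProduct_mulVec x (a.1.map (algebraMap F K))ᵀ, Matrix.vecMul_transpose]) (by
      intro a
      exact ss_of_red (cAlg ρ) (fun b hb hn => inC_red ρ hsemi hs hb hn) K a.1 a.2)
  exact ⟨B, iB, iD, p, h1, h2, h3, h4, h5, fun X => (h6 X).trans
    ⟨fun h c hc => h ⟨c, hc⟩, fun h c => h c.1 c.2⟩⟩

end Pool.Agent.Lib.MP_640417_ag.Tor
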