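import Pool.Agent.Lib.MP_640417_ag.Tor.Defs

/-!
# One toric place: statements of the independent modules, with proofs

Every statement is a proposition `SName`. The module `Tor/Name.lean` proves `pName : SName`, or, if
the docstring names other statements, `pName` takes these as hypotheses. The basic identities for
`Sl`, `G1` are in `Tor/Base.lean`. Throughout `p = e f`, `q = f e`, `z = 1 - p - q`, `[X, Y] = X Y - Y X`,
`h = [e, f] = p - q`.

The only facts about operators which are used all the time: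
* `[X, [X, Y]] = - 2 X Y X` if `X X = 0` (`sandwich_eq`, `sandwich_mem`, `sandwich_mem_idl`),
* `g` consists of skew operators, so their traces vanish,
* Schur: an operator which commutes with `g` is a scalar (an eigenspace is `g`-stable).
-/

namespace Pool.Agent.Lib.MP_640417_ag.Tor

open Module

/-- **The trace form is nondegenerate on every ideal.**
Proof. Let `R = {X ∈ a | tr (X Y) = 0 for all Y ∈ a}`; it is an ideal of `g`
(`tr ([Z, X] Y) = - tr (X [Z, Y])`). By Cartan's criterion
(`LieModule.isNilpotent_derivedSeries_of_traceForm_eq_zero`, for the Lie algebra `R` acting on `V`)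
`[R, R]` acts nilpotently on `V`; the space of the vectors killed by `[R, R]` is nonzero (Engel:
`LieModule.IsNilpotent` for `[R, R]` acting on `V` gives that the maximal trivial submodule is nonzero)
and `g`-stable, because `[R, R]` is an ideal of `g`; so it is `V` and `[R, R] = 0`. So `R` is
an abelian ideal of `g`, and `g` has trivial radical by
`LieAlgebra.hasTrivialRadical_of_isIrreducible_of_isFaithful` (traces of skew operators vanish).
(Or directly: `R` is a commuting family of operators, it has a common eigenvector `v` with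
`X v = χ(X) v`; the weight space of `χ` is `g`-stable (`weightSpaceOfIsLieTower`), so `X = χ(X)`, and
`tr X = 0` gives `X = 0`.) -/
def STr : Prop :=
  ∀ (K V : Type) [Field K] [IsAlgClosed K] [CharZero K] [AddCommGroup V] [Module K V]
    [FiniteDimensional K V] [Nontrivial V] (ψ : LinearMap.BilinForm K V)
    (g : Submodule K (Module.End K V)), Dat ψ g → ∀ a, Idl g a →
    ∀ X ∈ a, (∀ Y ∈ a, tr (X * Y) = 0) → X = 0

/-- **Decomposition along an ideal** (from `STr`).
Proof. The functional `A ↦ tr (X A)` on `a` is `A ↦ tr (X₁ A)` for some `X₁ ∈ a`, because the trace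
form on `a` is nondegenerate (`STr`; an injective map `a → Dual a` is surjective). `X₂ = X - X₁`. For
`A ∈ a` the element `Z = [X₂, A]` of `a` satisfies `tr (Z B) = tr (X₂ [A, B]) = 0` for all `B ∈ a`
since `tr (X₂ B') = 0` for `B' ∈ a`; so `Z = 0` by `STr`. -/
def SDec : Prop :=
  ∀ (K V : Type) [Field K] [IsAlgClosed K] [CharZero K] [AddCommGroup V] [Module K V]
    [FiniteDimensional K V] [Nontrivial V] (ψ : LinearMap.BilinForm K V)
    (g : Submodule K (Module.End K V)), Dat ψ g → ∀ a, Idl g a →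
    ∀ X ∈ g, ∃ X₁ ∈ a, ∃ X₂ ∈ g, X = X₁ + X₂ ∧ ∀ A ∈ a, X₂ * A = A * X₂

/-- **No zero divisors across an ideal** (from `SDec`).
Proof. Let `S` be the subalgebra generated by `a` (`Algebra.adjoin K a`). `B` commutes with `S`. Let
`J = {v | A α v = 0 for all α ∈ S}`. It is stable under `a`, and under every `C` which commutes
with `a` (then `C` commutes with `S`, and with `A`), so under `g` by `SDec`. It contains the range
of `B`: `A α B v = A B α v = 0`. `J = V` would give `A = 0` (`α = 1`); so `J = 0` and `B = 0`. -/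
def SZero : Prop :=
  ∀ (K V : Type) [Field K] [IsAlgClosed K] [CharZero K] [AddCommGroup V] [Module K V]
    [FiniteDimensional K V] [Nontrivial V] (ψ : LinearMap.BilinForm K V)
    (g : Submodule K (Module.End K V)), Dat ψ g → ∀ a, Idl g a →
    ∀ A ∈ a, A ≠ 0 → ∀ B : Module.End K V, (∀ Y ∈ a, B * Y = Y * B) → A * B = 0 → B = 0

/-- **A square-zero element lies in an ideal or commutes with it** (from `SDec`, `SZero`).
Proof. `N = n + n'` with `n ∈ a`, `n' ∈ g` commuting with `a` (`SDec`). Let `b` be the space of the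
elements of `g` commuting with `a`; it is an ideal, and `g = a + b`. For `X ∈ a`:
`0 = [N N, X] = N [N, X] + [N, X] N` and `[N, X] = [n, X] ∈ a` (as `[n', X] = 0`). Bracket with
`Y ∈ b`: as `[[n, X], Y] = 0`, `0 = [N, Y] [n, X] + [n, X] [N, Y]`, and `[N, Y] = [n', Y] ∈ b` commutes
with `[n, X]`, so `[n, X] [n', Y] = 0`. By `SZero`: either `[n, X] = 0` for all `X ∈ a`, or
`[n', Y] = 0` for all `Y ∈ b`. In the first case `n` commutes with `a` and with `b` (as `n ∈ a`), so
with `g`, so it is a scalar (Schur), of trace `0` (skew), so `n = 0` and `N = n'`. In the second case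
`n'` commutes with `a` and `b`, so `n' = 0` and `N = n ∈ a`. -/
def SSq : Prop :=
  ∀ (K V : Type) [Field K] [IsAlgClosed K] [CharZero K] [AddCommGroup V] [Module K V]
    [FiniteDimensional K V] [Nontrivial V] (ψ : LinearMap.BilinForm K V)
    (g : Submodule K (Module.End K V)), Dat ψ g → ∀ N ∈ g, N * N = 0 → ∀ a, Idl g a →
    N ∈ a ∨ ∀ A ∈ a, N * A = A * N

/-- **A square-zero element lies in an `sl₂`** (from `STr`).
Proof. (1) There is `X ∈ g` with `N X N = N`: the map `φ(X) = N X N` maps `g` to `g`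
(`sandwich_mem`) and is self-adjoint for the trace form, which is nondegenerate on `g` (`STr` with
`a = g`); so its range is the orthogonal space of its kernel, and `Z ∈ ker φ` gives
`(N Z)² = N Z N Z = 0`, so `tr (N Z) = 0`. (2) Put `P = N X`, `Q = X N`: `P P = P`, `Q Q = Q`,
`Q P = 0` and `H = P - Q = [N, X] ∈ g` satisfies `H H = P - P Q + Q`, `H H H = H`; let
`E₁ = (H H + H) / 2`, `E₂ = (H H - H) / 2`, `E₀ = 1 - H H`: orthogonal idempotents with
`E₁ + E₀ + E₂ = 1`, `H = E₁ - E₂`, `N = E₁ N E₂` (as `[H, N] = 2 N`). With `D = [H, ·]`, which acts on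
`E_i X E_j` by the difference of the eigenvalues (in `-2, ..., 2`),
`f₀ := E₂ X E₁ = (1/24) (D⁴ - 2 D³ - D² + 2 D) X ∈ g`. Then `f₀ f₀ = 0` and
`N f₀ N = E₁ N E₂ X E₁ N E₂ = N X N = N`. (3) `f := f₀ N f₀ ∈ g` (`sandwich_mem`): `f f = 0`,
`N f N = N`, `f N f = f`. -/
def SSl : Prop :=
  ∀ (K V : Type) [Field K] [IsAlgClosed K] [CharZero K] [AddCommGroup V] [Module K V]
    [FiniteDimensional K V] [Nontrivial V] (ψ : LinearMap.BilinForm K V)
    (g : Submodule K (Module.End K V)), Dat ψ g → ∀ N ∈ g, N * N = 0 → ∃ f, Sl g N f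

/-- **The constant of a primitive element.**
Proof. Let `e X e = c e`. If `c = 0` then `(e X)² = 0`, so `tr (e X) = 0`. Otherwise
`c⁻¹ e X` is idempotent, with the same range as `e`, so its trace is `rk e`. -/
def SPrimTr : Prop :=
  ∀ (K V : Type) [Field K] [CharZero K] [AddCommGroup V] [Module K V] [FiniteDimensional K V]
    (g : Submodule K (Module.End K V)) (e : Module.End K V), Prm g e →
    ∀ X ∈ g, (rk e : K) • (e * X * e) = tr (e * X) • e

/-- **Converse** (from `STr`, `SPrimTr`).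
Proof. There is `X ∈ g` with `tr (y X) ≠ 0` (`STr` with `a = g`), so `r ≠ 0` in `K`, and `y` is
primitive. By `SPrimTr`, `(rk y) y X y = tr (y X) y = r y X y`, and `y X y ≠ 0`. -/
def SPrimConv : Prop :=
  ∀ (K V : Type) [Field K] [IsAlgClosed K] [CharZero K] [AddCommGroup V] [Module K V]
    [FiniteDimensional K V] [Nontrivial V] (ψ : LinearMap.BilinForm K V)
    (g : Submodule K (Module.End K V)), Dat ψ g → ∀ y ∈ g, y ≠ 0 → y * y = 0 → ∀ r : ℕ,
    (∀ X ∈ g, (r : K) • (y * X * y) = tr (y * X) • y) → Prm g y ∧ rk y = r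

/-- **Operators on the range of an idempotent over an algebraically closed field:** a scalar plus a
nilpotent, or some polynomial in it gives a nontrivial idempotent.
Proof. Let `M ≠ 0` be the range of `q` and `α` the restriction of `a` to `M`; `P(a) m = P(α) m` for
`m ∈ M`, so it is enough to find a polynomial `P` with `P(α)` idempotent, not `0`, not `1`, or
`c` with `α - c` nilpotent. If `α` has two different eigenvalues:
`minpoly α = (x - c)^k m` with `m(c) ≠ 0` and `m` of positive degree; Bezout: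
`u m + v (x - c)^k = 1`, `P = u m`; `P(α)` is idempotent, neither `0` nor `1`. Otherwise
`minpoly α = (x - c)^k`. -/
def SPoly : Prop :=
  ∀ (K V : Type) [Field K] [IsAlgClosed K] [AddCommGroup V] [Module K V] [FiniteDimensional K V]
    (q a : Module.End K V), q * q = q → q ≠ 0 → q * a = a → a * q = a →
    (∃ P : Polynomial K, (Polynomial.aeval a P * q) * (Polynomial.aeval a P * q) =
      Polynomial.aeval a P * q ∧ Polynomial.aeval a P * q ≠ 0 ∧ Polynomial.aeval a P * q ≠ q) ∨
    ∃ c : K, IsNilpotent (a - c • q)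

/-- **Splitting of a square-zero element which is not primitive** (from `STr`, `SSl`, `SPoly`).
Proof. Take `f` with `Sl g N f` (`SSl`), `q = f N`, `M` the range of `q`; `N` is injective on `M` and
`N = N q`, so `rk (N B) = rk B` for `B = q B`. For `X ∈ g` put `a = f N X N` (`a = q a q`), and
`N a = N X N`.
(1) `N a^k ∈ g` for all `k` (with `a⁰ = 1`), and `N a^k` is in every ideal which contains `N`: for
`k = 1` it is `N X N` (`sandwich_mem`). If `A = N a^i`, `B = N a^j` are in `g` (in the ideal), then, as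
`a N = 0`, `N N = 0`: `A B = B A = 0`, `A f B = B f A = N a^(i+j)`, so
`[A, [B, f]] = A B f - A f B - B f A + f B A = -2 N a^(i+j)`. So `N P(a) ∈ g` for all polynomials `P`.
(2) If for some `X` there is a polynomial `P` with `π = P(a) q` idempotent, `π ≠ 0`, `π ≠ q`:
`N₁ = N P(a)`, `N₂ = N - N₁` are as wanted: `N P(a) (1 - q) = P(0) N (1 - q) = 0` (`a (1 - q) = 0`), so
`N₁ = N π`, `π = q π q`, `rk N₁ = rk π`, `rk N₂ = rk (q - π)`, `rk π + rk (q - π) = rk q = rk N`
(ranks of orthogonal idempotents: traces); `N₁ N₁ = 0` as `P(a) N = P(0) N`.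
(3) Otherwise (`SPoly`) for every `X ∈ g` some `f N X N - c q` is nilpotent. As `N` is not primitive there is `X` with `N X N ∉ K N`; let `c` be the scalar for `X`,
`X' = X - c f`, `n = f N X' N` (`N X' N = N X N - c N`, `n` nilpotent), `N X' N = N n ≠ 0`. By `STr`
there is `Z ∈ g` with `tr (N X' N Z) ≠ 0`. Let `m = f N Z N = d q + n'` with `n' = q n' q` nilpotent.
`tr (N X' N Z) = tr (N n Z) = tr (n Z N) = tr (n q Z N) = tr (n m) = tr (n n')` (`tr n = 0`). For every
`s ∈ K` the element `n + s m` (it belongs to `X' + s Z`) is a multiple of `q` plus a nilpotent; so is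
`n + s n'`, which has trace `0`, so `n + s n'` is nilpotent (`tr q ≠ 0`), and
`0 = tr ((n + s n')²) = 2 s tr (n n')`: a contradiction for `s = 1`. -/
def SSplit : Prop :=
  ∀ (K V : Type) [Field K] [IsAlgClosed K] [CharZero K] [AddCommGroup V] [Module K V]
    [FiniteDimensional K V] [Nontrivial V] (ψ : LinearMap.BilinForm K V)
    (g : Submodule K (Module.End K V)), Dat ψ g → ∀ N ∈ g, N * N = 0 → N ≠ 0 → ¬ Prm g N →
    ∃ N₁ ∈ g, ∃ N₂ ∈ g, N₁ ≠ 0 ∧ N₂ ≠ 0 ∧ N₁ * N₁ = 0 ∧ N₂ * N₂ = 0 ∧ N = N₁ + N₂ ∧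
      rk N = rk N₁ + rk N₂ ∧ ∀ a, Idl g a → N ∈ a → N₁ ∈ a ∧ N₂ ∈ a

/-- **A primitive element of odd rank** (from `SSplit`).
Proof. Strong induction on `rk N`: if `N` is not primitive, split it; one of `N₁`, `N₂` has odd rank,
and smaller rank (as both are nonzero). -/
def SOdd : Prop :=
  ∀ (K V : Type) [Field K] [IsAlgClosed K] [CharZero K] [AddCommGroup V] [Module K V]
    [FiniteDimensional K V] [Nontrivial V] (ψ : LinearMap.BilinForm K V)
    (g : Submodule K (Module.End K V)), Dat ψ g → ∀ N ∈ g, N * N = 0 → Odd (rk N) →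
    ∃ e, Prm g e ∧ Odd (rk e) ∧ ∀ a, Idl g a → N ∈ a → e ∈ a

/-- **Parity.** A skew operator which commutes with a skew operator `t` with `t² = 1/4` has even rank.
Proof. `P = 1/2 + t`, `Q = 1/2 - t` are idempotents with `P + Q = 1`, `P Q = 0`, commuting with `e`,
and `Q` is the adjoint of `P`. `rk e = rk (e P) + rk (e Q)`, and `e Q = Q e = - (e P)^*` has the
rank of `e P` (the adjoint `A^*`, `ψ (A x) y = ψ x (A^* y)`, has the rank of `A`: it is conjugate by
`ψ : V ≃ Dual V` to the dual map of `A`). -/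
def SPar : Prop :=
  ∀ (K V : Type) [Field K] [CharZero K] [AddCommGroup V] [Module K V] [FiniteDimensional K V]
    (ψ : LinearMap.BilinForm K V), (∀ x, ψ x x = 0) → (∀ x, (∀ y, ψ x y = 0) → x = 0) →
    ∀ t e : Module.End K V, Skew ψ t → t * t = (1 / 4 : K) • (1 : Module.End K V) → Skew ψ e →
    t * e = e * t → Even (rk e)

/-- **Adapted primitive elements** (from `SPrimTr`, `SPrimConv`, `SPar`, `SSl`).
Proof. `P = 1/2 + t`, `Q = 1/2 - t` (idempotents, `P Q = Q P = 0`, `t P = P t = P / 2`,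
`t Q = Q t = - Q / 2`). `[t, e] = P e Q - Q e P`, `[t, [t, e]] = P e Q + Q e P`, so `P e Q`, `Q e P`
are in `g` and in every ideal which contains `e`. If both vanish, `t e = e t`, against `SPar`. After
replacing `t` by `t' = - t` if necessary, `e' = P e Q ≠ 0`. For `X ∈ g` let `X' = Q X P ∈ g`;
`e' X e' = P (e X' e) Q`, `tr (e X') = tr (e' X)`, so by `SPrimTr`,
`(rk e) e' X e' = P (tr (e X') e) Q = tr (e' X) e'`; by `SPrimConv` `e'` is primitive and
`rk e' = rk e`. Take `f₀` with `Sl g e' f₀` (`SSl`) and `f = Q f₀ P ∈ g`: `e' f e' = e' f₀ e' = e'`,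
`f e' f = Q f₀ e' f₀ P = Q f₀ P = f`, `f f = 0`. -/
def SAdapt : Prop :=
  ∀ (K V : Type) [Field K] [IsAlgClosed K] [CharZero K] [AddCommGroup V] [Module K V]
    [FiniteDimensional K V] [Nontrivial V] (ψ : LinearMap.BilinForm K V)
    (g : Submodule K (Module.End K V)), Dat ψ g → ∀ e, Prm g e → Odd (rk e) →
    ∀ t ∈ g, t * t = (1 / 4 : K) • (1 : Module.End K V) →
    ∃ e' f t', Adp g e' f t' ∧ Prm g e' ∧ rk e' = rk e ∧ (t' = t ∨ t' = -t) ∧
      ∀ a, Idl g a → e ∈ a → e' ∈ a

/-- **The grading by `h = e f - f e`**: the homogeneous components of an element of `g` are in `g`.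
Proof. `h h h = h` (`Sl.hh`); `D = [h, ·]` maps `g` to `g` and acts on the component of degree `k`
by `k`, the degrees are `-2, ..., 2`: degree `2`: `p X q`, degree `1`: `p X z + z X q`, degree `0`:
`p X p + z X z + q X q`, degree `-1`: `z X p + q X z`, degree `-2`: `q X p`. The sum of the components
is `X`. So each component is a polynomial in `D` applied to `X`, e.g. the one of degree `2` is
`(D⁴ + 2 D³ - D² - 2 D) X / 24`, the one of degree `1` is `-(D⁴ + D³ - 4 D² - 4 D) X / 6`, the one of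
degree `0` is `(D⁴ - 5 D² + 4) X / 4`, and the others by symmetry. -/
def SGrade : Prop :=
  ∀ (K V : Type) [Field K] [CharZero K] [AddCommGroup V] [Module K V] [FiniteDimensional K V]
    (g : Submodule K (Module.End K V)), (∀ X ∈ g, ∀ Y ∈ g, X * Y - Y * X ∈ g) →
    ∀ e f, Sl g e f → ∀ X ∈ g,
    (e * f) * X * (f * e) ∈ g ∧ (f * e) * X * (e * f) ∈ g ∧
    (e * f) * X * (1 - e * f - f * e) + (1 - e * f - f * e) * X * (f * e) ∈ G1 g e f ∧
    (1 - e * f - f * e) * X * (e * f) + (f * e) * X * (1 - e * f - f * e) ∈ G1 g f e ∧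
    (e * f) * X * (e * f) + (1 - e * f - f * e) * X * (1 - e * f - f * e) +
      (f * e) * X * (f * e) ∈ g

/-- **Degree two is a line**, and brackets of elements of degree one.
Proof. `p X q = e (f X f) e` with `f X f ∈ g` (`sandwich_mem`), primitivity; and
`q X p = f (e X e) f`. For `x`, `y` of degree one `x y = p x y q` (`G1.xy`), so
`x y - y x = p (x y - y x) q`. -/
def STop : Prop :=
  ∀ (K V : Type) [Field K] [CharZero K] [AddCommGroup V] [Module K V] [FiniteDimensional K V]
    (g : Submodule K (Module.End K V)), (∀ X ∈ g, ∀ Y ∈ g, X * Y - Y * X ∈ g) →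
    ∀ e f, Prm g e → Sl g e f →
    (∀ X ∈ g, ∃ c : K, (e * f) * X * (f * e) = c • e) ∧
    (∀ X ∈ g, ∃ c : K, (f * e) * X * (e * f) = c • f) ∧
    (∀ x ∈ G1 g e f, ∀ y ∈ G1 g e f, ∃ c : K, x * y - y * x = c • e)

/-- **The symplectic form of the elements of degree one is nondegenerate** (from `STr`, `SGrade`,
`STop`).
Proof. By `STr` there is `W ∈ g` with `tr (x W) ≠ 0`. Let `w = z W p + q W z`, the component of degree
`-1` (`w ∈ G1 g f e` by `SGrade`); as `x = x q + p x` with `x q = z x q`, `p x = p x z` one has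
`tr (x W) = tr (x w)`. Let `y = e w - w e`: it is in `G1 g e f` (`w = w p + q w` by `G1.eq` for `f`, `e`,
`w f = f w = 0`, so `y = e w - w e` satisfies `h y - y h = y`; Jacobi: `[h, e] = 2 e`, `[h, w] = - w`).
If `x y - y x = c e` then `c tr (f e) = tr (f (x y - y x)) = tr ([f, x] y)
= tr ([f, x] (e w - w e)) = tr (((f x - x f) e - e (f x - x f)) w) = - tr ((x q + p x) w) = - tr (x w)`
(use `x e = e x = 0`). So `c ≠ 0`, and `e ≠ 0`. -/
def SNonsing : Prop :=
  ∀ (K V : Type) [Field K] [IsAlgClosed K] [CharZero K] [AddCommGroup V] [Module K V]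
    [FiniteDimensional K V] [Nontrivial V] (ψ : LinearMap.BilinForm K V)
    (g : Submodule K (Module.End K V)), Dat ψ g → ∀ e f, Prm g e → Sl g e f →
    ∀ x ∈ G1 g e f, x ≠ 0 → ∃ y ∈ G1 g e f, x * y - y * x ≠ 0

/-- **Odd rank: the operator `u = f w²` has square zero** (from `STop`, `SGrade`).
Proof. `D = [w, ·]`: `D⁴ f = w⁴ f - 4 w³ f w + 6 w² f w² - 4 w f w³ + f w⁴ = 6 w² f w²` as `w³ = 0`
(`G1.xyz`). It is in `g` and equal to `p (D⁴ f) q` (as `w² = p w² q`, `G1.xy`), so `w² f w² = c e`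
by `STop`. Let `u = f w w` (`u = q u q`, `e u = p w w = w w`): `e u u = w w f w w = c e`, so
`u u = q u u = f e u u = c f e = c q`. Trace: the adjoint of `u` is
`w w (-f)` (skew operators: adjoint of `f w w` is `(-w)(-w)(-f)`), so
`tr u = - tr (w w f) = - tr u`, `tr u = 0`. If `c ≠ 0` write `c = d²`: `π = (q + d⁻¹ u) / 2` is
idempotent, so its trace is its rank `m`, but it is `(tr q) / 2 = (rk e) / 2`
(`tr q = rk q = rk e`): `2 m = rk e` in `K`, so in `ℕ`, against the oddness. So `c = 0`. -/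
def SU : Prop :=
  ∀ (K V : Type) [Field K] [IsAlgClosed K] [CharZero K] [AddCommGroup V] [Module K V]
    [FiniteDimensional K V] [Nontrivial V] (ψ : LinearMap.BilinForm K V)
    (g : Submodule K (Module.End K V)), Dat ψ g → ∀ e f, Prm g e → Sl g e f → Odd (rk e) →
    ∀ w ∈ G1 g e f, (f * w * w) * (f * w * w) = 0

/-- **The key identity** (from `STop`, `SNonsing`, `SU`).
Proof. Let `ω(x, y)` be the scalar with `x y - y x = ω(x, y) e` (`STop`). Let
`G⁰ = {x ∈ G1 | t x = x t}`, `G¹ = {x ∈ G1 | t x - x t = x}`.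
(1) `w = x + y` with `y = t w - w t`, `x = w - y`; `y ∈ G¹`, `x ∈ G⁰`: `t` commutes with `p`, `q`;
`t p = p / 2`, `t q = - q / 2`; from `w = w q + p w` (`G1.eq`),
`y = t w q + w q / 2 + p w / 2 - p w t = (1/2 + t) w q + p w (1/2 - t)`; and
`t y = y / 2` on the first summand..., so that `t y - y t = y`. `y ∈ g` and `y` has degree one as
`t` commutes with `h`.
(2) `x x' = 0` for `x, x' ∈ G⁰` and `y y' = 0` for `y, y' ∈ G¹`: `x x' = p x x' q` (`G1.xy`), and
`t` acts on `p` by `1/2`, on `q` by `-1/2`: `t (x x') = x x' / 2` and `(x x') t = - x x' / 2`, but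
`t` commutes with `x x'`; for `y y'`: `t y y' - y y' t = 2 y y'`, but it is `y y'`.
(3) For `x ∈ G⁰`, `y ∈ G¹`, `w = x + y`: `w w = x y + y x = 2 y x + ω e` (`ω = ω(x, y)`), so
`u := f w w = 2 f y x + ω q`, `u u = 0` by `SU`. So `A := f y x = (u - ω q) / 2`; if `ω ≠ 0` it is
injective on `M` = range of `q` (`u` nilpotent on `M`, `A` commutes with `u`:
`(u - ω)(u + ω) = - ω²` on `M`); so `x` is injective on `M`. Also
`f x y = f y x + ω q = (u + ω q)/2` is injective on `M`, so `y` is injective on `M`.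
(4) Let `a = y f y ∈ g` (`sandwich_mem`, `y y = 0`), `b = a x - x a ∈ g`. `y'' = b + (ω / 2) y`. It is
in `G¹`: `h`-degree: `[h, a] = 0` (`[h, y] = y`, `[h, f] = - 2 f`), `t`-degree of `a`: `1`
(`t f - f t = - f`). `a q = y f y f e = 0` (`G1.fxf`: `f y f = 0`), so `b q = a x q = y f y x q = y A q`
and `y'' q = y (A + ω / 2) q = y u / 2` (`u = u q`).
(5) `y'' = 0`: otherwise some `x'' ∈ G1` has `x'' y'' - y'' x'' ≠ 0` (`SNonsing`), and by (1), (2) one
can take `x'' ∈ G⁰`; so `y''` is injective on `M` by (3); but `u` is not injective on `M ≠ 0`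
(`u u = 0`), a contradiction. So `y u = 0`.
(6) `u = 0`: if `y = 0` this is clear (`u = 2 f y x + ω q`, `ω = 0`). Otherwise some `x₁ ∈ G⁰` has
`ω(x₁, y) ≠ 0`, so `y` is injective on `M` by (3), and `y u = 0` gives `u = 0`. So
`f y x = - (ω/2) q` and `f x y = (ω / 2) q` for all `x ∈ G⁰`, `y ∈ G¹`.
(7) For `w = x + y`, `w' = x' + y'`: `f w w' = f x y' + f y x' ∈ K q` by (2), (6). -/
def SKey : Prop :=
  ∀ (K V : Type) [Field K] [IsAlgClosed K] [CharZero K] [AddCommGroup V] [Module K V]
    [FiniteDimensional K V] [Nontrivial V] (ψ : LinearMap.BilinForm K V)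
    (g : Submodule K (Module.End K V)), Dat ψ g → ∀ e f t, Adp g e f t → Prm g e → Odd (rk e) →
    ∀ w ∈ G1 g e f, ∀ w' ∈ G1 g e f, ∃ c : K, f * w * w' = c • (f * e)

/-- **The ideal generated by `e`** (from `SGrade`, `STop`).
Proof. Let `a` be the span of `e`, `f`, `h = e f - f e`, the elements of `G1 g e f`, of `G1 g f e`, and
the brackets `x w - w x` with `x ∈ G1 g e f`, `w ∈ G1 g f e`. It is an ideal: by `SGrade` it is
enough to bracket with elements of `g` of pure degree (`X = ` sum of the components, the components of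
degree `2`, `-2` are multiples of `e`, `f` by `STop`); for degree `0` (`h X = X h`): `[X, e]` has
degree `2`, so it is in `K e`, `[X, f] ∈ K f`, `[X, h] = 0`, `[X, G1] ⊆ G1` (both), Jacobi for
`[X, [x, w]]`; for `X ∈ G1 g e f`: `[X, e] = 0`, `[X, f] ∈ G1 g f e`, `[X, h] = - X`,
`[X, G1 g e f] ⊆ K e`, `[X, w]` is one of the generators, `[X, [x, w]] ∈ G1 g e f`; symmetric for
degree `-1`; and `[e, f] = h`, `[e, h] = - 2 e`, `[e, G1 g e f] = 0`, `[e, w] ∈ G1 g e f`,
`[e, [x, w]] ∈ K e`; symmetric for `f`. It is contained in every ideal `b ∋ e`: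
`f = f e f = - [f, [f, e]] / 2 ∈ b`, `h ∈ b`, and `x = [h, x]`, `w = - [h, w]`.
`S` is any subspace of `End V` closed under brackets which contains `e`, `f`, `G1 g e f` and
`G1 g f e`; then `a ≤ S`. -/
def SIdl : Prop :=
  ∀ (K V : Type) [Field K] [CharZero K] [AddCommGroup V] [Module K V] [FiniteDimensional K V]
    (g : Submodule K (Module.End K V)), (∀ X ∈ g, ∀ Y ∈ g, X * Y - Y * X ∈ g) →
    ∀ e f, Prm g e → Sl g e f → ∃ a, Idl g a ∧ e ∈ a ∧ (∀ b, Idl g b → e ∈ b → a ≤ b) ∧
      ∀ S : Submodule K (Module.End K V), (∀ X ∈ S, ∀ Y ∈ S, X * Y - Y * X ∈ S) → e ∈ S → f ∈ S →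
        G1 g e f ≤ S → G1 g f e ≤ S → a ≤ S

/-- **Stability of the spaces `Lu`** (from `SIdl`, `STop`).
Proof. Take `a` from `SIdl` and `S = {X | X (Lu u) ⊆ Lu u for all u with f e u = u}`, closed under
brackets. With `u = q u`, `w, x ∈ G1 g e f`, `c(w, x)` the scalar with `f w x = c(w, x) f e`:
* `e`: `e u ∈ Lu`, `e x u = 0`, `e e u = 0`.
* `f`: `f u = 0` (`f q = 0`), `f x u = 0` (`G1.fxq`), `f e u = u`.
* `w`: `w u ∈ Lu`, `w x u = p w x u = e f w x u = c(w, x) e u` (`G1.xy`), `w e u = 0`.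
* `v ∈ G1 g f e`: `v = [f, w]` with `w = [e, v] = e v - v e ∈ G1 g e f`: indeed
  `f w - w f = f e v - f v e - e v f + v e f = q v + v p = v` (`G1.eq`, `v f = 0 = f v` by `G1.xe`,
  `G1.ex` for `f`, `e`). So `v u = f w u - w f u = 0`, `v x u = f w x u - w f x u = c(w, x) u`,
  `v e u = f w e u - w f e u = - w u`. -/
def SStab : Prop :=
  ∀ (K V : Type) [Field K] [CharZero K] [AddCommGroup V] [Module K V] [FiniteDimensional K V]
    (g : Submodule K (Module.End K V)), (∀ X ∈ g, ∀ Y ∈ g, X * Y - Y * X ∈ g) →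
    ∀ e f, Prm g e → Sl g e f →
    (∀ w ∈ G1 g e f, ∀ w' ∈ G1 g e f, ∃ c : K, f * w * w' = c • (f * e)) →
    ∃ a, Idl g a ∧ e ∈ a ∧ (∀ b, Idl g b → e ∈ b → a ≤ b) ∧
      ∀ X ∈ a, ∀ u : V, (f * e) u = u → ∀ v ∈ Lu g e f u, X v ∈ Lu g e f u

/-- **The square roots of `1/4` lie in the ideal of a primitive element of odd rank** (from `SDec`,
`SZero`, `SAdapt`, `SKey`, `SStab`).
Proof. Let `b` be an ideal with `e₀ ∈ b`. `SAdapt` gives `e`, `f`, `t'` (`t' = ± t`) with `e ∈ b`,
`SKey` and `SStab` give the smallest ideal `a ∋ e`; `a ≤ b`; enough: `t' ∈ a`. Write `t' = t₁ + t₂`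
(`SDec` for `a`). As `[t', e] = e` and `[t₂, e] = 0`: `[t₁, e] = e`. For `u` in the range `M`
of `q`: `t₁ e u ∈ Lu` (`SStab`), so `f t₁ e u ∈ K u` (`f (α u + x u + γ e u) = γ u`): so `f t₁ e` acts on
`M` by a scalar `c` (an operator for which all vectors are eigenvectors), `f t₁ e = c q`. As
`e t₁ e = e (t₁ e - e t₁) + e e t₁ = e e = 0`, and `p t₁ e = e f t₁ e = c e`, and
`t₁ e = e + e t₁` gives `p t₁ e = p e + p e t₁ = t₁ e`: `t₁ e = c e`. Taking adjoints (`t₁`, `e` skew)
`e t₁ = - c e`. So `e = [t₁, e] = 2 c e`, `c = 1/2`, `t₁ e = e / 2 = t' e`, so `t₂ e = 0 = e t₂`; and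
`t₂` commutes with `a`; `SZero` (`A = e`, `B = t₂`) gives `t₂ = 0`. -/
def SCoch : Prop :=
  ∀ (K V : Type) [Field K] [IsAlgClosed K] [CharZero K] [AddCommGroup V] [Module K V]
    [FiniteDimensional K V] [Nontrivial V] (ψ : LinearMap.BilinForm K V)
    (g : Submodule K (Module.End K V)), Dat ψ g → ∀ e, Prm g e → Odd (rk e) →
    ∀ t ∈ g, t * t = (1 / 4 : K) • (1 : Module.End K V) → ∀ b, Idl g b → e ∈ b → t ∈ b

/-- **Case (c): odd rank and generation by cocharacters give an element of rank one** (from `SOdd`,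
`SCoch`, `SAdapt`, `SKey`, `SStab`).
Proof. `SOdd` gives a primitive `e₀` of odd rank. There is `t ∈ g` with `t² = 1/4`: otherwise the ideal
`0` satisfies the hypothesis, so `g = 0`, but `e₀ ≠ 0`. `SAdapt`: `e`, `f`, `t'`. By `SCoch` (for `e`)
the ideal `a` of `SStab` contains all square roots of `1/4`, so `a = g`. Take `u ≠ 0` in the
range of `q` (`e ≠ 0`): `Lu u` is `g`-stable and contains `u`, so it is `V`. So
`range q = q (Lu u) ⊆ K u` (`q x = 0`, `q e = 0`), `rk e = rk q = 1`. -/
def SGen : Prop :=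
  ∀ (K V : Type) [Field K] [IsAlgClosed K] [CharZero K] [AddCommGroup V] [Module K V]
    [FiniteDimensional K V] [Nontrivial V] (ψ : LinearMap.BilinForm K V)
    (g : Submodule K (Module.End K V)), Dat ψ g → ∀ N ∈ g, N * N = 0 → Odd (rk N) →
    (∀ a, Idl g a → (∀ t ∈ g, t * t = (1 / 4 : K) • (1 : Module.End K V) → t ∈ a) → a = g) →
    ∃ e ∈ g, rk e = 1

/-- **The multiplicity space** (from `SIdl`, `STop`, `SNonsing`).
Proof. Let `M = range q`, `r = rk e = dim M`, `W = K × G1 g e f × K` (a finite dimensional space),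
`φ_u (α, x, γ) = α u + x u + γ e u`. By the formulas in `SStab` every generator `X` (`e`, `f`,
elements of `G1 g e f`, `G1 g f e`) satisfies `X φ_u (w) = φ_u (X' w)` for all `u ∈ M`, for some
`X' : W →ₗ W` not depending on `u`; the set of all `X` with this property is a subspace closed under
brackets, so it contains `a` (`SIdl`). Let `u_1, ..., u_r` be a basis of `M` and
`Θ : (Fin r → W) →ₗ V`, `Θ (w) = Σ φ_{u_i} (w_i)`. Θ is injective: apply `q` and `p` (`q u = u`,
`q x u = 0`, `q e u = 0`; `p e u = e u`, `p u = 0`, and `e` is injective on `M`) to see that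
`α_i = 0`; then `Σ x_i u_i + γ_i e u_i = 0`; apply `f`: `γ_i = 0` (`f x u = 0`, `f e u = u`); then
`Σ x_i u_i = 0` and for `y ∈ G1 g e f`: `0 = Σ f y x_i u_i = Σ c(y, x_i) u_i`, so `f y x_i = 0` and
`c(y, x_i) = 0` for all `y`, and `x_i y - y x_i = ω e` with `ω q = f x_i y - f y x_i`; moreover
`f x_i y = c q` has trace `c r = tr (f x_i y)`, whose adjoint is `- y x_i f`, so
`c r = - tr (y x_i f) = - tr (f y x_i) = 0`, so `ω = 0` for all `y` and `x_i = 0` by `SNonsing`.
Θ is surjective if its range is `g`-stable (it is not `0`): it is stable under `a`, and under each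
`Y ∈ g` which commutes with `a` (`Y` commutes with `q`, so maps `M` to `M`, and it commutes with
`G1 g e f ≤ a` (`x = [h, x]`), `e`, `f`), so under `g` by `SDec`. So for `X ∈ a`, `X Θ = Θ (X')^r`,
`rk X = r rk X'`, and `dim V = r dim W`. -/
def SMult : Prop :=
  ∀ (K V : Type) [Field K] [IsAlgClosed K] [CharZero K] [AddCommGroup V] [Module K V]
    [FiniteDimensional K V] [Nontrivial V] (ψ : LinearMap.BilinForm K V)
    (g : Submodule K (Module.End K V)), Dat ψ g → ∀ e f, Prm g e → Sl g e f →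
    (∀ w ∈ G1 g e f, ∀ w' ∈ G1 g e f, ∃ c : K, f * w * w' = c • (f * e)) →
    ∃ a, Idl g a ∧ e ∈ a ∧ (∀ b, Idl g b → e ∈ b → a ≤ b) ∧
      rk e ∣ finrank K V ∧ ∀ X ∈ a, rk e ∣ rk X

/-- **Case (b): rank prime to the dimension gives an element of rank one** (from `SOdd`, `SAdapt`,
`SKey`, `SMult`, `SSq`).
Proof. `dim V` is even (`1/2 + t` is idempotent of trace `(dim V) / 2`, as `tr t = 0`), so `rk N` is odd. `SOdd`, `SAdapt`, `SKey`,
`SMult`: `e`, `f`, `t'` and the smallest ideal `a ∋ e`; `e` is in every ideal which contains `N`. By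
`SSq`, `N ∈ a` or `N` commutes with `a`. In the second case the ideal `{X ∈ g | X commutes with a}`
contains `N`, so it contains `e`, so `e` commutes with `f ∈ a` (`f = f e f = -[f, [f, e]]/2`), so
`e = e f e = e e f = 0`, a contradiction. So `N ∈ a`, `rk e` divides `rk N` and `dim V`, so it is `1`. -/
def SCop : Prop :=
  ∀ (K V : Type) [Field K] [IsAlgClosed K] [CharZero K] [AddCommGroup V] [Module K V]
    [FiniteDimensional K V] [Nontrivial V] (ψ : LinearMap.BilinForm K V)
    (g : Submodule K (Module.End K V)), Dat ψ g → ∀ N ∈ g, N * N = 0 →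
    Nat.Coprime (rk N) (finrank K V) → (∃ t ∈ g, t * t = (1 / 4 : K) • (1 : Module.End K V)) →
    ∃ e ∈ g, rk e = 1

/-- **An irreducible Lie algebra with an element of rank one is the symplectic one** (from `SSl`,
`SGrade`, `STr`).
Proof. Write `T_{a,b} x = ψ(a, x) b + ψ(b, x) a`, `[X, T_{a,b}] = T_{X a, b} + T_{a, X b}` for skew `X`.
A skew operator of rank one is `s T_{v,v}` (`s ≠ 0`); in particular `e e = 0`. Take `f` with
`Sl g e f` (`SSl`), again of rank one, a multiple of `T_{w,w}`, with `ψ(v, w) ≠ 0` (as `e f e = e`).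
`range p = K v`, `range q = K w`, `V = K v + K w + V₀` with `V₀ = range z`, orthogonal to `v`, `w`.
`e`, `f`, `[e, f]` give `T_{v,v}, T_{w,w}, T_{v,w} ∈ g`. Let `A = {a ∈ V₀ | T_{v,a} ∈ g}`. For
`a ∈ A` also `T_{w,a} ∈ g` (bracket `T_{w,w}` with `T_{v,a}`). The space `S = K v + A + K w` is
`g`-stable: by `SGrade` it is enough to consider `X` of pure degree; degree `2`, `-2`: multiples
of `e`, `f` (of the form `p X q`: rank one); degree `1`: `X = X q + p X`, skew, so `X = T_{v,a}` up to a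
factor, with `a = X w` (up to a factor) in `V₀`, so `a ∈ A`, and `X` maps `w` to `A`, `A` to `K v`,
`v` to `0`; degree `-1`: the same with `v`, `w` exchanged; degree `0`: `X v ∈ K v`, `X w ∈ K w`,
`X V₀ ⊆ V₀`, and `T_{v, X a} = [X, T_{v,a}] - T_{X v, a} ∈ g` for `a ∈ A`. So `S = V`, `A = V₀`,
`T_{v,a}, T_{w,a} ∈ g` for all `a ∈ V`. Then `[T_{w,a}, T_{v,b}] = T_{T_{w,a} v, b} + T_{v, T_{w,a} b}` with
`T_{w,a} v = ψ(w, v) a + ψ(a, v) w` gives `T_{a,b} ∈ g` for all `a`, `b`. Every skew `X` is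
`(1/2) Σ T_{b^i, X b_i}` for a basis `b_i` and its dual basis `b^i` (`ψ(b^i, b_j) = δ_ij`). -/
def SRankOne : Prop :=
  ∀ (K V : Type) [Field K] [IsAlgClosed K] [CharZero K] [AddCommGroup V] [Module K V]
    [FiniteDimensional K V] [Nontrivial V] (ψ : LinearMap.BilinForm K V)
    (g : Submodule K (Module.End K V)), Dat ψ g → ∀ e ∈ g, rk e = 1 → ∀ X, Skew ψ X → X ∈ g

/-- **Case (a): a square-zero element of rank one or two gives an element of rank one** (from
`SSplit`, `SSl`, `SGrade`, `STop`).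
Proof. If `rk N = 2` and `N` is not primitive, `SSplit` gives an element of rank one. Suppose `N = e`
primitive of rank `2`, `Sl g e f`, `M = range q` of dimension `2`. `β(u, v) = ψ(e u, v)` is a
symmetric nondegenerate form on `M`. There is `u ≠ 0` in `M` with `β(u, u) = 0` (`K` algebraically
closed, dimension two). Every operator `B = q B q` which is `β`-skew on `M` maps `u` to `K u`: the
orthogonal space of `u` in `M` is `K u` (dimension one, contains `u`), and `β(B u, u) = 0` (skew). For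
`w ∈ G1 g e f` the operator `f w w` is `β`-skew:
`ψ(e f w w u, v) = ψ(w w u, v) = ψ(u, w w v)`, and `ψ(e u, f w w v) = - ψ(f e u, w w v)
= - ψ(u, w w v)`. By polarization `f w w' + f w' w` is `β`-skew, and `f w w' - f w' w ∈ K q` (`STop`), so
`f w w' u ∈ K u` for all `w, w' ∈ G1 g e f`. So `Lu g e f u` is stable under `e`, `f`, `G1 g e f`,
`G1 g f e` (computation in `SStab`) and under every `X ∈ g` of degree `0` (`h X = X h`): `X M ⊆ M`,
`[X, e] = c e` (`STop`), so `β(X u, v) + β(u, X v) = - c β(u, v)`, i.e. `X + c/2` is `β`-skew on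
`M` and `X u ∈ K u`; `X x u = [X, x] u + x X u`, `X e u = [X, e] u + e X u`. So it is `g`-stable
(`SGrade`, `STop`), nonzero, and its intersection with `M` is `K u ≠ M`: a contradiction. -/
def STwo : Prop :=
  ∀ (K V : Type) [Field K] [IsAlgClosed K] [CharZero K] [AddCommGroup V] [Module K V]
    [FiniteDimensional K V] [Nontrivial V] (ψ : LinearMap.BilinForm K V)
    (g : Submodule K (Module.End K V)), Dat ψ g → ∀ N ∈ g, N * N = 0 → N ≠ 0 → rk N ≤ 2 →
    ∃ e ∈ g, rk e = 1

/-- **The algebraic main theorem**: `g` is the symplectic Lie algebra. -/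
def SMain : Prop :=
  ∀ (K V : Type) [Field K] [IsAlgClosed K] [CharZero K] [AddCommGroup V] [Module K V]
    [FiniteDimensional K V] [Nontrivial V] (ψ : LinearMap.BilinForm K V)
    (g : Submodule K (Module.End K V)), Dat ψ g → ∀ N ∈ g, N * N = 0 →
    ((N ≠ 0 ∧ rk N ≤ 2) ∨
      (Nat.Coprime (rk N) (finrank K V) ∧ ∃ t ∈ g, t * t = (1 / 4 : K) • (1 : Module.End K V)) ∨
      (Odd (rk N) ∧ ∀ a, Idl g a →
        (∀ t ∈ g, t * t = (1 / 4 : K) • (1 : Module.End K V) → t ∈ a) → a = g)) →
    ∀ X, Skew ψ X → X ∈ g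

end Pool.Agent.Lib.MP_640417_ag.Tor
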