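import Pool.Agent.Lib.MP_640417_ag.Tor.GouB
import Pool.Agent.Lib.MP_640417_ag.Tor.Spec
import Pool.Agent.Lib.MP_640417_ag.Tor.Base
import Pool.Agent.Lib.MP_640417_ag.Tor.DefsL
import Pool.Agent.Lib.MP_640417_ag.Glob.Defs

/-!
# One toric place: several constituents, and the link with `l`-adic representations; statements

`spb ψ p` (in `Tor/GouA.lean`) is the symplectic Lie algebra of the range of the self-adjoint
idempotent `p`.
-/

namespace Pool.Agent.Lib.MP_640417_ag.Tor

open Module

/-! ### Goursat -/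

/-- `g` is a Lie algebra of skew operators, `P` and `Q` are orthogonal self-adjoint idempotents which
commute with `g`, `g` lives on the sum of the two blocks, it maps onto the symplectic Lie algebra of each
block, and the element is determined by its `Q`-part. -/
structure Gou {K V : Type} [Field K] [AddCommGroup V] [Module K V] (ψ : LinearMap.BilinForm K V)
    (g : Submodule K (Module.End K V)) (P Q : Module.End K V) : Prop where
  alt : ∀ x, ψ x x = 0
  anti : ∀ x y, ψ x y = - ψ y x
  nd : ∀ x, (∀ y, ψ x y = 0) → x = 0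
  lie : ∀ X ∈ g, ∀ Y ∈ g, X * Y - Y * X ∈ g
  sp : ∀ X ∈ g, Skew ψ X
  pp : P * P = P
  qq : Q * Q = Q
  pq : P * Q = 0
  qp : Q * P = 0
  pne : P ≠ 0
  qne : Q ≠ 0
  padj : ∀ x y, ψ (P x) y = ψ x (P y)
  qadj : ∀ x y, ψ (Q x) y = ψ x (Q y)
  pcom : ∀ X ∈ g, P * X = X * P
  qcom : ∀ X ∈ g, Q * X = X * Q
  sum : ∀ X ∈ g, P * X + Q * X = X
  psurj : ∀ X ∈ spb ψ P, ∃ Y ∈ g, P * Y = X
  qsurj : ∀ X ∈ spb ψ Q, ∃ Y ∈ g, Q * Y = X
  inj : ∀ X ∈ g, Q * X = 0 → P * X = 0

/-- **Goursat for two blocks.** -/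
def SGou : Prop :=
  ∀ (K V : Type) [Field K] [IsAlgClosed K] [CharZero K] [AddCommGroup V] [Module K V]
    [FiniteDimensional K V] (ψ : LinearMap.BilinForm K V)
    (g : Submodule K (Module.End K V)) (P Q : Module.End K V), Gou ψ g P Q →
    (∀ c : Module.End K V, (∀ X ∈ g, c * X = X * c) → Q * c * P = 0) → False

/-- **Goursat for finitely many blocks** (from `SGou`).
Proof. If `Z ∈ spb ψ p` commutes with `spb ψ p` then `Z = 0` (bracket with `T_{v,v}`, `p v = v`:
`2 T_{v, Z v} = 0`, so `Z v = 0` by `GouB_T_ne`). For a finite set `S` of blocks let `D(S)`: for every block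
`b ∉ S` and every `X ∈ spb ψ (p b)` there is `Y ∈ g` with `p b Y = X`, `p s Y = 0` for `s ∈ S`.
Induction on `S`; `D(∅)` is `hfull`. `D(S ∪ {s})`, `b ∉ S ∪ {s}`: clear if `p s = 0` or `p b = 0`. Let
`h = {Y ∈ g | p s' Y = 0 for s' ∈ S}` and `a = {X | ∃ Y ∈ h, p b Y = X, p s Y = 0}`, which
is stable under brackets with `spb ψ (p b)` (lift to `g`). If `a ≠ 0` use `GouA_simple`. If `a = 0`:
`Y ∈ g`, `p s Y = 0` implies `p b Y = 0`: for `Z ∈ h` also `[Z, Y] ∈ h`, `p s [Z, Y] = 0`, so
`p b [Z, Y] = 0`, and `p b h = spb ψ (p b)` by `D(S)`, so `p b Y` commutes with `spb ψ (p b)`, `p b Y = 0`.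
So `Gou ψ g' (p b) (p s)` holds for `g' = {(p b + p s) Y | Y ∈ g}`, and an operator `c` which commutes with
`g'` gives the operator `(p b + p s) c (p b + p s)`, which commutes with `g`: `SGou`. At the end
`X = ∑ p b X p b` with `p b X p b ∈ spb ψ (p b)`, and `D` for the complement of `b` gives `Y ∈ g` with
`p b Y = p b X p b` and `p s Y = 0` for `s ≠ b`, so `Y = ∑ p s Y = p b X p b`. -/
def SGour : Prop :=
  ∀ (K V : Type) [Field K] [IsAlgClosed K] [CharZero K] [AddCommGroup V] [Module K V]
    [FiniteDimensional K V] (ψ : LinearMap.BilinForm K V) (_ : ∀ x, ψ x x = 0)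
    (_ : ∀ x y, ψ x y = - ψ y x) (_ : ∀ x, (∀ y, ψ x y = 0) → x = 0)
    (g : Submodule K (Module.End K V)) (_ : ∀ X ∈ g, ∀ Y ∈ g, X * Y - Y * X ∈ g)
    (_ : ∀ X ∈ g, Skew ψ X) (B : Type) [Fintype B] [DecidableEq B] (p : B → Module.End K V)
    (_ : ∑ b, p b = 1) (_ : ∀ b, p b * p b = p b) (_ : ∀ a b, a ≠ b → p a * p b = 0)
    (_ : ∀ b x y, ψ (p b x) y = ψ x (p b y)) (_ : ∀ b, ∀ X ∈ g, p b * X = X * p b)
    (_ : ∀ b, ∀ X ∈ spb ψ (p b), ∃ Y ∈ g, p b * Y = X)
    (_ : ∀ a b, a ≠ b → ∀ c : Module.End K V, (∀ X ∈ g, c * X = X * c) → p a * c * p b = 0),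
    ∀ X : Module.End K V, Skew ψ X → (∀ b, p b * X = X * p b) → X ∈ g

/-! ### The conditions -/

/-- The skew parts of the elements of `L`. -/
def skp {K V : Type} [Field K] [AddCommGroup V] [Module K V] (ψ : LinearMap.BilinForm K V)
    (L : Submodule K (Module.End K V)) : Submodule K (Module.End K V) where
  carrier := {X | Skew ψ X ∧ ∃ s : K, X + s • (1 : Module.End K V) ∈ L}
  add_mem' := by
    rintro X Y ⟨h1, s, hs⟩ ⟨h2, t, ht⟩
    refine ⟨fun x y => ?_, s + t, ?_⟩
    · rw [LinearMap.add_apply, map_add, LinearMap.add_apply, h1, h2, LinearMap.add_apply, map_add]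
      ring
    · rw [show X + Y + (s + t) • (1 : Module.End K V) = (X + s • 1) + (Y + t • 1) by
        rw [add_smul]; abel]
      exact add_mem hs ht
  zero_mem' := by
    refine ⟨fun x y => ?_, 0, ?_⟩
    · simp
    · rw [zero_smul, add_zero]
      exact zero_mem _
  smul_mem' := by
    rintro c X ⟨h1, s, hs⟩
    refine ⟨fun x y => ?_, c * s, ?_⟩
    · rw [LinearMap.smul_apply, map_smul, LinearMap.smul_apply, h1, LinearMap.smul_apply, map_smul,
        smul_eq_mul, smul_eq_mul, mul_neg]
    · rw [mul_smul, ← smul_add]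
      exact Submodule.smul_mem _ _ hs

/-- **Idempotents have multiplier one.**
Proof. Let `ψ (t x) y + ψ x (t y) = c ψ x y`, `t t = t`, and suppose `c ≠ 1`. For `x` in the range and `y`
in the kernel of `t`: `ψ x y = c ψ x y`, so `ψ x y = 0`. If `c ≠ 2` then for `x, y` in the range
`2 ψ x y = c ψ x y`, `ψ x y = 0`, so the range is orthogonal to everything, `t = 0`. If `c = 2` then for
`x, y` in the kernel `0 = 2 ψ x y`, so the kernel is orthogonal to everything (to the range by the first
step and `anti`), it is `0`, and `t = 1` (`t (x - t x) = 0`). So `c = 1`. -/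
def SIdem : Prop :=
  ∀ (K V : Type) [Field K] [CharZero K] [AddCommGroup V] [Module K V]
    (ψ : LinearMap.BilinForm K V) (_ : ∀ x y, ψ x y = - ψ y x)
    (_ : ∀ x, (∀ y, ψ x y = 0) → x = 0) (t : Module.End K V) (c : K),
    t * t = t → t ≠ 0 → t ≠ 1 → (∀ x y, ψ (t x) y + ψ x (t y) = c * ψ x y) →
    Skew ψ (t - (1 / 2 : K) • (1 : Module.End K V))

/-- **The algebraic main theorem in a block.** `p` is a self-adjoint idempotent commuting with `g`, and `g`
is irreducible on its range.
Proof. Let `W` be the range of `p`, `ψ'` the restriction of the form, `res X : W → W`, `res X w = p (X w)`, a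
linear map `End V → End W`; `res (X Y) = res X res Y` if `X` or `Y` commutes with `p`; `g' = res g`. `Dat ψ' g'`:
nondegenerate since `p` is self-adjoint; a stable subspace `W₁` of `W` gives the stable subspace
`W₁.map W.subtype` of `V`. `N' = res N`, `rk N' = finrank (W.map N)` (the range of `res N` is mapped by
`W.subtype` onto `W.map N`, as `N p = p N`). The conditions: an ideal `a'` of `g'` containing all square roots of
`1/4` of `g'` gives the ideal `a = {X ∈ g | res X ∈ a'}` of `g`. The main theorem `pMain` gives that every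
skew operator of `W` is in `g'`. For `X ∈ spb ψ p`, `res X` is skew, so `res X = res Y` with `Y ∈ g`, and
`X = p X p = p Y p = p Y`. -/
def SPMB : Prop :=
  ∀ (K V : Type) [Field K] [IsAlgClosed K] [CharZero K] [AddCommGroup V] [Module K V]
    [FiniteDimensional K V] (ψ : LinearMap.BilinForm K V) (_ : ∀ x, ψ x x = 0)
    (_ : ∀ x, (∀ y, ψ x y = 0) → x = 0)
    (g : Submodule K (Module.End K V)) (_ : ∀ X ∈ g, ∀ Y ∈ g, X * Y - Y * X ∈ g)
    (_ : ∀ X ∈ g, Skew ψ X) (p : Module.End K V) (_ : p * p = p) (_ : p ≠ 0)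
    (_ : ∀ x y, ψ (p x) y = ψ x (p y)) (_ : ∀ X ∈ g, p * X = X * p)
    (_ : ∀ W' ≤ LinearMap.range p, (∀ X ∈ g, ∀ y ∈ W', X y ∈ W') →
      W' = ⊥ ∨ W' = LinearMap.range p) (N : Module.End K V), N ∈ g → N * N = 0 →
    ((finrank K ((LinearMap.range p).map N) = 1 ∨ finrank K ((LinearMap.range p).map N) = 2) ∨
      (Nat.Coprime (finrank K ((LinearMap.range p).map N)) (finrank K (LinearMap.range p)) ∧
        ∃ t ∈ g, t * t = (1 / 4 : K) • (1 : Module.End K V)) ∨
      (Odd (finrank K ((LinearMap.range p).map N)) ∧ ∀ a, Idl g a →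
        (∀ t ∈ g, t * t = (1 / 4 : K) • (1 : Module.End K V) → t ∈ a) → a = g)) →
    ∀ X ∈ spb ψ p, ∃ Y ∈ g, p * Y = X

/-- **The block theorem for `L`** (from `SPMB`, `SIdem`).
Proof. Let `g = skp ψ L`; it is a Lie algebra: `[X, Y] = [X + s, Y + t] ∈ L` is skew (`Skew.lie`). `g` and `L`
have the same stable subspaces (each element of `L` is an element of `g` plus a scalar: half of its
multiplier). Idempotents `t ∈ L`, `t ≠ 0, 1`, give `t - 1/2 ∈ g` (`SIdem`) of square `1/4`. If `a` is an
ideal of `g` which contains all `τ ∈ g` with `τ τ = 1/4`, then `{A ∈ L | ∃ s, A - s ∈ a}` is an ideal of `L`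
which contains all idempotents of `L`, so it is `L`; so for `X ∈ g`, `X + s ∈ L`, there is `s'` with
`X + s - s' ∈ a ≤ g`, and `(s - s') • 1` is skew, so `s = s'` (`p ≠ 0`, so `V ≠ 0`) and `X ∈ a`. -/
def SBlock : Prop :=
  ∀ (K V : Type) [Field K] [IsAlgClosed K] [CharZero K] [AddCommGroup V] [Module K V]
    [FiniteDimensional K V] (ψ : LinearMap.BilinForm K V) (_ : ∀ x, ψ x x = 0)
    (_ : ∀ x y, ψ x y = - ψ y x) (_ : ∀ x, (∀ y, ψ x y = 0) → x = 0)
    (L : Submodule K (Module.End K V)) (_ : ∀ X ∈ L, ∀ Y ∈ L, X * Y - Y * X ∈ L)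
    (_ : ∀ X ∈ L, ∃ c : K, ∀ x y, ψ (X x) y + ψ x (X y) = c * ψ x y)
    (p : Module.End K V) (_ : p * p = p) (_ : p ≠ 0)
    (_ : ∀ x y, ψ (p x) y = ψ x (p y)) (_ : ∀ X ∈ L, p * X = X * p)
    (_ : IrrMod L (LinearMap.range p)) (N : Module.End K V), N ∈ L → N * N = 0 → Skew ψ N →
    Toric L (LinearMap.range p) N → ∀ X ∈ spb ψ p, ∃ Y ∈ skp ψ L, p * Y = X

/-- **All blocks** (from `SBlock`, `SGour`).
Proof. `SGour` for `g = skp ψ L`; an operator which commutes with `g` commutes with `L`. -/
def SAll : Prop :=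
  ∀ (K V : Type) [Field K] [IsAlgClosed K] [CharZero K] [AddCommGroup V] [Module K V]
    [FiniteDimensional K V] (ψ : LinearMap.BilinForm K V) (_ : ∀ x, ψ x x = 0)
    (_ : ∀ x y, ψ x y = - ψ y x) (_ : ∀ x, (∀ y, ψ x y = 0) → x = 0)
    (L : Submodule K (Module.End K V)) (_ : ∀ X ∈ L, ∀ Y ∈ L, X * Y - Y * X ∈ L)
    (_ : ∀ X ∈ L, ∃ c : K, ∀ x y, ψ (X x) y + ψ x (X y) = c * ψ x y)
    (B : Type) [Fintype B] [DecidableEq B] (p : B → Module.End K V)
    (_ : ∑ b, p b = 1) (_ : ∀ b, p b * p b = p b) (_ : ∀ b, p b ≠ 0)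
    (_ : ∀ a b, a ≠ b → p a * p b = 0)
    (_ : ∀ b x y, ψ (p b x) y = ψ x (p b y)) (_ : ∀ b, ∀ X ∈ L, p b * X = X * p b)
    (_ : ∀ b, IrrMod L (LinearMap.range (p b)))
    (_ : ∀ a b, a ≠ b → ∀ c : Module.End K V, (∀ X ∈ L, c * X = X * c) → p a * c * p b = 0)
    (_ : ∀ b, ∃ N ∈ L, N * N = 0 ∧ Skew ψ N ∧ Toric L (LinearMap.range (p b)) N),
    ∀ X : Module.End K V, Skew ψ X → (∀ b, p b * X = X * p b) → X ∈ skp ψ L

/-! ### The link with representations -/

section link

open Pool.Agent.Lib.MP_640417_ag.Glob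

variable {F : Type} [Field F] {I : Type} [Fintype I] [DecidableEq I]

/-- The operator over `K` defined by a matrix over `F`. -/
noncomputable def opK (K : Type) [Field K] [Algebra F K] (A : Matrix I I F) :
    Module.End K (I → K) := Matrix.toLin' (A.map (algebraMap F K))

/-- **Descent of membership.**
Proof. If `X ∉ U` there is a functional `φ` on the matrices, zero on `U`, with `φ X ≠ 0`. Let
`φ' : End K (I → K) → K`, `φ' f = ∑ i j, (f (Pi.single j 1) i) * φ (E_ij)`; `φ' (opK K Y) = φ Y` (in `K`), so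
`φ'` vanishes on the span, but `φ' (opK K X) ≠ 0`. -/
def SDesc : Prop :=
  ∀ (F K : Type) [Field F] [Field K] [Algebra F K] (I : Type) [Fintype I] [DecidableEq I]
    (U : Submodule F (Matrix I I F)) (X : Matrix I I F),
    opK K X ∈ Submodule.span K (opK K '' (U : Set (Matrix I I F))) → X ∈ U

/-- **Density: the Lie algebra generates the centralizer of the commutant.**
Proof. Let `A = Algebra.adjoin F (Hh)`. It is stable under conjugation with all `M γ` (`Hh_ad`); the
subspaces stable under all `M γ` are stable under `A` (`Hh_vec`). The module `I → F` over `A` is semisimple: let `S` be the sum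
of the simple `A`-submodules (`sSup` of the atoms of the lattice of the `A`-stable subspaces); `M γ` permutes
them, so `S` is stable under all `M γ`; let `S'` be a stable complement (`Semi`). If `S' ≠ 0`, it contains a
simple `A`-submodule (finite dimension), a contradiction; so `S = V`. The endomorphisms of the `A`-module `I → F` are
the `b` which commute with `Hh`, so they are in `C` by `comm_open`. Let `X` commute with `C`; then `X` is an
endomorphism of `I → F` over `Module.End A (I → F)`, and by the density theorem (`jacobson_density`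
for the finite set of the basis vectors) it agrees with an element of `A` on the basis. -/
def SDens : Prop :=
  ∀ (F : Type) [NontriviallyNormedField F] [IsUltrametricDist F] [CompleteSpace F] [CharZero F]
    (I : Type) [Fintype I] [DecidableEq I] (Γ : Type) [Group Γ] [TopologicalSpace Γ]
    (ρ : MRep Γ F I) (l : ℕ) (_ : ‖(l : F)‖ < 1) (_ : (l : F) ≠ 0) (_ : ρ.Semi)
    (X : Matrix I I F), (∀ b, ρ.InC b → X * b = b * X) →
    X ∈ Algebra.adjoin F (ρ.Hh l : Set (Matrix I I F))

/-- **Elements with `(M γ - 1)² = 0`.**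
Proof. `N = M γ - 1`: `M (γ ^ (l ^ k)) = 1 + l ^ k N`, so the sequence `γ ^ (l ^ k)` shows `N ∈ Zt`. By `Zt_mult`
and `trace_of_mult` its multiplier `c` satisfies `c (card I) = 2 tr N = 0`. -/
def SNil : Prop :=
  ∀ (F : Type) [NontriviallyNormedField F] [IsUltrametricDist F] [CompleteSpace F] [CharZero F]
    (I : Type) [Fintype I] [DecidableEq I] (Γ : Type) [Group Γ] [TopologicalSpace Γ]
    (ρ : MRep Γ F I) (l : ℕ) (_ : ‖(l : F)‖ < 1) (_ : (l : F) ≠ 0) (γ : Γ),
    (ρ.M γ - 1) * (ρ.M γ - 1) = 0 → ρ.M γ - 1 ∈ ρ.Zt l ∧ ρ.M γ - 1 ∈ spJ ρ.J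

/-- **The blocks of the commutant.** `K` is algebraically closed.
Proof. `C = cAlg ρ` is commutative (`inC_comm`), its elements are diagonalizable over `K` (`ss_of_red`, `inC_red`) and
symmetric. Joint eigenspaces and their projections: `joint_proj`, see `Glob/Joint.lean` and `Glob/GenK.lean` for
the same construction. An operator commutes with all `opK c` if and only if it preserves all joint
eigenspaces, if and only if it commutes with all `p b` (`opK c` is a scalar on each block). Only the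
nonzero joint eigenspaces are used, so `p b ≠ 0`. -/
def SJoint : Prop :=
  ∀ (F : Type) [NontriviallyNormedField F] [IsUltrametricDist F] [CompleteSpace F] [CharZero F]
    (I : Type) [Fintype I] [DecidableEq I] (Γ : Type) [Group Γ] [TopologicalSpace Γ]
    [IsTopologicalGroup Γ] (ρ : MRep Γ F I) (_ : ρ.Semi) (_ : ρ.Symm)
    (K : Type) [Field K] [Algebra F K] [IsAlgClosed K],
    ∃ (B : Type) (_ : Fintype B) (_ : DecidableEq B) (p : B → Module.End K (I → K)),
      ∑ b, p b = 1 ∧ (∀ b, p b * p b = p b) ∧ (∀ b, p b ≠ 0) ∧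
      (∀ a b, a ≠ b → p a * p b = 0) ∧
      (∀ b x y, Matrix.toBilin' (ρ.J.map (algebraMap F K)) (p b x) y =
        Matrix.toBilin' (ρ.J.map (algebraMap F K)) x (p b y)) ∧
      ∀ X : Module.End K (I → K), (∀ b, p b * X = X * p b) ↔
        ∀ c, ρ.InC c → opK K c * X = X * opK K c

/-- **Base change of the centralizer** (from `SDens`).
Proof. The operators which commute with all `opK c`, `c ∈ C`, are the solutions of linear equations with coefficients
in `F`, so they are combinations of the solutions over `F` (`span_of_eq` in `Glob/GenD.lean`), and these are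
in `Algebra.adjoin F Hh` by `SDens`. -/
def SCent : Prop :=
  ∀ (F : Type) [NontriviallyNormedField F] [IsUltrametricDist F] [CompleteSpace F] [CharZero F]
    (I : Type) [Fintype I] [DecidableEq I] (Γ : Type) [Group Γ] [TopologicalSpace Γ]
    (ρ : MRep Γ F I) (l : ℕ) (_ : ‖(l : F)‖ < 1) (_ : (l : F) ≠ 0) (_ : ρ.Semi)
    (K : Type) [Field K] [Algebra F K] (X : Module.End K (I → K)),
    (∀ c, ρ.InC c → opK K c * X = X * opK K c) →
    X ∈ Submodule.span K (opK K '' (Algebra.adjoin F (ρ.Hh l : Set (Matrix I I F)) :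
      Set (Matrix I I F)))

/-- **The Lie algebra is the centralizer of the commutant in the symplectic Lie algebra** (from `SAll`, `SDesc`,
`SDens`, `SNil`, `SJoint`, `SCent`).
Proof. `L` is the `K`-span of the `opK A`, `A ∈ Zt`; the blocks of `SJoint`. `L` is closed under brackets
(`Hh_lie_span` and `Zt_Hh`), has multipliers (`Zt_mult`), commutes with `opK c` (`Hh_comm_C`), so with the `p b`.
Every block-diagonal operator is in the span of the `opK` of `Algebra.adjoin F Hh` (`SCent`), so a subspace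
stable under `L` (so under `Hh`) is stable under the block-diagonal operators, so the blocks are irreducible; an
operator which commutes with `L` commutes with the block-diagonal operators, so with the `p b`. `SNil` and the
hypothesis give `N`. So `SAll` applies to `opK X`, if `X ∈ spJ` commutes with `C`; so `opK X + s` is in `L`,
so in the span of the `opK` of `span F (Zt) + F 1`, and by `SDesc` `X ∈ span F (Zt) + F 1`. -/
def SFull : Prop :=
  ∀ (F : Type) [NontriviallyNormedField F] [IsUltrametricDist F] [CompleteSpace F] [CharZero F]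
    (I : Type) [Fintype I] [DecidableEq I] (Γ : Type) [Group Γ] [TopologicalSpace Γ]
    [IsTopologicalGroup Γ] [CompactSpace Γ] (ρ : MRep Γ F I) (l : ℕ) (_ : ‖(l : F)‖ < 1)
    (_ : (l : F) ≠ 0) (_ : ρ.Semi) (_ : ρ.Symm) (K : Type) [Field K] [Algebra F K]
    [IsAlgClosed K] (_ : ∀ W : Submodule K (I → K),
      IrrMod (Submodule.span K (opK K '' (ρ.Zt l))) W → ∃ γ : Γ,
        (ρ.M γ - 1) * (ρ.M γ - 1) = 0 ∧
        Toric (Submodule.span K (opK K '' (ρ.Zt l))) W (opK K (ρ.M γ - 1)))
    (X : Matrix I I F), X ∈ spJ ρ.J → (∀ b, ρ.InC b → X * b = b * X) → X ∈ ρ.Hh l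

/-- **Coordinates.**
Proof. `φ : K ⊗ V ≃ (I → K)`, `φ = (e.baseChange K).equivFun`; `φ (A.baseChange K y) = opK K (toMatrix e e A) (φ y)`
(`LinearMap.toMatrix_baseChange`). `A ∈ Tangent` if and only if `toMatrix e e A ∈ R.Zt l` (entries are
functionals). Transport: `W` in `I → K` gives `W.comap φ`; `LieK` corresponds to the span of `opK K '' R.Zt l` under
conjugation with `φ`, ideals to ideals, idempotents to idempotents, ranks to ranks. -/
def SCoordT : Prop :=
  ∀ (l : ℕ) [Fact l.Prime] (Γ : Type) [Group Γ] [TopologicalSpace Γ] (V : Type) [AddCommGroup V]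
    [Module ℚ_[l] V] [FiniteDimensional ℚ_[l] V] (ρ : Frob.H1Rep Γ ℚ_[l] V) (I : Type) [Fintype I]
    [DecidableEq I] (e : Basis I ℚ_[l] V) (R : MRep Γ ℚ_[l] I)
    (_ : ∀ γ, R.M γ = LinearMap.toMatrix e e (ρ.T γ)) (K : Type) [Field K] [Algebra ℚ_[l] K],
    ToricPlaces l ρ K → ∀ W : Submodule K (I → K),
      IrrMod (Submodule.span K (opK K '' (R.Zt l))) W → ∃ γ : Γ,
        (R.M γ - 1) * (R.M γ - 1) = 0 ∧
        Toric (Submodule.span K (opK K '' (R.Zt l))) W (opK K (R.M γ - 1))

end link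

end Pool.Agent.Lib.MP_640417_ag.Tor
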