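import Pool.Agent.Lib.MP_640417_ag.Tor.Spec
import Pool.Agent.Lib.MP_640417_ag.Tor.Base
import Pool.Agent.Lib.MP_640417_ag.Tor.U
import Pool.Agent.Lib.MP_640417_ag.Tor.Odd
import Pool.Agent.Lib.MP_640417_ag.Tor.Idl
import Pool.Agent.Lib.MP_640417_ag.Tor.Stab

/-!
# One toric place: square-zero elements of rank one or two
-/

namespace Pool.Agent.Lib.MP_640417_ag.Tor

open Module

section stab

variable {K V : Type} [Field K] [CharZero K] [AddCommGroup V] [Module K V]
  {g : Submodule K (Module.End K V)} {e f : Module.End K V}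

/-- The stabilizer of a subspace. -/
def Two_S (L : Submodule K V) : Submodule K (Module.End K V) where
  carrier := {X | ∀ v ∈ L, X v ∈ L}
  add_mem' := by
    intro X Y hX hY v hv
    rw [LinearMap.add_apply]
    exact add_mem (hX v hv) (hY v hv)
  zero_mem' := by
    intro v _
    rw [LinearMap.zero_apply]
    exact zero_mem _
  smul_mem' := by
    intro c X hX v hv
    rw [LinearMap.smul_apply]
    exact Submodule.smul_mem _ _ (hX v hv)

omit [CharZero K] in
lemma Two_lie {L : Submodule K V} {X Y : Module.End K V} (hX : X ∈ Two_S L) (hY : Y ∈ Two_S L) :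
    X * Y - Y * X ∈ Two_S L := by
  intro v hv
  rw [LinearMap.sub_apply, Module.End.mul_apply, Module.End.mul_apply]
  exact sub_mem (hX _ (hY v hv)) (hY _ (hX v hv))

/-- Stability of one space `Lu` under the elements of nonzero degree. -/
lemma Two_stab (hl : ∀ X ∈ g, ∀ Y ∈ g, X * Y - Y * X ∈ g) (hS : Sl g e f) {u : V}
    (hu : (f * e) u = u)
    (hk : ∀ w ∈ G1 g e f, ∀ x ∈ G1 g e f, ∃ c : K, f (w (x u)) = c • u) :
    e ∈ Two_S (Lu g e f u) ∧ f ∈ Two_S (Lu g e f u) ∧ G1 g e f ≤ Two_S (Lu g e f u) ∧
      G1 g f e ≤ Two_S (Lu g e f u) := by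
  have mk : ∀ (α γ : K) (x : Module.End K V), x ∈ G1 g e f →
      α • u + x u + γ • e u ∈ Lu g e f u := fun α γ x hx => ⟨α, γ, x, hx, rfl⟩
  have ev_fu : f u = 0 := by
    rw [← hu, ← Module.End.mul_apply, hS.fq, LinearMap.zero_apply]
  have ev_fx : ∀ x ∈ G1 g e f, f (x u) = 0 := by
    intro x hx
    rw [← hu, ← Module.End.mul_apply, ← Module.End.mul_apply, G1.fxq hS hx,
      LinearMap.zero_apply]
  have hSe : e ∈ Two_S (Lu g e f u) := by
    rintro _ ⟨α, γ, x, hx, rfl⟩
    rw [map_add, map_add, map_smul, map_smul, ← Module.End.mul_apply e x, G1.ex hS hx,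
      ← Module.End.mul_apply e e, hS.ee, LinearMap.zero_apply, smul_zero, add_zero, add_zero]
    have h1 := mk 0 α 0 (zero_mem _)
    rwa [zero_smul, LinearMap.zero_apply, zero_add, zero_add] at h1
  have hSf : f ∈ Two_S (Lu g e f u) := by
    rintro _ ⟨α, γ, x, hx, rfl⟩
    rw [map_add, map_add, map_smul, map_smul, ev_fu, ev_fx x hx, smul_zero, zero_add,
      zero_add, ← Module.End.mul_apply, hu]
    have h1 := mk γ 0 0 (zero_mem _)
    rwa [zero_smul, LinearMap.zero_apply, add_zero, add_zero] at h1
  have hSx : G1 g e f ≤ Two_S (Lu g e f u) := by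
    rintro w hw _ ⟨α, γ, x, hx, rfl⟩
    obtain ⟨c, hc⟩ := hk w hw x hx
    have h2 : w (x u) = c • e u := by
      rw [← map_smul, ← hc, ← Module.End.mul_apply e f, ← Module.End.mul_apply w x,
        ← Module.End.mul_apply]
      have h4 := G1.xy hS hw hx
      have h5 : (e * f) * (w * x) = w * x := by
        rw [h4]
        have h6 : e * f * (e * f * (w * x) * (f * e)) = (e * f) * (e * f) * (w * x) * (f * e) := by
          noncomm_ring
        rw [h6, hS.pp]
      rw [h5]
    rw [map_add, map_add, map_smul, map_smul, h2, ← Module.End.mul_apply w e, G1.xe hS hw,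
      LinearMap.zero_apply, smul_zero, add_zero]
    have h1 := mk 0 c (α • w) (Submodule.smul_mem _ _ hw)
    rwa [zero_smul, zero_add, LinearMap.smul_apply] at h1
  refine ⟨hSe, hSf, hSx, ?_⟩
  rintro v hv
  have h1 := G1.bracket_f hS hv
  have h2 := bracket_e_mem hl hS hv
  rw [h1]
  exact Two_lie hSf (hSx h2)

end stab

/-- A primitive element of rank two is impossible. -/
lemma Two_main (hGrade : SGrade) (hTop : STop)
    {K V : Type} [Field K] [IsAlgClosed K] [CharZero K] [AddCommGroup V] [Module K V]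
    [FiniteDimensional K V] [Nontrivial V] {ψ : LinearMap.BilinForm K V}
    {g : Submodule K (Module.End K V)} (hg : Dat ψ g) {e f : Module.End K V} (hP : Prm g e)
    (hS : Sl g e f) (hrk : rk e = 2) : False := by
  have hl := hg.lie
  set M : Submodule K V := LinearMap.range (f * e) with hM
  have hMq : ∀ m ∈ M, (f * e) m = m := by
    rintro _ ⟨v, rfl⟩
    rw [← Module.End.mul_apply, hS.qq]
  have hM2 : finrank K M = 2 := by
    rw [← hrk, ← hS.rk_q]
    rfl
  have hsymm : ∀ u v, ψ (e u) v = ψ (e v) u := by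
    intro u v
    rw [hg.sp e hP.mem, hg.anti, neg_neg]
  -- an isotropic vector
  obtain ⟨u, huM, hu0, huu⟩ : ∃ u ∈ M, u ≠ 0 ∧ ψ (e u) u = 0 := by
    let b := Module.finBasisOfFinrankEq K M hM2
    by_cases h1 : ψ (e (b 0 : V)) (b 0 : V) = 0
    · exact ⟨b 0, (b 0).2, fun h => b.ne_zero 0 (Subtype.ext h), h1⟩
    · set A : K := ψ (e (b 0 : V)) (b 0 : V) with hA
      set B : K := ψ (e (b 0 : V)) (b 1 : V) with hB
      set C : K := ψ (e (b 1 : V)) (b 1 : V) with hC
      obtain ⟨s, hs⟩ := IsAlgClosed.exists_eq_mul_self (B * B - A * C)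
      set x : K := (-B + s) / A with hx
      refine ⟨x • (b 0 : V) + (b 1 : V), M.add_mem (M.smul_mem _ (b 0).2) (b 1).2, ?_, ?_⟩
      · intro h0
        have h2 : x • b 0 + (1 : K) • b 1 = 0 := by
          apply Subtype.ext
          rw [one_smul]
          exact h0
        have h3 := (LinearIndependent.pair_iff.mp (by
          have h4 := b.linearIndependent
          have h5 : (b : Fin 2 → M) = ![b 0, b 1] := by
            ext i
            fin_cases i <;> rfl
          rw [h5] at h4
          exact h4) x 1 h2).2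
        exact one_ne_zero h3
      · have hB' : ψ (e (b 1 : V)) (b 0 : V) = B := by rw [hsymm]
        simp only [map_add, map_smul, LinearMap.add_apply, LinearMap.smul_apply, smul_eq_mul]
        rw [← hA, ← hB, ← hC, hB', hx]
        field_simp
        linear_combination -hs
  have hqu : (f * e) u = u := hMq u huM
  have hinsert : ∀ w, ψ (e u) w = ψ (e u) ((f * e) w) := by
    intro w
    conv_lhs => rw [← hS.efe]
    rw [Module.End.mul_apply, Module.End.mul_apply, hg.sp e hP.mem, hg.sp f hS.mf, neg_neg,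
      Module.End.mul_apply]
  have heu : e u ≠ 0 := by
    intro h0
    apply hu0
    rw [← hqu, Module.End.mul_apply, h0, map_zero]
  -- the orthogonal space of `u`
  have horth : ∀ v ∈ M, ψ (e u) v = 0 → ∃ c : K, v = c • u := by
    intro v hv hv0
    let φ : Module.Dual K M := (ψ (e u)).comp M.subtype
    have hφ : φ ≠ 0 := by
      intro h0
      apply heu
      apply hg.nd
      intro w
      rw [hinsert]
      exact LinearMap.congr_fun h0 ⟨(f * e) w, ⟨w, rfl⟩⟩
    have hker : finrank K (LinearMap.ker φ) = 1 := by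
      have h1 := Module.Dual.finrank_ker_add_one_of_ne_zero hφ
      rw [hM2] at h1
      omega
    have hu1 : (⟨⟨u, huM⟩, huu⟩ : LinearMap.ker φ) ≠ 0 := by
      intro h0
      exact hu0 (congrArg (fun z : LinearMap.ker φ => (z.1.1 : V)) h0)
    obtain ⟨c, hc⟩ := (finrank_eq_one_iff_of_nonzero' _ hu1).mp hker ⟨⟨v, hv⟩, hv0⟩
    exact ⟨c, (congrArg (fun z : LinearMap.ker φ => (z.1.1 : V)) hc).symm⟩
  -- elements of degree one
  have hk : ∀ w ∈ G1 g e f, ∀ x ∈ G1 g e f, ∃ c : K, f (w (x u)) = c • u := by
    intro w hw x hx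
    apply horth
    · refine ⟨f (w (x u)), ?_⟩
      rw [← Module.End.mul_apply, hS.fef]
    · obtain ⟨c, hc⟩ := (hTop K V g hl e f hP hS).2.2 w hw x hx
      have h1 : ψ (w (x u)) u = - ψ (x u) (w u) := hg.sp w hw.1 _ _
      have h2 : ψ (x (w u)) u = - ψ (w u) (x u) := hg.sp x hx.1 _ _
      have h3 : ψ (w (x u)) u - ψ (x (w u)) u = 0 := by
        have h4 := congrArg (fun T : Module.End K V => ψ (T u) u) hc
        simp only [LinearMap.sub_apply, Module.End.mul_apply, LinearMap.smul_apply, map_sub,
          map_smul, huu, smul_zero] at h4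
        exact h4
      have h4 : ψ (x u) (w u) = - ψ (w u) (x u) := hg.anti _ _
      have h5 : ψ (w (x u)) u = 0 := by
        have h6 : (2 : K) * ψ (w (x u)) u = 0 := by
          linear_combination h1 + h2 + h3 - h4
        exact (mul_eq_zero.mp h6).resolve_left two_ne_zero
      have h7 : ψ (e u) (f (w (x u))) = - ψ ((f * e) u) (w (x u)) := by
        rw [Module.End.mul_apply, hg.sp f hS.mf, neg_neg]
      rw [h7, hqu, hg.anti, neg_neg, h5]
  obtain ⟨hSe, hSf, hSx, hSw⟩ := Two_stab hl hS hqu hk
  -- stability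
  have hstable : ∀ X ∈ g, ∀ y ∈ Lu g e f u, X y ∈ Lu g e f u := by
    intro X hX
    obtain ⟨-, -, m1, n1, m0⟩ := hGrade K V g hl e f hS X hX
    obtain ⟨c, hc⟩ := (hTop K V g hl e f hP hS).1 X hX
    obtain ⟨d, hd⟩ := (hTop K V g hl e f hP hS).2.1 X hX
    set X₀ : Module.End K V := (e * f) * X * (e * f) +
      (1 - e * f - f * e) * X * (1 - e * f - f * e) + (f * e) * X * (f * e) with hX₀
    have hX₀q : X₀ * (f * e) = (f * e) * X * (f * e) := by
      have h1 : X₀ * (f * e) = (e * f) * X * ((e * f) * (f * e)) +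
        (1 - e * f - f * e) * X * (f * e - (e * f) * (f * e) - (f * e) * (f * e))
        + (f * e) * X * ((f * e) * (f * e)) := by
        rw [hX₀]
        noncomm_ring
      rw [h1, hS.pq, hS.qq]
      noncomm_ring
    have hX₀e : ∃ s : K, X₀ * e - e * X₀ = s • e := by
      obtain ⟨s, hs⟩ := (hTop K V g hl e f hP hS).1 _ (hl X₀ m0 e hS.me)
      refine ⟨s, ?_⟩
      rw [← hs]
      have h1 : X₀ * e - e * X₀ = (e * f) * X * ((e * f) * e)
          + (1 - e * f - f * e) * X * (e - (e * f) * e - (f * e) * e)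
          + (f * e) * X * ((f * e) * e) - (e * (e * f)) * X * (e * f)
          - (e - e * (e * f) - e * (f * e)) * X * (1 - e * f - f * e)
          - (e * (f * e)) * X * (f * e) := by
        rw [hX₀]
        noncomm_ring
      have h2 : X₀ * e - e * X₀ = (e * f) * X * e - e * X * (f * e) := by
        rw [h1, hS.pe, hS.qe, hS.ep, hS.eq]
        noncomm_ring
      rw [h2]
      have h3 : e * f * ((e * f) * X * e - e * X * (f * e)) * (f * e) =
          ((e * f) * (e * f)) * X * (e * (f * e)) - ((e * f) * e) * X * ((f * e) * (f * e)) := by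
        noncomm_ring
      rw [h3, hS.pp, hS.eq, hS.pe, hS.qq]
    obtain ⟨s, hs⟩ := hX₀e
    have hX₀h : (e * f - f * e) * X₀ - X₀ * (e * f - f * e) = (0 : K) • X₀ := by
      have h1 : (e * f - f * e) * X₀ - X₀ * (e * f - f * e) =
          ((e * f) * (e * f)) * X * (e * f) - ((f * e) * (e * f)) * X * (e * f)
          + (((e * f) - (e * f) * (e * f) - (e * f) * (f * e))
            - ((f * e) - (f * e) * (e * f) - (f * e) * (f * e))) * X * (1 - e * f - f * e)
          + ((e * f) * (f * e)) * X * (f * e) - ((f * e) * (f * e)) * X * (f * e)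
          - (e * f) * X * ((e * f) * (e * f)) + (e * f) * X * ((e * f) * (f * e))
          - (1 - e * f - f * e) * X * (((e * f) - (e * f) * (e * f) - (f * e) * (e * f))
            - ((f * e) - (e * f) * (f * e) - (f * e) * (f * e)))
          - (f * e) * X * ((f * e) * (e * f)) + (f * e) * X * ((f * e) * (f * e)) := by
        rw [hX₀]
        noncomm_ring
      rw [h1, hS.pp, hS.qq, hS.pq, hS.qp, zero_smul]
      noncomm_ring
    have hX₀u : ∃ r : K, X₀ u = r • u := by
      apply horth
      · have h1 : X₀ u = (f * e) ((X * (f * e)) u) := by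
          rw [← Module.End.mul_apply, ← mul_assoc, ← hX₀q, Module.End.mul_apply, hqu]
        rw [h1]
        exact ⟨_, rfl⟩
      · have h1 : ψ (e u) (X₀ u) = - ψ (X₀ (e u)) u := by
          rw [hg.sp X₀ m0, neg_neg]
        have h2 : X₀ (e u) = e (X₀ u) + s • e u := by
          have h3 := congrArg (fun T : Module.End K V => T u) hs
          simp only [LinearMap.sub_apply, Module.End.mul_apply, LinearMap.smul_apply] at h3
          rw [← h3]
          abel
        have h3 : ψ (e (X₀ u)) u = ψ (e u) (X₀ u) := hsymm _ _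
        have aux : ∀ a b : V, ψ (a + s • b) u = ψ a u + s * ψ b u := by
          intro a b
          rw [map_add, map_smul, LinearMap.add_apply, LinearMap.smul_apply, smul_eq_mul]
        rw [h2, aux, huu, mul_zero, add_zero, h3] at h1
        have h4 : (2 : K) * ψ (e u) (X₀ u) = 0 := by linear_combination h1
        exact (mul_eq_zero.mp h4).resolve_left two_ne_zero
    obtain ⟨r, hr⟩ := hX₀u
    have hX₀S : X₀ ∈ Two_S (Lu g e f u) := by
      rintro _ ⟨α, γ, x, hx, rfl⟩
      have h1 : X₀ (x u) = (X₀ * x - x * X₀) u + r • x u := by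
        rw [LinearMap.sub_apply, Module.End.mul_apply, Module.End.mul_apply, hr, map_smul]
        abel
      have h2 : X₀ (e u) = r • e u + s • e u := by
        have h3 := congrArg (fun T : Module.End K V => T u) hs
        simp only [LinearMap.sub_apply, Module.End.mul_apply, LinearMap.smul_apply, hr,
          map_smul] at h3
        rw [← h3]
        abel
      have hx1 : X₀ * x - x * X₀ ∈ G1 g e f := by
        refine G1.of_deg (hl X₀ m0 x hx.1) ?_
        rw [deg_bracket hX₀h (G1.deg_one hx), zero_add]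
      refine ⟨α * r, γ * (r + s), (X₀ * x - x * X₀) + r • x,
        add_mem hx1 (Submodule.smul_mem _ _ hx), ?_⟩
      rw [map_add, map_add, map_smul, map_smul, hr, h1, h2, LinearMap.add_apply,
        LinearMap.smul_apply]
      module
    have hsum : X = c • e + d • f
        + ((e * f) * X * (1 - e * f - f * e) + (1 - e * f - f * e) * X * (f * e))
        + ((1 - e * f - f * e) * X * (e * f) + (f * e) * X * (1 - e * f - f * e)) + X₀ := by
      rw [← hc, ← hd, hX₀]
      noncomm_ring
    have hXS : X ∈ Two_S (Lu g e f u) := by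
      rw [hsum]
      exact add_mem (add_mem (add_mem (add_mem (Submodule.smul_mem _ _ hSe)
        (Submodule.smul_mem _ _ hSf)) (hSx m1)) (hSw n1)) hX₀S
    exact hXS
  have huL : u ∈ Lu g e f u := ⟨1, 0, 0, zero_mem _, by
    rw [one_smul, LinearMap.zero_apply, zero_smul, add_zero, add_zero]⟩
  have htop : Lu g e f u = ⊤ := by
    rcases hg.irr (Lu g e f u) hstable with h | h
    · exfalso
      rw [h, Submodule.mem_bot] at huL
      exact hu0 huL
    · exact h
  have hrange : M = Submodule.span K {u} := by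
    apply le_antisymm
    · rintro _ ⟨y, rfl⟩
      have hy : y ∈ Lu g e f u := by rw [htop]; exact Submodule.mem_top
      obtain ⟨α, γ, x, hx, rfl⟩ := hy
      rw [map_add, map_add, map_smul, map_smul, hqu, ← Module.End.mul_apply (f * e) x,
        G1.qx hS hx, ← Module.End.mul_apply (f * e) e, hS.qe, LinearMap.zero_apply, smul_zero,
        add_zero, add_zero]
      exact Submodule.smul_mem _ _ (Submodule.mem_span_singleton_self u)
    · rw [Submodule.span_singleton_le_iff_mem]
      exact huM
  rw [hrange, finrank_span_singleton hu0] at hM2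
  exact absurd hM2 (by norm_num)

/-- A square-zero element of rank one or two gives an element of rank one. -/
theorem pTwo (hSplit : SSplit) (hSl : SSl) (hGrade : SGrade) (hTop : STop) : STwo := by
  intro K V _ _ _ _ _ _ _ ψ g hg N hN hNN hN0 hrk
  have h1 := rk_pos hN0
  by_cases h2 : rk N = 1
  · exact ⟨N, hN, h2⟩
  have h3 : rk N = 2 := by omega
  by_cases hP : Prm g N
  · exfalso
    obtain ⟨f, hS⟩ := hSl K V ψ g hg N hN hNN
    exact Two_main hGrade hTop hg hP hS h3
  · obtain ⟨N₁, hN₁, N₂, -, h10, h20, -, -, -, hsum, -⟩ := hSplit K V ψ g hg N hN hNN hN0 hP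
    have p1 := rk_pos h10
    have p2 := rk_pos h20
    exact ⟨N₁, hN₁, by omega⟩

end Pool.Agent.Lib.MP_640417_ag.Tor
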